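import Mathlib
import Pool.Agent.TH881.RG.Defs
import Pool.Agent.TH881.Asy

set_option autoImplicit false

namespace Pool.Agent.TH370.J1233

open Finset Filter Topology
open Pool.Agent.TH881 Pool.Agent.TH881.RG
open Pool.Agent.H373R2.T7

/-- partial products of the twin prime constant -/
noncomputable def PC (z : ℕ) : ℝ := ∏ p ∈ (Icc 3 z).filter Nat.Prime, (1 - 1 / ((p : ℝ) - 1) ^ 2)

lemma fac_mem {m : ℕ} (hm : 3 ≤ m) : 0 ≤ 1 - 1 / ((m : ℝ) - 1) ^ 2 ∧
    1 - 1 / ((m : ℝ) - 1) ^ 2 ≤ 1 := by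
  have h3 : (3 : ℝ) ≤ m := by exact_mod_cast hm
  have h5 : (2 : ℝ) ≤ m - 1 := by linarith
  have h6 : (1 : ℝ) ≤ ((m : ℝ) - 1) ^ 2 := by nlinarith
  constructor
  · rw [sub_nonneg, div_le_one (by positivity)]
    exact h6
  · have : 0 ≤ 1 / ((m : ℝ) - 1) ^ 2 := by positivity
    linarith

lemma half_le_PC (z : ℕ) : 1 / 2 ≤ PC z := by
  have h1 : ∏ m ∈ Icc 3 z, (1 - 1 / ((m : ℝ) - 1) ^ 2) ≤ PC z := by
    unfold PC
    have hsub : (Icc 3 z).filter Nat.Prime ⊆ Icc 3 z := filter_subset _ _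
    rw [← prod_sdiff hsub]
    have h2 : ∏ m ∈ Icc 3 z \ (Icc 3 z).filter Nat.Prime, (1 - 1 / ((m : ℝ) - 1) ^ 2) ≤ 1 := by
      refine prod_le_one (fun m hm => ?_) (fun m hm => ?_)
      · exact (fac_mem (mem_Icc.1 (mem_sdiff.1 hm).1).1).1
      · exact (fac_mem (mem_Icc.1 (mem_sdiff.1 hm).1).1).2
    have h3 : 0 ≤ ∏ m ∈ (Icc 3 z).filter Nat.Prime, (1 - 1 / ((m : ℝ) - 1) ^ 2) :=
      prod_nonneg fun m hm => (fac_mem (mem_Icc.1 (mem_filter.1 hm).1).1).1
    calc _ ≤ 1 * ∏ m ∈ (Icc 3 z).filter Nat.Prime, (1 - 1 / ((m : ℝ) - 1) ^ 2) :=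
          mul_le_mul_of_nonneg_right h2 h3
      _ = _ := one_mul _
  refine le_trans ?_ h1
  have key : ∀ z : ℕ, 2 ≤ z → ∏ m ∈ Icc 3 z, (1 - 1 / ((m : ℝ) - 1) ^ 2) =
      1 / 2 * ((z : ℝ) / ((z : ℝ) - 1)) := by
    intro z hz
    induction z, hz using Nat.le_induction with
    | base => norm_num
    | succ z hz ih =>
      rw [← insert_Icc_right_eq_Icc_add_one (by omega), prod_insert (by simp), ih]
      have h3 : (2 : ℝ) ≤ z := by exact_mod_cast hz
      have h4 : (0 : ℝ) < z - 1 := by linarith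
      have h5 : (0 : ℝ) < z := by linarith
      push_cast
      have e : (z : ℝ) + 1 - 1 = z := by ring
      rw [e]
      field_simp
      ring
  rcases Nat.lt_or_ge z 2 with h | h
  · have : Icc 3 z = ∅ := by
      rw [Icc_eq_empty]; omega
    rw [this, prod_empty]
    norm_num
  · rw [key z h]
    have h3 : (2 : ℝ) ≤ z := by exact_mod_cast h
    have h4 : (0 : ℝ) < z - 1 := by linarith
    have h5 : 1 ≤ (z : ℝ) / (z - 1) := by
      rw [le_div_iff₀ h4]; linarith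
    linarith

lemma C2_ge : 1 / 2 ≤ C2 := le_ciInf half_le_PC

lemma C2_le (z : ℕ) : C2 ≤ PC z := by
  refine ciInf_le ⟨1 / 2, ?_⟩ z
  rintro _ ⟨y, rfl⟩
  exact half_le_PC y

/-- the ratio `(p-1)/(p-2)` -/
noncomputable def xr (p : ℕ) : ℝ := ((p : ℝ) - 1) / ((p : ℝ) - 2)

lemma one_le_xr {p : ℕ} (hp : 3 ≤ p) : 1 ≤ xr p := by
  have h3 : (3 : ℝ) ≤ p := by exact_mod_cast hp
  unfold xr
  rw [le_div_iff₀ (by linarith)]
  linarith

/-- the product of the ratios up to `k` -/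
lemma prod_xr (k : ℕ) (hk : 2 ≤ k) :
    ∏ p ∈ (Icc 3 k).filter Nat.Prime, xr p ≤ 1 / (2 * C2) * Gam 1 k := by
  have hC := C2_ge
  have hC0 : 0 < C2 := by linarith
  have hP := C2_le k
  have hP0 : 0 < PC k := lt_of_lt_of_le hC0 hP
  have h2mem : 2 ∈ pz k := by
    unfold pz
    rw [mem_filter, mem_Icc]
    exact ⟨⟨by norm_num, hk⟩, Nat.prime_two⟩
  have herase : (pz k).erase 2 = (Icc 3 k).filter Nat.Prime := by
    ext p
    unfold pz
    rw [mem_erase, mem_filter, mem_filter, mem_Icc, mem_Icc]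
    constructor
    · rintro ⟨h1, ⟨h2, h3⟩, h4⟩
      have := h4.two_le
      exact ⟨⟨by omega, h3⟩, h4⟩
    · rintro ⟨⟨h1, h2⟩, h3⟩
      exact ⟨by omega, ⟨by omega, h2⟩, h3⟩
  have hG : Gam 1 k = 2 * ∏ p ∈ (Icc 3 k).filter Nat.Prime, (1 - 1 / (p : ℝ))⁻¹ := by
    unfold Gam
    rw [pT_one, ← mul_prod_erase _ _ h2mem, herase]
    congr 1
    norm_num
  have hx : (∏ p ∈ (Icc 3 k).filter Nat.Prime, xr p) * PC k =
      ∏ p ∈ (Icc 3 k).filter Nat.Prime, (1 - 1 / (p : ℝ))⁻¹ := by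
    unfold PC
    rw [← prod_mul_distrib]
    refine prod_congr rfl fun p hp => ?_
    rw [mem_filter, mem_Icc] at hp
    have h3 : (3 : ℝ) ≤ p := by exact_mod_cast hp.1.1
    have h4 : (0 : ℝ) < p - 2 := by linarith
    have h5 : (0 : ℝ) < p - 1 := by linarith
    have h6 : (0 : ℝ) < p := by linarith
    unfold xr
    have e : 1 - 1 / (p : ℝ) = (p - 1) / p := by field_simp
    rw [e, inv_div]
    field_simp
    ring
  have hx2 : ∏ p ∈ (Icc 3 k).filter Nat.Prime, xr p =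
      1 / PC k * (∏ p ∈ (Icc 3 k).filter Nat.Prime, (1 - 1 / (p : ℝ))⁻¹) := by
    rw [← hx]
    field_simp
  have hprod0 : 0 ≤ ∏ p ∈ (Icc 3 k).filter Nat.Prime, (1 - 1 / (p : ℝ))⁻¹ := by
    refine prod_nonneg fun p hp => ?_
    rw [mem_filter, mem_Icc] at hp
    have h3 : (3 : ℝ) ≤ p := by exact_mod_cast hp.1.1
    rw [inv_nonneg, sub_nonneg, div_le_one (by linarith)]
    linarith
  rw [hx2, hG]
  calc 1 / PC k * (∏ p ∈ (Icc 3 k).filter Nat.Prime, (1 - 1 / (p : ℝ))⁻¹)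
      ≤ 1 / C2 * (∏ p ∈ (Icc 3 k).filter Nat.Prime, (1 - 1 / (p : ℝ))⁻¹) := by
        gcongr
    _ = _ := by
        field_simp

/-- the factor of `MM` -/
noncomputable def fc (K k p : ℕ) : ℝ :=
  1 + ((K : ℝ) / ((p : ℝ) - 1)) * ((((p : ℝ) - 1) / ((p : ℝ) - 2)) ^ k - 1)

lemma fc_eq (K k p : ℕ) : fc K k p = 1 + ((K : ℝ) / ((p : ℝ) - 1)) * (xr p ^ k - 1) := rfl

lemma one_le_fc {K k p : ℕ} (hp : 3 ≤ p) : 1 ≤ fc K k p := by
  have h3 : (3 : ℝ) ≤ p := by exact_mod_cast hp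
  rw [fc_eq]
  have h1 : 1 ≤ xr p ^ k := one_le_pow₀ (one_le_xr hp)
  have h2 : 0 ≤ (K : ℝ) / ((p : ℝ) - 1) := by
    have : (0 : ℝ) < p - 1 := by linarith
    positivity
  nlinarith

/-- large primes -/
lemma fc_large {K k p : ℕ} (hp : 3 ≤ p) (hkp : k < p) :
    fc K k p ≤ Real.exp (8 * K * k * (1 / ((p : ℝ) - 2) - 1 / ((p : ℝ) - 1))) := by
  have h3 : (3 : ℝ) ≤ p := by exact_mod_cast hp
  have h4 : (0 : ℝ) < p - 2 := by linarith
  have h5 : (0 : ℝ) < p - 1 := by linarith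
  have hk : (k : ℝ) ≤ p - 1 := by
    have : (k : ℝ) + 1 ≤ p := by exact_mod_cast hkp
    linarith
  have hx : xr p = 1 + 1 / ((p : ℝ) - 2) := by
    unfold xr
    field_simp
    ring
  set y : ℝ := k / ((p : ℝ) - 2) with hy
  have hy0 : 0 ≤ y := by positivity
  have hy2 : y ≤ 2 := by
    rw [hy, div_le_iff₀ h4]
    linarith
  have h6 : xr p ^ k ≤ Real.exp y := by
    have h7 : xr p ≤ Real.exp (1 / ((p : ℝ) - 2)) := by
      rw [hx]
      have := Real.add_one_le_exp (1 / ((p : ℝ) - 2))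
      linarith
    calc xr p ^ k ≤ Real.exp (1 / ((p : ℝ) - 2)) ^ k :=
          pow_le_pow_left₀ (by linarith [one_le_xr hp]) h7 k
      _ = Real.exp y := by
          rw [← Real.exp_nat_mul]
          congr 1
          rw [hy]; ring
  have h7 : Real.exp y - 1 ≤ 8 * y := by
    have h8 : Real.exp y - 1 ≤ y * Real.exp y := by
      have h9 := Real.add_one_le_exp (-y)
      have h10 : Real.exp y * Real.exp (-y) = 1 := by rw [← Real.exp_add]; simp
      nlinarith [Real.exp_pos y]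
    have h11 : Real.exp y ≤ 8 := by
      calc Real.exp y ≤ Real.exp 2 := Real.exp_le_exp.2 hy2
        _ = Real.exp 1 * Real.exp 1 := by rw [← Real.exp_add]; norm_num
        _ ≤ 2.72 * 2.72 := by
          have := Real.exp_one_lt_d9
          have h0 := Real.exp_pos 1
          gcongr <;> linarith
        _ ≤ 8 := by norm_num
    nlinarith
  have h8 : fc K k p ≤ 1 + 8 * K * k * (1 / ((p : ℝ) - 2) - 1 / ((p : ℝ) - 1)) := by
    rw [fc_eq]
    have e1 : 8 * (K : ℝ) * k * (1 / ((p : ℝ) - 2) - 1 / ((p : ℝ) - 1)) =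
        ((K : ℝ) / ((p : ℝ) - 1)) * (8 * y) := by
      rw [hy]
      field_simp
      ring
    rw [e1]
    have h9 : 0 ≤ (K : ℝ) / ((p : ℝ) - 1) := by positivity
    have h10 : xr p ^ k - 1 ≤ 8 * y := by linarith
    gcongr
  refine h8.trans ?_
  have := Real.add_one_le_exp (8 * (K : ℝ) * k * (1 / ((p : ℝ) - 2) - 1 / ((p : ℝ) - 1)))
  linarith

/-- small primes -/
lemma fc_small {K k p : ℕ} (hp : 3 ≤ p) :
    fc K k p ≤ (if p ≤ K then ((K : ℝ) + 1) else 1) * xr p ^ k := by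
  have h3 : (3 : ℝ) ≤ p := by exact_mod_cast hp
  have h5 : (2 : ℝ) ≤ p - 1 := by linarith
  have h1 : 1 ≤ xr p ^ k := one_le_pow₀ (one_le_xr hp)
  have hK0 : (0 : ℝ) ≤ K := Nat.cast_nonneg K
  rw [fc_eq]
  split_ifs with h
  · have h6 : (K : ℝ) / ((p : ℝ) - 1) ≤ K + 1 := by
      rw [div_le_iff₀ (by linarith)]
      nlinarith
    have h7 : ((K : ℝ) / ((p : ℝ) - 1)) * (xr p ^ k - 1) ≤ (K + 1) * (xr p ^ k - 1) :=
      mul_le_mul_of_nonneg_right h6 (by linarith)
    linarith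
  · have h6 : (K : ℝ) / ((p : ℝ) - 1) ≤ 1 := by
      rw [div_le_one (by linarith)]
      have : (K : ℝ) + 1 ≤ p := by exact_mod_cast (by omega : K + 1 ≤ p)
      linarith
    have h7 : ((K : ℝ) / ((p : ℝ) - 1)) * (xr p ^ k - 1) ≤ 1 * (xr p ^ k - 1) :=
      mul_le_mul_of_nonneg_right h6 (by linarith)
    linarith

/-- telescoping sum -/
lemma tele (k : ℕ) (hk : 2 ≤ k) (w : ℕ) :
    ∑ m ∈ Icc (k + 1) w, (1 / ((m : ℝ) - 2) - 1 / ((m : ℝ) - 1)) ≤ 1 / ((k : ℝ) - 1) := by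
  have hk2 : (2 : ℝ) ≤ k := by exact_mod_cast hk
  have key : ∀ w : ℕ, k ≤ w → ∑ m ∈ Icc (k + 1) w, (1 / ((m : ℝ) - 2) - 1 / ((m : ℝ) - 1)) =
      1 / ((k : ℝ) - 1) - 1 / ((w : ℝ) - 1) := by
    intro w hw
    induction w, hw using Nat.le_induction with
    | base => simp
    | succ w hw ih =>
      rw [← insert_Icc_right_eq_Icc_add_one (by omega), sum_insert (by simp), ih]
      push_cast
      have e1 : (w : ℝ) + 1 - 2 = w - 1 := by ring
      have e2 : (w : ℝ) + 1 - 1 = w := by ring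
      rw [e1, e2]
      ring
  rcases Nat.lt_or_ge w k with h | h
  · have : Icc (k + 1) w = ∅ := by
      rw [Icc_eq_empty]; omega
    rw [this, sum_empty]
    have : 0 < (k : ℝ) - 1 := by linarith
    positivity
  · rw [key w h]
    have h2 : (k : ℝ) ≤ w := by exact_mod_cast h
    have : 0 < (w : ℝ) - 1 := by linarith
    have : 0 ≤ 1 / ((w : ℝ) - 1) := by positivity
    linarith

/-- the bound for `MM` -/
lemma MM_le (K k w : ℕ) (hk : 2 ≤ k) : MM K k w ≤
    (Real.exp (16 * K) * ((K : ℝ) + 1) ^ K) * (∏ p ∈ (Icc 3 k).filter Nat.Prime, xr p) ^ k := by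
  classical
  have hk2 : (2 : ℝ) ≤ k := by exact_mod_cast hk
  set S := (pz w).filter (fun p => 2 < p) with hS
  have hSm : ∀ p ∈ S, 3 ≤ p ∧ p ≤ w ∧ p.Prime := by
    intro p hp
    rw [hS, mem_filter] at hp
    unfold pz at hp
    rw [mem_filter, mem_Icc] at hp
    exact ⟨hp.2, hp.1.1.2, hp.1.2⟩
  have h0 : MM K k w = ∏ p ∈ S, fc K k p := rfl
  rw [h0, ← prod_filter_mul_prod_filter_not S (fun p => p ≤ k)]
  -- large primes
  have hlarge : ∏ p ∈ S.filter (fun p => ¬ p ≤ k), fc K k p ≤ Real.exp (16 * K) := by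
    have h1 : ∏ p ∈ S.filter (fun p => ¬ p ≤ k), fc K k p ≤
        ∏ p ∈ S.filter (fun p => ¬ p ≤ k),
          Real.exp (8 * K * k * (1 / ((p : ℝ) - 2) - 1 / ((p : ℝ) - 1))) := by
      refine prod_le_prod (fun p hp => ?_) (fun p hp => ?_)
      · rw [mem_filter] at hp
        linarith [one_le_fc (K := K) (k := k) (hSm p hp.1).1]
      · rw [mem_filter] at hp
        exact fc_large (hSm p hp.1).1 (by omega)
    refine h1.trans ?_
    rw [← Real.exp_sum, Real.exp_le_exp, ← mul_sum]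
    have h2 : ∑ p ∈ S.filter (fun p => ¬ p ≤ k), (1 / ((p : ℝ) - 2) - 1 / ((p : ℝ) - 1)) ≤
        ∑ m ∈ Icc (k + 1) w, (1 / ((m : ℝ) - 2) - 1 / ((m : ℝ) - 1)) := by
      refine sum_le_sum_of_subset_of_nonneg ?_ ?_
      · intro p hp
        rw [mem_filter] at hp
        have := (hSm p hp.1).2.1
        rw [mem_Icc]
        omega
      · intro m hm _
        rw [mem_Icc] at hm
        have h3 : (k : ℝ) + 1 ≤ m := by exact_mod_cast hm.1
        have h4 : (0 : ℝ) < m - 2 := by linarith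
        have h5 : (0 : ℝ) < m - 1 := by linarith
        rw [sub_nonneg]
        exact one_div_le_one_div_of_le h4 (by linarith)
    have h3 := h2.trans (tele k hk w)
    have hK0 : (0 : ℝ) ≤ K := Nat.cast_nonneg K
    calc 8 * (K : ℝ) * k * ∑ p ∈ S.filter (fun p => ¬ p ≤ k), (1 / ((p : ℝ) - 2) - 1 / ((p : ℝ) - 1))
        ≤ 8 * K * k * (1 / ((k : ℝ) - 1)) := by gcongr
      _ = 8 * K * (k / ((k : ℝ) - 1)) := by ring
      _ ≤ 8 * K * 2 := by
          gcongr
          rw [div_le_iff₀ (by linarith)]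
          linarith
      _ = _ := by ring
  -- small primes
  have hsmall : ∏ p ∈ S.filter (fun p => p ≤ k), fc K k p ≤
      ((K : ℝ) + 1) ^ K * (∏ p ∈ (Icc 3 k).filter Nat.Prime, xr p) ^ k := by
    have h1 : ∏ p ∈ S.filter (fun p => p ≤ k), fc K k p ≤
        ∏ p ∈ S.filter (fun p => p ≤ k), ((if p ≤ K then ((K : ℝ) + 1) else 1) * xr p ^ k) := by
      refine prod_le_prod (fun p hp => ?_) (fun p hp => ?_)
      · rw [mem_filter] at hp
        linarith [one_le_fc (K := K) (k := k) (hSm p hp.1).1]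
      · rw [mem_filter] at hp
        exact fc_small (hSm p hp.1).1
    refine h1.trans ?_
    rw [prod_mul_distrib, prod_pow]
    have hK0 : (0 : ℝ) ≤ K := Nat.cast_nonneg K
    have h2 : ∏ p ∈ S.filter (fun p => p ≤ k), (if p ≤ K then ((K : ℝ) + 1) else 1) ≤
        ((K : ℝ) + 1) ^ K := by
      rw [prod_ite, prod_const_one, mul_one, prod_const]
      refine pow_le_pow_right₀ (by linarith) ?_
      have h3 : (S.filter (fun p => p ≤ k)).filter (fun p => p ≤ K) ⊆ Icc 1 K := by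
        intro p hp
        rw [mem_filter, mem_filter] at hp
        have := (hSm p hp.1.1).1
        rw [mem_Icc]
        omega
      calc ((S.filter (fun p => p ≤ k)).filter (fun p => p ≤ K)).card ≤ (Icc 1 K).card :=
            card_le_card h3
        _ = K := by rw [Nat.card_Icc, Nat.add_sub_cancel]
    have h3 : ∏ p ∈ S.filter (fun p => p ≤ k), xr p ≤ ∏ p ∈ (Icc 3 k).filter Nat.Prime, xr p := by
      refine prod_le_prod_of_subset_of_one_le ?_ ?_ ?_
      · intro p hp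
        rw [mem_filter] at hp
        obtain ⟨a1, a2, a3⟩ := hSm p hp.1
        rw [mem_filter, mem_Icc]
        exact ⟨⟨a1, hp.2⟩, a3⟩
      · intro p hp
        rw [mem_filter] at hp
        linarith [one_le_xr (hSm p hp.1).1]
      · intro p hp _
        rw [mem_filter, mem_Icc] at hp
        exact one_le_xr hp.1.1
    have h4 : 0 ≤ ∏ p ∈ S.filter (fun p => p ≤ k), xr p := by
      refine prod_nonneg fun p hp => ?_
      rw [mem_filter] at hp
      linarith [one_le_xr (hSm p hp.1).1]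
    gcongr
  have h5 : 0 ≤ ∏ p ∈ S.filter (fun p => ¬ p ≤ k), fc K k p := by
    refine prod_nonneg fun p hp => ?_
    rw [mem_filter] at hp
    linarith [one_le_fc (K := K) (k := k) (hSm p hp.1).1]
  have h6 : 0 ≤ ((K : ℝ) + 1) ^ K * (∏ p ∈ (Icc 3 k).filter Nat.Prime, xr p) ^ k := by
    have : 0 ≤ ∏ p ∈ (Icc 3 k).filter Nat.Prime, xr p := by
      refine prod_nonneg fun p hp => ?_
      rw [mem_filter, mem_Icc] at hp
      linarith [one_le_xr hp.1.1]
    positivity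
  calc (∏ p ∈ S.filter (fun p => p ≤ k), fc K k p) * ∏ p ∈ S.filter (fun p => ¬ p ≤ k), fc K k p
      ≤ (((K : ℝ) + 1) ^ K * (∏ p ∈ (Icc 3 k).filter Nat.Prime, xr p) ^ k) * Real.exp (16 * K) :=
        mul_le_mul hsmall hlarge h5 h6
    _ = _ := by ring

theorem MM_bound (K : ℕ) (δ : ℝ) (hδ : 0 < δ) : ∃ k0 : ℕ, ∀ k : ℕ, k0 ≤ k → ∀ w : ℕ,
    MM K k w ^ (1 / (k : ℝ)) ≤
      (1 + δ) * (Real.exp Real.eulerMascheroniConstant / (2 * C2)) * Real.log k := by
  set η : ℝ := min 1 (δ / 3) with hη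
  have hη0 : 0 < η := lt_min one_pos (by positivity)
  have hη1 : η ≤ 1 := min_le_left _ _
  have hηδ : η ≤ δ / 3 := min_le_right _ _
  have hη2 : (1 + η) ^ 2 ≤ 1 + δ := by nlinarith
  have hC := C2_ge
  have hC0 : 0 < C2 := by linarith
  set eg := Real.exp Real.eulerMascheroniConstant with heg
  have heg0 : 0 < eg := Real.exp_pos _
  set A : ℝ := Real.exp (16 * K) * ((K : ℝ) + 1) ^ K with hA
  have hA0 : 0 < A := by positivity
  -- the root of the constant
  have h1 : ∀ᶠ k : ℕ in atTop, A ^ (1 / (k : ℝ)) < 1 + η := by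
    have h2 : Tendsto (fun k : ℕ => A ^ (1 / (k : ℝ))) atTop (𝓝 1) := by
      have h3 : Tendsto (fun k : ℕ => (1 / (k : ℝ))) atTop (𝓝 0) := tendsto_one_div_atTop_nhds_zero_nat
      have h4 := (Real.continuousAt_const_rpow hA0.ne' (b := 0)).tendsto.comp h3
      simpa [Real.rpow_zero, Function.comp_def] using h4
    exact h2.eventually (gt_mem_nhds (by linarith))
  have h2 : ∀ᶠ k : ℕ in atTop, Gam 1 k / Real.log k < (1 + η) * eg := by
    refine mert.eventually (gt_mem_nhds ?_)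
    nlinarith
  obtain ⟨k1, hk1⟩ := eventually_atTop.1 (h1.and h2)
  refine ⟨max k1 3, fun k hk w => ?_⟩
  have hk3 : 3 ≤ k := le_trans (le_max_right _ _) hk
  obtain ⟨h3, h4⟩ := hk1 k (le_trans (le_max_left _ _) hk)
  have hkR : (3 : ℝ) ≤ k := by exact_mod_cast hk3
  have hlog : 0 < Real.log k := Real.log_pos (by linarith)
  rw [div_lt_iff₀ hlog] at h4
  set X := ∏ p ∈ (Icc 3 k).filter Nat.Prime, xr p with hX
  have hX0 : 0 ≤ X := by
    refine prod_nonneg fun p hp => ?_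
    rw [mem_filter, mem_Icc] at hp
    linarith [one_le_xr hp.1.1]
  have hM0 : 0 ≤ MM K k w := by
    refine prod_nonneg fun p hp => ?_
    rw [mem_filter] at hp
    have := one_le_fc (K := K) (k := k) (p := p) hp.2
    unfold fc at this
    linarith
  have hXle : X ≤ 1 / (2 * C2) * Gam 1 k := prod_xr k (by omega)
  calc MM K k w ^ (1 / (k : ℝ)) ≤ (A * X ^ k) ^ (1 / (k : ℝ)) :=
        Real.rpow_le_rpow hM0 (MM_le K k w (by omega)) (by positivity)
    _ = A ^ (1 / (k : ℝ)) * X := by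
        rw [Real.mul_rpow hA0.le (by positivity), ← Real.rpow_natCast X k, ← Real.rpow_mul hX0]
        have : (k : ℝ) * (1 / (k : ℝ)) = 1 := by field_simp
        rw [this, Real.rpow_one]
    _ ≤ (1 + η) * (1 / (2 * C2) * ((1 + η) * eg * Real.log k)) := by
        gcongr
        exact hXle.trans (by gcongr)
    _ = (1 + η) ^ 2 * (eg / (2 * C2)) * Real.log k := by ring
    _ ≤ (1 + δ) * (eg / (2 * C2)) * Real.log k := by gcongr

end Pool.Agent.TH370.J1233
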