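import Mathlib
import Pool.Agent.TH881.RG.Defs

set_option autoImplicit false

namespace Pool.Agent.TH370.J1234

open Finset
open Pool.Agent.TH881 Pool.Agent.TH881.RG
open Pool.Agent.H373R2.T7

/-- number of representations of `t` as a sum of two units -/
noncomputable def U (R : Type) [CommRing R] (t : R) : ℕ :=
  Nat.card {a : R // IsUnit a ∧ IsUnit (t - a)}

/-- the sum of the inverses -/
noncomputable def SS (R : Type) [CommRing R] : ℝ := ∑ᶠ t : R, ((U R t : ℕ) : ℝ)⁻¹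

lemma U_congr {R S : Type} [CommRing R] [CommRing S] (e : R ≃+* S) (t : R) :
    U S (e t) = U R t := by
  unfold U
  refine (Nat.card_congr ?_).symm
  refine e.toEquiv.subtypeEquiv fun a => ?_
  have h1 : IsUnit (e a) ↔ IsUnit a := MulEquiv.isUnit_map e
  have h2 : IsUnit (e (t - a)) ↔ IsUnit (t - a) := MulEquiv.isUnit_map e
  show _ ↔ IsUnit (e a) ∧ IsUnit (e t - e a)
  rw [← map_sub, h1, h2]

lemma SS_congr {R S : Type} [CommRing R] [CommRing S] (e : R ≃+* S) : SS R = SS S := by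
  unfold SS
  rw [← finsum_comp_equiv e.toEquiv]
  refine finsum_congr fun t => ?_
  show _ = ((U S (e t) : ℕ) : ℝ)⁻¹
  rw [U_congr]

lemma U_prod {R S : Type} [CommRing R] [CommRing S] (t : R × S) :
    U (R × S) t = U R t.1 * U S t.2 := by
  unfold U
  rw [← Nat.card_prod]
  refine Nat.card_congr ?_
  refine ⟨fun a => (⟨a.1.1, ?_⟩, ⟨a.1.2, ?_⟩), fun b => ⟨(b.1.1, b.2.1), ?_⟩, ?_, ?_⟩
  · have h := a.2
    rw [Prod.isUnit_iff, Prod.isUnit_iff] at h
    exact ⟨h.1.1, h.2.1⟩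
  · have h := a.2
    rw [Prod.isUnit_iff, Prod.isUnit_iff] at h
    exact ⟨h.1.2, h.2.2⟩
  · rw [Prod.isUnit_iff, Prod.isUnit_iff]
    exact ⟨⟨b.1.2.1, b.2.2.1⟩, ⟨b.1.2.2, b.2.2.2⟩⟩
  · intro a; rfl
  · intro b; rfl

lemma SS_prod {R S : Type} [CommRing R] [CommRing S] [Fintype R] [Fintype S] :
    SS (R × S) = SS R * SS S := by
  unfold SS
  rw [finsum_eq_sum_of_fintype, finsum_eq_sum_of_fintype, finsum_eq_sum_of_fintype,
    Fintype.sum_prod_type, Finset.sum_mul_sum]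
  refine sum_congr rfl fun x _ => sum_congr rfl fun y _ => ?_
  rw [U_prod]
  push_cast
  rw [mul_inv]

/-- the normalised sum -/
noncomputable def F (n : ℕ) : ℝ := (Nat.totient n : ℝ) ^ 2 * SS (ZMod n) / (n : ℝ) ^ 2

lemma SS_mul {m n : ℕ} (hm : m ≠ 0) (hn : n ≠ 0) (h : m.Coprime n) :
    SS (ZMod (m * n)) = SS (ZMod m) * SS (ZMod n) := by
  have : NeZero m := ⟨hm⟩
  have : NeZero n := ⟨hn⟩
  rw [SS_congr (ZMod.chineseRemainder h), SS_prod]

lemma F_mul {m n : ℕ} (hm : m ≠ 0) (hn : n ≠ 0) (h : m.Coprime n) : F (m * n) = F m * F n := by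
  unfold F
  rw [SS_mul hm hn h, Nat.totient_mul h]
  push_cast
  have h1 : (m : ℝ) ≠ 0 := by exact_mod_cast hm
  have h2 : (n : ℝ) ≠ 0 := by exact_mod_cast hn
  field_simp

lemma U_one : ∀ t : ZMod 1, U (ZMod 1) t = 1 := by
  intro t
  unfold U
  have : Subsingleton (ZMod 1) := inferInstance
  rw [Nat.card_eq_one_iff_unique]
  refine ⟨inferInstance, ⟨⟨0, ?_, ?_⟩⟩⟩
  · exact isUnit_of_subsingleton _
  · exact isUnit_of_subsingleton _

lemma F_one : F 1 = 1 := by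
  unfold F SS
  rw [finsum_eq_sum_of_fintype]
  simp [U_one]

lemma U_prime {p : ℕ} (hp : p.Prime) (t : ZMod p) :
    U (ZMod p) t = if t = 0 then p - 1 else p - 2 := by
  classical
  have : Fact p.Prime := ⟨hp⟩
  unfold U
  have e1 : Nat.card {a : ZMod p // IsUnit a ∧ IsUnit (t - a)} =
      (univ.filter (fun a : ZMod p => IsUnit a ∧ IsUnit (t - a))).card := by
    rw [Nat.card_eq_fintype_card, Fintype.card_subtype]
  have e2 : univ.filter (fun a : ZMod p => IsUnit a ∧ IsUnit (t - a)) = univ \ {0, t} := by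
    ext a
    simp only [mem_filter, mem_univ, true_and, mem_sdiff, mem_insert, mem_singleton, not_or,
      isUnit_iff_ne_zero, sub_ne_zero]
    constructor
    · rintro ⟨h1, h2⟩; exact ⟨h1, fun h => h2 h.symm⟩
    · rintro ⟨h1, h2⟩; exact ⟨h1, fun h => h2 h.symm⟩
  rw [e1, e2, card_sdiff_of_subset (subset_univ _), card_univ, ZMod.card]
  split_ifs with h
  · rw [h]; simp
  · rw [card_pair (fun h' => h h'.symm)]

lemma F_prime {p : ℕ} (hp : p.Prime) : F p ≤ (if p = 2 then 1 / 4 else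
    1 + 1 / ((p : ℝ) ^ 2 * ((p : ℝ) - 2))) := by
  classical
  have : Fact p.Prime := ⟨hp⟩
  have hp2 := hp.two_le
  unfold F SS
  rw [finsum_eq_sum_of_fintype]
  have e1 : ∑ t : ZMod p, ((U (ZMod p) t : ℕ) : ℝ)⁻¹ =
      (((p - 1 : ℕ) : ℝ))⁻¹ + ((p - 1 : ℕ) : ℝ) * (((p - 2 : ℕ) : ℝ))⁻¹ := by
    rw [← Finset.add_sum_erase univ _ (mem_univ (0 : ZMod p))]
    congr 1
    · rw [U_prime hp, if_pos rfl]
    · have h1 : ∀ t ∈ univ.erase (0 : ZMod p), ((U (ZMod p) t : ℕ) : ℝ)⁻¹ =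
          (((p - 2 : ℕ) : ℝ))⁻¹ := by
        intro t ht
        rw [U_prime hp, if_neg (ne_of_mem_erase ht)]
      rw [sum_congr rfl h1, sum_const, card_erase_of_mem (mem_univ _), card_univ, ZMod.card,
        nsmul_eq_mul]
  rw [e1, Nat.totient_prime hp]
  split_ifs with h
  · subst h
    norm_num
  · have hp3 : 3 ≤ p := by omega
    have c1 : ((p - 1 : ℕ) : ℝ) = p - 1 := by
      rw [Nat.cast_sub (by omega)]; norm_num
    have c2 : ((p - 2 : ℕ) : ℝ) = p - 2 := by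
      rw [Nat.cast_sub (by omega)]; norm_num
    rw [c1, c2]
    have h3 : (3 : ℝ) ≤ p := by exact_mod_cast hp3
    have h4 : (0 : ℝ) < p - 2 := by linarith
    have h5 : (0 : ℝ) < p - 1 := by linarith
    have h6 : (0 : ℝ) < p := by linarith
    apply le_of_eq
    field_simp
    ring

lemma F_nonneg (n : ℕ) : 0 ≤ F n := by
  unfold F SS
  have : 0 ≤ ∑ᶠ t : ZMod n, ((U (ZMod n) t : ℕ) : ℝ)⁻¹ :=
    finsum_nonneg fun t => by positivity
  positivity

lemma F_finset (s : Finset ℕ) (hs : ∀ p ∈ s, p.Prime) : F (∏ p ∈ s, p) = ∏ p ∈ s, F p := by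
  classical
  induction s using Finset.induction_on with
  | empty => simp [F_one]
  | insert p s hp ih =>
    have h1 : ∀ q ∈ s, q.Prime := fun q hq => hs q (mem_insert_of_mem hq)
    have hpp := hs p (mem_insert_self p s)
    rw [prod_insert hp, prod_insert hp, F_mul hpp.ne_zero, ih h1]
    · exact prod_ne_zero_iff.2 fun q hq => (h1 q hq).ne_zero
    · refine Nat.Coprime.prod_right fun q hq => ?_
      rw [Nat.coprime_primes hpp (h1 q hq)]
      rintro rfl
      exact hp hq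

/-- telescoping bound -/
lemma prod_bound (w : ℕ) : ∏ m ∈ Icc 3 w, (1 + 1 / ((m : ℝ) * (m - 1))) ≤ Real.exp (1 / 2) := by
  have h1 : ∀ m ∈ Icc 3 w, 1 + 1 / ((m : ℝ) * (m - 1)) ≤ Real.exp (1 / ((m : ℝ) * (m - 1))) := by
    intro m _
    have := Real.add_one_le_exp (1 / ((m : ℝ) * (m - 1)))
    linarith
  have h0 : ∀ m ∈ Icc 3 w, (0 : ℝ) ≤ 1 + 1 / ((m : ℝ) * (m - 1)) := by
    intro m hm
    rw [mem_Icc] at hm
    have : (3 : ℝ) ≤ m := by exact_mod_cast hm.1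
    have : 0 < (m : ℝ) - 1 := by linarith
    positivity
  refine (prod_le_prod h0 h1).trans ?_
  rw [← Real.exp_sum, Real.exp_le_exp]
  have key : ∀ w : ℕ, 2 ≤ w → ∑ m ∈ Icc 3 w, 1 / ((m : ℝ) * (m - 1)) = 1 / 2 - 1 / w := by
    intro w hw
    induction w, hw using Nat.le_induction with
    | base => norm_num
    | succ w hw ih =>
      rw [← insert_Icc_right_eq_Icc_add_one (by omega), sum_insert (by simp), ih]
      have : (2 : ℝ) ≤ w := by exact_mod_cast hw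
      have h2 : (0 : ℝ) < w := by linarith
      push_cast
      have e : ((w : ℝ) + 1) * ((w : ℝ) + 1 - 1) = (w + 1) * w := by ring
      rw [e]
      field_simp
      ring
  rcases Nat.lt_or_ge w 2 with h | h
  · have : Icc 3 w = ∅ := by
      rw [Icc_eq_empty]; omega
    rw [this, sum_empty]
    norm_num
  · rw [key w h]
    have : (0 : ℝ) ≤ 1 / w := by positivity
    linarith

lemma F_Wp (w : ℕ) (hw : 2 ≤ w) : F (Wp w) ≤ 1 := by
  classical
  have hpz : ∀ p ∈ pz w, p.Prime := fun p hp => (mem_filter.1 hp).2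
  have h1 : F (Wp w) = ∏ p ∈ pz w, F p := F_finset _ hpz
  rw [h1]
  have h2mem : 2 ∈ pz w := by
    unfold pz
    rw [mem_filter, mem_Icc]
    exact ⟨⟨by norm_num, hw⟩, Nat.prime_two⟩
  rw [← mul_prod_erase _ _ h2mem]
  have hF2 : F 2 ≤ 1 / 4 := by
    have := F_prime Nat.prime_two
    simpa using this
  have hrest : ∏ p ∈ (pz w).erase 2, F p ≤ ∏ m ∈ Icc 3 w, (1 + 1 / ((m : ℝ) * (m - 1))) := by
    have hsub : (pz w).erase 2 ⊆ Icc 3 w := by
      intro p hp
      rw [mem_erase] at hp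
      unfold pz at hp
      rw [mem_filter, mem_Icc] at hp
      rw [mem_Icc]
      have := hp.2.2.two_le
      omega
    refine le_trans (prod_le_prod (fun p _ => F_nonneg p) (g := fun p : ℕ => 1 + 1 / ((p : ℝ) * (p - 1))) ?_) ?_
    · intro p hp
      have hp3 : 3 ≤ p := (mem_Icc.1 (hsub hp)).1
      have hpp := hpz p (mem_of_mem_erase hp)
      have := F_prime hpp
      rw [if_neg (ne_of_mem_erase hp)] at this
      refine this.trans ?_
      have h3 : (3 : ℝ) ≤ p := by exact_mod_cast hp3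
      have h4 : (0 : ℝ) < p - 2 := by linarith
      have h5 : (0 : ℝ) < p - 1 := by linarith
      have h6 : (0 : ℝ) < p := by linarith
      have h7 : (p : ℝ) * (p - 1) ≤ (p : ℝ) ^ 2 * (p - 2) := by
        nlinarith [mul_pos h6 h4, mul_nonneg h6.le (by linarith : (0 : ℝ) ≤ p - 3)]
      have h8 := one_div_le_one_div_of_le (by positivity) h7
      linarith
    · refine prod_le_prod_of_subset_of_one_le hsub (fun p hp => ?_) (fun p hp _ => ?_)
      · have hp3 : 3 ≤ p := (mem_Icc.1 (hsub hp)).1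
        have h3 : (3 : ℝ) ≤ p := by exact_mod_cast hp3
        have h5 : (0 : ℝ) < p - 1 := by linarith
        positivity
      · have hp3 : 3 ≤ p := (mem_Icc.1 hp).1
        have h3 : (3 : ℝ) ≤ p := by exact_mod_cast hp3
        have h5 : (0 : ℝ) < p - 1 := by linarith
        have : 0 ≤ 1 / ((p : ℝ) * (p - 1)) := by positivity
        linarith
  have hexp : Real.exp (1 / 2) ≤ 4 := by
    have h1 : Real.exp (1 / 2) ≤ Real.exp 1 := Real.exp_le_exp.2 (by norm_num)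
    have := Real.exp_one_lt_d9
    linarith
  have hr0 : 0 ≤ ∏ p ∈ (pz w).erase 2, F p := prod_nonneg fun p _ => F_nonneg p
  calc F 2 * ∏ p ∈ (pz w).erase 2, F p ≤ 1 / 4 * 4 := by
        refine mul_le_mul hF2 ?_ hr0 (by norm_num)
        exact hrest.trans ((prod_bound w).trans hexp)
    _ = 1 := by norm_num

lemma wt_eq (w : ℕ) (t : ZMod (Wp w)) :
    wt w t = ((U (ZMod (Wp w)) t : ℕ) : ℝ) / Nat.totient (Wp w) := by
  classical
  unfold wt U
  congr 2
  rw [Nat.card_eq_fintype_card, Fintype.card_subtype]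

theorem wt_lower : ∃ c : ℝ, 0 < c ∧ ∀ w : ℕ, 2 ≤ w → ∀ e : ZMod (Wp w) → ℝ,
    (∀ t, 0 ≤ e t) → (∀ t, e t ≤ 1) → (∀ t, wt w t = 0 → e t = 0) →
    c * ((∑ t, e t) / Wp w) ^ 2 ≤ (∑ t, e t * wt w t) / Nat.totient (Wp w) := by
  classical
  refine ⟨1, one_pos, ?_⟩
  intro w hw e he0 he1 hez
  have hW : (0 : ℝ) < Wp w := by exact_mod_cast Wp_pos w
  have hφ : (0 : ℝ) < Nat.totient (Wp w) := by
    exact_mod_cast Nat.totient_pos.2 (Wp_pos w)
  set φ : ℝ := ((Nat.totient (Wp w) : ℕ) : ℝ) with hφdef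
  have hwt0 : ∀ t, 0 ≤ wt w t := fun t => by rw [wt_eq]; positivity
  have hF := F_Wp w hw
  unfold F SS at hF
  rw [finsum_eq_sum_of_fintype, div_le_one (by positivity)] at hF
  have hsum : ∑ t : ZMod (Wp w), (wt w t)⁻¹ ≤ (Wp w : ℝ) ^ 2 / φ := by
    have e1 : ∀ t : ZMod (Wp w), (wt w t)⁻¹ = φ * ((U (ZMod (Wp w)) t : ℕ) : ℝ)⁻¹ := by
      intro t
      rw [wt_eq, inv_div, div_eq_mul_inv]
    simp only [e1]
    rw [← mul_sum, le_div_iff₀ hφ]
    calc (φ * ∑ t : ZMod (Wp w), ((U (ZMod (Wp w)) t : ℕ) : ℝ)⁻¹) * φ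
        = φ ^ 2 * ∑ t : ZMod (Wp w), ((U (ZMod (Wp w)) t : ℕ) : ℝ)⁻¹ := by ring
      _ ≤ _ := hF
  have hcs : (∑ t, e t) ^ 2 ≤ (∑ t, e t * wt w t) * ∑ t, (wt w t)⁻¹ := by
    have h1 := Finset.sum_mul_sq_le_sq_mul_sq univ (fun t => √(e t * wt w t))
      (fun t => √(e t * (wt w t)⁻¹))
    have h2 : ∀ t, √(e t * wt w t) * √(e t * (wt w t)⁻¹) = e t := by
      intro t
      rw [← Real.sqrt_mul (mul_nonneg (he0 t) (hwt0 t))]
      by_cases hz : wt w t = 0
      · rw [hez t hz]; simp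
      · have h3 : e t * wt w t * (e t * (wt w t)⁻¹) = e t ^ 2 := by field_simp
        rw [h3, Real.sqrt_sq (he0 t)]
    have h3 : ∀ t, √(e t * wt w t) ^ 2 = e t * wt w t := fun t =>
      Real.sq_sqrt (mul_nonneg (he0 t) (hwt0 t))
    have h4 : ∀ t, √(e t * (wt w t)⁻¹) ^ 2 = e t * (wt w t)⁻¹ := fun t =>
      Real.sq_sqrt (mul_nonneg (he0 t) (inv_nonneg.2 (hwt0 t)))
    simp only [h2, h3, h4] at h1
    refine h1.trans ?_
    have h5 : 0 ≤ ∑ t, e t * wt w t := sum_nonneg fun t _ => mul_nonneg (he0 t) (hwt0 t)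
    refine mul_le_mul_of_nonneg_left ?_ h5
    refine sum_le_sum fun t _ => ?_
    calc e t * (wt w t)⁻¹ ≤ 1 * (wt w t)⁻¹ :=
          mul_le_mul_of_nonneg_right (he1 t) (inv_nonneg.2 (hwt0 t))
      _ = _ := one_mul _
  have h5 : 0 ≤ ∑ t, e t * wt w t := sum_nonneg fun t _ => mul_nonneg (he0 t) (hwt0 t)
  rw [one_mul, div_pow, div_le_div_iff₀ (by positivity) hφ]
  calc (∑ t, e t) ^ 2 * φ ≤ ((∑ t, e t * wt w t) * ∑ t, (wt w t)⁻¹) * φ := by gcongr
    _ ≤ ((∑ t, e t * wt w t) * ((Wp w : ℝ) ^ 2 / φ)) * φ := by gcongr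
    _ = _ := by field_simp

end Pool.Agent.TH370.J1234
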