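import Pool.Agent.TH77.Ad

set_option autoImplicit false

namespace Pool.Agent.TH77
open Filter Topology Set Metric
namespace LG
variable {H : Type*} [Group H] [TopologicalSpace H] [IsTopologicalGroup H] [T2Space H]
  {E : Type*} [NormedAddCommGroup E] [NormedSpace ℝ E] [FiniteDimensional ℝ E] (L : LG H E)

/-- the conjugate of `exp (t y)` by `exp (t x)` -/
private lemma conj_exp_J881 (x y : E) (t : ℝ) :
    L.exp (t • x) * L.exp (t • y) * (L.exp (t • x))⁻¹ =
      L.exp (t • (NormedSpace.exp (t • L.ad x) y)) := by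
  rw [← L.exp_Ad, L.Ad_exp, map_smul, map_smul]

private lemma slope_J881 (x y : E) :
    Tendsto (fun t : ℝ => (t ^ 2)⁻¹ • (t • (NormedSpace.exp (t • L.ad x) y) - t • y)) (𝓝[≠] 0)
      (𝓝 (L.ad x y)) := by
  have : CompleteSpace E := FiniteDimensional.complete ℝ E
  have h1 := op_hasDerivAt (L.ad x) y
  have h2 := hasDerivAt_iff_tendsto_slope_zero.1 h1
  refine h2.congr' ?_
  filter_upwards [self_mem_nhdsWithin] with t ht
  have ht' : t ≠ 0 := ht
  rw [← smul_sub, smul_smul]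
  congr 1
  · field_simp
  · simp [NormedSpace.exp_zero]

/-- JOB F. Commutator formula for the bracket. -/
theorem bracket_lim (x y : E) :
    Tendsto (fun n : ℕ => (L.exp ((1 / ((n : ℝ) + 1)) • x) * L.exp ((1 / ((n : ℝ) + 1)) • y) *
      (L.exp ((1 / ((n : ℝ) + 1)) • x))⁻¹ * (L.exp ((1 / ((n : ℝ) + 1)) • y))⁻¹) ^
      ((n + 1) ^ 2)) atTop (𝓝 (L.exp (L.ad x y))) := by
  have : CompleteSpace E := FiniteDimensional.complete ℝ E
  set a : ℝ → E := fun t => t • (NormedSpace.exp (t • L.ad x) y) with ha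
  set z : ℝ → E := fun t => L.mul (a t, -(t • y)) with hz
  have hslope : Tendsto (fun t : ℝ => (t ^ 2)⁻¹ • (a t - t • y)) (𝓝[≠] 0) (𝓝 (L.ad x y)) :=
    L.slope_J881 x y
  have hexpc : Tendsto (fun t : ℝ => NormedSpace.exp (t • L.ad x) y) (𝓝 0) (𝓝 y) := by
    have h1 := (op_hasDerivAt (L.ad x) y).continuousAt.tendsto
    simpa [NormedSpace.exp_zero] using h1
  have hid : Tendsto (fun t : ℝ => t) (𝓝 0) (𝓝 0) := tendsto_id
  have hat : Tendsto a (𝓝 0) (𝓝 0) := by
    have := hid.smul hexpc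
    simpa [ha] using this
  have hty : Tendsto (fun t : ℝ => t • y) (𝓝 0) (𝓝 0) := by
    have := hid.smul (tendsto_const_nhds (x := y))
    simpa using this
  have hnty : Tendsto (fun t : ℝ => -(t • y)) (𝓝 0) (𝓝 0) := by
    simpa using hty.neg
  have hp1 : Tendsto (fun t : ℝ => (a t, -(t • y))) (𝓝 0) (𝓝 (0 : E × E)) :=
    hat.prodMk_nhds hnty
  have hp2 : Tendsto (fun t : ℝ => (t • y, -(t • y))) (𝓝 0) (𝓝 (0 : E × E)) :=
    hty.prodMk_nhds hnty
  have hpp : Tendsto (fun t : ℝ => ((a t, -(t • y)), (t • y, -(t • y)))) (𝓝 0)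
      (𝓝 ((0 : E × E), (0 : E × E))) := hp1.prodMk_nhds hp2
  have ho := L.mul_deriv.isLittleO.comp_tendsto (hpp.mono_left (nhdsWithin_le_nhds (s := {0}ᶜ)))
  have hneg : ∀ᶠ t in 𝓝 (0 : ℝ), L.mul (t • y, -(t • y)) = 0 := hty.eventually L.eventually_mul_neg
  have ho2 : (fun t : ℝ => z t - (a t - t • y)) =o[𝓝[≠] 0] fun t : ℝ => t ^ 2 := by
    have hO : (fun t : ℝ => ((a t, -(t • y)) - (t • y, -(t • y)) : E × E)) =O[𝓝[≠] 0]
        fun t : ℝ => t ^ 2 := by
      have hO1 : (fun t : ℝ => a t - t • y) =O[𝓝[≠] 0] fun t : ℝ => t ^ 2 := by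
        have h1 : (fun t : ℝ => (t ^ 2)⁻¹ • (a t - t • y)) =O[𝓝[≠] 0] fun _ : ℝ => (1 : ℝ) :=
          hslope.isBigO_one ℝ
        have h2 := (Asymptotics.isBigO_refl (fun t : ℝ => t ^ 2) (𝓝[≠] 0)).smul h1
        refine (h2.congr' ?_ ?_)
        · filter_upwards [self_mem_nhdsWithin] with t ht
          have ht' : t ≠ 0 := ht
          rw [smul_smul, mul_inv_cancel₀ (pow_ne_zero 2 ht'), one_smul]
        · exact Eventually.of_forall fun t => by simp
      refine Asymptotics.IsBigO.of_norm_left (f' := fun t : ℝ => ((a t, -(t • y)) - (t • y, -(t • y)) : E × E)) ?_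
      refine (hO1.norm_left).congr_left fun t => ?_
      rw [Prod.norm_def]
      simp
    have h3 := ho.trans_isBigO hO
    refine h3.congr' ?_ (EventuallyEq.refl _ _)
    filter_upwards [hneg.filter_mono nhdsWithin_le_nhds] with t ht
    simp only [Function.comp_apply, hz]
    rw [ht]
    simp
  have hzt : Tendsto (fun t : ℝ => (t ^ 2)⁻¹ • z t) (𝓝[≠] 0) (𝓝 (L.ad x y)) := by
    have h1 := ho2.tendsto_inv_smul_nhds_zero
    have h2 := h1.add hslope
    rw [zero_add] at h2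
    refine h2.congr fun t => ?_
    rw [← smul_add]
    congr 1
    abel
  have h0 : Tendsto (fun n : ℕ => 1 / ((n : ℝ) + 1)) atTop (𝓝[≠] 0) := by
    rw [tendsto_nhdsWithin_iff]
    exact ⟨tendsto_one_div_add_atTop_nhds_zero_nat,
      Eventually.of_forall fun n => by
        have : (0 : ℝ) < 1 / ((n : ℝ) + 1) := by positivity
        exact this.ne'⟩
  have h5 := (L.cont.tendsto _).comp (hzt.comp h0)
  refine h5.congr' ?_
  have h6 : ∀ᶠ t in 𝓝 (0 : ℝ), L.exp (a t) * L.exp (-(t • y)) = L.exp (z t) :=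
    hp1.eventually L.exp_mul
  have h7 := h0.eventually (h6.filter_mono nhdsWithin_le_nhds)
  filter_upwards [h7] with n hn
  simp only [Function.comp_apply]
  rw [conj_exp_J881, ← L.exp_neg]
  have hn' : L.exp ((1 / ((n : ℝ) + 1)) • (NormedSpace.exp ((1 / ((n : ℝ) + 1)) • L.ad x) y)) *
      L.exp (-((1 / ((n : ℝ) + 1)) • y)) = L.exp (z (1 / ((n : ℝ) + 1))) := hn
  rw [hn', ← L.exp_nsmul]
  congr 1
  rw [← Nat.cast_smul_eq_nsmul ℝ]
  push_cast
  congr 1
  field_simp

end LG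
end Pool.Agent.TH77
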