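import Pool.Agent.TH490.StmG

set_option autoImplicit false

namespace Pool.Agent.TH370.MP325

open Pool.Agent.TH490
open Finset

theorem cr_0 (a b : V3) : cr a b 0 = a 1 * b 2 - a 2 * b 1 := rfl
theorem cr_1 (a b : V3) : cr a b 1 = a 2 * b 0 - a 0 * b 2 := rfl
theorem cr_2 (a b : V3) : cr a b 2 = a 0 * b 1 - a 1 * b 0 := rfl

theorem ext3 {u v : V3} (h0 : u 0 = v 0) (h1 : u 1 = v 1) (h2 : u 2 = v 2) : u = v := by
  funext i
  fin_cases i
  · exact h0
  · exact h1
  · exact h2

theorem cr_eq_zero {u v : V3} : cr u v = 0 ↔ u 1 * v 2 - u 2 * v 1 = 0 ∧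
    u 2 * v 0 - u 0 * v 2 = 0 ∧ u 0 * v 1 - u 1 * v 0 = 0 := by
  constructor
  · intro h
    exact ⟨congrFun h 0, congrFun h 1, congrFun h 2⟩
  · rintro ⟨h0, h1, h2⟩
    exact ext3 h0 h1 h2

theorem nrm_le {a : V3} {n : ℕ} : nrm a ≤ n ↔ ∀ i, (a i).natAbs ≤ n := by
  unfold nrm
  constructor
  · intro h i
    have h0 := (max_le_iff.1 h).1
    have h1 := (max_le_iff.1 (max_le_iff.1 h).2).1
    have h2 := (max_le_iff.1 (max_le_iff.1 h).2).2
    fin_cases i
    · exact h0
    · exact h1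
    · exact h2
  · intro h
    exact max_le (h 0) (max_le (h 1) (h 2))

theorem le_nrm (a : V3) (i : Fin 3) : (a i).natAbs ≤ nrm a := nrm_le.1 le_rfl i

theorem exists_nrm (a : V3) : ∃ i, (a i).natAbs = nrm a := by
  by_contra h
  push Not at h
  have h1 : ∀ i, (a i).natAbs < nrm a := fun i => lt_of_le_of_ne (le_nrm a i) (h i)
  have h2 : nrm a < nrm a := by
    have : nrm a = max (a 0).natAbs (max (a 1).natAbs (a 2).natAbs) := rfl
    conv_lhs => rw [this]
    exact max_lt (h1 0) (max_lt (h1 1) (h1 2))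
  exact lt_irrefl _ h2

theorem mem_cube {N : ℕ} {x : V3} : x ∈ cube N ↔ nrm x ≤ N := by
  unfold cube
  rw [Fintype.mem_piFinset, nrm_le]
  refine forall_congr' fun i => ?_
  rw [mem_Icc]
  omega

theorem nrm_pos {a : V3} (h : a ≠ 0) : 0 < nrm a := by
  by_contra h0
  have h1 : nrm a ≤ 0 := by omega
  rw [nrm_le] at h1
  apply h
  funext i
  have := h1 i
  simp only [Pi.zero_apply]
  omega

theorem prim_ne {a : V3} (h : Prim a) : a ≠ 0 := by
  rintro rfl
  unfold Prim cont at h
  simp at h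

theorem bez {a : V3} (h : Prim a) : ∃ x : V3, dot x a = 1 := by
  unfold Prim cont at h
  set g := Nat.gcd (a 1).natAbs (a 2).natAbs with hg
  have h1 : ((Int.gcd (a 0) (g : ℤ) : ℕ) : ℤ) = 1 := by
    have : Int.gcd (a 0) (g : ℤ) = Nat.gcd (a 0).natAbs g := by
      simp [Int.gcd]
    rw [this, h]
    rfl
  have h2 : (g : ℤ) = a 1 * Int.gcdA (a 1) (a 2) + a 2 * Int.gcdB (a 1) (a 2) := by
    have := Int.gcd_eq_gcd_ab (a 1) (a 2)
    rw [← this]
    rfl
  have h3 := Int.gcd_eq_gcd_ab (a 0) (g : ℤ)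
  rw [h1] at h3
  refine ⟨![Int.gcdA (a 0) g, Int.gcdA (a 1) (a 2) * Int.gcdB (a 0) g,
    Int.gcdB (a 1) (a 2) * Int.gcdB (a 0) g], ?_⟩
  have e : dot ![Int.gcdA (a 0) g, Int.gcdA (a 1) (a 2) * Int.gcdB (a 0) g,
    Int.gcdB (a 1) (a 2) * Int.gcdB (a 0) g] a = Int.gcdA (a 0) g * a 0 +
      Int.gcdA (a 1) (a 2) * Int.gcdB (a 0) g * a 1 +
      Int.gcdB (a 1) (a 2) * Int.gcdB (a 0) g * a 2 := rfl
  rw [e]
  linear_combination (-(Int.gcdB (a 0) g)) * h2 - h3

/-- a vector parallel to a primitive vector is a multiple of it -/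
theorem par {u v : V3} (hu : Prim u) (h : cr u v = 0) : ∃ k : ℤ, ∀ i, v i = k * u i := by
  obtain ⟨x, hx⟩ := bez hu
  obtain ⟨h0, h1, h2⟩ := cr_eq_zero.1 h
  unfold dot at hx
  refine ⟨x 0 * v 0 + x 1 * v 1 + x 2 * v 2, fun i => ?_⟩
  fin_cases i
  · show v 0 = _ * u 0
    linear_combination (-(v 0)) * hx - x 1 * h2 + x 2 * h1
  · show v 1 = _ * u 1
    linear_combination (-(v 1)) * hx + x 0 * h2 - x 2 * h0
  · show v 2 = _ * u 2
    linear_combination (-(v 2)) * hx - x 0 * h1 + x 1 * h0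

theorem cr_perp {a p x : V3} (hp : dot a p = 0) (hx : dot a x = 0) : cr a (cr p x) = 0 := by
  unfold dot at hp hx
  rw [cr_eq_zero]
  simp only [cr_0, cr_1, cr_2]
  refine ⟨?_, ?_, ?_⟩
  · linear_combination (p 0) * hx - (x 0) * hp
  · linear_combination (p 1) * hx - (x 1) * hp
  · linear_combination (p 2) * hx - (x 2) * hp

theorem nrm_cr (p x : V3) : nrm (cr p x) ≤ 2 * nrm p * nrm x := by
  rw [nrm_le]
  have hp := le_nrm p
  have hx := le_nrm x
  have key : ∀ a b c d : ℤ, a.natAbs ≤ nrm p → b.natAbs ≤ nrm x → c.natAbs ≤ nrm p →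
      d.natAbs ≤ nrm x → (a * b - c * d).natAbs ≤ 2 * nrm p * nrm x := by
    intro a b c d ha hb hc hd
    calc (a * b - c * d).natAbs ≤ (a * b).natAbs + (c * d).natAbs := Int.natAbs_sub_le _ _
      _ = a.natAbs * b.natAbs + c.natAbs * d.natAbs := by rw [Int.natAbs_mul, Int.natAbs_mul]
      _ ≤ nrm p * nrm x + nrm p * nrm x := add_le_add (Nat.mul_le_mul ha hb) (Nat.mul_le_mul hc hd)
      _ = _ := by ring
  intro i
  fin_cases i
  · exact key _ _ _ _ (hp 1) (hx 2) (hp 2) (hx 1)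
  · exact key _ _ _ _ (hp 2) (hx 0) (hp 0) (hx 2)
  · exact key _ _ _ _ (hp 0) (hx 1) (hp 1) (hx 0)

theorem nrm_mul {u v : V3} {k : ℤ} (h : ∀ i, v i = k * u i) : nrm v = k.natAbs * nrm u := by
  apply le_antisymm
  · rw [nrm_le]
    intro i
    rw [h i, Int.natAbs_mul]
    exact Nat.mul_le_mul_left _ (le_nrm u i)
  · obtain ⟨i, hi⟩ := exists_nrm u
    rw [← hi, ← Int.natAbs_mul, ← h i]
    exact le_nrm v i

/-- the content divides all coordinates -/
theorem cont_dvd (p : V3) (i : Fin 3) : (cont p : ℤ) ∣ p i := by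
  have h0 : cont p ∣ (p 0).natAbs := Nat.gcd_dvd_left _ _
  have h1 : cont p ∣ (p 1).natAbs := (Nat.gcd_dvd_right _ _).trans (Nat.gcd_dvd_left _ _)
  have h2 : cont p ∣ (p 2).natAbs := (Nat.gcd_dvd_right _ _).trans (Nat.gcd_dvd_right _ _)
  fin_cases i
  · exact Int.natCast_dvd.2 h0
  · exact Int.natCast_dvd.2 h1
  · exact Int.natCast_dvd.2 h2

theorem cont_pos {p : V3} (h : p ≠ 0) : 0 < cont p := by
  rw [Nat.pos_iff_ne_zero]
  intro h0
  apply h
  funext i
  have h1 := cont_dvd p i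
  rw [h0] at h1
  simpa using h1

/-- the primitive vector in direction `d` -/
theorem exists_prim {d : V3} (hd : d ≠ 0) : ∃ u : V3, Prim u ∧ (∀ i, d i = (cont d : ℤ) * u i) ∧
    nrm u = Sn d := by
  have hc := cont_pos hd
  choose u hu using cont_dvd d
  have hn : nrm d = cont d * nrm u := by
    have := nrm_mul (u := u) (v := d) (k := (cont d : ℤ)) hu
    simpa using this
  refine ⟨u, ?_, hu, ?_⟩
  · unfold Prim
    have h1 : cont d = cont d * cont u := by
      have e : ∀ i, (d i).natAbs = cont d * (u i).natAbs := by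
        intro i
        rw [hu i, Int.natAbs_mul, Int.natAbs_natCast]
      conv_lhs => unfold cont
      rw [e 0, e 1, e 2, Nat.gcd_mul_left, Nat.gcd_mul_left]
      rfl
    have h2 : cont d * cont u = cont d * 1 := by rw [mul_one]; exact h1.symm
    exact Nat.eq_of_mul_eq_mul_left hc h2
  · unfold Sn
    rw [hn, Nat.mul_div_cancel_left _ hc]

/-- shortest nonzero vector of the lattice orthogonal to `a` -/
theorem exists_shortest {a u : V3} (hu : u ≠ 0) (hau : dot a u = 0) : ∃ p : V3, Prim p ∧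
    dot a p = 0 ∧ ∀ x : V3, x ≠ 0 → dot a x = 0 → nrm p ≤ nrm x := by
  classical
  have hex : ∃ n : ℕ, ∃ x : V3, x ≠ 0 ∧ dot a x = 0 ∧ nrm x = n := ⟨_, u, hu, hau, rfl⟩
  obtain ⟨p, hp0, hap, hpn⟩ := Nat.find_spec hex
  have hmin : ∀ x : V3, x ≠ 0 → dot a x = 0 → nrm p ≤ nrm x := by
    intro x hx0 hax
    rw [hpn]
    exact Nat.find_min' hex ⟨x, hx0, hax, rfl⟩
  obtain ⟨q, hq, hq2, -⟩ := exists_prim hp0
  have hq0 := prim_ne hq
  have hc := cont_pos hp0
  have haq : dot a q = 0 := by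
    have h1 : (cont p : ℤ) * dot a q = 0 := by
      rw [← hap]
      unfold dot
      rw [hq2 0, hq2 1, hq2 2]
      ring
    rcases mul_eq_zero.1 h1 with h | h
    · exact absurd h (by exact_mod_cast hc.ne')
    · exact h
  have h3 := hmin q hq0 haq
  have h4 : nrm p = cont p * nrm q := by simpa using nrm_mul hq2
  have h5 := nrm_pos hq0
  have h6 : cont p = 1 := by
    by_contra hne
    have h7 : 2 ≤ cont p := by omega
    have h8 : 2 * nrm q ≤ cont p * nrm q := Nat.mul_le_mul_right _ h7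
    omega
  exact ⟨p, h6, hap, hmin⟩

/-- the fibres of `x ↦ p × x` -/
theorem fiber {p : V3} (hp : Prim p) (M : ℕ) (c : V3) (T : Finset V3)
    (hT : ∀ x ∈ T, nrm x ≤ M ∧ cr p x = c) : T.card * nrm p ≤ 2 * M + nrm p := by
  have hl := nrm_pos (prim_ne hp)
  obtain ⟨i, hi⟩ := exists_nrm p
  set l := nrm p with hldef
  have hinj : Set.InjOn (fun x : V3 => (x i + M) / (l : ℤ)) (T : Set V3) := by
    intro x hx y hy hxy
    obtain ⟨-, hcx⟩ := hT x hx
    obtain ⟨-, hcy⟩ := hT y hy
    have hsub : cr p (fun j => x j - y j) = 0 := by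
      rw [cr_eq_zero]
      have e0 := congrFun (hcx.trans hcy.symm) 0
      have e1 := congrFun (hcx.trans hcy.symm) 1
      have e2 := congrFun (hcx.trans hcy.symm) 2
      simp only [cr_0, cr_1, cr_2] at e0 e1 e2
      refine ⟨?_, ?_, ?_⟩ <;> linarith
    obtain ⟨k, hk⟩ := par hp hsub
    have hki := hk i
    simp only at hki hxy
    have hk0 : k = 0 := by
      have h1 : x i + M = y i + M + k * p i := by linarith
      rcases Int.natAbs_eq (p i) with hs | hs
      · rw [hi] at hs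
        rw [h1, hs, Int.add_mul_ediv_right _ _ (by exact_mod_cast hl.ne')] at hxy
        linarith
      · rw [hi] at hs
        have h2 : y i + (M : ℤ) + k * p i = y i + M + (-k) * l := by rw [hs]; ring
        rw [h1, h2, Int.add_mul_ediv_right _ _ (by exact_mod_cast hl.ne')] at hxy
        linarith
    funext j
    have := hk j
    rw [hk0] at this
    simp only [zero_mul] at this
    linarith
  have hmaps : ∀ x ∈ T, (fun x : V3 => (x i + M) / (l : ℤ)) x ∈ Icc (0 : ℤ) ((2 * M / l : ℕ) : ℤ) := by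
    intro x hx
    obtain ⟨hn, -⟩ := hT x hx
    have h1 := nrm_le.1 hn i
    have hl' : (0 : ℤ) < l := by exact_mod_cast hl
    rw [mem_Icc]
    constructor
    · exact Int.ediv_nonneg (by omega) hl'.le
    · push_cast
      exact Int.ediv_le_ediv hl' (by omega)
  have hcard := card_le_card_of_injOn _ hmaps hinj
  rw [Int.card_Icc] at hcard
  have h2 : T.card ≤ 2 * M / l + 1 := by
    have h3 : ∀ m : ℕ, (((m : ℤ) + 1 - 0).toNat) = m + 1 := fun m => by omega
    rw [h3] at hcard
    exact hcard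
  calc T.card * l ≤ (2 * M / l + 1) * l := Nat.mul_le_mul_right _ h2
    _ = 2 * M / l * l + l := by ring
    _ ≤ 2 * M + l := by
      have := Nat.div_mul_le_self (2 * M) l
      omega

/-- core count -/
theorem core {a p : V3} (ha : Prim a) (hp : Prim p) (hap : dot a p = 0) (M : ℕ)
    (hpM : nrm p ≤ M) (T : Finset V3)
    (hT : ∀ x ∈ T, nrm x ≤ M ∧ dot a x = 0 ∧ cr p x ≠ 0) : T.card * nrm a ≤ 12 * M ^ 2 := by
  classical
  have hl := nrm_pos (prim_ne hp)
  have hA := nrm_pos (prim_ne ha)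
  set l := nrm p with hldef
  set A := nrm a with hAdef
  set K := 2 * l * M / A with hK
  have hk : ∀ x ∈ T, ∃ k : ℤ, cr p x = (fun i => k * a i) ∧ k ≠ 0 ∧ k.natAbs ≤ K := by
    intro x hx
    obtain ⟨h1, h2, h3⟩ := hT x hx
    obtain ⟨k, hk⟩ := par ha (cr_perp hap h2)
    have h4 := nrm_mul hk
    have h5 := nrm_cr p x
    refine ⟨k, funext hk, ?_, ?_⟩
    · rintro rfl
      apply h3
      funext i
      rw [hk i]; simp
    · rw [hK, Nat.le_div_iff_mul_le hA, ← h4]
      calc nrm (cr p x) ≤ 2 * nrm p * nrm x := h5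
        _ ≤ 2 * l * M := Nat.mul_le_mul_left _ h1
  choose! k hk using hk
  -- bound via the fibres of `k`
  have hmaps : ∀ x ∈ T, k x ∈ (Icc (-(K : ℤ)) K).erase 0 := by
    intro x hx
    obtain ⟨-, h1, h2⟩ := hk x hx
    rw [mem_erase, mem_Icc]
    exact ⟨h1, by omega, by omega⟩
  have hfib : ∀ c ∈ (Icc (-(K : ℤ)) K).erase 0, (T.filter (fun x => k x = c)).card ≤
      (2 * M + l) / l := by
    intro c _
    rw [Nat.le_div_iff_mul_le hl]
    refine fiber hp M (fun i => c * a i) _ ?_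
    intro x hx
    rw [mem_filter] at hx
    obtain ⟨h1, -, -⟩ := hT x hx.1
    obtain ⟨h2, -, -⟩ := hk x hx.1
    refine ⟨h1, ?_⟩
    rw [h2, hx.2]
  have hcard := card_le_mul_card_image_of_maps_to (s := T) hmaps ((2 * M + l) / l) hfib
  have hcE : ((Icc (-(K : ℤ)) K).erase 0).card = 2 * K := by
    have h0 : (0 : ℤ) ≤ (K : ℤ) := Int.natCast_nonneg K
    rw [card_erase_of_mem (by rw [mem_Icc]; constructor <;> linarith), Int.card_Icc]
    have h3 : ∀ m : ℕ, ((m : ℤ) + 1 - (-(m : ℤ))).toNat - 1 = 2 * m := fun m => by omega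
    exact h3 K
  rw [hcE] at hcard
  have h3 : (2 * M + l) / l * l ≤ 3 * M := by
    have := Nat.div_mul_le_self (2 * M + l) l
    omega
  have h4 : K * A ≤ 2 * l * M := Nat.div_mul_le_self _ _
  calc T.card * A ≤ ((2 * M + l) / l * (2 * K)) * A := Nat.mul_le_mul_right _ hcard
    _ = 2 * ((2 * M + l) / l) * (K * A) := by ring
    _ ≤ 2 * ((2 * M + l) / l) * (2 * l * M) := Nat.mul_le_mul_left _ h4
    _ = 4 * M * ((2 * M + l) / l * l) := by ring
    _ ≤ 4 * M * (3 * M) := Nat.mul_le_mul_left _ h3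
    _ = 12 * M ^ 2 := by ring


theorem g1_plane : G1_plane := by
  classical
  intro N a ha ⟨u, hu, v, hv, hau, hav, huv⟩
  have hu0 : u ≠ 0 := by
    rintro rfl
    apply huv
    rw [cr_eq_zero]; simp
  obtain ⟨p, hp, hap, hmin⟩ := exists_shortest hu0 hau
  have hpN : nrm p ≤ N := (hmin u hu0 hau).trans (mem_cube.1 hu)
  have hl := nrm_pos (prim_ne hp)
  have hA := nrm_pos (prim_ne ha)
  set T := (cube N).filter (fun x => dot a x = 0) with hT
  have hsplit := card_filter_add_card_filter_not (s := T) (fun x => cr p x = 0)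
  have h1 : (T.filter (fun x => ¬ cr p x = 0)).card * nrm a ≤ 12 * N ^ 2 := by
    refine core ha hp hap N hpN _ ?_
    intro x hx
    rw [mem_filter, hT, mem_filter, mem_cube] at hx
    exact ⟨hx.1.1, hx.1.2, hx.2⟩
  have h2 : (T.filter (fun x => cr p x = 0)).card * nrm p ≤ 2 * N + nrm p := by
    refine fiber hp N 0 _ ?_
    intro x hx
    rw [mem_filter, hT, mem_filter, mem_cube] at hx
    exact ⟨hx.1.1, hx.2⟩
  -- a nonzero multiple
  have h3 : nrm a ≤ 2 * nrm p * N := by
    have key : ∀ x ∈ cube N, dot a x = 0 → cr p x ≠ 0 → nrm a ≤ 2 * nrm p * N := by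
      intro x hx hax hne
      obtain ⟨k, hk⟩ := par ha (cr_perp hap hax)
      have h4 := nrm_mul hk
      have hk0 : k ≠ 0 := by
        rintro rfl
        apply hne
        funext i
        rw [hk i]; simp
      have h5 : 1 ≤ k.natAbs := by omega
      calc nrm a = 1 * nrm a := (one_mul _).symm
        _ ≤ k.natAbs * nrm a := Nat.mul_le_mul_right _ h5
        _ = nrm (cr p x) := h4.symm
        _ ≤ 2 * nrm p * nrm x := nrm_cr p x
        _ ≤ 2 * nrm p * N := Nat.mul_le_mul_left _ (mem_cube.1 hx)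
    by_cases hpu : cr p u = 0
    · refine key v hv hav ?_
      intro hpv
      obtain ⟨k, hk⟩ := par hp hpu
      obtain ⟨m, hm⟩ := par hp hpv
      apply huv
      rw [cr_eq_zero, hk 0, hk 1, hk 2, hm 0, hm 1, hm 2]
      refine ⟨?_, ?_, ?_⟩ <;> ring
    · exact key u hu hau hpu
  set c0 := (T.filter (fun x => cr p x = 0)).card
  set c1 := (T.filter (fun x => ¬ cr p x = 0)).card
  have h6 : c0 * nrm a ≤ 6 * N ^ 2 := by
    calc c0 * nrm a ≤ c0 * (2 * nrm p * N) := Nat.mul_le_mul_left _ h3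
      _ = 2 * N * (c0 * nrm p) := by ring
      _ ≤ 2 * N * (2 * N + nrm p) := Nat.mul_le_mul_left _ h2
      _ ≤ 2 * N * (3 * N) := Nat.mul_le_mul_left _ (by omega)
      _ = _ := by ring
  calc T.card * nrm a = (c0 + c1) * nrm a := by rw [hsplit]
    _ = c0 * nrm a + c1 * nrm a := by ring
    _ ≤ 6 * N ^ 2 + 12 * N ^ 2 := add_le_add h6 h1
    _ = _ := by ring

theorem toZ_ap {N : ℕ} (x : Pos N) (i : Fin 3) : Pool.Agent.TH490.toZ x i = ((x i : ℕ) : ℤ) := rfl

theorem sub_mem_cube {N : ℕ} (x w : Pos N) : toZ w - toZ x ∈ cube N := by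
  rw [mem_cube, nrm_le]
  intro i
  have h1 := (w i).2
  have h2 := (x i).2
  simp only [Pi.sub_apply, toZ_ap]
  omega

theorem toZ_sub_inj {N : ℕ} (x : Pos N) : Function.Injective (fun w : Pos N => toZ w - toZ x) := by
  intro w w' h
  funext i
  have h1 := congrFun h i
  simp only [Pi.sub_apply, toZ_ap] at h1
  apply Fin.ext
  omega

theorem pos_of_plane {N : ℕ} {a : V3} (ha : Prim a) (x : Pos N)
    (h : ∃ u ∈ cube N, ∃ v ∈ cube N, dot a u = 0 ∧ dot a v = 0 ∧ cr u v ≠ 0) :
    (univ.filter (fun w : Pos N => dot a (toZ w - toZ x) = 0)).card * nrm a ≤ 18 * N ^ 2 := by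
  classical
  refine le_trans (Nat.mul_le_mul_right _ ?_) (g1_plane N a ha h)
  refine card_le_card_of_injOn (fun w : Pos N => toZ w - toZ x) ?_
    (fun w _ w' _ hww => toZ_sub_inj x hww)
  intro w hw
  simp only [coe_filter, mem_univ, true_and, Set.mem_ofPred_eq] at hw ⊢
  exact ⟨sub_mem_cube x w, hw⟩

theorem g1_pos : G1_pos := by
  intro N a ha x y z hy hz hcol
  exact pos_of_plane ha x ⟨_, sub_mem_cube x y, _, sub_mem_cube x z, hy, hz, hcol⟩

theorem g1_possmall : G1_possmall := by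
  intro N a ha haN x
  refine pos_of_plane ha x ?_
  have hn := nrm_le.1 haN
  have m1 : (![a 1, -a 0, 0] : V3) ∈ cube N := by
    rw [mem_cube, nrm_le]
    intro i
    fin_cases i
    · exact hn 1
    · show (-a 0).natAbs ≤ N
      rw [Int.natAbs_neg]; exact hn 0
    · exact Nat.zero_le _
  have m2 : (![a 2, 0, -a 0] : V3) ∈ cube N := by
    rw [mem_cube, nrm_le]
    intro i
    fin_cases i
    · exact hn 2
    · exact Nat.zero_le _
    · show (-a 0).natAbs ≤ N
      rw [Int.natAbs_neg]; exact hn 0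
  have m3 : (![0, a 2, -a 1] : V3) ∈ cube N := by
    rw [mem_cube, nrm_le]
    intro i
    fin_cases i
    · exact Nat.zero_le _
    · exact hn 2
    · show (-a 1).natAbs ≤ N
      rw [Int.natAbs_neg]; exact hn 1
  have d1 : dot a ![a 1, -a 0, 0] = 0 := by
    show a 0 * a 1 + a 1 * (-a 0) + a 2 * 0 = 0
    ring
  have d2 : dot a ![a 2, 0, -a 0] = 0 := by
    show a 0 * a 2 + a 1 * 0 + a 2 * (-a 0) = 0
    ring
  have d3 : dot a ![0, a 2, -a 1] = 0 := by
    show a 0 * 0 + a 1 * a 2 + a 2 * (-a 1) = 0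
    ring
  by_cases h0 : a 0 = 0
  · by_cases h1 : a 1 = 0
    · have h2 : a 2 ≠ 0 := by
        intro h2
        exact prim_ne ha (ext3 h0 h1 h2)
      refine ⟨_, m2, _, m3, d2, d3, ?_⟩
      intro h
      have := congrFun h 2
      simp only [cr_2, Pi.zero_apply] at this
      have e : a 2 * a 2 - 0 * 0 = 0 := this
      apply h2
      have : a 2 * a 2 = 0 := by linarith
      exact mul_self_eq_zero.1 this
    · refine ⟨_, m1, _, m3, d1, d3, ?_⟩
      intro h
      have := congrFun h 1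
      simp only [cr_1, Pi.zero_apply] at this
      have e : (0 : ℤ) * 0 - a 1 * (-a 1) = 0 := this
      apply h1
      have : a 1 * a 1 = 0 := by linarith
      exact mul_self_eq_zero.1 this
  · refine ⟨_, m1, _, m2, d1, d2, ?_⟩
    intro h
    have := congrFun h 0
    simp only [cr_0, Pi.zero_apply] at this
    have e : (-a 0) * (-a 0) - 0 * 0 = 0 := this
    apply h0
    have : a 0 * a 0 = 0 := by linarith
    exact mul_self_eq_zero.1 this

theorem g1_span : G1_span := by
  intro N a ha x y z hy hz hcol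
  have h1 : cr a (cr (toZ y - toZ x) (toZ z - toZ x)) = 0 := cr_perp hy hz
  obtain ⟨k, hk⟩ := par ha h1
  have h2 := nrm_mul hk
  have hk0 : k ≠ 0 := by
    rintro rfl
    apply hcol
    show cr (toZ y - toZ x) (toZ z - toZ x) = 0
    funext i
    rw [hk i]; simp
  have h5 : 1 ≤ k.natAbs := by omega
  have hy' := mem_cube.1 (sub_mem_cube x y)
  have hz' := mem_cube.1 (sub_mem_cube x z)
  calc nrm a = 1 * nrm a := (one_mul _).symm
    _ ≤ k.natAbs * nrm a := Nat.mul_le_mul_right _ h5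
    _ = nrm (cr (toZ y - toZ x) (toZ z - toZ x)) := h2.symm
    _ ≤ 2 * nrm (toZ y - toZ x) * nrm (toZ z - toZ x) := nrm_cr _ _
    _ ≤ 2 * N * N := Nat.mul_le_mul (Nat.mul_le_mul_left _ hy') hz'
    _ = _ := by ring

/-- parallel primitive vectors -/
theorem prim_par {p a : V3} (hp : Prim p) (ha : Prim a) (h : cr p a = 0) : a = p ∨ a = -p := by
  obtain ⟨k, hk⟩ := par hp h
  have h1 : cr a p = 0 := by
    rw [cr_eq_zero] at h ⊢
    refine ⟨?_, ?_, ?_⟩ <;> linarith [h.1, h.2.1, h.2.2]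
  obtain ⟨m, hm⟩ := par ha h1
  obtain ⟨i, hi⟩ := exists_nrm p
  have hl := nrm_pos (prim_ne hp)
  have hpi : p i ≠ 0 := by omega
  have h2 : p i = m * k * p i := by
    conv_lhs => rw [hm i, hk i]
    ring
  have h3 : m * k = 1 := by
    have : (m * k) * p i = 1 * p i := by linarith
    exact mul_right_cancel₀ hpi this
  have h4 : k = 1 ∨ k = -1 := by
    have := Int.isUnit_iff.1 (IsUnit.of_mul_eq_one_right m h3)
    exact this
  rcases h4 with h4 | h4
  · left
    funext i
    rw [hk i, h4, one_mul]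
  · right
    funext i
    rw [hk i, h4, Pi.neg_apply]
    ring

/-- `dot` with the primitive vector -/
theorem dot_prim {d e a : V3} (hd : d ≠ 0) (he : ∀ i, d i = (cont d : ℤ) * e i) :
    dot a d = 0 ↔ dot e a = 0 := by
  have hc := cont_pos hd
  have h1 : dot a d = (cont d : ℤ) * dot e a := by
    unfold dot
    rw [he 0, he 1, he 2]
    ring
  rw [h1, mul_eq_zero]
  constructor
  · rintro (h | h)
    · exact absurd h (by exact_mod_cast hc.ne')
    · exact h
  · exact Or.inr

theorem g1_perp : G1_perp := by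
  classical
  intro d hd M
  obtain ⟨e, he, hde, hS⟩ := exists_prim hd
  rw [← hS]
  set T := (cube M).filter (fun a => Prim a ∧ dot a d = 0) with hT
  by_cases hne : T.Nonempty
  · obtain ⟨a₀, ha₀⟩ := hne
    rw [hT, mem_filter, mem_cube] at ha₀
    obtain ⟨hn₀, hp₀, hd₀⟩ := ha₀
    rw [dot_prim hd hde] at hd₀
    obtain ⟨p, hp, hep, hmin⟩ := exists_shortest (prim_ne hp₀) hd₀
    have hpM : nrm p ≤ M := (hmin a₀ (prim_ne hp₀) hd₀).trans hn₀
    have hsplit := card_filter_add_card_filter_not (s := T) (fun x => cr p x = 0)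
    have h1 : (T.filter (fun x => ¬ cr p x = 0)).card * nrm e ≤ 12 * M ^ 2 := by
      refine core he hp hep M hpM _ ?_
      intro x hx
      rw [mem_filter, hT, mem_filter, mem_cube, dot_prim hd hde] at hx
      exact ⟨hx.1.1, hx.1.2.2, hx.2⟩
    have h2 : (T.filter (fun x => cr p x = 0)).card ≤ 2 := by
      have hsub : T.filter (fun x => cr p x = 0) ⊆ {p, -p} := by
        intro x hx
        rw [mem_filter, hT, mem_filter] at hx
        rw [mem_insert, mem_singleton]
        exact prim_par hp hx.1.2.1 hx.2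
      exact (card_le_card hsub).trans (card_le_two)
    calc T.card * nrm e = ((T.filter (fun x => cr p x = 0)).card +
          (T.filter (fun x => ¬ cr p x = 0)).card) * nrm e := by rw [hsplit]
      _ = (T.filter (fun x => cr p x = 0)).card * nrm e +
          (T.filter (fun x => ¬ cr p x = 0)).card * nrm e := by ring
      _ ≤ 2 * nrm e + 12 * M ^ 2 := add_le_add (Nat.mul_le_mul_right _ h2) h1
  · rw [not_nonempty_iff_eq_empty] at hne
    rw [hne]
    simp

theorem g1_perpoff : G1_perpoff := by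
  classical
  intro d hd M a₀ hp₀ hn₀ hd₀
  obtain ⟨e, he, hde, hS⟩ := exists_prim hd
  rw [← hS]
  rw [dot_prim hd hde] at hd₀
  obtain ⟨p, hp, hep, hmin⟩ := exists_shortest (prim_ne hp₀) hd₀
  have hpM : nrm p ≤ M := (hmin a₀ (prim_ne hp₀) hd₀).trans hn₀
  set T := (cube M).filter (fun a => Prim a ∧ dot a d = 0 ∧ cr a a₀ ≠ 0) with hT
  set U := (cube M).filter (fun a => Prim a ∧ dot a d = 0 ∧ cr p a ≠ 0) with hU
  have h1 : U.card * nrm e ≤ 12 * M ^ 2 := by
    refine core he hp hep M hpM _ ?_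
    intro x hx
    rw [hU, mem_filter, mem_cube, dot_prim hd hde] at hx
    exact ⟨hx.1, hx.2.2.1, hx.2.2.2⟩
  refine le_trans (Nat.mul_le_mul_right _ ?_) h1
  have anti : ∀ u v : V3, cr u v = 0 → cr v u = 0 := by
    intro u v h
    rw [cr_eq_zero] at h ⊢
    refine ⟨?_, ?_, ?_⟩ <;> linarith [h.1, h.2.1, h.2.2]
  by_cases hpa : cr p a₀ = 0
  · -- `a₀ = ± p`
    apply card_le_card
    intro x hx
    rw [hT, mem_filter] at hx
    rw [hU, mem_filter]
    refine ⟨hx.1, hx.2.1, hx.2.2.1, ?_⟩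
    intro h
    apply hx.2.2.2
    apply anti
    rcases prim_par hp hp₀ hpa with h2 | h2
    · rw [h2]; exact h
    · rw [h2, cr_eq_zero]
      rw [cr_eq_zero] at h
      simp only [Pi.neg_apply]
      refine ⟨?_, ?_, ?_⟩ <;> linarith [h.1, h.2.1, h.2.2]
  · have hneg : nrm (-a₀) = nrm a₀ := by
      have := nrm_mul (u := a₀) (v := -a₀) (k := -1) (fun i => by simp)
      simpa using this
    have hcn : cont (-a₀) = cont a₀ := by unfold cont; simp
    have m1 : a₀ ∈ U := by
      rw [hU, mem_filter, mem_cube, dot_prim hd hde]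
      exact ⟨hn₀, hp₀, hd₀, hpa⟩
    have m2 : -a₀ ∈ U := by
      rw [hU, mem_filter, mem_cube, dot_prim hd hde, hneg]
      refine ⟨hn₀, ?_, ?_, ?_⟩
      · unfold Prim; rw [hcn]; exact hp₀
      · unfold dot at hd₀ ⊢
        simp only [Pi.neg_apply]
        linarith
      · intro h
        apply hpa
        rw [cr_eq_zero] at h ⊢
        simp only [Pi.neg_apply] at h
        refine ⟨?_, ?_, ?_⟩ <;> linarith [h.1, h.2.1, h.2.2]
    have hne : a₀ ≠ -a₀ := by
      intro h
      apply prim_ne hp₀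
      funext i
      have := congrFun h i
      simp only [Pi.neg_apply] at this
      simp only [Pi.zero_apply]
      omega
    have hsub : T ⊆ (U \ {a₀, -a₀}) ∪ {p, -p} := by
      intro x hx
      rw [hT, mem_filter] at hx
      rw [mem_union, mem_sdiff]
      by_cases hpx : cr p x = 0
      · right
        rw [mem_insert, mem_singleton]
        exact prim_par hp hx.2.1 hpx
      · left
        refine ⟨?_, ?_⟩
        · rw [hU, mem_filter]
          exact ⟨hx.1, hx.2.1, hx.2.2.1, hpx⟩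
        · rw [mem_insert, mem_singleton]
          rintro (h | h)
          · apply hx.2.2.2
            rw [h, cr_eq_zero]
            refine ⟨?_, ?_, ?_⟩ <;> ring
          · apply hx.2.2.2
            rw [h, cr_eq_zero]
            simp only [Pi.neg_apply]
            refine ⟨?_, ?_, ?_⟩ <;> ring
    have hpair : ({a₀, -a₀} : Finset V3) ⊆ U := by
      intro x hx
      rw [mem_insert, mem_singleton] at hx
      rcases hx with rfl | rfl
      · exact m1
      · exact m2
    have hc2 : ({a₀, -a₀} : Finset V3).card = 2 := card_pair hne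
    have h5 := card_le_card hpair
    calc T.card ≤ ((U \ {a₀, -a₀}) ∪ {p, -p}).card := card_le_card hsub
      _ ≤ (U \ {a₀, -a₀}).card + ({p, -p} : Finset V3).card := card_union_le _ _
      _ ≤ (U.card - 2) + 2 := by
        refine add_le_add ?_ card_le_two
        rw [card_sdiff_of_subset hpair, hc2]
      _ = U.card := by omega

theorem g1 : G1_plane ∧ G1_pos ∧ G1_possmall ∧ G1_span ∧ G1_perp ∧ G1_perpoff :=
  ⟨g1_plane, g1_pos, g1_possmall, g1_span, g1_perp, g1_perpoff⟩

end Pool.Agent.TH370.MP325
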