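import Pool.Agent.TH370.MP325_G1

set_option autoImplicit false

namespace Pool.Agent.TH370.MP325

open Pool.Agent.TH490
open Finset

/-- the primitive vector in direction `d` -/
def prm (d : V3) : V3 := fun i => d i / (cont d : ℤ)

theorem prm_mul {d : V3} (hd : d ≠ 0) (i : Fin 3) : d i = (cont d : ℤ) * prm d i := by
  unfold prm
  rw [Int.mul_ediv_cancel' (cont_dvd d i)]

theorem prm_spec {d : V3} (hd : d ≠ 0) : Prim (prm d) ∧ nrm (prm d) = Sn d := by
  obtain ⟨u, hu, h1, h2⟩ := exists_prim hd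
  have hc : (cont d : ℤ) ≠ 0 := by exact_mod_cast (cont_pos hd).ne'
  have e : prm d = u := by
    funext i
    have h3 := prm_mul hd i
    rw [h1 i] at h3
    exact (mul_left_cancel₀ hc h3).symm
  rw [e]
  exact ⟨hu, h2⟩

theorem nrm_eq {d : V3} (hd : d ≠ 0) : nrm d = cont d * Sn d := by
  have h := nrm_mul (u := prm d) (v := d) (k := (cont d : ℤ)) (prm_mul hd)
  rw [(prm_spec hd).2] at h
  simpa using h

theorem Sn_pos {d : V3} (hd : d ≠ 0) : 0 < Sn d := by
  rw [← (prm_spec hd).2]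
  exact nrm_pos (prim_ne (prm_spec hd).1)

theorem card_cube (N : ℕ) : (cube N).card = (2 * N + 1) ^ 3 := by
  unfold cube
  rw [Fintype.card_piFinset]
  simp only [Int.card_Icc, prod_const, card_univ, Fintype.card_fin]
  congr 1
  omega

/-- vectors of norm `s` -/
theorem card_sphere {s : ℕ} (hs : 1 ≤ s) (T : Finset V3) (hT : ∀ x ∈ T, nrm x = s) :
    T.card ≤ 26 * s ^ 2 := by
  classical
  have hsub : T ⊆ cube s \ cube (s - 1) := by
    intro x hx
    rw [mem_sdiff, mem_cube, mem_cube, hT x hx]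
    omega
  have h1 : cube (s - 1) ⊆ cube s := by
    intro x hx
    rw [mem_cube] at hx ⊢
    omega
  have h2 := card_le_card hsub
  rw [card_sdiff_of_subset h1, card_cube, card_cube] at h2
  obtain ⟨m, rfl⟩ : ∃ m, s = m + 1 := ⟨s - 1, by omega⟩
  have e1 : (2 * (m + 1) + 1) ^ 3 = (2 * (m + 1 - 1) + 1) ^ 3 + (24 * (m + 1) ^ 2 + 2) := by
    rw [Nat.add_sub_cancel]
    ring
  rw [e1, Nat.add_sub_cancel_left] at h2
  nlinarith

/-- the vectors with given `Sn` -/
theorem card_Sn (N s : ℕ) (hs : 1 ≤ s) :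
    ((cube N).filter (fun d => d ≠ 0 ∧ Sn d = s)).card ≤ 26 * s ^ 2 * (N / s) := by
  classical
  set F := (cube N).filter (fun d => d ≠ 0 ∧ Sn d = s) with hF
  have hmem : ∀ d ∈ F, nrm d ≤ N ∧ d ≠ 0 ∧ Sn d = s := by
    intro d hd
    rw [hF, mem_filter, mem_cube] at hd
    exact hd
  set P := F.image prm with hP
  have hPc : P.card ≤ 26 * s ^ 2 := by
    refine card_sphere hs P ?_
    intro x hx
    rw [hP, mem_image] at hx
    obtain ⟨d, hd, rfl⟩ := hx
    obtain ⟨-, h1, h2⟩ := hmem d hd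
    rw [(prm_spec h1).2, h2]
  have hcard : F.card ≤ (P ×ˢ Icc 1 (N / s)).card := by
    refine card_le_card_of_injOn (fun d => (prm d, cont d)) ?_ ?_
    · intro d hd
      obtain ⟨h0, h1, h2⟩ := hmem d hd
      simp only [coe_product, Set.mem_prod, mem_coe, mem_Icc]
      refine ⟨mem_image_of_mem _ hd, cont_pos h1, ?_⟩
      rw [Nat.le_div_iff_mul_le hs, ← h2, ← nrm_eq h1]
      exact h0
    · intro d hd d' hd' h
      obtain ⟨-, h1, -⟩ := hmem d hd
      obtain ⟨-, h1', -⟩ := hmem d' hd'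
      simp only [Prod.mk.injEq] at h
      funext i
      rw [prm_mul h1 i, prm_mul h1' i, h.1, h.2]
  rw [card_product, Nat.card_Icc, Nat.add_sub_cancel] at hcard
  exact hcard.trans (Nat.mul_le_mul_right _ hPc)

theorem card_Sn' (N s : ℕ) (hs : 1 ≤ s) :
    ((cube N).filter (fun d => d ≠ 0 ∧ Sn d = s)).card ≤ 26 * s * N := by
  refine (card_Sn N s hs).trans ?_
  calc 26 * s ^ 2 * (N / s) = 26 * s * (N / s * s) := by ring
    _ ≤ 26 * s * N := Nat.mul_le_mul_left _ (Nat.div_mul_le_self _ _)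

theorem Sn_le {N : ℕ} {d : V3} (h : nrm d ≤ N) (hd : d ≠ 0) : Sn d ≤ N := by
  have := nrm_eq hd
  have hc := cont_pos hd
  calc Sn d = 1 * Sn d := (one_mul _).symm
    _ ≤ cont d * Sn d := Nat.mul_le_mul_right _ hc
    _ ≤ N := by rw [← this]; exact h

theorem g2_sum : G2_sum := by
  classical
  intro N
  set F := (cube N).filter (fun d => d ≠ 0) with hF
  have hmaps : ∀ d ∈ F, Sn d ∈ Icc 1 N := by
    intro d hd
    rw [hF, mem_filter, mem_cube] at hd
    rw [mem_Icc]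
    exact ⟨Sn_pos hd.2, Sn_le hd.1 hd.2⟩
  rw [← sum_fiberwise_of_maps_to hmaps]
  have hfib : ∀ s ∈ Icc 1 N, ∑ d ∈ F.filter (fun d => Sn d = s), (1 : ℝ) / Sn d ≤ 26 * N := by
    intro s hs
    rw [mem_Icc] at hs
    have hs0 : (0 : ℝ) < s := by exact_mod_cast hs.1
    have e1 : ∑ d ∈ F.filter (fun d => Sn d = s), (1 : ℝ) / Sn d =
        (F.filter (fun d => Sn d = s)).card * (1 / (s : ℝ)) := by
      rw [← nsmul_eq_mul, ← sum_const]
      refine sum_congr rfl fun d hd => ?_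
      rw [(mem_filter.1 hd).2]
    have e2 : F.filter (fun d => Sn d = s) = (cube N).filter (fun d => d ≠ 0 ∧ Sn d = s) := by
      rw [hF, filter_filter]
    rw [e1, e2]
    have h1 : ((((cube N).filter (fun d => d ≠ 0 ∧ Sn d = s)).card : ℕ) : ℝ) ≤ 26 * s * N := by
      exact_mod_cast card_Sn' N s hs.1
    calc ((((cube N).filter (fun d => d ≠ 0 ∧ Sn d = s)).card : ℕ) : ℝ) * (1 / (s : ℝ))
        ≤ 26 * s * N * (1 / (s : ℝ)) := by gcongr
      _ = 26 * N := by field_simp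
  calc ∑ s ∈ Icc 1 N, ∑ d ∈ F.filter (fun d => Sn d = s), (1 : ℝ) / Sn d
      ≤ ∑ s ∈ Icc 1 N, 26 * (N : ℝ) := sum_le_sum hfib
    _ = 26 * (N : ℝ) ^ 2 := by
      rw [sum_const, Nat.card_Icc, Nat.add_sub_cancel, nsmul_eq_mul]
      ring

theorem g2_card : G2_card := by
  classical
  intro N s
  set F := (cube N).filter (fun d => d ≠ 0 ∧ Sn d ≤ s) with hF
  have hmaps : ∀ d ∈ F, Sn d ∈ Icc 1 s := by
    intro d hd
    rw [hF, mem_filter, mem_cube] at hd
    rw [mem_Icc]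
    exact ⟨Sn_pos hd.2.1, hd.2.2⟩
  rw [card_eq_sum_card_fiberwise hmaps]
  have hfib : ∀ t ∈ Icc 1 s, (F.filter (fun d => Sn d = t)).card ≤ 26 * N * s := by
    intro t ht
    rw [mem_Icc] at ht
    have hsub : F.filter (fun d => Sn d = t) ⊆ (cube N).filter (fun d => d ≠ 0 ∧ Sn d = t) := by
      intro d hd
      rw [mem_filter, hF, mem_filter] at hd
      rw [mem_filter]
      exact ⟨hd.1.1, hd.1.2.1, hd.2⟩
    calc (F.filter (fun d => Sn d = t)).card
        ≤ ((cube N).filter (fun d => d ≠ 0 ∧ Sn d = t)).card := card_le_card hsub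
      _ ≤ 26 * t * N := card_Sn' N t ht.1
      _ = 26 * N * t := by ring
      _ ≤ 26 * N * s := Nat.mul_le_mul_left _ ht.2
  calc ∑ t ∈ Icc 1 s, (F.filter (fun d => Sn d = t)).card ≤ ∑ t ∈ Icc 1 s, 26 * N * s :=
        sum_le_sum hfib
    _ = 26 * N * s ^ 2 := by
      rw [sum_const, Nat.card_Icc, Nat.add_sub_cancel, smul_eq_mul]
      ring

/-- a plane slice of a cube -/
theorem slice_card {a : V3} (ha : a ≠ 0) (f : ℤ) (t : ℕ) (T : Finset V3)
    (hT : ∀ x ∈ T, nrm x ≤ t ∧ dot a x = f) : T.card ≤ (2 * t + 1) ^ 2 := by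
  classical
  have key : ∀ j k : Fin 3, (∀ x ∈ T, ∀ y ∈ T, x j = y j → x k = y k → x = y) →
      T.card ≤ (2 * t + 1) ^ 2 := by
    intro j k hjk
    have h1 : T.card ≤ (Icc (-(t : ℤ)) t ×ˢ Icc (-(t : ℤ)) t).card := by
      refine card_le_card_of_injOn (fun x => (x j, x k)) ?_ ?_
      · intro x hx
        have h2 := nrm_le.1 (hT x hx).1
        have h3 := h2 j
        have h4 := h2 k
        simp only [coe_product, Set.mem_prod, mem_coe, mem_Icc]
        omega
      · intro x hx y hy h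
        simp only [Prod.mk.injEq] at h
        exact hjk x hx y hy h.1 h.2
    rw [card_product, Int.card_Icc] at h1
    have h2 : ((t : ℤ) + 1 - (-(t : ℤ))).toNat = 2 * t + 1 := by omega
    rw [h2] at h1
    calc T.card ≤ (2 * t + 1) * (2 * t + 1) := h1
      _ = _ := by ring
  by_cases h0 : a 0 = 0
  · by_cases h1 : a 1 = 0
    · have h2 : a 2 ≠ 0 := fun h2 => ha (ext3 h0 h1 h2)
      refine key 0 1 ?_
      intro x hx y hy e0 e1
      have ex := (hT x hx).2
      have ey := (hT y hy).2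
      unfold dot at ex ey
      refine ext3 e0 e1 ?_
      rw [e0, e1] at ex
      have : a 2 * x 2 = a 2 * y 2 := by linarith
      exact mul_left_cancel₀ h2 this
    · refine key 0 2 ?_
      intro x hx y hy e0 e2
      have ex := (hT x hx).2
      have ey := (hT y hy).2
      unfold dot at ex ey
      refine ext3 e0 ?_ e2
      rw [e0, e2] at ex
      have : a 1 * x 1 = a 1 * y 1 := by linarith
      exact mul_left_cancel₀ h1 this
  · refine key 1 2 ?_
    intro x hx y hy e1 e2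
    have ex := (hT x hx).2
    have ey := (hT y hy).2
    unfold dot at ex ey
    refine ext3 ?_ e1 e2
    rw [e1, e2] at ex
    have : a 0 * x 0 = a 0 * y 0 := by linarith
    exact mul_left_cancel₀ h0 this

theorem tele {n T : ℕ} (hn : 1 ≤ n) (hT : n ≤ T) :
    ∑ t ∈ Ico n T, (1 : ℝ) / (t * (t + 1)) = 1 / n - 1 / T := by
  induction T, hT using Nat.le_induction with
  | base => simp
  | succ T hT ih =>
    rw [sum_Ico_succ_top hT, ih]
    have h1 : (0 : ℝ) < T := by exact_mod_cast (by omega : 0 < T)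
    have h2 : (0 : ℝ) < n := by exact_mod_cast (by omega : 0 < n)
    push_cast
    field_simp
    ring

/-- summation by parts -/
theorem layer {ι : Type*} (P : Finset ι) (n : ι → ℕ) (T : ℕ) (hn : ∀ d ∈ P, 1 ≤ n d ∧ n d ≤ T)
    (hc : ∀ t, 1 ≤ t → (P.filter (fun d => n d ≤ t)).card ≤ 9 * t ^ 2) :
    ∑ d ∈ P, (1 : ℝ) / n d ≤ 18 * T := by
  classical
  rcases Nat.eq_zero_or_pos T with hT0 | hT0
  · have : P = ∅ := by
      rw [eq_empty_iff_forall_notMem]
      intro d hd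
      have := hn d hd
      omega
    rw [this, hT0]; simp
  have hTr : (0 : ℝ) < T := by exact_mod_cast hT0
  have e1 : ∀ d ∈ P, (1 : ℝ) / n d = 1 / T +
      ∑ t ∈ Ico 1 T, (if n d ≤ t then (1 : ℝ) / (t * (t + 1)) else 0) := by
    intro d hd
    obtain ⟨h1, h2⟩ := hn d hd
    rw [← sum_filter]
    have e2 : (Ico 1 T).filter (fun t => n d ≤ t) = Ico (n d) T := by
      ext t
      rw [mem_filter, mem_Ico, mem_Ico]
      omega
    rw [e2, tele h1 h2]
    ring
  rw [sum_congr rfl e1, sum_add_distrib, sum_const, sum_comm]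
  have h1 : (P.card : ℝ) ≤ 9 * (T : ℝ) ^ 2 := by
    have h2 : P.filter (fun d => n d ≤ T) = P := filter_true_of_mem fun d hd => (hn d hd).2
    have h3 := hc T hT0
    rw [h2] at h3
    exact_mod_cast h3
  have h2 : ∀ t ∈ Ico 1 T, ∑ d ∈ P, (if n d ≤ t then (1 : ℝ) / (t * (t + 1)) else 0) ≤ 9 := by
    intro t ht
    rw [mem_Ico] at ht
    rw [← sum_filter, sum_const, nsmul_eq_mul]
    have h3 : (((P.filter (fun d => n d ≤ t)).card : ℕ) : ℝ) ≤ 9 * (t : ℝ) ^ 2 := by
      exact_mod_cast hc t ht.1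
    have h4 : (0 : ℝ) < t := by exact_mod_cast ht.1
    calc (((P.filter (fun d => n d ≤ t)).card : ℕ) : ℝ) * (1 / (t * (t + 1)))
        ≤ 9 * (t : ℝ) ^ 2 * (1 / (t * (t + 1))) := by gcongr
      _ = 9 * (t / (t + 1)) := by field_simp
      _ ≤ 9 * 1 := by
        gcongr
        rw [div_le_one (by positivity)]
        linarith
      _ = 9 := by norm_num
  calc P.card • (1 / (T : ℝ)) + ∑ t ∈ Ico 1 T, ∑ d ∈ P,
        (if n d ≤ t then (1 : ℝ) / (t * (t + 1)) else 0)
      ≤ 9 * (T : ℝ) ^ 2 * (1 / T) + ∑ t ∈ Ico 1 T, (9 : ℝ) := by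
        rw [nsmul_eq_mul]
        gcongr with t ht
        exact h2 t ht
    _ ≤ 9 * T + 9 * T := by
        rw [sum_const, Nat.card_Ico, nsmul_eq_mul]
        have h5 : (((T - 1 : ℕ) : ℕ) : ℝ) ≤ T := by exact_mod_cast Nat.sub_le T 1
        have h6 : 9 * (T : ℝ) ^ 2 * (1 / T) = 9 * T := by field_simp
        rw [h6]
        linarith
    _ = 18 * T := by ring

theorem g2_slice : G2_slice := by
  classical
  refine ⟨18 * (1 + 1 / Real.log 2), by
    have := Real.log_pos (by norm_num : (1 : ℝ) < 2)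
    positivity, ?_⟩
  intro N hN a ha e
  set F := (cube N).filter (fun d => d ≠ 0 ∧ dot a d = e) with hF
  have hmem : ∀ d ∈ F, nrm d ≤ N ∧ d ≠ 0 ∧ dot a d = e := by
    intro d hd
    rw [hF, mem_filter, mem_cube] at hd
    exact hd
  have hmaps : ∀ d ∈ F, cont d ∈ Icc 1 N := by
    intro d hd
    obtain ⟨h0, h1, -⟩ := hmem d hd
    rw [mem_Icc]
    refine ⟨cont_pos h1, ?_⟩
    have h2 := nrm_eq h1
    have h3 := Sn_pos h1
    calc cont d = cont d * 1 := (mul_one _).symm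
      _ ≤ cont d * Sn d := Nat.mul_le_mul_left _ h3
      _ ≤ N := by rw [← h2]; exact h0
  rw [← sum_fiberwise_of_maps_to hmaps]
  have hfib : ∀ g ∈ Icc 1 N, ∑ d ∈ F.filter (fun d => cont d = g), (1 : ℝ) / Sn d ≤
      18 * N * (1 / g) := by
    intro g hg
    rw [mem_Icc] at hg
    have hg0 : (0 : ℝ) < g := by exact_mod_cast hg.1
    set Fg := F.filter (fun d => cont d = g) with hFg
    have hmg : ∀ d ∈ Fg, nrm d ≤ N ∧ d ≠ 0 ∧ dot a d = e ∧ cont d = g := by
      intro d hd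
      rw [hFg, mem_filter] at hd
      obtain ⟨h1, h2, h3⟩ := hmem d hd.1
      exact ⟨h1, h2, h3, hd.2⟩
    have hinj : Set.InjOn prm (Fg : Set V3) := by
      intro d hd d' hd' h
      obtain ⟨-, h1, -, h2⟩ := hmg d hd
      obtain ⟨-, h1', -, h2'⟩ := hmg d' hd'
      funext i
      rw [prm_mul h1 i, prm_mul h1' i, h, h2, h2']
    have e1 : ∑ d ∈ Fg, (1 : ℝ) / Sn d = ∑ x ∈ Fg.image prm, (1 : ℝ) / nrm x := by
      rw [sum_image hinj]
      refine sum_congr rfl fun d hd => ?_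
      rw [(prm_spec (hmg d hd).2.1).2]
    rw [e1]
    have h2 : ∑ x ∈ Fg.image prm, (1 : ℝ) / nrm x ≤ 18 * ((N / g : ℕ) : ℝ) := by
      refine layer _ nrm (N / g) ?_ ?_
      · intro x hx
        rw [mem_image] at hx
        obtain ⟨d, hd, rfl⟩ := hx
        obtain ⟨h1, h2, h3, h4⟩ := hmg d hd
        rw [(prm_spec h2).2]
        refine ⟨Sn_pos h2, ?_⟩
        rw [Nat.le_div_iff_mul_le hg.1, mul_comm, ← h4, ← nrm_eq h2]
        exact h1
      · intro t ht
        refine le_trans (slice_card ha (e / g) t _ ?_) ?_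
        · intro x hx
          rw [mem_filter, mem_image] at hx
          obtain ⟨⟨d, hd, rfl⟩, hxt⟩ := hx
          refine ⟨hxt, ?_⟩
          obtain ⟨h1, h2, h3, h4⟩ := hmg d hd
          have h5 : dot a d = (g : ℤ) * dot a (prm d) := by
            unfold dot
            rw [prm_mul h2 0, prm_mul h2 1, prm_mul h2 2, h4]
            ring
          rw [← h3, h5, Int.mul_ediv_cancel_left _ (by exact_mod_cast hg0.ne')]
        · nlinarith
    calc ∑ x ∈ Fg.image prm, (1 : ℝ) / nrm x ≤ 18 * ((N / g : ℕ) : ℝ) := h2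
      _ ≤ 18 * ((N : ℝ) / g) := by
        gcongr
        exact Nat.cast_div_le
      _ = _ := by ring
  have hlog2 := Real.log_pos (by norm_num : (1 : ℝ) < 2)
  have hlogN : Real.log 2 ≤ Real.log N := Real.log_le_log (by norm_num) (by exact_mod_cast hN)
  have hharm : ∑ g ∈ Icc 1 N, (1 : ℝ) / g ≤ 1 + Real.log N := by
    have h1 := harmonic_le_one_add_log N
    have h2 : ((harmonic N : ℚ) : ℝ) = ∑ g ∈ Icc 1 N, (1 : ℝ) / g := by
      rw [harmonic_eq_sum_Icc]
      push_cast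
      refine sum_congr rfl fun g _ => ?_
      rw [one_div]
    rw [h2] at h1
    exact h1
  calc ∑ g ∈ Icc 1 N, ∑ d ∈ F.filter (fun d => cont d = g), (1 : ℝ) / Sn d
      ≤ ∑ g ∈ Icc 1 N, 18 * (N : ℝ) * (1 / g) := sum_le_sum hfib
    _ = 18 * N * ∑ g ∈ Icc 1 N, (1 : ℝ) / g := by rw [mul_sum]
    _ ≤ 18 * N * (1 + Real.log N) := by gcongr
    _ ≤ 18 * N * ((1 + 1 / Real.log 2) * Real.log N) := by
      gcongr
      have h3 : 1 ≤ 1 / Real.log 2 * Real.log N := by
        rw [one_div, inv_mul_eq_div, le_div_iff₀ hlog2, one_mul]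
        exact hlogN
      linarith
    _ = _ := by ring

theorem g2a : G2_sum ∧ G2_card ∧ G2_slice := ⟨g2_sum, g2_card, g2_slice⟩

end Pool.Agent.TH370.MP325
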