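import Pool.Agent.TH149.WR.Stm

set_option autoImplicit false

namespace Pool.Agent.TH370.J1055

open Pool.Agent.TH149.WR
open Finset

/-- the main induction -/
lemma main {n : ℕ} (G : SimpleGraph (Fin n)) (ε c : ℝ) (hε : 0 < ε) (hc : 0 < c)
    (h2 : 1 ≤ 2 * ε ^ c)
    (hG : ∀ U : Finset (Fin n), 2 ≤ U.card → ∃ A ⊆ U, ∃ B ⊆ U, Disjoint A B ∧
      ε * (U.card : ℝ) ≤ (A.card : ℝ) ∧ ε * (U.card : ℝ) ≤ (B.card : ℝ) ∧
      ((∀ a ∈ A, ∀ b ∈ B, G.Adj a b) ∨ (∀ a ∈ A, ∀ b ∈ B, ¬ G.Adj a b))) :
    ∀ (N : ℕ) (U : Finset (Fin n)), U.card ≤ N → ∃ K ⊆ U, ∃ I ⊆ U,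
      G.IsClique (K : Set (Fin n)) ∧ G.IsIndepSet (I : Set (Fin n)) ∧
      (U.card : ℝ) ^ c ≤ (K.card : ℝ) * (I.card : ℝ) := by
  intro N
  induction N with
  | zero =>
    intro U hU
    have h0 : U.card = 0 := by omega
    refine ⟨∅, by simp, ∅, by simp, by simp, ?_, ?_⟩
    · intro x hx; simp at hx
    · rw [h0]; simp [Real.zero_rpow hc.ne']
  | succ N ih =>
    intro U hU
    rcases Nat.lt_or_ge U.card 2 with hU2 | hU2
    · rcases Nat.eq_zero_or_pos U.card with h0 | h0
      · exact ih U (by omega)
      · have h1 : U.card = 1 := by omega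
        obtain ⟨x, hx⟩ := Finset.card_eq_one.1 h1
        refine ⟨U, Subset.refl _, U, Subset.refl _, ?_, ?_, ?_⟩
        · rw [hx]; simp
        · rw [hx]; intro a ha b hb hab
          simp only [coe_singleton, Set.mem_singleton_iff] at ha hb
          exact absurd (ha.trans hb.symm) hab
        · rw [h1]; simp
    · obtain ⟨A, hA, B, hB, hdis, hAc, hBc, hAB⟩ := hG U hU2
      have hUpos : (0 : ℝ) < U.card := by
        have : 0 < U.card := by omega
        exact_mod_cast this
      have hApos : 0 < A.card := by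
        have : (0 : ℝ) < A.card := lt_of_lt_of_le (by positivity) hAc
        exact_mod_cast this
      have hBpos : 0 < B.card := by
        have : (0 : ℝ) < B.card := lt_of_lt_of_le (by positivity) hBc
        exact_mod_cast this
      have hsum : A.card + B.card ≤ U.card := by
        rw [← Finset.card_union_of_disjoint hdis]
        exact Finset.card_le_card (Finset.union_subset hA hB)
      obtain ⟨KA, hKA, IA, hIA, hKAc, hIAc, hA2⟩ := ih A (by omega)
      obtain ⟨KB, hKB, IB, hIB, hKBc, hIBc, hB2⟩ := ih B (by omega)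
      have hpow : (U.card : ℝ) ^ c ≤ (A.card : ℝ) ^ c + (B.card : ℝ) ^ c := by
        have e1 : (ε * (U.card : ℝ)) ^ c ≤ (A.card : ℝ) ^ c :=
          Real.rpow_le_rpow (by positivity) hAc hc.le
        have e2 : (ε * (U.card : ℝ)) ^ c ≤ (B.card : ℝ) ^ c :=
          Real.rpow_le_rpow (by positivity) hBc hc.le
        have e3 : (ε * (U.card : ℝ)) ^ c = ε ^ c * (U.card : ℝ) ^ c :=
          Real.mul_rpow hε.le hUpos.le
        have e4 : 0 ≤ (U.card : ℝ) ^ c := by positivity
        nlinarith
      rcases hAB with hco | hanti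
      · -- complete: union of cliques
        have hcl : G.IsClique ((KA ∪ KB : Finset (Fin n)) : Set (Fin n)) := by
          intro x hx y hy hxy
          rw [Finset.coe_union] at hx hy
          rcases hx with hx | hx <;> rcases hy with hy | hy
          · exact hKAc hx hy hxy
          · exact hco x (hKA hx) y (hKB hy)
          · exact (hco y (hKA hy) x (hKB hx)).symm
          · exact hKBc hx hy hxy
        have hcard : ((KA ∪ KB).card : ℝ) = KA.card + KB.card := by
          rw [Finset.card_union_of_disjoint (Finset.disjoint_of_subset_left hKA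
            (Finset.disjoint_of_subset_right hKB hdis))]
          push_cast; rfl
        have hsub : KA ∪ KB ⊆ U := Finset.union_subset (hKA.trans hA) (hKB.trans hB)
        rcases le_total IA.card IB.card with hle | hle
        · refine ⟨KA ∪ KB, hsub, IB, hIB.trans hB, hcl, hIBc, ?_⟩
          rw [hcard]
          have : (IA.card : ℝ) ≤ IB.card := by exact_mod_cast hle
          calc (U.card : ℝ) ^ c ≤ (A.card : ℝ) ^ c + (B.card : ℝ) ^ c := hpow
            _ ≤ KA.card * IA.card + KB.card * IB.card := add_le_add hA2 hB2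
            _ ≤ KA.card * IB.card + KB.card * IB.card := by gcongr
            _ = _ := by ring
        · refine ⟨KA ∪ KB, hsub, IA, hIA.trans hA, hcl, hIAc, ?_⟩
          rw [hcard]
          have : (IB.card : ℝ) ≤ IA.card := by exact_mod_cast hle
          calc (U.card : ℝ) ^ c ≤ (A.card : ℝ) ^ c + (B.card : ℝ) ^ c := hpow
            _ ≤ KA.card * IA.card + KB.card * IB.card := add_le_add hA2 hB2
            _ ≤ KA.card * IA.card + KB.card * IA.card := by gcongr
            _ = _ := by ring
      · have hind : G.IsIndepSet ((IA ∪ IB : Finset (Fin n)) : Set (Fin n)) := by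
          intro x hx y hy hxy
          rw [Finset.coe_union] at hx hy
          rcases hx with hx | hx <;> rcases hy with hy | hy
          · exact hIAc hx hy hxy
          · exact hanti x (hIA hx) y (hIB hy)
          · exact fun h => hanti y (hIA hy) x (hIB hx) h.symm
          · exact hIBc hx hy hxy
        have hcard : ((IA ∪ IB).card : ℝ) = IA.card + IB.card := by
          rw [Finset.card_union_of_disjoint (Finset.disjoint_of_subset_left hIA
            (Finset.disjoint_of_subset_right hIB hdis))]
          push_cast; rfl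
        have hsub : IA ∪ IB ⊆ U := Finset.union_subset (hIA.trans hA) (hIB.trans hB)
        rcases le_total KA.card KB.card with hle | hle
        · refine ⟨KB, hKB.trans hB, IA ∪ IB, hsub, hKBc, hind, ?_⟩
          rw [hcard]
          have : (KA.card : ℝ) ≤ KB.card := by exact_mod_cast hle
          calc (U.card : ℝ) ^ c ≤ (A.card : ℝ) ^ c + (B.card : ℝ) ^ c := hpow
            _ ≤ KA.card * IA.card + KB.card * IB.card := add_le_add hA2 hB2
            _ ≤ KB.card * IA.card + KB.card * IB.card := by gcongr
            _ = _ := by ring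
        · refine ⟨KA, hKA.trans hA, IA ∪ IB, hsub, hKAc, hind, ?_⟩
          rw [hcard]
          have : (KB.card : ℝ) ≤ KA.card := by exact_mod_cast hle
          calc (U.card : ℝ) ^ c ≤ (A.card : ℝ) ^ c + (B.card : ℝ) ^ c := hpow
            _ ≤ KA.card * IA.card + KB.card * IB.card := add_le_add hA2 hB2
            _ ≤ KA.card * IA.card + KA.card * IB.card := by gcongr
            _ = _ := by ring

theorem pure : S_pure := by
  intro ε hε
  set η : ℝ := min ε (1 / 2) with hη
  have hη0 : 0 < η := lt_min hε (by norm_num)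
  have hη1 : η ≤ 1 / 2 := min_le_right _ _
  have hηε : η ≤ ε := min_le_left _ _
  have hlog : Real.log η < 0 := Real.log_neg hη0 (by linarith)
  set c : ℝ := -(Real.log 2) / Real.log η with hc
  have hc0 : 0 < c := div_pos_of_neg_of_neg (neg_neg_of_pos (Real.log_pos (by norm_num))) hlog
  have h2 : 1 ≤ 2 * η ^ c := by
    rw [Real.rpow_def_of_pos hη0, hc, mul_div_cancel₀ _ hlog.ne, Real.exp_neg,
      Real.exp_log (by norm_num)]
    norm_num
  refine ⟨c / 2, by positivity, ?_⟩
  intro n G hG
  obtain ⟨K, -, I, -, hK, hI, hKI⟩ := main G η c hη0 hc0 h2 (by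
    intro U hU
    obtain ⟨A, hA, B, hB, hd, h1, h3, h4⟩ := hG U hU
    refine ⟨A, hA, B, hB, hd, le_trans ?_ h1, le_trans ?_ h3, h4⟩ <;> gcongr) n univ (by simp)
  rw [Finset.card_univ, Fintype.card_fin] at hKI
  have hsq : ((n : ℝ) ^ (c / 2)) ^ 2 = (n : ℝ) ^ c := by
    rw [← Real.rpow_natCast, ← Real.rpow_mul (by positivity)]
    congr 1
    push_cast
    ring
  rcases le_total K.card I.card with hle | hle
  · refine ⟨I, Or.inr hI, ?_⟩
    have h5 : (K.card : ℝ) ≤ I.card := by exact_mod_cast hle
    refine le_of_sq_le_sq ?_ (by positivity)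
    rw [hsq]
    calc (n : ℝ) ^ c ≤ K.card * I.card := hKI
      _ ≤ I.card * I.card := by gcongr
      _ = _ := by ring
  · refine ⟨K, Or.inl hK, ?_⟩
    have h5 : (I.card : ℝ) ≤ K.card := by exact_mod_cast hle
    refine le_of_sq_le_sq ?_ (by positivity)
    rw [hsq]
    calc (n : ℝ) ^ c ≤ K.card * I.card := hKI
      _ ≤ K.card * K.card := by gcongr
      _ = _ := by ring

end Pool.Agent.TH370.J1055
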