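import Pool.Agent.TH149.WR.Stm

set_option autoImplicit false

namespace Pool.Agent.TH370.J1058

open Pool.Agent.TH149.WR
open Finset

/-- adjacency on natural numbers -/
def A (j x y : ℕ) : Prop := tadj j x y ∨ tadj j y x

lemma adj_iff {j : ℕ} (x y : Fin (j + 7)) : (T j).Adj x y ↔ A j x y := Iff.rfl

/-- neighbours, explicitly -/
lemma A_cases {j u a : ℕ} (h : A j u a) :
    (u ≤ j + 4 ∧ a ≤ j + 4 ∧ (a + 1 = u ∨ a = u + 1)) ∨ (a = j + 5 ∧ u = 2) ∨
      (a = j + 6 ∧ u = j + 2) ∨ (u = j + 5 ∧ a = 2) ∨ (u = j + 6 ∧ a = j + 2) := by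
  unfold A tadj at h
  omega

lemma A_of {j u a : ℕ} (h : (u ≤ j + 4 ∧ a ≤ j + 4 ∧ (a + 1 = u ∨ a = u + 1)) ∨
    (a = j + 5 ∧ u = 2) ∨ (a = j + 6 ∧ u = j + 2) ∨ (u = j + 5 ∧ a = 2) ∨
      (u = j + 6 ∧ a = j + 2)) : A j u a := by
  unfold A tadj
  omega

lemma A_iff {j u a : ℕ} : A j u a ↔ (u ≤ j + 4 ∧ a ≤ j + 4 ∧ (a + 1 = u ∨ a = u + 1)) ∨
    (a = j + 5 ∧ u = 2) ∨ (a = j + 6 ∧ u = j + 2) ∨ (u = j + 5 ∧ a = 2) ∨
      (u = j + 6 ∧ a = j + 2) := ⟨A_cases, A_of⟩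

lemma A_symm {j x y : ℕ} (h : A j x y) : A j y x := Or.symm h

lemma key_up {j u y : ℕ} (hj : 1 ≤ j) (hu : u + 2 ≤ j + 4) (hy : A j u y) (hne : y ≠ u + 1) :
    u + 2 < j + 7 ∧ ¬ A j (u + 2) u ∧ u + 2 ≠ u ∧ A j (u + 2) (u + 1) ∧ ¬ A j (u + 2) y := by
  rw [A_iff] at hy
  refine ⟨by omega, ?_, by omega, ?_, ?_⟩
  · rw [A_iff]; omega
  · rw [A_iff]; omega
  · rw [A_iff]; omega

lemma key_dn {j u y : ℕ} (hj : 1 ≤ j) (hu : 2 ≤ u) (hu4 : u ≤ j + 4) (hy : A j u y)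
    (hne : y + 1 ≠ u) :
    u - 2 < j + 7 ∧ ¬ A j (u - 2) u ∧ u - 2 ≠ u ∧ A j (u - 2) (u - 1) ∧ ¬ A j (u - 2) y := by
  rw [A_iff] at hy
  refine ⟨by omega, ?_, by omega, ?_, ?_⟩
  · rw [A_iff]; omega
  · rw [A_iff]; omega
  · rw [A_iff]; omega

lemma key {j u x y : ℕ} (hj : 1 ≤ j) (hx : A j u x) (hy : A j u y) (hne : x ≠ y) :
    ∃ w, w < j + 7 ∧ ¬ A j w u ∧ w ≠ u ∧ ((A j w x ∧ ¬ A j w y) ∨ (A j w y ∧ ¬ A j w x)) := by
  have hx' := A_cases hx
  have hy' := A_cases hy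
  have hcases : (x = u + 1 ∧ u + 2 ≤ j + 4) ∨ (y = u + 1 ∧ u + 2 ≤ j + 4) ∨
      (x + 1 = u ∧ 2 ≤ u ∧ u ≤ j + 4) ∨ (y + 1 = u ∧ 2 ≤ u ∧ u ≤ j + 4) := by
    omega
  rcases hcases with ⟨h1, h2⟩ | ⟨h1, h2⟩ | ⟨h1, h2, h3⟩ | ⟨h1, h2, h3⟩
  · obtain ⟨a1, a2, a3, a4, a5⟩ := key_up hj h2 hy (by omega)
    refine ⟨u + 2, a1, a2, a3, Or.inl ⟨?_, a5⟩⟩
    rw [h1]; exact a4
  · obtain ⟨a1, a2, a3, a4, a5⟩ := key_up hj h2 hx (by omega)
    refine ⟨u + 2, a1, a2, a3, Or.inr ⟨?_, a5⟩⟩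
    rw [h1]; exact a4
  · obtain ⟨a1, a2, a3, a4, a5⟩ := key_dn hj h2 h3 hy (by omega)
    refine ⟨u - 2, a1, a2, a3, Or.inl ⟨?_, a5⟩⟩
    have : x = u - 1 := by omega
    rw [this]; exact a4
  · obtain ⟨a1, a2, a3, a4, a5⟩ := key_dn hj h2 h3 hx (by omega)
    refine ⟨u - 2, a1, a2, a3, Or.inr ⟨?_, a5⟩⟩
    have : y = u - 1 := by omega
    rw [this]; exact a4

/-- connectivity: a nonempty set closed under adjacency is everything -/
lemma conn {j : ℕ} (P : ℕ → Prop) (hne : ∃ x < j + 7, P x)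
    (hcl : ∀ x y, x < j + 7 → y < j + 7 → A j x y → P x → P y) : ∀ x < j + 7, P x := by
  have down : ∀ x ≤ j + 4, P x → P 0 := by
    intro x
    induction x with
    | zero => intro _ h; exact h
    | succ x ih =>
      intro hx h
      refine ih (by omega) (hcl (x + 1) x (by omega) (by omega) ?_ h)
      rw [A_iff]; omega
  have up : P 0 → ∀ x ≤ j + 4, P x := by
    intro h0 x
    induction x with
    | zero => intro _; exact h0
    | succ x ih =>
      intro hx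
      refine hcl x (x + 1) (by omega) (by omega) ?_ (ih (by omega))
      rw [A_iff]; omega
  have h0 : P 0 := by
    obtain ⟨x, hx, hPx⟩ := hne
    rcases Nat.lt_or_ge x (j + 5) with h | h
    · exact down x (by omega) hPx
    · rcases Nat.lt_or_ge x (j + 6) with h' | h'
      · refine down 2 (by omega) (hcl x 2 hx (by omega) ?_ hPx)
        rw [A_iff]; omega
      · refine down (j + 2) (by omega) (hcl x (j + 2) hx (by omega) ?_ hPx)
        rw [A_iff]; omega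
  intro x hx
  rcases Nat.lt_or_ge x (j + 5) with h | h
  · exact up h0 x (by omega)
  · rcases Nat.lt_or_ge x (j + 6) with h' | h'
    · refine hcl 2 x (by omega) hx ?_ (up h0 2 (by omega))
      rw [A_iff]; omega
    · refine hcl (j + 2) x (by omega) hx ?_ (up h0 (j + 2) (by omega))
      rw [A_iff]; omega

lemma prime (j : ℕ) (hj : 1 ≤ j) : IsPrime (T j) := by
  intro M hM
  by_contra hcon
  push Not at hcon
  obtain ⟨hns, hnu⟩ := hcon
  obtain ⟨x, hx, y, hy, hxy⟩ := hns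
  -- an edge leaving `M`
  have hedge : ∃ u v : Fin (j + 7), u ∉ M ∧ v ∈ M ∧ (T j).Adj u v := by
    by_contra hno
    push Not at hno
    apply hnu
    rw [Set.eq_univ_iff_forall]
    have h := conn (j := j) (fun n => ∃ h : n < j + 7, (⟨n, h⟩ : Fin (j + 7)) ∈ M)
      ⟨x, x.2, x.2, hx⟩ (by
        rintro a b ha hb hab ⟨_, haM⟩
        refine ⟨hb, ?_⟩
        by_contra hbM
        exact hno ⟨b, hb⟩ ⟨a, ha⟩ hbM haM (A_symm hab))
    intro z
    obtain ⟨h1, h2⟩ := h z z.2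
    exact h2
  obtain ⟨u, v, hu, hv, huv⟩ := hedge
  have hux : (T j).Adj u x := (hM u hu v hv x hx).1 huv
  have huy : (T j).Adj u y := (hM u hu v hv y hy).1 huv
  obtain ⟨w, hw, h1, h2, h3⟩ := key hj (x := x) (y := y) hux huy
    (fun h => hxy (Fin.ext h))
  have hwM : (⟨w, hw⟩ : Fin (j + 7)) ∉ M := by
    intro hin
    have : (T j).Adj u ⟨w, hw⟩ := (hM u hu v hv _ hin).1 huv
    exact h1 (A_symm this)
  have h4 := hM _ hwM x hx y hy
  rcases h3 with ⟨h5, h6⟩ | ⟨h5, h6⟩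
  · exact h6 (h4.1 h5)
  · exact h6 (h4.2 h5)

/-- vertices with three neighbours -/
lemma three {j u a b c : ℕ} (ha : A j u a) (hb : A j u b) (hc : A j u c) (hab : a ≠ b)
    (hac : a ≠ c) (hbc : b ≠ c) : u = 2 ∨ u = j + 2 := by
  have ha := A_cases ha
  have hb := A_cases hb
  have hc := A_cases hc
  omega

lemma four {j u a b c d : ℕ} (hj : 1 ≤ j) (ha : A j u a) (hb : A j u b) (hc : A j u c)
    (hd : A j u d) (hab : a ≠ b) (hac : a ≠ c) (had : a ≠ d) (hbc : b ≠ c) (hbd : b ≠ d)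
    (hcd : c ≠ d) : False := by
  rcases three ha hb hc hab hac hbc with h | h
  · have ha := A_cases ha
    have hb := A_cases hb
    have hc := A_cases hc
    have hd := A_cases hd
    subst h
    omega
  · have ha := A_cases ha
    have hb := A_cases hb
    have hc := A_cases hc
    have hd := A_cases hd
    subst h
    omega

/-- position along the path -/
def pos (j x : ℕ) : ℕ := if x = j + 5 then 2 else if x = j + 6 then j + 2 else x

lemma pos_adj {j x y : ℕ} (h : A j x y) : pos j x ≤ pos j y + 1 ∧ pos j y ≤ pos j x + 1 := by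
  have h := A_cases h
  unfold pos
  split_ifs <;> omega

lemma incl (i j : ℕ) (h : Nonempty (T i ↪g T j)) : i = j := by
  obtain ⟨f⟩ := h
  have hcard : i + 7 ≤ j + 7 := by
    have := Fintype.card_le_of_injective f f.injective
    simpa using this
  by_contra hne
  have hij : i < j := by omega
  have hadj : ∀ a b : ℕ, ∀ (ha : a < i + 7) (hb : b < i + 7), A i a b →
      A j (f ⟨a, ha⟩) (f ⟨b, hb⟩) := by
    intro a b ha hb hab
    exact f.map_adj_iff.2 (show (T i).Adj ⟨a, ha⟩ ⟨b, hb⟩ from hab)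
  have hinj : ∀ a b : ℕ, ∀ (ha : a < i + 7) (hb : b < i + 7), a ≠ b →
      (f ⟨a, ha⟩ : ℕ) ≠ f ⟨b, hb⟩ := by
    intro a b ha hb hab h
    have h1 : f ⟨a, ha⟩ = f ⟨b, hb⟩ := Fin.ext h
    have h2 := f.injective h1
    exact hab (by simpa using h2)
  have n1 : A i 2 1 := by rw [A_iff]; omega
  have n2 : A i 2 3 := by rw [A_iff]; omega
  have n3 : A i 2 (i + 5) := by rw [A_iff]; omega
  have m1 : A i (i + 2) (i + 1) := by rw [A_iff]; omega
  have m2 : A i (i + 2) (i + 3) := by rw [A_iff]; omega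
  have m3 : A i (i + 2) (i + 6) := by rw [A_iff]; omega
  rcases Nat.eq_zero_or_pos i with h0 | hpos
  · have m3' : A i 2 (i + 6) := by rw [A_iff]; omega
    exact four (by omega) (hadj 2 1 (by omega) (by omega) n1)
      (hadj 2 3 (by omega) (by omega) n2) (hadj 2 (i + 5) (by omega) (by omega) n3)
      (hadj 2 (i + 6) (by omega) (by omega) m3')
      (hinj _ _ _ _ (by omega)) (hinj _ _ _ _ (by omega)) (hinj _ _ _ _ (by omega))
      (hinj _ _ _ _ (by omega)) (hinj _ _ _ _ (by omega)) (hinj _ _ _ _ (by omega))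
  · have e1 := three (hadj 2 1 (by omega) (by omega) n1)
      (hadj 2 3 (by omega) (by omega) n2) (hadj 2 (i + 5) (by omega) (by omega) n3)
      (hinj _ _ _ _ (by omega)) (hinj _ _ _ _ (by omega)) (hinj _ _ _ _ (by omega))
    have e2 := three (hadj (i + 2) (i + 1) (by omega) (by omega) m1)
      (hadj (i + 2) (i + 3) (by omega) (by omega) m2)
      (hadj (i + 2) (i + 6) (by omega) (by omega) m3)
      (hinj _ _ _ _ (by omega)) (hinj _ _ _ _ (by omega)) (hinj _ _ _ _ (by omega))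
    have e3 : (f ⟨2, by omega⟩ : ℕ) ≠ f ⟨i + 2, by omega⟩ := hinj 2 (i + 2) _ _ (by omega)
    have walk : ∀ t, ∀ (ht : t ≤ i), pos j (f ⟨2 + t, by omega⟩) ≤ pos j (f ⟨2, by omega⟩) + t ∧
        pos j (f ⟨2, by omega⟩) ≤ pos j (f ⟨2 + t, by omega⟩) + t := by
      intro t
      induction t with
      | zero => intro _; simp
      | succ t ih =>
        intro ht
        obtain ⟨g1, g2⟩ := ih (by omega)
        have hs : A i (2 + t) (2 + (t + 1)) := by rw [A_iff]; omega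
        obtain ⟨g3, g4⟩ := pos_adj (hadj (2 + t) (2 + (t + 1)) (by omega) (by omega) hs)
        omega
    obtain ⟨g1, g2⟩ := walk i le_rfl
    have e4 : (⟨2 + i, by omega⟩ : Fin (i + 7)) = ⟨i + 2, by omega⟩ := Fin.ext (by simp; omega)
    rw [e4] at g1 g2
    have p2 : pos j 2 = 2 := by unfold pos; split_ifs <;> omega
    have pj : pos j (j + 2) = j + 2 := by unfold pos; split_ifs <;> omega
    rcases e1 with e1 | e1 <;> rcases e2 with e2 | e2
    · exact e3 (e1.trans e2.symm)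
    · rw [e1, e2, p2, pj] at g1; omega
    · rw [e1, e2, p2, pj] at g2; omega
    · exact e3 (e1.trans e2.symm)

lemma notri {j a b c : ℕ} (h1 : A j a b) (h2 : A j b c) (h3 : A j a c) : False := by
  have h1 := A_cases h1
  have h2 := A_cases h2
  have h3 := A_cases h3
  omega

lemma noco (i j : ℕ) : ¬ Nonempty (T i ↪g (T j)ᶜ) := by
  rintro ⟨f⟩
  have hc : ∀ a b : Fin (i + 7), a ≠ b → ¬ (T i).Adj a b → (T j).Adj (f a) (f b) := by
    intro a b hab hnadj
    have h1 : f a ≠ f b := fun h => hab (f.injective h)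
    have h2 : ¬ (T j)ᶜ.Adj (f a) (f b) := fun h => hnadj (f.map_adj_iff.1 h)
    rw [SimpleGraph.compl_adj] at h2
    by_contra h3
    exact h2 ⟨h1, h3⟩
  have k : ∀ a b : ℕ, ∀ (ha : a < i + 7) (hb : b < i + 7), a ≠ b → ¬ A i a b →
      A j (f ⟨a, ha⟩) (f ⟨b, hb⟩) := by
    intro a b ha hb hab hn
    exact hc ⟨a, ha⟩ ⟨b, hb⟩ (fun h => hab (by simpa using h)) hn
  have h1 := k 0 2 (by omega) (by omega) (by omega) (by rw [A_iff]; omega)
  have h2 := k 2 4 (by omega) (by omega) (by omega) (by rw [A_iff]; omega)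
  have h3 := k 0 4 (by omega) (by omega) (by omega) (by rw [A_iff]; omega)
  exact notri h1 h2 h3

theorem tree : S_tree := ⟨prime, incl, noco⟩

end Pool.Agent.TH370.J1058
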