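import Pool.Agent.TH370.CCPoly

/-!
# CC-A-1: sampling a contraction gives a chain of polygons
-/

set_option autoImplicit false

universe u

namespace Pool.Agent.TH317.CC.H370A

open Pool.Agent.TH317.CC

variable {M : Type u} [MetricSpace M]

lemma cl_range (F : ℕ → M) (B : ℕ) (hB : 1 ≤ B) (h : F B = F 0) :
    cl ((List.range B).map F) = (List.range (B + 1)).map F := by
  obtain ⟨b, rfl⟩ : ∃ b, B = b + 1 := ⟨B - 1, by omega⟩
  rw [List.range_succ (n := b + 1), List.map_append]
  have e : (List.range (b + 1)).map F = F 0 :: ((List.range b).map Nat.succ).map F := by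
    rw [List.range_succ_eq_map, List.map_cons]
  rw [e]
  simp [cl, h]

lemma chl_range (F : ℕ → M) (n : ℕ) :
    chl ((List.range (n + 1)).map F) = ∑ j ∈ Finset.range n, dist (F j) (F (j + 1)) := by
  induction n with
  | zero => simp [chl]
  | succ n ih =>
    rw [List.range_succ, List.range_succ]
    simp only [List.map_append, List.map_cons, List.map_nil, List.append_assoc,
      List.cons_append, List.nil_append]
    rw [chl_snoc, Finset.sum_range_succ, ← ih, List.range_succ]
    simp

lemma chain_range {R : M → M → Prop} (F : ℕ → M) (n : ℕ) (h : ∀ j < n, R (F j) (F (j + 1))) :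
    List.IsChain R ((List.range (n + 1)).map F) := by
  induction n with
  | zero => simp
  | succ n ih =>
    rw [List.range_succ, List.map_append, List.isChain_append]
    refine ⟨ih fun j hj => h j (by omega), by simp, ?_⟩
    intro x hx y hy
    rw [List.range_succ, List.map_append] at hx
    simp at hx hy
    rw [← hx, ← hy]
    exact h n (by omega)

/-- a row of the homotopy -/
noncomputable def row (H : C(unitInterval × UnitAddCircle, M)) (t : unitInterval) (B : ℕ) :
    List M :=
  (List.range B).map (fun j : ℕ => H (t, (((j : ℝ) / B : ℝ) : UnitAddCircle)))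

lemma sample_eq (γ : C(UnitAddCircle, M)) (N : ℕ) :
    sample γ N = (List.range N).map (fun k : ℕ => γ (((k : ℝ) / N : ℝ) : UnitAddCircle)) := by
  have e : ∀ l : List ℕ, (do let a ← l; pure (a : ℝ)) = l.map (fun k : ℕ => (k : ℝ)) := by
    intro l
    induction l with
    | nil => rfl
    | cons a l ih => simpa using ih
  unfold sample
  rw [e, List.map_map]
  rfl

lemma closes (H : C(unitInterval × UnitAddCircle, M)) (t : unitInterval) {B : ℕ} (hB : 1 ≤ B) :
    H (t, (((B : ℝ) / B : ℝ) : UnitAddCircle)) = H (t, ((((0 : ℕ) : ℝ) / B : ℝ) : UnitAddCircle)) := by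
  have : (B : ℝ) ≠ 0 := by positivity
  rw [div_self this, Nat.cast_zero, zero_div]
  have h1 : ((1 : ℝ) : UnitAddCircle) = ((0 : ℝ) : UnitAddCircle) := by
    rw [AddCircle.coe_period]; simp
  rw [h1]

lemma dist_coe_le (a b : ℝ) : dist (a : UnitAddCircle) (b : UnitAddCircle) ≤ |a - b| := by
  rw [dist_eq_norm, ← AddCircle.coe_sub, UnitAddCircle.norm_eq]
  have := round_le (a - b) 0
  simpa using this

/-- the length of a row -/
lemma row_length_le (H : C(unitInterval × UnitAddCircle, M)) (t : unitInterval) {B : ℕ}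
    (hB : 1 ≤ B) {L0 : ℝ} (h0 : 0 ≤ L0)
    (hL : clen (fun x => H (t, x)) ≤ ENNReal.ofReal L0) : chl (cl (row H t B)) ≤ L0 := by
  unfold row
  rw [cl_range _ B hB (closes H t hB), chl_range]
  have hB0 : (0:ℝ) < B := by exact_mod_cast hB
  set f : ℝ → M := fun s => H (t, (s : UnitAddCircle)) with hf
  set u : ℕ → ℝ := fun i => min ((i:ℝ) / B) 1 with hu
  have hmono : Monotone u := by
    intro i j hij
    have : (i:ℝ) / B ≤ (j:ℝ) / B := by
      apply div_le_div_of_nonneg_right _ hB0.le
      exact_mod_cast hij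
    exact min_le_min this le_rfl
  have hmem : ∀ i, u i ∈ Set.Icc (0:ℝ) 1 := by
    intro i
    refine ⟨le_min (by positivity) (by norm_num), min_le_right _ _⟩
  have h1 := eVariationOn.sum_le (f := f) (n := B) hmono hmem
  have hui : ∀ i, i ≤ B → u i = (i:ℝ) / B := by
    intro i hi
    simp only [hu]
    apply min_eq_left
    rw [div_le_one hB0]
    exact_mod_cast hi
  have h2 : ∑ i ∈ Finset.range B, edist (f (u (i + 1))) (f (u i)) =
      ENNReal.ofReal (∑ j ∈ Finset.range B, dist (H (t, (((j : ℝ) / B : ℝ) : UnitAddCircle)))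
        (H (t, ((((j + 1 : ℕ) : ℝ) / B : ℝ) : UnitAddCircle)))) := by
    rw [ENNReal.ofReal_sum_of_nonneg (fun _ _ => dist_nonneg)]
    apply Finset.sum_congr rfl
    intro j hj
    have hj' := Finset.mem_range.mp hj
    rw [edist_dist, hui (j + 1) (by omega), hui j (by omega), dist_comm]
  rw [h2] at h1
  have h3 := h1.trans hL
  rwa [ENNReal.ofReal_le_ofReal_iff h0] at h3

lemma row_zero {p N : ℕ} (hp : 0 < p) (hN : 0 < N) (γ : C(UnitAddCircle, M))
    (H : C(unitInterval × UnitAddCircle, M)) (hH : ∀ x, H (0, x) = mult p γ x) :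
    row H 0 (p * N) = (List.replicate p (sample γ N)).flatten := by
  have hp0 : (p:ℝ) ≠ 0 := by positivity
  have hN0 : (N:ℝ) ≠ 0 := by positivity
  have key : ∀ q : ℕ, (List.range (q * N)).map (fun j : ℕ => γ (((j : ℝ) / N : ℝ) : UnitAddCircle)) =
      (List.replicate q (sample γ N)).flatten := by
    intro q
    induction q with
    | zero => simp
    | succ q ih =>
      rw [List.replicate_succ', List.flatten_append, ← ih]
      have e : (q + 1) * N = q * N + N := by ring
      rw [e, List.range_add, List.map_append]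
      congr 1
      simp only [List.flatten_cons, List.flatten_nil, List.append_nil, List.map_map]
      rw [sample_eq]
      apply List.map_congr_left
      intro k _
      simp only [Function.comp]
      push_cast
      have : ((q:ℝ) * N + k) / N = (k:ℝ) / N + q := by field_simp; ring
      rw [this, AddCircle.coe_add]
      have h2 : ((q : ℝ) : UnitAddCircle) = 0 := by
        have := AddCircle.coe_period (1:ℝ)
        have h3 : ((q : ℝ) : UnitAddCircle) = q • ((1:ℝ) : UnitAddCircle) := by
          rw [← AddCircle.coe_nsmul]; simp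
        rw [h3, this, smul_zero]
      rw [h2, add_zero]
  rw [← key p]
  unfold row
  apply List.map_congr_left
  intro j _
  rw [hH]
  show γ (p • _) = _
  congr 1
  rw [← AddCircle.coe_nsmul]
  congr 1
  push_cast
  rw [nsmul_eq_mul]
  field_simp

end Pool.Agent.TH317.CC.H370A

namespace Pool.Agent.TH317.CC

open Pool.Agent.TH317.CC.H370A

theorem chain_of_contrLe {M : Type u} [MetricSpace M] (p : ℕ) (hp : 0 < p)
    (γ : C(UnitAddCircle, M)) (L0 L1 : ℝ) (h01 : L0 < L1) (h0 : 0 ≤ L0)
    (h : ContrLe (mult p γ) L0) :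
    ∃ K, IsCompact K ∧ K.Nonempty ∧ ∀ b > 0, ∃ N0, ∀ N ≥ N0,
      PContr b L1 K (List.replicate p (sample γ N)).flatten := by
  obtain ⟨H, hH0, ⟨c, hHc⟩, hHL⟩ := h
  refine ⟨Set.range H, isCompact_range H.continuous, Set.range_nonempty _, ?_⟩
  intro b hb
  have huc : UniformContinuous H := CompactSpace.uniformContinuous_of_continuous H.continuous
  obtain ⟨δ1, hδ1, hd1⟩ := Metric.uniformContinuous_iff.mp huc (b / 4) (by linarith)
  obtain ⟨N0, hN0⟩ := exists_nat_gt (1 / δ1)
  refine ⟨N0 + 1, fun N hN => ?_⟩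
  have hN1 : 0 < N := by omega
  have hNr : 1 / δ1 < N := lt_trans hN0 (by exact_mod_cast (by omega : N0 < N))
  set B : ℕ := p * N with hB
  have hB1 : 1 ≤ B := Nat.mul_pos hp hN1
  have hB0 : (0:ℝ) < B := by exact_mod_cast hB1
  have hBN : (N:ℝ) ≤ B := by exact_mod_cast Nat.le_mul_of_pos_left N hp
  have hBδ : 1 / (B:ℝ) < δ1 := by
    rw [div_lt_iff₀ hδ1] at hNr
    rw [div_lt_iff₀ hB0]
    nlinarith
  -- parameters
  set η : ℝ := min (b / 8) ((L1 - L0) / (4 * (B + 2))) with hη
  have hη0 : 0 < η := lt_min (by linarith) (div_pos (by linarith) (by positivity))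
  have hη1 : η ≤ b / 8 := min_le_left _ _
  have hη2 : 2 * η * ((B:ℝ) + 2) < L1 - L0 := by
    have : η ≤ (L1 - L0) / (4 * (B + 2)) := min_le_right _ _
    rw [le_div_iff₀ (by positivity)] at this
    nlinarith
  obtain ⟨δ2, hδ2, hd2⟩ := Metric.uniformContinuous_iff.mp huc η hη0
  obtain ⟨A, hA⟩ := exists_nat_gt (1 / δ2)
  have hA0 : (0:ℝ) < A := lt_trans (by positivity) hA
  have hAδ : 1 / (A:ℝ) < δ2 := by
    rw [div_lt_iff₀ hδ2] at hA
    rw [div_lt_iff₀ hA0]
    linarith
  set tt : ℕ → unitInterval := fun i => Set.projIcc 0 1 zero_le_one ((i:ℝ) / A) with htt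
  have htt1 : ∀ i, dist (tt i) (tt (i + 1)) < δ2 := by
    intro i
    have e1 : dist (tt i) (tt (i + 1)) = |((tt i : ℝ) - (tt (i + 1) : ℝ))| := rfl
    have e2 : |((tt i : ℝ) - (tt (i + 1) : ℝ))| ≤ |(i:ℝ) / A - ((i + 1 : ℕ) : ℝ) / A| :=
      Set.abs_projIcc_sub_projIcc _
    have e3 : |(i:ℝ) / A - ((i + 1 : ℕ) : ℝ) / A| = 1 / A := by
      push_cast
      rw [← sub_div, abs_div, abs_of_pos hA0]
      congr 1
      have : (i:ℝ) - (i + 1) = -1 := by ring
      rw [this]; norm_num
    rw [e1]
    linarith
  -- properties of rows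
  have hchain : ∀ t, List.IsChain (fun a a' => dist a a' ≤ b / 4) (cl (row H t B)) := by
    intro t
    unfold row
    rw [cl_range _ B hB1 (closes H t hB1)]
    apply chain_range
    intro j _
    apply le_of_lt
    apply hd1
    rw [Prod.dist_eq]
    simp only [dist_self]
    apply max_lt hδ1
    refine lt_of_le_of_lt (dist_coe_le _ _) ?_
    have e3 : |(j:ℝ) / B - ((j + 1 : ℕ) : ℝ) / B| = 1 / B := by
      push_cast
      rw [← sub_div, abs_div, abs_of_pos hB0]
      congr 1
      have : (j:ℝ) - (j + 1) = -1 := by ring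
      rw [this]; norm_num
    rw [e3]
    exact hBδ
  have hlen : ∀ t, chl (cl (row H t B)) ≤ L0 := fun t => row_length_le H t hB1 h0 (hHL t)
  have hmem : ∀ t, ∀ y ∈ row H t B, y ∈ Set.range H := by
    intro t y hy
    unfold row at hy
    obtain ⟨j, -, rfl⟩ := List.mem_map.mp hy
    exact ⟨_, rfl⟩
  have hrl : ∀ t, (row H t B).length = B := by
    intro t; simp [row]
  have hcls : ∀ i, Cls' η (row H (tt i) B) (row H (tt (i + 1)) B) := by
    intro i
    unfold Cls' row
    rw [List.forall₂_map_left_iff, List.forall₂_map_right_iff, List.forall₂_same]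
    intro j _
    apply le_of_lt
    apply hd2
    rw [Prod.dist_eq]
    simp only [dist_self]
    exact max_lt (htt1 i) hδ2
  have hstep : ∀ i, Cn b L1 (Set.range H) (row H (tt i) B) (row H (tt (i + 1)) B) := by
    intro i
    have := replace_all (r := b) (ℓ := L1) (S := Set.range H) (η := η) (s := b / 4) (ℓ0 := L0)
      hη0.le (by linarith) (by linarith) (row H (tt i) B) (row H (tt (i + 1)) B) [] []
      (by simpa using hchain (tt i)) (by simpa using hlen (tt i))
      (by
        simp only [List.nil_append, hrl]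
        linarith)
      List.Forall₂.nil (hcls i) (by simp) (hmem _) (hmem _)
    simpa using this
  have hall : ∀ i, Cn b L1 (Set.range H) (row H (tt 0) B) (row H (tt i) B) := by
    intro i
    induction i with
    | zero => exact Cn.refl
    | succ i ih => exact ih.trans (hstep i)
  have ht0 : tt 0 = 0 := by
    simp only [htt]
    apply Subtype.ext
    simp
  have htA : tt A = 1 := by
    simp only [htt]
    rw [div_self hA0.ne']
    apply Subtype.ext
    simp
  have hrow0 : row H (tt 0) B = (List.replicate p (sample γ N)).flatten := by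
    rw [ht0, hB]
    exact row_zero hp hN1 γ H hH0
  have hrowA : row H (tt A) B = List.replicate (B - 1 + 1) c := by
    rw [htA, Nat.sub_add_cancel hB1]
    unfold row
    apply List.eq_replicate_iff.mpr
    refine ⟨by simp, ?_⟩
    intro y hy
    obtain ⟨j, -, rfl⟩ := List.mem_map.mp hy
    exact hHc _
  have hc : c ∈ Set.range H := ⟨(1, 0), hHc 0⟩
  refine ⟨c, ?_⟩
  have f1 := hall A
  rw [hrow0, hrowA] at f1
  exact f1.trans (const_contr hc hb.le (by linarith) (B - 1))

end Pool.Agent.TH317.CC
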