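import Pool.Agent.TH370.CCA1

/-!
# CC-A-5: realizing an elementary polygon move by a homotopy of curves
-/

set_option autoImplicit false

universe u

namespace Pool.Agent.TH317.CC.H370B

open Pool.Agent.TH317.CC Pool.Agent.TH317.CC.H370A

variable {M : Type u} [MetricSpace M]

/-- the curve as a function on the line -/
def ln (f : UnitAddCircle → M) : ℝ → M := fun t => f (t : UnitAddCircle)

lemma ln_add_one (f : UnitAddCircle → M) (t : ℝ) : ln f (t + 1) = ln f t := by
  unfold ln
  rw [AddCircle.coe_add, AddCircle.coe_period, add_zero]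

/-- shifting arcs by a period -/
lemma var_shift (f : UnitAddCircle → M) (a b : ℝ) :
    eVariationOn (ln f) (Set.Icc (a + 1) (b + 1)) = eVariationOn (ln f) (Set.Icc a b) := by
  have h := eVariationOn.comp_eq_of_monotoneOn (ln f) (t := Set.Icc a b) (fun t : ℝ => t + 1)
    (fun x _ y _ hxy => by simpa using hxy)
  rw [Set.image_add_const_Icc] at h
  rw [← h]
  congr 1
  funext t
  exact ln_add_one f t

/-- vertices of a polygon, the last one being the first one -/
def pt (x : M) (l : List M) (k : ℕ) : M := (x :: l).getD k x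

lemma pt_zero (x : M) (l : List M) : pt x l 0 = x := rfl

lemma pt_one (x y : M) (l : List M) : pt x (y :: l) 1 = y := rfl

lemma pt_two (x y : M) (l : List M) (k : ℕ) : pt x (y :: l) (k + 2) = pt x l (k + 1) := rfl

lemma pt_last (x : M) (l : List M) : pt x l (l.length + 1) = x := by
  unfold pt
  exact List.getD_eq_default _ _ (by simp)

lemma pt_eq (x : M) (l : List M) (k : ℕ) (hk : k < (x :: l).length) : (x :: l)[k] = pt x l k := by
  unfold pt
  rw [List.getD_eq_getElem _ _ hk]

lemma pt_next (x : M) (l : List M) (k : ℕ) (hk : k < (x :: l).length) :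
    (x :: l)[(k + 1) % (x :: l).length]'(Nat.mod_lt _ (by omega)) = pt x l (k + 1) := by
  rcases Nat.lt_or_ge (k + 1) (x :: l).length with h | h
  · have : (k + 1) % (x :: l).length = k + 1 := Nat.mod_eq_of_lt h
    simp only [this]
    exact pt_eq x l (k + 1) h
  · have h2 : k + 1 = (x :: l).length := by omega
    have : (k + 1) % (x :: l).length = 0 := by rw [h2]; exact Nat.mod_self _
    simp only [this]
    have h3 : k + 1 = l.length + 1 := by simpa using h2
    have h4 : pt x l (k + 1) = x := by rw [h3]; exact pt_last x l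
    rw [h4]
    rfl

/-- knots realizing a polygon -/
structure Rz (ε : ℝ) (f : C(UnitAddCircle, M)) (x : M) (l : List M) (τ : ℕ → ℝ) : Prop where
  mono : StrictMono τ
  per : τ (l.length + 1) = τ 0 + 1
  val : ∀ k, k < l.length + 1 → ln f (τ k) = pt x l k
  arc : ∀ k, k < l.length + 1 → eVariationOn (ln f) (Set.Icc (τ k) (τ (k + 1))) ≤
    ENNReal.ofReal (dist (pt x l k) (pt x l (k + 1)) + ε)

lemma realizes_iff (ε : ℝ) (f : C(UnitAddCircle, M)) (x : M) (l : List M) :
    Realizes ε f (x :: l) ↔ ∃ τ, Rz ε f x l τ := by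
  constructor
  · rintro ⟨τ, h1, h2, h3⟩
    refine ⟨τ, h1, by simpa using h2, ?_, ?_⟩
    · intro k hk
      have hk' : k < (x :: l).length := by simpa using hk
      rw [← pt_eq x l k hk']
      exact (h3 k hk').1
    · intro k hk
      have hk' : k < (x :: l).length := by simpa using hk
      rw [← pt_eq x l k hk', ← pt_next x l k hk']
      exact (h3 k hk').2
  · rintro ⟨τ, h1, h2, h3, h4⟩
    refine ⟨τ, h1, by simpa using h2, ?_⟩
    intro k hk
    have hk' : k < l.length + 1 := by simpa using hk
    rw [pt_next x l k hk, pt_eq x l k hk]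
    exact ⟨h3 k hk', h4 k hk'⟩

lemma cl_eq_range (x : M) (l : List M) :
    cl (x :: l) = (List.range (l.length + 1 + 1)).map (pt x l) := by
  have e : x :: l = (List.range (l.length + 1)).map (pt x l) := by
    apply List.ext_getElem
    · simp
    · intro k h1 h2
      rw [List.getElem_map, List.getElem_range]
      exact pt_eq x l k h1
  have h := cl_range (pt x l) (l.length + 1) (by omega) (by rw [pt_last, pt_zero])
  rw [← e] at h
  exact h

lemma chl_cl (x : M) (l : List M) :
    chl (cl (x :: l)) = ∑ k ∈ Finset.range (l.length + 1), dist (pt x l k) (pt x l (k + 1)) := by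
  rw [cl_eq_range, chl_range]

lemma chain_range' {R : M → M → Prop} (F : ℕ → M) (n : ℕ)
    (h : List.IsChain R ((List.range (n + 1)).map F)) : ∀ j < n, R (F j) (F (j + 1)) := by
  induction n with
  | zero => intro j hj; omega
  | succ n ih =>
    rw [List.range_succ, List.map_append, List.isChain_append] at h
    intro j hj
    rcases Nat.lt_or_ge j n with h1 | h1
    · exact ih h.1 j h1
    · have : j = n := by omega
      subst this
      apply h.2.2
      · rw [List.range_succ, List.map_append]; simp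
      · simp

lemma good_step {s ℓ : ℝ} {S : Set M} {x : M} {l : List M} (h : Good s ℓ S (x :: l)) :
    ∀ k, k < l.length + 1 → dist (pt x l k) (pt x l (k + 1)) ≤ s := by
  have h1 := (good_iff.mp h).2.1
  rw [cl_eq_range] at h1
  exact chain_range' _ _ h1

lemma good_sum {s ℓ : ℝ} {S : Set M} {x : M} {l : List M} (h : Good s ℓ S (x :: l)) :
    ∑ k ∈ Finset.range (l.length + 1), dist (pt x l k) (pt x l (k + 1)) < ℓ := by
  rw [← chl_cl]
  exact (good_iff.mp h).2.2.1

/-- total length of consecutive arcs -/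
lemma var_arcs (F : ℝ → M) (τ : ℕ → ℝ) (hτ : StrictMono τ) (q : ℕ → ℝ) (hq0 : ∀ k, 0 ≤ q k)
    {i j : ℕ} (hij : i ≤ j)
    (hq : ∀ k, k < j → eVariationOn F (Set.Icc (τ k) (τ (k + 1))) ≤ ENNReal.ofReal (q k)) :
    eVariationOn F (Set.Icc (τ i) (τ j)) ≤ ENNReal.ofReal (∑ k ∈ Finset.Ico i j, q k) := by
  obtain ⟨n, rfl⟩ := Nat.exists_eq_add_of_le hij
  have h := eVariationOn.sum' F (I := fun k => τ (i + k))
    (fun a b hab => hτ.monotone (by omega)) (n := n)
  simp only [Nat.add_zero] at h
  rw [← h, Finset.sum_Ico_eq_sum_range, Nat.add_sub_cancel_left,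
    ENNReal.ofReal_sum_of_nonneg (fun k _ => hq0 _)]
  apply Finset.sum_le_sum
  intro k hk
  have hk' := Finset.mem_range.mp hk
  exact hq (i + k) (by omega)

lemma dist_lt_of_var {F : ℝ → M} {c d v r : ℝ} (hcd : c ≤ d)
    (hv : eVariationOn F (Set.Icc c d) ≤ ENNReal.ofReal v) (hvr : v < r) (hr : 0 < r) {t : ℝ}
    (ht : t ∈ Set.Icc c d) : dist (F t) (F c) < r := by
  have h1 := (eVariationOn.edist_le F ht (Set.left_mem_Icc.mpr hcd)).trans hv
  rw [edist_dist] at h1
  have h2 : ENNReal.ofReal (dist (F t) (F c)) < ENNReal.ofReal r :=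
    lt_of_le_of_lt h1 ((ENNReal.ofReal_lt_ofReal_iff hr).mpr hvr)
  exact (ENNReal.ofReal_lt_ofReal_iff hr).mp h2

/-- replacing the first `j` arcs -/
lemma modify {K : Set M} {r₀ : ℝ} (hr₀ : 0 < r₀) {C₀ : NNReal}
    (hR : ∀ x ∈ K, ∀ (f : C(UnitAddCircle, M)) (c d : ℝ) (g : ℝ → M) (ℓ : ENNReal), c < d →
      d ≤ c + 1 →
      ContinuousOn g (Set.Icc c d) → g c = f (c : UnitAddCircle) → g d = f (d : UnitAddCircle) →
      (∀ t ∈ Set.Icc c d, f (t : UnitAddCircle) ∈ Metric.ball x r₀) →
      (∀ t ∈ Set.Icc c d, g t ∈ Metric.ball x r₀) →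
      eVariationOn (fun t : ℝ => f (t : UnitAddCircle)) (Set.Icc c d) ≤ ℓ →
      eVariationOn g (Set.Icc c d) ≤ ℓ →
      ∃ f' : C(UnitAddCircle, M), (∀ t ∈ Set.Icc c d, f' (t : UnitAddCircle) = g t) ∧
        (∀ t ∈ Set.Icc d (c + 1), f' (t : UnitAddCircle) = f (t : UnitAddCircle)) ∧
        ∀ L : ℝ, eVariationOn (fun t : ℝ => f (t : UnitAddCircle)) (Set.Icc d (c + 1)) + C₀ * ℓ
          < ENNReal.ofReal L → HomLt f f' L)
    {f : C(UnitAddCircle, M)} {τ : ℕ → ℝ} {m j : ℕ} (hτ : StrictMono τ) (hm : τ m = τ 0 + 1)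
    (hj0 : 0 < j) (hjm : j ≤ m) {q : ℕ → ℝ} (hq0 : ∀ k, 0 ≤ q k)
    (hq : ∀ k, k < m → eVariationOn (ln f) (Set.Icc (τ k) (τ (k + 1))) ≤ ENNReal.ofReal (q k))
    {g : ℝ → M} (hg : ContinuousOn g (Set.Icc (τ 0) (τ j))) (hg0 : g (τ 0) = ln f (τ 0))
    (hg1 : g (τ j) = ln f (τ j)) (hx : ln f (τ 0) ∈ K) {v : ℝ}
    (hv : eVariationOn g (Set.Icc (τ 0) (τ j)) ≤ ENNReal.ofReal v)
    (hv' : ∑ k ∈ Finset.Ico 0 j, q k ≤ v) (hvr : v < r₀) {L : ℝ}
    (hL : ∑ k ∈ Finset.Ico j m, q k + C₀ * v < L) :
    ∃ f' : C(UnitAddCircle, M), (∀ t ∈ Set.Icc (τ 0) (τ j), ln f' t = g t) ∧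
      (∀ t ∈ Set.Icc (τ j) (τ m), ln f' t = ln f t) ∧ HomLt f f' L := by
  have hcd : τ 0 < τ j := hτ hj0
  have hd : τ j ≤ τ 0 + 1 := by rw [← hm]; exact hτ.monotone hjm
  have hv0 : 0 ≤ v := le_trans (Finset.sum_nonneg fun k _ => hq0 k) hv'
  have hfv : eVariationOn (ln f) (Set.Icc (τ 0) (τ j)) ≤ ENNReal.ofReal v :=
    (var_arcs (ln f) τ hτ q hq0 hj0.le (fun k hk => hq k (by omega))).trans
      (ENNReal.ofReal_le_ofReal hv')
  obtain ⟨f', h1, h2, h3⟩ := hR (ln f (τ 0)) hx f (τ 0) (τ j) g (ENNReal.ofReal v) hcd hd hg hg0 hg1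
    (fun t ht => dist_lt_of_var (F := ln f) hcd.le hfv hvr hr₀ ht)
    (fun t ht => by
      have := dist_lt_of_var (F := g) hcd.le hv hvr hr₀ ht
      rw [hg0] at this
      exact this)
    hfv hv
  refine ⟨f', h1, ?_, ?_⟩
  · rw [hm]; exact h2
  · apply h3
    have e1 : eVariationOn (ln f) (Set.Icc (τ j) (τ 0 + 1)) ≤
        ENNReal.ofReal (∑ k ∈ Finset.Ico j m, q k) := by
      rw [← hm]
      exact var_arcs (ln f) τ hτ q hq0 hjm hq
    have e2 : (C₀ : ENNReal) * ENNReal.ofReal v = ENNReal.ofReal (C₀ * v) := by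
      rw [ENNReal.ofReal_mul C₀.coe_nonneg, ENNReal.ofReal_coe_nnreal]
    have e3 : ENNReal.ofReal (∑ k ∈ Finset.Ico j m, q k) + ENNReal.ofReal (C₀ * v) =
        ENNReal.ofReal (∑ k ∈ Finset.Ico j m, q k + C₀ * v) :=
      (ENNReal.ofReal_add (Finset.sum_nonneg fun k _ => hq0 k)
        (mul_nonneg C₀.coe_nonneg hv0)).symm
    have e4 : 0 ≤ ∑ k ∈ Finset.Ico j m, q k + C₀ * v :=
      add_nonneg (Finset.sum_nonneg fun k _ => hq0 k) (mul_nonneg C₀.coe_nonneg hv0)
    have e5 : ENNReal.ofReal (∑ k ∈ Finset.Ico j m, q k + C₀ * v) < ENNReal.ofReal L :=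
      (ENNReal.ofReal_lt_ofReal_iff (lt_of_le_of_lt e4 hL)).mpr hL
    refine lt_of_le_of_lt ?_ e5
    rw [← e3, ← e2]
    exact add_le_add e1 le_rfl

/-- concatenation of two arcs -/
lemma concat {c d e : ℝ} (hcd : c ≤ d) (hde : d ≤ e) {g1 g2 : ℝ → M}
    (h1 : ContinuousOn g1 (Set.Icc c d)) (h2 : ContinuousOn g2 (Set.Icc d e))
    (h : g1 d = g2 d) :
    ∃ g : ℝ → M, ContinuousOn g (Set.Icc c e) ∧ Set.EqOn g g1 (Set.Icc c d) ∧
      Set.EqOn g g2 (Set.Icc d e) := by
  have k1 : Set.EqOn (fun t => if t ≤ d then g1 t else g2 t) g1 (Set.Icc c d) := by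
    intro t ht
    simp [ht.2]
  have k2 : Set.EqOn (fun t => if t ≤ d then g1 t else g2 t) g2 (Set.Icc d e) := by
    intro t ht
    rcases eq_or_lt_of_le ht.1 with h3 | h3
    · simp [← h3, h]
    · simp [not_le.mpr h3]
  refine ⟨fun t => if t ≤ d then g1 t else g2 t, ?_, k1, k2⟩
  rw [← Set.Icc_union_Icc_eq_Icc hcd hde]
  exact (h1.congr k1).union_of_isClosed (h2.congr k2) isClosed_Icc isClosed_Icc

lemma homLt_self {f : C(UnitAddCircle, M)} {L : ℝ} (h : clen f < ENNReal.ofReal L) :
    HomLt f f L :=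
  ⟨⟨fun p => f p.2, f.continuous.comp continuous_snd⟩, fun _ => rfl, fun _ => rfl, fun _ => h⟩

/-- the length of a realization -/
lemma clen_lt (hcs : ∀ (f : UnitAddCircle → M) (c d : ℝ) (_ : c ≤ d) (_ : d ≤ c + 1),
      clen f = eVariationOn (fun t : ℝ => f (t : UnitAddCircle)) (Set.Icc c d) +
      eVariationOn (fun t : ℝ => f (t : UnitAddCircle)) (Set.Icc d (c + 1)))
    {ε : ℝ} (hε : 0 ≤ ε) {f : C(UnitAddCircle, M)} {x : M} {l : List M} {τ : ℕ → ℝ}
    (h : Rz ε f x l τ) {L : ℝ}
    (hL : ∑ k ∈ Finset.range (l.length + 1), (dist (pt x l k) (pt x l (k + 1)) + ε) < L) :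
    clen f < ENNReal.ofReal L := by
  have h1 := hcs f (τ 0) (τ 0) le_rfl (by linarith)
  rw [Set.Icc_self, eVariationOn.subsingleton _ Set.subsingleton_singleton, zero_add,
    ← h.per] at h1
  have h0 : ∀ k, 0 ≤ dist (pt x l k) (pt x l (k + 1)) + ε := fun k => add_nonneg dist_nonneg hε
  have h2 := var_arcs (ln f) τ h.mono (fun k => dist (pt x l k) (pt x l (k + 1)) + ε) h0
    (Nat.zero_le (l.length + 1)) h.arc
  rw [h1]
  refine lt_of_le_of_lt h2 ?_
  rw [← Finset.range_eq_Ico, ENNReal.ofReal_lt_ofReal_iff]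
  · exact hL
  · exact lt_of_le_of_lt (Finset.sum_nonneg fun k _ => h0 k) hL

/-! ### rotations -/

lemma getD_rot (w x : M) (l : List M) (k : ℕ) (hk : k ≤ l.length + 1) :
    pt w (l ++ [x]) k = pt x (w :: l) (k + 1) := by
  unfold pt
  rw [List.getD_cons_succ, ← List.cons_append]
  rcases Nat.lt_or_ge k (l.length + 1) with h | h
  · rw [List.getD_append _ _ _ _ (by simpa using h), List.getD_eq_getElem _ _ (by simpa using h),
      List.getD_eq_getElem _ _ (by simpa using h)]
  · have : k = l.length + 1 := by omega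
    subst this
    rw [List.getD_append_right _ _ _ _ (by simp), List.getD_eq_default (w :: l) x (by simp)]
    simp

lemma rz_rot {ε : ℝ} {f : C(UnitAddCircle, M)} {x w : M} {l : List M} {τ : ℕ → ℝ}
    (h : Rz ε f x (w :: l) τ) : ∃ τ', Rz ε f w (l ++ [x]) τ' := by
  have hlen : (w :: l).length + 1 = l.length + 2 := by simp
  have hlen' : (l ++ [x]).length + 1 = l.length + 2 := by simp
  have hper : τ (l.length + 2) = τ 0 + 1 := by rw [← hlen]; exact h.per
  refine ⟨fun k => if k < l.length + 2 then τ (k + 1) else τ 1 + 1 + ((k:ℝ) - (l.length + 2 : ℕ)),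
    ?_, ?_, ?_, ?_⟩
  · apply strictMono_nat_of_lt_succ
    intro k
    rcases lt_trichotomy (k + 1) (l.length + 2) with h1 | h1 | h1
    · simp only [h1, show k < l.length + 2 by omega, if_true]
      exact h.mono (by omega)
    · simp only [h1, show k < l.length + 2 by omega, if_true, lt_irrefl, if_false, sub_self,
        add_zero, hper]
      have := h.mono (show 0 < 1 by omega)
      linarith
    · simp only [show ¬ (k + 1 < l.length + 2) by omega, show ¬ (k < l.length + 2) by omega,
        if_false]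
      push_cast
      linarith
  · rw [hlen']
    simp
  · intro k hk
    rw [hlen'] at hk
    simp only [hk, if_true]
    rw [getD_rot w x l k (by omega)]
    rcases Nat.lt_or_ge (k + 1) (l.length + 2) with h1 | h1
    · exact h.val (k + 1) (by rw [hlen]; exact h1)
    · have h2 : k + 1 = l.length + 2 := by omega
      rw [h2, hper, ln_add_one, h.val 0 (by omega), pt_zero]
      have := pt_last x (w :: l)
      rw [hlen] at this
      exact this.symm
  · intro k hk
    rw [hlen'] at hk
    simp only [hk, if_true]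
    rcases Nat.lt_or_ge (k + 1) (l.length + 2) with h1 | h1
    · simp only [h1, if_true]
      rw [getD_rot w x l k (by omega), getD_rot w x l (k + 1) (by omega)]
      exact h.arc (k + 1) (by rw [hlen]; exact h1)
    · have h2 : k + 1 = l.length + 2 := by omega
      simp only [show ¬ (k + 1 < l.length + 2) by omega, if_false]
      have e1 : ((k + 1 : ℕ) : ℝ) - (l.length + 2 : ℕ) = 0 := by rw [h2]; ring
      rw [e1, add_zero, getD_rot w x l k (by omega), h2, hper, var_shift]
      have e2 : pt x (w :: l) (l.length + 2) = x := by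
        have := pt_last x (w :: l)
        rwa [hlen] at this
      have e3 : pt w (l ++ [x]) (l.length + 2) = w := by
        have := pt_last w (l ++ [x])
        rwa [hlen'] at this
      rw [e2, e3]
      have := h.arc 0 (by omega)
      rw [pt_zero] at this
      exact this

lemma rz_rot' {ε : ℝ} {f : C(UnitAddCircle, M)} {x w : M} {l : List M} {τ : ℕ → ℝ}
    (h : Rz ε f w (l ++ [x]) τ) : ∃ τ', Rz ε f x (w :: l) τ' := by
  have hlen : (w :: l).length + 1 = l.length + 2 := by simp
  have hlen' : (l ++ [x]).length + 1 = l.length + 2 := by simp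
  have hper : τ (l.length + 2) = τ 0 + 1 := by rw [← hlen']; exact h.per
  refine ⟨fun k => match k with
    | 0 => τ (l.length + 1) - 1
    | k + 1 => τ k, ?_, ?_, ?_, ?_⟩
  · apply strictMono_nat_of_lt_succ
    intro k
    cases k with
    | zero =>
      have := h.mono (show l.length + 1 < l.length + 2 by omega)
      simp only
      linarith
    | succ k => exact h.mono (by omega)
  · rw [hlen]
    simp only
    ring
  · intro k hk
    rw [hlen] at hk
    cases k with
    | zero =>
      simp only
      rw [← ln_add_one]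
      have : τ (l.length + 1) - 1 + 1 = τ (l.length + 1) := by ring
      rw [this, h.val (l.length + 1) (by omega), getD_rot w x l _ le_rfl, pt_zero]
      have := pt_last x (w :: l)
      rwa [hlen] at this
    | succ k =>
      simp only
      rw [h.val k (by omega), getD_rot w x l k (by omega)]
  · intro k hk
    rw [hlen] at hk
    cases k with
    | zero =>
      simp only
      rw [← var_shift]
      have : τ (l.length + 1) - 1 + 1 = τ (l.length + 1) := by ring
      rw [this, ← hper]
      have h1 := h.arc (l.length + 1) (by omega)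
      rw [getD_rot w x l _ le_rfl] at h1
      have e2 : pt x (w :: l) (l.length + 1 + 1) = x := by
        have := pt_last x (w :: l)
        rwa [hlen] at this
      have e3 : pt w (l ++ [x]) (l.length + 1 + 1) = w := by
        have := pt_last w (l ++ [x])
        rwa [hlen'] at this
      rw [e2, e3] at h1
      rw [pt_zero, pt_one]
      exact h1
    | succ k =>
      simp only
      have h1 := h.arc k (by omega)
      rw [getD_rot w x l k (by omega), getD_rot w x l (k + 1) (by omega)] at h1
      exact h1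

end Pool.Agent.TH317.CC.H370B

namespace Pool.Agent.TH317.CC

open Pool.Agent.TH317.CC.H370A Pool.Agent.TH317.CC.H370B

theorem realize_step {M : Type u} [MetricSpace M] (hR : ArcReplace M) (hN : NearArc M)
    (hcs : ∀ (f : UnitAddCircle → M) (c d : ℝ) (_ : c ≤ d) (_ : d ≤ c + 1),
      clen f = eVariationOn (fun t : ℝ => f (t : UnitAddCircle)) (Set.Icc c d) +
      eVariationOn (fun t : ℝ => f (t : UnitAddCircle)) (Set.Icc d (c + 1)))
    (K : Set M) (hK : IsCompact K) (L1 L : ℝ) (h1 : L1 < L) :
    ∃ s > 0, ∀ n : ℕ, ∃ ε₀ > 0, ∀ ε > 0, ε ≤ ε₀ → ∀ (f : C(UnitAddCircle, M)) (P P' : List M),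
      PStepN n s L1 K P P' → Realizes ε f P →
        ∃ f' : C(UnitAddCircle, M), Realizes ε f' P' ∧ HomLt f f' L := by
  obtain ⟨r₀, hr₀, C₀, hC₀, hR'⟩ := hR K hK
  obtain ⟨r₁, hr₁, hN'⟩ := hN K hK
  have hC0 : (0:ℝ) ≤ C₀ := C₀.coe_nonneg
  set s : ℝ := min (min (r₀ / 8) (r₁ / 2)) ((L - L1) / (8 * (C₀ + 1))) with hs
  have hs0 : 0 < s := lt_min (lt_min (by linarith) (by linarith))
    (div_pos (by linarith) (by positivity))
  have hs1 : s ≤ r₀ / 8 := (min_le_left _ _).trans (min_le_left _ _)
  have hs2 : s ≤ r₁ / 2 := (min_le_left _ _).trans (min_le_right _ _)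
  have hs3 : C₀ * (2 * s) ≤ (L - L1) / 4 := by
    have : s ≤ (L - L1) / (8 * (C₀ + 1)) := min_le_right _ _
    rw [le_div_iff₀ (by positivity)] at this
    nlinarith
  refine ⟨s, hs0, fun n => ?_⟩
  set ε₀ : ℝ := min s ((L - L1) / (8 * (n + C₀ + 1))) with hε₀
  refine ⟨ε₀, lt_min hs0 (div_pos (by linarith) (by positivity)), ?_⟩
  intro ε hε hεle f P P' hP hf
  have hn0 : (0:ℝ) ≤ n := Nat.cast_nonneg n
  have he1 : ε ≤ s := hεle.trans (min_le_left _ _)
  have he2 : n * ε + C₀ * (2 * ε) ≤ (L - L1) / 4 := by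
    have : ε ≤ (L - L1) / (8 * (n + C₀ + 1)) := hεle.trans (min_le_right _ _)
    rw [le_div_iff₀ (by positivity)] at this
    nlinarith [mul_nonneg hn0 hε.le, mul_nonneg hC0 hε.le]
  have hv : C₀ * (2 * s + 2 * ε) + n * ε ≤ (L - L1) / 2 := by nlinarith
  have hvr : 2 * s + 2 * ε < r₀ := by linarith
  obtain ⟨⟨gP, gP', hmove⟩, hl, hl'⟩ := hP
  -- the sum over a good polygon
  have hsum : ∀ (x : M) (l : List M), Good s L1 K (x :: l) → (x :: l).length ≤ n →
      ∑ k ∈ Finset.range (l.length + 1), (dist (pt x l k) (pt x l (k + 1)) + ε) < L1 + n * ε := by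
    intro x l hg hlen
    rw [Finset.sum_add_distrib, Finset.sum_const, Finset.card_range, nsmul_eq_mul]
    have e1 := good_sum hg
    have e2 : ((l.length + 1 : ℕ) : ℝ) ≤ n := by exact_mod_cast (by simpa using hlen)
    have e3 := mul_le_mul_of_nonneg_right e2 hε.le
    linarith
  have hself : ∀ (x : M) (l : List M) (τ : ℕ → ℝ), Good s L1 K (x :: l) → (x :: l).length ≤ n →
      Rz ε f x l τ → HomLt f f L := by
    intro x l τ hg hlen hτ
    refine homLt_self (clen_lt hcs hε.le hτ ?_)
    have := hsum x l hg hlen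
    have : 0 ≤ C₀ * (2 * s + 2 * ε) := by positivity
    linarith
  rcases hmove with hmove | hmove
  · cases hmove with
    | rot x l =>
      cases l with
      | nil => exact ⟨f, hf, by
          obtain ⟨τ, hτ⟩ := (realizes_iff ε f x []).mp hf
          exact hself x [] τ gP hl hτ⟩
      | cons w l =>
        obtain ⟨τ, hτ⟩ := (realizes_iff ε f x (w :: l)).mp hf
        obtain ⟨τ', hτ'⟩ := rz_rot hτ
        exact ⟨f, (realizes_iff ε f w (l ++ [x])).mpr ⟨τ', hτ'⟩, hself _ _ τ gP hl hτ⟩
    | ins x y l =>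
      -- insertion of a vertex
      obtain ⟨τ, hτ⟩ := (realizes_iff ε f x l).mp hf
      have hst := good_step gP
      have hst' := good_step gP'
      have hxK : x ∈ K := (good_iff.mp gP).2.2.2 x (by simp)
      have hyK : y ∈ K := (good_iff.mp gP').2.2.2 y (by simp)
      have hcd : τ 0 < τ 1 := hτ.mono (by omega)
      set mid : ℝ := (τ 0 + τ 1) / 2 with hmid
      have hm1 : τ 0 < mid := by rw [hmid]; linarith
      have hm2 : mid < τ 1 := by rw [hmid]; linarith
      have d1 : dist x y ≤ s := hst' 0 (by simp)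
      have d2 : dist y (pt x l 1) ≤ s := hst' 1 (by simp)
      have d3 : dist x (pt x l 1) ≤ s := hst 0 (by simp)
      obtain ⟨g1, g1c, g1a, g1b, g1v⟩ := hN' x hxK y (by linarith) ε hε (τ 0) mid hm1
      obtain ⟨g2, g2c, g2a, g2b, g2v⟩ := hN' y hyK (pt x l 1) (by linarith) ε hε mid (τ 1) hm2
      obtain ⟨g, gc, ge1, ge2⟩ := concat hm1.le hm2.le g1c g2c (g1b.trans g2a.symm)
      have gv1 : eVariationOn g (Set.Icc (τ 0) mid) ≤ ENNReal.ofReal (dist x y + ε) := by
        rw [eVariationOn.congr ge1]; exact g1v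
      have gv2 : eVariationOn g (Set.Icc mid (τ 1)) ≤
          ENNReal.ofReal (dist y (pt x l 1) + ε) := by
        rw [eVariationOn.congr ge2]; exact g2v
      have gv : eVariationOn g (Set.Icc (τ 0) (τ 1)) ≤ ENNReal.ofReal (2 * s + 2 * ε) := by
        have e1 := eVariationOn.Icc_add_Icc g (s := Set.univ) hm1.le hm2.le (Set.mem_univ _)
        simp only [Set.univ_inter] at e1
        rw [← e1]
        refine (add_le_add gv1 gv2).trans ?_
        rw [← ENNReal.ofReal_add (by positivity) (by positivity)]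
        exact ENNReal.ofReal_le_ofReal (by linarith)
      have hper := hτ.per
      have hf0 : ln f (τ 0) = x := hτ.val 0 (by omega)
      have hf1 : ln f (τ 1) = pt x l 1 := by
        rcases Nat.lt_or_ge 1 (l.length + 1) with h | h
        · exact hτ.val 1 h
        · have : l.length = 0 := by omega
          rw [this] at hper
          rw [hper, ln_add_one, hf0]
          have h2 := pt_last x l
          rw [this] at h2
          exact h2.symm
      have hIco : ∑ k ∈ Finset.Ico 1 (l.length + 1), (dist (pt x l k) (pt x l (k + 1)) + ε) ≤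
          ∑ k ∈ Finset.range (l.length + 1), (dist (pt x l k) (pt x l (k + 1)) + ε) := by
        apply Finset.sum_le_sum_of_subset_of_nonneg
        · intro k hk; simp at hk ⊢; omega
        · intro k _ _; positivity
      obtain ⟨f', f1, f2, f3⟩ := modify (K := K) (g := g) (v := 2 * s + 2 * ε) (L := L) hr₀ hR'
        hτ.mono hper (j := 1)
        (by omega) (by omega) (q := fun k => dist (pt x l k) (pt x l (k + 1)) + ε)
        (fun k => by positivity) hτ.arc gc
        (by rw [ge1 ⟨le_rfl, hm1.le⟩, g1a, hf0]) (by rw [ge2 ⟨hm2.le, le_rfl⟩, g2b, hf1])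
        (by rw [hf0]; exact hxK) gv
        (by simp only [Nat.Ico_zero_eq_range, Finset.sum_range_one, pt_zero]; linarith) hvr
        (by
          have := hsum x l gP hl
          linarith)
      refine ⟨f', (realizes_iff ε f' x (y :: l)).mpr ⟨fun k => match k with
        | 0 => τ 0
        | 1 => mid
        | k + 2 => τ (k + 1), ?_, ?_, ?_, ?_⟩, f3⟩
      · apply strictMono_nat_of_lt_succ
        intro k
        match k with
        | 0 => exact hm1
        | 1 => exact hm2
        | k + 2 => exact hτ.mono (by omega)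
      · simp only [List.length_cons]
        exact hper
      · intro k hk
        simp only [List.length_cons] at hk
        match k with
        | 0 =>
          simp only
          rw [f1 _ ⟨le_rfl, hcd.le⟩, ge1 ⟨le_rfl, hm1.le⟩, g1a, pt_zero]
        | 1 =>
          simp only
          rw [f1 _ ⟨hm1.le, hm2.le⟩, ge1 ⟨hm1.le, le_rfl⟩, g1b, pt_one]
        | k + 2 =>
          simp only
          rw [f2 _ ⟨hτ.mono.monotone (by omega), hτ.mono.monotone (by omega)⟩,
            hτ.val (k + 1) (by omega), pt_two]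
      · intro k hk
        simp only [List.length_cons] at hk
        match k with
        | 0 =>
          simp only
          rw [eVariationOn.congr (f := ln f') (g := g)
            (fun t ht => f1 t ⟨ht.1, ht.2.trans hm2.le⟩), pt_zero, pt_one]
          exact gv1
        | 1 =>
          simp only
          rw [eVariationOn.congr (f := ln f') (g := g)
            (fun t ht => f1 t ⟨hm1.le.trans ht.1, ht.2⟩), pt_one, pt_two]
          exact gv2
        | k + 2 =>
          simp only
          rw [eVariationOn.congr (f := ln f') (g := ln f)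
            (fun t ht => f2 t ⟨(hτ.mono.monotone (by omega)).trans ht.1,
              ht.2.trans (hτ.mono.monotone (by omega))⟩), pt_two, pt_two]
          exact hτ.arc (k + 1) (by omega)
  · generalize hQ : P = Q at hmove
    cases hmove with
    | rot x l =>
      subst hQ
      cases l with
      | nil => exact ⟨f, hf, by
          obtain ⟨τ, hτ⟩ := (realizes_iff ε f x []).mp hf
          exact hself x [] τ gP' hl' hτ⟩
      | cons w l =>
        obtain ⟨τ, hτ⟩ := (realizes_iff ε f w (l ++ [x])).mp hf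
        obtain ⟨τ', hτ'⟩ := rz_rot' hτ
        exact ⟨f, (realizes_iff ε f x (w :: l)).mpr ⟨τ', hτ'⟩, hself _ _ τ gP hl hτ⟩
    | ins x y l =>
      subst hQ
      -- deletion of a vertex
      obtain ⟨τ, hτ⟩ := (realizes_iff ε f x (y :: l)).mp hf
      have hst := good_step gP
      have hst' := good_step gP'
      have hxK : x ∈ K := (good_iff.mp gP).2.2.2 x (by simp)
      have hcd : τ 0 < τ 2 := hτ.mono (by omega)
      have d1 : dist x y ≤ s := hst 0 (by simp)
      have d2 : dist y (pt x l 1) ≤ s := hst 1 (by simp)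
      have d3 : dist x (pt x l 1) ≤ s := hst' 0 (by simp)
      obtain ⟨g, gc, ga, gb, gv⟩ := hN' x hxK (pt x l 1) (by linarith) ε hε (τ 0) (τ 2) hcd
      have gv' : eVariationOn g (Set.Icc (τ 0) (τ 2)) ≤ ENNReal.ofReal (2 * s + 2 * ε) :=
        gv.trans (ENNReal.ofReal_le_ofReal (by linarith))
      have hper := hτ.per
      simp only [List.length_cons] at hper
      have hf0 : ln f (τ 0) = x := hτ.val 0 (by omega)
      have hf2 : ln f (τ 2) = pt x l 1 := by
        rcases Nat.lt_or_ge 2 (l.length + 2) with h | h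
        · exact hτ.val 2 (by simpa using h)
        · have : l.length = 0 := by omega
          rw [this] at hper
          rw [show (2:ℕ) = 0 + 1 + 1 by omega, hper, ln_add_one, hf0]
          have h2 := pt_last x l
          rw [this] at h2
          exact h2.symm
      have hIco : ∑ k ∈ Finset.Ico 2 (l.length + 1 + 1),
          (dist (pt x (y :: l) k) (pt x (y :: l) (k + 1)) + ε) ≤
          ∑ k ∈ Finset.range (l.length + 1 + 1),
            (dist (pt x (y :: l) k) (pt x (y :: l) (k + 1)) + ε) := by
        apply Finset.sum_le_sum_of_subset_of_nonneg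
        · intro k hk; simp at hk ⊢; omega
        · intro k _ _; positivity
      obtain ⟨f', f1, f2, f3⟩ := modify (K := K) (g := g) (v := 2 * s + 2 * ε) (L := L) hr₀ hR'
        hτ.mono hper (j := 2)
        (by omega) (by omega)
        (q := fun k => dist (pt x (y :: l) k) (pt x (y :: l) (k + 1)) + ε)
        (fun k => by positivity) hτ.arc gc
        (by rw [ga, hf0]) (by rw [gb, hf2])
        (by rw [hf0]; exact hxK) gv'
        (by
          simp only [Nat.Ico_zero_eq_range, Finset.sum_range_succ, Finset.sum_range_zero,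
            pt_zero]
          have e1 : pt x (y :: l) (0 + 1) = y := rfl
          have e3 : pt x (y :: l) (1 + 1) = pt x l 1 := rfl
          rw [e1, e3]
          linarith) hvr
        (by
          have := hsum x (y :: l) gP hl
          simp only [List.length_cons] at this hIco ⊢
          linarith)
      refine ⟨f', (realizes_iff ε f' x l).mpr ⟨fun k => match k with
        | 0 => τ 0
        | k + 1 => τ (k + 2), ?_, ?_, ?_, ?_⟩, f3⟩
      · apply strictMono_nat_of_lt_succ
        intro k
        match k with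
        | 0 => exact hcd
        | k + 1 => exact hτ.mono (by omega)
      · exact hper
      · intro k hk
        match k with
        | 0 =>
          simp only
          rw [f1 _ ⟨le_rfl, hcd.le⟩, ga, pt_zero]
        | k + 1 =>
          simp only
          rw [f2 _ ⟨hτ.mono.monotone (by omega), hτ.mono.monotone (by omega)⟩,
            hτ.val (k + 2) (by simp; omega), pt_two]
      · intro k hk
        match k with
        | 0 =>
          simp only
          rw [eVariationOn.congr (f := ln f') (g := g) (fun t ht => f1 t ht), pt_zero]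
          exact gv
        | k + 1 =>
          simp only
          rw [eVariationOn.congr (f := ln f') (g := ln f)
            (fun t ht => f2 t ⟨(hτ.mono.monotone (by omega)).trans ht.1,
              ht.2.trans (hτ.mono.monotone (by omega))⟩), ← pt_two x y l k,
              ← pt_two x y l (k + 1)]
          exact hτ.arc (k + 2) (by simp; omega)

end Pool.Agent.TH317.CC
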