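import Pool.Agent.TH32.H.Stmts

/-!
# TZH-LP4: the number of `wa` satisfying `C4`
-/

set_option autoImplicit false

namespace Pool.Agent.TH370.TZH4

open Pool.Agent.H260TZ Pool.Agent.TH32

variable {R : Type} [CommRing R] [IsDomain R] (D : DV R)

/-- membership in the lattice -/
lemma mem_NN (m k : ℕ) (z : R) (n : ℕ) (τ₁ τ₂ : R) (x : MR R) :
    x ∈ NN D m k z n τ₁ τ₂ ↔ ∃ e1 e2 e3 : R, x.1.1 = e1 * -(D.t ^ m * z) + e2 * D.t ^ (m + k) ∧
      x.1.2 = e1 * D.t ^ m ∧ x.2 = e1 * τ₁ + e2 * τ₂ + e3 * D.t ^ n := by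
  unfold NN
  rw [Submodule.mem_span_triple]
  constructor
  · rintro ⟨a, b, c, rfl⟩
    refine ⟨a, b, c, ?_, ?_, ?_⟩ <;> simp
  · rintro ⟨a, b, c, h1, h2, h3⟩
    refine ⟨a, b, c, ?_⟩
    refine Prod.ext (Prod.ext ?_ ?_) ?_
    · simp [h1]
    · simp [h2]
    · simp [h3]

/-- the condition in terms of one variable -/
lemma C4_iff (b m k : ℕ) (z : R) (n : ℕ) (τ₁ τ₂ : R) (l' : ℕ) (z₂ : R) (hl : l' ≤ k)
    (hz : 1 + z = D.t ^ l' * z₂) (hu : l' < k → IsUnit z₂) (wc wd wa : R) :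
    C4 D b (NN D m k z n τ₁ τ₂) wc wd wa ↔
      ∃ f : R, D.t ^ (m + k - l') * f = D.t ^ b * wa ∧
        D.t ^ n ∣ wc * wd - (D.t ^ (k - l') * τ₁ + z₂ * τ₂) * f := by
  unfold C4
  rw [mem_NN]
  have hk : D.t ^ k = D.t ^ l' * D.t ^ (k - l') := by rw [← pow_add]; congr 1; omega
  have hJ : D.t ^ (m + k - l') = D.t ^ m * D.t ^ (k - l') := by rw [← pow_add]; congr 1; omega
  constructor
  · rintro ⟨e1, e2, e3, h1, h2, h3⟩
    simp only at h1 h2 h3
    have h4 : D.t ^ m * (D.t ^ l' * (e2 * D.t ^ (k - l'))) = D.t ^ m * (D.t ^ l' * (e1 * z₂)) := by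
      rw [h2, pow_add, hk] at h1
      linear_combination -h1 + (e1 * D.t ^ m) * hz
    have h5 : e2 * D.t ^ (k - l') = e1 * z₂ :=
      mul_left_cancel₀ (D.tpow_ne _) (mul_left_cancel₀ (D.tpow_ne _) h4)
    obtain ⟨f, hf1, hf2⟩ : ∃ f, e1 = D.t ^ (k - l') * f ∧ e2 = z₂ * f := by
      rcases Nat.lt_or_ge l' k with h | h
      · have h6 : D.t ^ (k - l') ∣ e1 := by
          have h7 : D.t ^ (k - l') ∣ e1 * z₂ := ⟨e2, by rw [← h5]; ring⟩
          exact (hu h).dvd_mul_right.mp h7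
        obtain ⟨f, hf⟩ := h6
        refine ⟨f, hf, ?_⟩
        apply mul_left_cancel₀ (D.tpow_ne (k - l'))
        rw [hf] at h5
        linear_combination h5
      · have h6 : k - l' = 0 := by omega
        rw [h6, pow_zero, mul_one] at h5
        exact ⟨e1, by rw [h6, pow_zero, one_mul], by rw [h5, mul_comm]⟩
    refine ⟨f, ?_, e3, ?_⟩
    · rw [hJ, h2, hf1]
      ring
    · rw [h3, hf1, hf2]
      ring
  · rintro ⟨f, h1, e3, h3⟩
    refine ⟨D.t ^ (k - l') * f, z₂ * f, e3, ?_, ?_, ?_⟩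
    · simp only
      rw [← h1, hJ, pow_add, hk]
      linear_combination (D.t ^ m * D.t ^ (k - l') * f) * hz
    · simp only
      rw [← h1, hJ]
      ring
    · simp only
      linear_combination h3

theorem lp4 : LP4Stmt := by
  classical
  intro R _ _ D b m k z n τ₁ τ₂ l' z₂ hl hz hu e T L he hT hL wc wd
  set de : R := D.t ^ (k - l') * τ₁ + z₂ * τ₂ with hde
  set J' : ℕ := (m + k - l') - b with hJ'
  set b' : ℕ := b - (m + k - l') with hb'
  set P : R := wc * wd with hP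
  have key : ∀ wa : R, C4 D b (NN D m k z n τ₁ τ₂) wc wd wa ↔
      ∃ v : R, wa = D.t ^ J' * v ∧ D.t ^ n ∣ P - (D.t ^ b' * de) * v := by
    intro wa
    rw [C4_iff D b m k z n τ₁ τ₂ l' z₂ hl hz hu]
    rcases Nat.le_total b (m + k - l') with h | h
    · have e1 : D.t ^ (m + k - l') = D.t ^ b * D.t ^ J' := by
        rw [← pow_add]; congr 1; omega
      have e2 : b' = 0 := by omega
      constructor
      · rintro ⟨f, h1, h2⟩
        rw [e1, mul_assoc] at h1
        refine ⟨f, (mul_left_cancel₀ (D.tpow_ne _) h1).symm, ?_⟩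
        rw [e2, pow_zero, one_mul]
        exact h2
      · rintro ⟨v, h1, h2⟩
        rw [e2, pow_zero, one_mul] at h2
        refine ⟨v, ?_, h2⟩
        rw [e1, h1, mul_assoc]
    · have e1 : D.t ^ b = D.t ^ (m + k - l') * D.t ^ b' := by
        rw [← pow_add]; congr 1; omega
      have e2 : J' = 0 := by omega
      constructor
      · rintro ⟨f, h1, h2⟩
        rw [e1, mul_assoc] at h1
        have h3 := mul_left_cancel₀ (D.tpow_ne _) h1
        refine ⟨wa, by rw [e2, pow_zero, one_mul], ?_⟩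
        rw [h3] at h2
        have e3 : D.t ^ b' * de * wa = de * (D.t ^ b' * wa) := by ring
        rw [e3]
        exact h2
      · rintro ⟨v, h1, h2⟩
        rw [e2, pow_zero, one_mul] at h1
        refine ⟨D.t ^ b' * v, ?_, ?_⟩
        · rw [e1, h1, mul_assoc]
        · have e3 : de * (D.t ^ b' * v) = D.t ^ b' * de * v := by ring
          rw [e3]
          exact h2
  -- the level
  have hTn : T ≤ n := by rw [hT]; exact min_le_left _ _
  have hen : e ≤ n := by rw [he]; exact D.lev_le _ _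
  have hlev : D.lev n (D.t ^ b' * de) = T := by
    obtain ⟨u, c, hc⟩ := D.lev_unit n de
    rw [← he] at hc
    have hd : D.t ^ b' * de = D.t ^ (b' + e) * u + D.t ^ n * (D.t ^ b' * c) := by
      rw [pow_add]
      linear_combination D.t ^ b' * hc
    apply le_antisymm
    · have h1 := D.lev_dvd n (D.t ^ b' * de)
      have h2 := D.lev_le n (D.t ^ b' * de)
      rw [hT]
      refine le_min h2 ?_
      by_contra hcon
      push Not at hcon
      have h3 : D.t ^ (D.lev n (D.t ^ b' * de)) ∣ D.t ^ (b' + e) * u := by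
        rw [hd] at h1
        have h4 : D.t ^ (D.lev n (D.t ^ b' * de)) ∣ D.t ^ n * (D.t ^ b' * c) :=
          (pow_dvd_pow _ h2).trans (Dvd.intro _ rfl)
        rw [← hd] at h1
        have h5 := (dvd_sub h1 h4)
        rw [hd] at h5
        rw [add_sub_cancel_right] at h5
        rw [hd]
        exact h5
      obtain ⟨j, hj⟩ : ∃ j, D.lev n (D.t ^ b' * de) = (b' + e) + (j + 1) :=
        ⟨D.lev n (D.t ^ b' * de) - (b' + e) - 1, by omega⟩
      rw [hj, pow_add _ (b' + e), mul_dvd_mul_iff_left (D.tpow_ne _)] at h3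
      exact D.pow_not_dvd_unit (Nat.succ_ne_zero j) u.isUnit h3
    · rw [← D.dvd_iff_lev hTn, hd]
      refine dvd_add ?_ ((pow_dvd_pow _ hTn).trans (Dvd.intro _ rfl))
      refine (pow_dvd_pow _ ?_).trans (Dvd.intro _ rfl)
      rw [hT]
      have := min_le_right n (e + b')
      omega
  by_cases hdiv : D.t ^ T ∣ P
  · rw [if_pos hdiv]
    -- a solution
    obtain ⟨v0, hv0⟩ : ∃ v0, D.t ^ n ∣ P - (D.t ^ b' * de) * v0 := by
      obtain ⟨u, c, hc⟩ := D.lev_unit n (D.t ^ b' * de)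
      rw [hlev] at hc
      obtain ⟨P', hP'⟩ := hdiv
      refine ⟨(↑u⁻¹ : R) * P', -(c * ((↑u⁻¹ : R) * P')), ?_⟩
      have hu1 : (u : R) * (↑u⁻¹ : R) = 1 := Units.mul_inv u
      rw [hP']
      linear_combination (-((↑u⁻¹ : R) * P')) * hc - (D.t ^ T * P') * hu1
    have hiff : ∀ wa : R, C4 D b (NN D m k z n τ₁ τ₂) wc wd wa ↔
        D.t ^ (J' + (n - T)) ∣ wa - D.t ^ J' * v0 := by
      intro wa
      rw [key]
      have hsol : ∀ v, D.t ^ n ∣ P - (D.t ^ b' * de) * v ↔ D.t ^ (n - T) ∣ v - v0 := by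
        intro v
        rw [← hlev, ← D.dvd_mul_iff]
        have e1 : (D.t ^ b' * de) * (v - v0) =
          (P - (D.t ^ b' * de) * v0) - (P - (D.t ^ b' * de) * v) := by ring
        rw [e1]
        exact (dvd_sub_right hv0).symm
      constructor
      · rintro ⟨v, rfl, hv⟩
        rw [hsol] at hv
        rw [pow_add, ← mul_sub]
        exact mul_dvd_mul_left _ hv
      · intro h
        have h1 : D.t ^ J' ∣ wa := by
          have h2 : D.t ^ J' ∣ wa - D.t ^ J' * v0 :=
            (pow_dvd_pow _ (Nat.le_add_right _ _)).trans h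
          exact (dvd_sub_left (Dvd.intro _ rfl)).mp h2
        obtain ⟨v, rfl⟩ := h1
        refine ⟨v, rfl, ?_⟩
        rw [hsol]
        rw [pow_add, ← mul_sub, mul_dvd_mul_iff_left (D.tpow_ne _)] at h
        exact h
    have e1 : Nat.card {wa : D.Q L // C4 D b (NN D m k z n τ₁ τ₂) wc wd (D.lift wa)} =
        Nat.card {wa : D.Q L // D.t ^ (J' + (n - T)) ∣ D.lift wa - D.t ^ J' * v0} :=
      Nat.card_congr (Equiv.subtypeEquivRight fun wa => hiff _)
    rw [e1, D.card_near (by omega)]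
    congr 1
    omega
  · rw [if_neg hdiv]
    have hem : IsEmpty {wa : D.Q L // C4 D b (NN D m k z n τ₁ τ₂) wc wd (D.lift wa)} := by
      constructor
      rintro ⟨wa, hwa⟩
      rw [key] at hwa
      obtain ⟨v, _, hv⟩ := hwa
      apply hdiv
      have h1 : D.t ^ T ∣ P - (D.t ^ b' * de) * v := (pow_dvd_pow _ hTn).trans hv
      have h2 : D.t ^ T ∣ (D.t ^ b' * de) * v := by
        have := D.lev_dvd n (D.t ^ b' * de)
        rw [hlev] at this
        exact this.trans (Dvd.intro _ rfl)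
      exact (dvd_sub_left h2).mp h1
    exact Nat.card_of_isEmpty

end Pool.Agent.TH370.TZH4
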