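import Pool.Agent.TH32.H.Stmts

/-!
# TZH-LP5: the number of pairs with divisible product
-/

set_option autoImplicit false

namespace Pool.Agent.TH370.TZH5

open Pool.Agent.H260TZ Pool.Agent.TH32

variable {R : Type} [CommRing R] [IsDomain R] (D : DV R)

/-- the number of `y` -/
noncomputable def YY (L H h j : ℕ) : ℝ :=
  if j ≤ h then (D.q : ℝ) ^ (L - H) else if h = H then (D.q : ℝ) ^ (L - j) else 0

lemma cardY {L H j : ℕ} (hH : H ≤ L) (hj : j ≤ L) (v : R) :
    (Nat.card {y : D.Q L // D.t ^ H ∣ D.lift y - v ∧ D.t ^ j ∣ D.lift y} : ℝ) =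
      YY D L H (D.lev H v) j := by
  unfold YY
  have hlH := D.lev_le H v
  have hld := D.lev_dvd H v
  by_cases h1 : j ≤ D.lev H v
  · rw [if_pos h1]
    have e1 : Nat.card {y : D.Q L // D.t ^ H ∣ D.lift y - v ∧ D.t ^ j ∣ D.lift y} =
        Nat.card {y : D.Q L // D.t ^ H ∣ D.lift y - v} := by
      refine Nat.card_congr (Equiv.subtypeEquivRight fun y => ?_)
      refine ⟨fun h => h.1, fun h => ⟨h, ?_⟩⟩
      have h2 : D.t ^ j ∣ v := (pow_dvd_pow _ h1).trans hld
      have h3 : D.t ^ j ∣ D.lift y - v := (pow_dvd_pow _ (by omega)).trans h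
      exact (dvd_sub_left h2).mp h3
    rw [e1, D.card_near hH]
    push_cast
    rfl
  · rw [if_neg h1]
    push Not at h1
    by_cases h2 : D.lev H v = H
    · rw [if_pos h2]
      rw [h2] at h1 hld
      have e1 : Nat.card {y : D.Q L // D.t ^ H ∣ D.lift y - v ∧ D.t ^ j ∣ D.lift y} =
          Nat.card {y : D.Q L // D.t ^ j ∣ D.lift y - 0} := by
        refine Nat.card_congr (Equiv.subtypeEquivRight fun y => ?_)
        rw [sub_zero]
        refine ⟨fun h => h.2, fun h => ⟨?_, h⟩⟩
        exact dvd_sub ((pow_dvd_pow _ (by omega)).trans h) hld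
      rw [e1, D.card_near hj]
      push_cast
      rfl
    · rw [if_neg h2]
      have hem : IsEmpty {y : D.Q L // D.t ^ H ∣ D.lift y - v ∧ D.t ^ j ∣ D.lift y} := by
        constructor
        rintro ⟨y, hy1, hy2⟩
        have h3 : D.t ^ (D.lev H v + 1) ∣ D.lift y := (pow_dvd_pow _ (by omega)).trans hy2
        have h4 : D.t ^ (D.lev H v + 1) ∣ D.lift y - v := (pow_dvd_pow _ (by omega)).trans hy1
        have h5 : D.t ^ (D.lev H v + 1) ∣ v := (dvd_sub_right h3).mp h4
        rw [D.dvd_iff_lev (n := H) (by omega)] at h5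
        omega
      rw [Nat.card_of_isEmpty]
      simp

open Classical in
lemma sum_near {L G : ℕ} (hG : G ≤ L) (u : R) (c : ℝ) :
    ∑ x : D.Q L, (if D.t ^ G ∣ D.lift x - u then c else 0) = c * (D.q : ℝ) ^ (L - G) := by
  rw [← Finset.sum_filter, Finset.sum_const, nsmul_eq_mul, mul_comm]
  congr 1
  have h := D.card_near hG u
  rw [Nat.card_eq_fintype_card, Fintype.card_subtype] at h
  exact_mod_cast h

open Classical in
lemma total {G H T L : ℕ} (hH : H ≤ L) (hT : T ≤ L) (u v : R) :
    (Nat.card {p : D.Q L × D.Q L // D.t ^ G ∣ D.lift p.1 - u ∧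
        D.t ^ H ∣ D.lift p.2 - v ∧ D.t ^ T ∣ D.lift p.1 * D.lift p.2} : ℝ) =
      ∑ x : D.Q L, (if D.t ^ G ∣ D.lift x - u then
        YY D L H (D.lev H v) (T - D.lev T (D.lift x)) else 0) := by
  rw [Nat.card_congr (Equiv.subtypeProdEquivSigmaSubtype (fun (x y : D.Q L) =>
    D.t ^ G ∣ D.lift x - u ∧ D.t ^ H ∣ D.lift y - v ∧ D.t ^ T ∣ D.lift x * D.lift y)),
    Nat.card_sigma]
  push_cast
  refine Finset.sum_congr rfl fun x _ => ?_
  by_cases h : D.t ^ G ∣ D.lift x - u
  · rw [if_pos h, ← cardY D hH (by omega : T - D.lev T (D.lift x) ≤ L)]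
    congr 1
    refine Nat.card_congr (Equiv.subtypeEquivRight fun y => ?_)
    rw [D.dvd_mul_iff]
    exact ⟨fun h2 => h2.2, fun h2 => ⟨h, h2⟩⟩
  · rw [if_neg h]
    have hem : IsEmpty {y : D.Q L // D.t ^ G ∣ D.lift x - u ∧ D.t ^ H ∣ D.lift y - v ∧
        D.t ^ T ∣ D.lift x * D.lift y} := ⟨fun y => h y.2.1⟩
    rw [Nat.card_of_isEmpty]
    simp

lemma lev_eq_of {n a' : ℕ} {a : R} (hm : a' ≤ n) (h : ∀ i, i ≤ n → (D.t ^ i ∣ a ↔ i ≤ a')) :
    D.lev n a = a' :=
  le_antisymm ((h _ (D.lev_le n a)).1 (D.lev_dvd n a)) ((D.dvd_iff_lev hm a).1 ((h _ hm).2 le_rfl))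

lemma zp (L a b : ℕ) (ha : a ≤ L) (hb : b ≤ L) :
    (D.q : ℝ) ^ (2 * L) * (D.q : ℝ) ^ (-(a : ℤ) - b) = (D.q : ℝ) ^ (L - a) * (D.q : ℝ) ^ (L - b) := by
  have hq : (D.q : ℝ) ≠ 0 := by
    have := D.q_pos
    positivity
  rw [← zpow_natCast, ← zpow_natCast, ← zpow_natCast, ← zpow_add₀ hq, ← zpow_add₀ hq]
  congr 1
  push_cast [Nat.cast_sub ha, Nat.cast_sub hb]
  ring

open Classical in
/-- the sum over the multiples of `t^G` -/
lemma sum_tel {G T L : ℕ} (hGT : G ≤ T) (hT : T ≤ L) (f : ℕ → ℝ) :
    ∑ x : D.Q L, (if D.t ^ G ∣ D.lift x then f (D.lev T (D.lift x)) else 0) =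
      f G * (D.q : ℝ) ^ (L - G) + ∑ i ∈ Finset.range (T - G), (f (G + (i + 1)) - f (G + i)) *
        (D.q : ℝ) ^ (L - (G + (i + 1))) := by
  have key : ∀ x : D.Q L, (if D.t ^ G ∣ D.lift x then f (D.lev T (D.lift x)) else 0) =
      (if D.t ^ G ∣ D.lift x - 0 then f G else 0) + ∑ i ∈ Finset.range (T - G),
        (if D.t ^ (G + (i + 1)) ∣ D.lift x - 0 then (f (G + (i + 1)) - f (G + i)) else 0) := by
    intro x
    simp only [sub_zero]
    by_cases h : D.t ^ G ∣ D.lift x
    · rw [if_pos h, if_pos h]
      have hl := (D.dvd_iff_lev hGT _).1 h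
      have hlT := D.lev_le T (D.lift x)
      have h1 : ∑ i ∈ Finset.range (T - G),
          (if D.t ^ (G + (i + 1)) ∣ D.lift x then (f (G + (i + 1)) - f (G + i)) else 0) =
          ∑ i ∈ Finset.range (D.lev T (D.lift x) - G), (f (G + (i + 1)) - f (G + i)) := by
        rw [← Finset.sum_subset (Finset.range_subset_range.mpr
          (by omega : D.lev T (D.lift x) - G ≤ T - G))]
        · refine Finset.sum_congr rfl fun i hi => ?_
          rw [Finset.mem_range] at hi
          rw [if_pos ((D.dvd_iff_lev (n := T) (by omega) _).2 (by omega))]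
        · intro i hi hi2
          rw [Finset.mem_range] at hi hi2
          rw [if_neg]
          rw [D.dvd_iff_lev (n := T) (by omega)]
          omega
      rw [h1, Finset.sum_range_sub (fun i => f (G + i))]
      have h2 : G + (D.lev T (D.lift x) - G) = D.lev T (D.lift x) := by omega
      rw [h2, add_zero]
      ring
    · rw [if_neg h, if_neg h, zero_add]
      symm
      refine Finset.sum_eq_zero fun i _ => ?_
      rw [if_neg]
      exact fun h2 => h ((pow_dvd_pow _ (by omega)).trans h2)
  rw [Finset.sum_congr rfl fun x _ => key x, Finset.sum_add_distrib, sum_near D (hGT.trans hT),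
    Finset.sum_comm]
  congr 1
  refine Finset.sum_congr rfl fun i hi => ?_
  rw [Finset.mem_range] at hi
  rw [sum_near D (by omega)]

theorem lp5 : LP5Stmt := by
  classical
  intro R _ _ D G H T L hG hH hT u v
  rw [total D hH hT]
  have hq0 : 0 < (D.q : ℝ) := by exact_mod_cast D.q_pos
  set g := D.lev G u with hg
  set h := D.lev H v with hh
  have hgG : g ≤ G := D.lev_le G u
  have hhH : h ≤ H := D.lev_le H v
  unfold pairF
  by_cases h1 : g = G
  · rw [if_pos h1]
    have hGu : D.t ^ G ∣ u := by
      have := D.lev_dvd G u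
      rw [← hg, h1] at this
      exact this
    have hcond : ∀ x : D.Q L, D.t ^ G ∣ D.lift x - u ↔ D.t ^ G ∣ D.lift x := fun x =>
      dvd_sub_left hGu
    simp only [hcond]
    by_cases h2 : h = H
    · rw [if_pos h2]
      have hY : ∀ j, YY D L H h j = (D.q : ℝ) ^ (L - max H j) := by
        intro j
        unfold YY
        rw [h2]
        by_cases h3 : j ≤ H
        · rw [if_pos h3, max_eq_left h3]
        · rw [if_neg h3, if_pos rfl, max_eq_right (by omega)]
      simp only [hY]
      by_cases h3 : T ≤ G + H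
      · rw [if_pos h3]
        have e1 : ∀ x : D.Q L, (if D.t ^ G ∣ D.lift x then
            (D.q : ℝ) ^ (L - max H (T - D.lev T (D.lift x))) else 0) =
            (if D.t ^ G ∣ D.lift x - 0 then (D.q : ℝ) ^ (L - H) else 0) := by
          intro x
          rw [sub_zero]
          by_cases h4 : D.t ^ G ∣ D.lift x
          · rw [if_pos h4, if_pos h4]
            have h5 : min G T ≤ D.lev T (D.lift x) :=
              (D.dvd_iff_lev (min_le_right _ _) _).1
                ((pow_dvd_pow _ (min_le_left _ _)).trans h4)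
            have h6 : T - D.lev T (D.lift x) ≤ H := by omega
            rw [max_eq_left h6]
          · rw [if_neg h4, if_neg h4]
        rw [Finset.sum_congr rfl fun x _ => e1 x, sum_near D hG]
        have e2 : (-((G : ℤ) + H)) = -(G : ℤ) - H := by ring
        rw [e2, zp D L G H hG hH]
        ring
      · rw [if_neg h3]
        push Not at h3
        rw [sum_tel D (by omega : G ≤ T) hT (fun i => (D.q : ℝ) ^ (L - max H (T - i)))]
        have e1 : max H (T - G) = T - G := max_eq_right (by omega)
        simp only [e1]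
        have e2 : ∑ i ∈ Finset.range (T - G), ((D.q : ℝ) ^ (L - max H (T - (G + (i + 1)))) -
            (D.q : ℝ) ^ (L - max H (T - (G + i)))) * (D.q : ℝ) ^ (L - (G + (i + 1))) =
            ∑ _i ∈ Finset.range (T - G - H), ((D.q : ℝ) - 1) * (D.q : ℝ) ^ (2 * L - T - 1) := by
          rw [← Finset.sum_subset (Finset.range_subset_range.mpr
            (by omega : T - G - H ≤ T - G))]
          · refine Finset.sum_congr rfl fun i hi => ?_
            rw [Finset.mem_range] at hi
            have k1 : max H (T - (G + (i + 1))) = T - (G + (i + 1)) := max_eq_right (by omega)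
            have k2 : max H (T - (G + i)) = T - (G + i) := max_eq_right (by omega)
            rw [k1, k2]
            have k3 : L - (T - (G + (i + 1))) = (L - (T - (G + i))) + 1 := by omega
            have k4 : 2 * L - T - 1 = (L - (T - (G + i))) + (L - (G + (i + 1))) := by omega
            rw [k3, k4, pow_succ, pow_add]
            ring
          · intro i hi hi2
            rw [Finset.mem_range] at hi hi2
            have k1 : max H (T - (G + (i + 1))) = H := max_eq_left (by omega)
            have k2 : max H (T - (G + i)) = H := max_eq_left (by omega)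
            rw [k1, k2, sub_self, zero_mul]
        rw [e2, Finset.sum_const, nsmul_eq_mul, Finset.card_range]
        have e3 : ((T - G - H : ℕ) : ℝ) = (T : ℝ) - G - H := by
          rw [Nat.cast_sub (by omega), Nat.cast_sub (by omega)]
        rw [e3]
        have e4 : (D.q : ℝ) ^ (L - (T - G)) * (D.q : ℝ) ^ (L - G) = (D.q : ℝ) ^ (2 * L - T) := by
          rw [← pow_add]; congr 1; omega
        have e5 : (D.q : ℝ) ^ (2 * L) = (D.q : ℝ) ^ (2 * L - T) * (D.q : ℝ) ^ T := by
          rw [← pow_add]; congr 1; omega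
        have e6 : (D.q : ℝ) ^ (2 * L - T) = (D.q : ℝ) ^ (2 * L - T - 1) * D.q := by
          rw [← pow_succ]; congr 1; omega
        rw [e4, e5, zpow_neg, zpow_natCast, e6]
        field_simp
        ring
    · rw [if_neg h2]
      have e1 : ∀ x : D.Q L, (if D.t ^ G ∣ D.lift x then
          YY D L H h (T - D.lev T (D.lift x)) else 0) =
          (if D.t ^ (max G (T - h)) ∣ D.lift x - 0 then (D.q : ℝ) ^ (L - H) else 0) := by
        intro x
        rw [sub_zero]
        unfold YY
        rw [if_neg h2]
        have k1 : D.t ^ (T - h) ∣ D.lift x ↔ T - D.lev T (D.lift x) ≤ h := by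
          rw [D.dvd_iff_lev (n := T) (by omega)]
          omega
        by_cases h4 : D.t ^ G ∣ D.lift x
        · rw [if_pos h4]
          by_cases h5 : T - D.lev T (D.lift x) ≤ h
          · rw [if_pos h5, if_pos]
            rcases max_choice G (T - h) with h6 | h6
            · rw [h6]; exact h4
            · rw [h6]; exact k1.2 h5
          · rw [if_neg h5, if_neg]
            intro h6
            exact h5 (k1.1 ((pow_dvd_pow _ (le_max_right _ _)).trans h6))
        · rw [if_neg h4, if_neg]
          intro h6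
          exact h4 ((pow_dvd_pow _ (le_max_left _ _)).trans h6)
      have hmax : max G (T - h) ≤ L := max_le hG (by omega)
      rw [Finset.sum_congr rfl fun x _ => e1 x, sum_near D hmax, zp D L _ H hmax hH]
      ring
  · rw [if_neg h1]
    have hlt : g < G := lt_of_le_of_ne hgG h1
    have hlev : ∀ x : D.Q L, D.t ^ G ∣ D.lift x - u →
        T - D.lev T (D.lift x) = T - g := by
      intro x hx
      have k1 : D.lev T (D.lift x) = min T g := by
        apply lev_eq_of D (min_le_left _ _)
        intro i hi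
        have k2 : ∀ j, j ≤ G → (D.t ^ j ∣ D.lift x ↔ j ≤ g) := by
          intro j hj
          rw [hg, ← D.dvd_iff_lev hj]
          have k3 : D.t ^ j ∣ D.lift x - u := (pow_dvd_pow _ hj).trans hx
          constructor
          · intro k4
            exact (dvd_sub_right k4).mp k3
          · intro k4
            exact (dvd_sub_left k4).mp k3
        rw [le_min_iff]
        by_cases k5 : i ≤ G
        · rw [k2 i k5]
          exact ⟨fun k6 => ⟨hi, k6⟩, fun k6 => k6.2⟩
        · constructor
          · intro k6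
            have k7 := (k2 (g + 1) hlt).1 ((pow_dvd_pow _ (by omega)).trans k6)
            omega
          · rintro ⟨_, k6⟩
            omega
      rw [k1]
      omega
    have e1 : ∀ x : D.Q L, (if D.t ^ G ∣ D.lift x - u then
        YY D L H h (T - D.lev T (D.lift x)) else 0) =
        (if D.t ^ G ∣ D.lift x - u then YY D L H h (T - g) else 0) := by
      intro x
      by_cases h4 : D.t ^ G ∣ D.lift x - u
      · rw [if_pos h4, if_pos h4, hlev x h4]
      · rw [if_neg h4, if_neg h4]
    rw [Finset.sum_congr rfl fun x _ => e1 x, sum_near D hG]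
    unfold YY
    by_cases h2 : h = H
    · rw [if_pos h2, if_pos h2]
      have hmax : max H (T - g) ≤ L := max_le hH (by omega)
      rw [zp D L _ G hmax hG]
      congr 1
      rw [h2]
      by_cases h3 : T - g ≤ H
      · rw [if_pos h3, max_eq_left h3]
      · rw [if_neg h3, max_eq_right (by omega)]
    · rw [if_neg h2, if_neg h2]
      by_cases h3 : T ≤ g + h
      · rw [if_pos h3, if_pos (by omega)]
        have e2 : (-((G : ℤ) + H)) = -(G : ℤ) - H := by ring
        rw [e2, zp D L G H hG hH]
        ring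
      · rw [if_neg h3, if_neg (by omega)]
        ring

end Pool.Agent.TH370.TZH5
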