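import Pool.Agent.TH336.ER.Defs
import Pool.Agent.W181.Mom.Ser

/-! Sums of coefficients (job 2828, ER-COEF). -/

set_option autoImplicit false

open Complex MeasureTheory Set Filter Topology

namespace Pool.Agent.TH370.ER

open Pool.Agent.TH336.ER Pool.Agent.W188.QS Pool.Agent.H306R2 Pool.Agent.W181.Mom

/-! ### Facts on the coefficients -/

lemma div_sum (g : ℝ) (n : ℕ) : ∑ m ∈ n.divisors, dv g m = dv (g + 1) n := by
  rw [← dA_apply (g + 1), ← dA_mul, dA_one]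
  unfold zR
  rw [ArithmeticFunction.coe_mul_zeta_apply]
  rfl

lemma agree_mul {A B A' B' : ArithmeticFunction ℝ} {N : ℕ} (hA : ∀ n ≤ N, A n = A' n)
    (hB : ∀ n ≤ N, B n = B' n) : ∀ n ≤ N, (A * B) n = (A' * B') n := by
  intro n hn
  rw [ArithmeticFunction.mul_apply, ArithmeticFunction.mul_apply]
  refine Finset.sum_congr rfl fun x hx => ?_
  rw [Nat.mem_divisorsAntidiagonal] at hx
  have h1 : x.1 ≤ n := Nat.le_of_dvd (Nat.pos_of_ne_zero hx.2) ⟨x.2, hx.1.symm⟩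
  have h2 : x.2 ≤ n := Nat.le_of_dvd (Nat.pos_of_ne_zero hx.2) ⟨x.1, by rw [mul_comm]; exact hx.1.symm⟩
  rw [hA _ (h1.trans hn), hB _ (h2.trans hn)]

lemma agree_pow {A A' : ArithmeticFunction ℝ} {N : ℕ} (hA : ∀ n ≤ N, A n = A' n) (j : ℕ) :
    ∀ n ≤ N, (A ^ j) n = (A' ^ j) n := by
  induction j with
  | zero => intro n _; rw [pow_zero, pow_zero]
  | succ j ih => rw [pow_succ, pow_succ]; exact agree_mul ih hA

lemma cf_nonneg (b N j n : ℕ) : 0 ≤ cf b N j n := by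
  unfold Pool.Agent.TH336.ER.cf
  exact tr_pow_nonneg (by positivity) _ _ _

lemma cf_le (b N j n : ℕ) : cf b N j n ≤ dv (j * (1 / (2 * (b : ℝ)))) n := by
  unfold Pool.Agent.TH336.ER.cf
  exact tr_pow_le (by positivity) _ _ _

lemma cf_eq (b N j n : ℕ) (hn : n ≤ N) : cf b N j n = dv (j * (1 / (2 * (b : ℝ)))) n := by
  unfold Pool.Agent.TH336.ER.cf
  rw [← dA_apply, ← dA_pow]
  refine agree_pow (N := N) (fun m hm => ?_) j n hn
  rw [tr_apply, if_pos (by exact_mod_cast hm)]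

/-! ### The upper bound -/

lemma upper (k f : ℝ) (hf : 0 ≤ f) (hfk : f ≤ k) (hk : 0 < k) (a : ℕ) (ha : 1 ≤ a) :
    ∃ C : ℝ, 0 < C ∧ ∀ N : ℕ, 3 ≤ N →
      ∑ n ∈ Finset.Icc 1 (N ^ a), dv f n * dv k n / (n : ℝ) ≤ C * Real.log N ^ (k * f) := by
  obtain ⟨C, hC1, hC⟩ := DD_le hk
  have ha0 : (0 : ℝ) < a := by exact_mod_cast ha
  refine ⟨Real.exp 1 * (C * (a : ℝ) ^ (k * f)), by positivity, fun N hN => ?_⟩
  have hN3 : (3 : ℝ) ≤ N := by exact_mod_cast hN
  have hlog1 : 1 ≤ Real.log N := by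
    rw [Real.le_log_iff_exp_le (by linarith)]
    have := Real.exp_one_lt_d9
    linarith
  have ha1 : (1 : ℝ) ≤ a := by exact_mod_cast ha
  set L : ℝ := a * Real.log N with hL
  have hL1 : 1 ≤ L := by nlinarith
  have hL0 : 0 < L := by linarith
  set σ : ℝ := 1 / L with hσ
  have hσ0 : 0 < σ := by positivity
  have hσ1 : σ ≤ 1 := by rw [hσ, div_le_one hL0]; exact hL1
  have h1 : ∀ n ∈ Finset.Icc 1 (N ^ a), dv f n * dv k n / (n : ℝ) ≤
      Real.exp 1 * hh k f σ n := by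
    intro n hn
    rw [Finset.mem_Icc] at hn
    have hn0 : (0 : ℝ) < n := by exact_mod_cast hn.1
    unfold hh
    have h2 : (n : ℝ) ^ σ ≤ Real.exp 1 := by
      have h3 : (n : ℝ) ≤ (N : ℝ) ^ a := by exact_mod_cast hn.2
      have h4 : Real.log n ≤ L := by
        rw [hL, ← Real.log_pow]
        exact Real.log_le_log hn0 h3
      rw [Real.rpow_def_of_pos hn0]
      apply Real.exp_le_exp.mpr
      rw [hσ, mul_one_div, div_le_one hL0]
      exact h4
    have h5 : (n : ℝ) ^ (-1 - σ) * (n : ℝ) ^ σ = (n : ℝ)⁻¹ := by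
      rw [← Real.rpow_add hn0, show (-1 - σ + σ : ℝ) = -1 by ring, Real.rpow_neg_one]
    have h6 : 0 ≤ dv f n * dv k n * (n : ℝ) ^ (-1 - σ) := by
      have e1 := dv_nonneg hf n
      have e2 := dv_nonneg hk.le n
      positivity
    calc dv f n * dv k n / (n : ℝ) = dv f n * dv k n * ((n : ℝ) ^ (-1 - σ) * (n : ℝ) ^ σ) := by
          rw [h5]; rfl
      _ = dv f n * dv k n * (n : ℝ) ^ (-1 - σ) * (n : ℝ) ^ σ := by ring
      _ ≤ dv f n * dv k n * (n : ℝ) ^ (-1 - σ) * Real.exp 1 := mul_le_mul_of_nonneg_left h2 h6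
      _ = _ := by ring
  have h2 : ∑ n ∈ Finset.Icc 1 (N ^ a), hh k f σ n ≤ DD k f σ :=
    (hh_summable hf hfk hσ0).sum_le_tsum _ (fun n _ => hh_nonneg hf hfk σ n)
  have h3 := hC f σ hf hfk hσ0 hσ1
  have h4 : (1 / σ : ℝ) = L := by rw [hσ, one_div_one_div]
  rw [h4] at h3
  have h5 : L ^ (k * f) = (a : ℝ) ^ (k * f) * Real.log N ^ (k * f) := by
    rw [hL, Real.mul_rpow ha0.le (by linarith)]
  calc ∑ n ∈ Finset.Icc 1 (N ^ a), dv f n * dv k n / (n : ℝ)
      ≤ ∑ n ∈ Finset.Icc 1 (N ^ a), Real.exp 1 * hh k f σ n := Finset.sum_le_sum h1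
    _ = Real.exp 1 * ∑ n ∈ Finset.Icc 1 (N ^ a), hh k f σ n := by rw [Finset.mul_sum]
    _ ≤ Real.exp 1 * (C * L ^ (k * f)) :=
        mul_le_mul_of_nonneg_left (h2.trans h3) (Real.exp_pos _).le
    _ = _ := by rw [h5]; ring

/-! ### The lower bound -/

/-- sum over `n` as a sum over one-tuples -/
noncomputable def FF (k : ℝ) (N : ℕ) (b : Fin 1 → ℕ) : ℝ :=
  if b 0 ∈ Finset.Icc 1 N then dv k (b 0) * (dv k (b 0) / (b 0 : ℝ)) else 0

def emb1 : ℕ ↪ (Fin 1 → ℕ) := ⟨fun n => (fun _ : Fin 1 => n), fun _ _ h => congrFun h 0⟩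

lemma emb1_apply (n : ℕ) : emb1 n 0 = n := rfl

lemma FF_hasSum (k : ℝ) (N : ℕ) :
    HasSum (FF k N) (∑ n ∈ Finset.Icc 1 N, dv k n * (dv k n / (n : ℝ))) := by
  have h : HasSum (FF k N) (∑ b ∈ (Finset.Icc 1 N).map emb1, FF k N b) :=
    hasSum_sum_of_ne_finset_zero (by
      intro b hb
      unfold FF
      rw [if_neg]
      intro h
      apply hb
      rw [Finset.mem_map]
      refine ⟨b 0, h, ?_⟩
      funext i
      fin_cases i; rfl)
  rw [Finset.sum_map] at h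
  convert h using 1
  refine Finset.sum_congr rfl fun n hn => ?_
  unfold FF
  rw [emb1_apply, if_pos hn]

lemma lower (k : ℝ) (hk : 1 ≤ k) : ∃ c : ℝ, 0 < c ∧ ∃ N₀ : ℕ, ∀ N : ℕ, N₀ ≤ N →
    c * Real.log N ^ (k ^ 2) ≤ ∑ n ∈ Finset.Icc 1 N, dv k n * (dv k n / (n : ℝ)) := by
  have hk0 : 0 < k := by linarith
  set e : Fin 1 → ℝ := fun _ => k with he
  have hes : ∑ i, e i = k := by simp [he]
  have hep : ∀ i, 0 < e i := fun _ => hk0
  set c1 : ℝ := aF (∑ i, e i) * ((∏ i : Fin 0, ((fun _ => 1 : Fin 0 → ℝ) i) ^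
        ((∑ i, e i) * e i.succ) / Real.Gamma ((∑ i, e i) * e i.succ + 1)) *
      ((1 - ∑ i : Fin 0, ((fun _ => 1 : Fin 0 → ℝ) i) * ((∑ i, e i) * e i.succ /
        ((∑ i, e i) * e i.succ + 1))) ^
        ((∑ i, e i) * e 0) / Real.Gamma ((∑ i, e i) * e 0 + 1))) with hc1
  have hc10 : 0 < c1 := by
    rw [hc1, hes]
    simp only [Finset.univ_eq_empty, Finset.prod_empty, Finset.sum_empty, sub_zero,
      Real.one_rpow, one_mul]
    have h1 := aF_pos hk0
    have h2 : 0 < Real.Gamma (k * e 0 + 1) := Real.Gamma_pos_of_pos (by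
      have : 0 < k * e 0 := mul_pos hk0 hk0
      linarith)
    positivity
  have h := wt_lower e hep (fun _ => 1) (fun _ => one_pos) (by simp) (by
    rw [hes]; show 1 ≤ k * k; nlinarith) (c1 / 2) (by linarith)
  have hs : Tendsto (fun N : ℕ => Real.log (N : ℝ)) atTop atTop :=
    Real.tendsto_log_atTop.comp tendsto_natCast_atTop_atTop
  have h' := (hs.eventually h).and (eventually_ge_atTop 2)
  rw [eventually_atTop] at h'
  obtain ⟨N₀, hN₀⟩ := h'
  refine ⟨c1 / 2, by linarith, N₀, fun N hN => ?_⟩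
  obtain ⟨h1, hN2⟩ := hN₀ N hN
  have hNr : (2 : ℝ) ≤ N := by exact_mod_cast hN2
  have hlog : 0 < Real.log N := Real.log_pos (by linarith)
  have hF := FF_hasSum k N
  have hFn : ∀ b, 0 ≤ FF k N b := by
    intro b
    unfold FF
    have := dv_nonneg hk0.le (b 0)
    split_ifs <;> positivity
  have h2 := h1 (FF k N) hF.summable hFn (fun b hb _ => by
      rw [hes]
      rw [Fin.sum_univ_one] at hb
      simp only [pos] at hb
      by_cases h0 : b 0 = 0
      · rw [show wt k e b = 0 from by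
          have := (wt_KH e hep one_pos).hw0 b ⟨0, h0⟩
          rwa [hes] at this]
        exact hFn b
      · have hb1 : 1 ≤ b 0 := Nat.one_le_iff_ne_zero.mpr h0
        have hb0 : (0 : ℝ) < b 0 := by exact_mod_cast hb1
        have hbN : b 0 ≤ N := by
          rw [div_le_one hlog, Real.log_le_log_iff hb0 (by linarith)] at hb
          exact_mod_cast hb
        unfold FF wt
        rw [if_pos (Finset.mem_Icc.mpr ⟨hb1, hbN⟩), Fin.prod_univ_one, Fin.prod_univ_one])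
  rw [hF.tsum_eq, hes] at h2
  exact h2

/-! ### The sums -/

theorem coef (a b : ℕ) (hb : 1 ≤ b) (hab : 2 * b ≤ a) :
    ∃ c C : ℝ, 0 < c ∧ 0 < C ∧ ∃ N₀ : ℕ, ∀ N : ℕ, N₀ ≤ N →
      (∑ n ∈ Finset.Icc 1 (N ^ a), cf b N a n ^ 2 / (n : ℝ) ≤
        C * Real.log N ^ (((a : ℝ) / b) ^ 2 / 4)) ∧
      (c * Real.log N ^ (((a : ℝ) / b) ^ 2 / 4) ≤
        ∑ l ∈ Finset.Icc 1 (N ^ a), cf b N a l / (l : ℝ) * ∑ n ∈ l.divisors, cf b N (a - 2 * b) n -
        ∑ n ∈ Finset.Icc 1 (N ^ a), cf b N (a - 2 * b) n / (n : ℝ) * ∑ l ∈ n.divisors, cf b N a l) ∧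
      (∑ l ∈ Finset.Icc 1 (N ^ a), cf b N (a - b) l / (l : ℝ) * ∑ n ∈ l.divisors, cf b N (a - b) n ≤
        C * Real.log N ^ ((((a : ℝ) / b) ^ 2 - 1) / 4)) := by
  have hb0 : (0 : ℝ) < b := by exact_mod_cast hb
  have hb1 : (1 : ℝ) ≤ b := by exact_mod_cast hb
  have habr : 2 * (b : ℝ) ≤ a := by exact_mod_cast hab
  have ha1 : 1 ≤ a := by omega
  set k : ℝ := (a : ℝ) * (1 / (2 * (b : ℝ))) with hk
  have hk1 : 1 ≤ k := by
    rw [hk, mul_one_div, le_div_iff₀ (by linarith)]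
    linarith
  have hk0 : 0 < k := by linarith
  have hkk : ((a : ℝ) / b) ^ 2 / 4 = k ^ 2 := by
    rw [hk]; field_simp; ring
  have hkk2 : (((a : ℝ) / b) ^ 2 - 1) / 4 = (k + 1 / 2) * (k - 1 / 2) := by
    have : (((a : ℝ) / b) ^ 2 - 1) / 4 = ((a : ℝ) / b) ^ 2 / 4 - 1 / 4 := by ring
    rw [this, hkk]; ring
  have e1 : ((a - 2 * b : ℕ) : ℝ) * (1 / (2 * (b : ℝ))) = k - 1 := by
    rw [Nat.cast_sub hab, hk]; push_cast; field_simp
  have e2 : ((a - b : ℕ) : ℝ) * (1 / (2 * (b : ℝ))) = k - 1 / 2 := by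
    rw [Nat.cast_sub (by omega), hk]; field_simp
  rw [hkk, hkk2]
  obtain ⟨C1, hC10, hC1⟩ := upper k k hk0.le le_rfl hk0 a ha1
  obtain ⟨C2, hC20, hC2⟩ := upper (k + 1) (k - 1) (by linarith) (by linarith) (by linarith) a ha1
  obtain ⟨C3, hC30, hC3⟩ := upper (k + 1 / 2) (k - 1 / 2) (by linarith) (by linarith)
    (by linarith) a ha1
  obtain ⟨c, hc0, N1, hN1⟩ := lower k hk1
  have hs : Tendsto (fun N : ℕ => Real.log (N : ℝ)) atTop atTop :=
    Real.tendsto_log_atTop.comp tendsto_natCast_atTop_atTop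
  obtain ⟨N2, hN2⟩ := eventually_atTop.mp (hs.eventually_ge_atTop (2 * C2 / c))
  refine ⟨c / 2, C1 + C3, by linarith, by linarith, max 3 (max N1 N2), fun N hN => ?_⟩
  have hN3 : 3 ≤ N := (le_max_left _ _).trans hN
  have hNN1 : N1 ≤ N := (le_max_left _ _).trans ((le_max_right _ _).trans hN)
  have hNN2 : N2 ≤ N := (le_max_right _ _).trans ((le_max_right _ _).trans hN)
  have hNr : (3 : ℝ) ≤ N := by exact_mod_cast hN3
  set L : ℝ := Real.log N with hL
  have hL0 : 0 < L := Real.log_pos (by linarith)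
  have hLk : 0 ≤ L ^ (k ^ 2) := Real.rpow_nonneg hL0.le _
  have hLk2 : 0 ≤ L ^ ((k + 1 / 2) * (k - 1 / 2)) := Real.rpow_nonneg hL0.le _
  refine ⟨?_, ?_, ?_⟩
  · have h1 := hC1 N hN3
    have h2 : ∑ n ∈ Finset.Icc 1 (N ^ a), cf b N a n ^ 2 / (n : ℝ) ≤
        ∑ n ∈ Finset.Icc 1 (N ^ a), dv k n * dv k n / (n : ℝ) := by
      refine Finset.sum_le_sum fun n _ => ?_
      have g1 := cf_nonneg b N a n
      have g2 := cf_le b N a n
      rw [← hk] at g2
      have g3 := dv_nonneg hk0.le n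
      rw [pow_two]
      gcongr
    have h3 : k * k = k ^ 2 := by ring
    rw [h3] at h1
    have h4 : 0 ≤ C3 * L ^ (k ^ 2) := by positivity
    calc _ ≤ _ := h2
      _ ≤ C1 * L ^ (k ^ 2) := h1
      _ ≤ _ := by rw [add_mul]; linarith
  · have hlow := hN1 N hNN1
    have hup := hC2 N hN3
    have h1 : ∑ n ∈ Finset.Icc 1 N, dv k n * (dv k n / (n : ℝ)) ≤
        ∑ l ∈ Finset.Icc 1 (N ^ a), cf b N a l / (l : ℝ) *
          ∑ n ∈ l.divisors, cf b N (a - 2 * b) n := by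
      have hsub : Finset.Icc 1 N ⊆ Finset.Icc 1 (N ^ a) := by
        apply Finset.Icc_subset_Icc_right
        exact Nat.le_self_pow (by omega) N
      refine le_trans ?_ (Finset.sum_le_sum_of_subset_of_nonneg hsub (fun l _ _ => ?_))
      · refine Finset.sum_le_sum fun l hl => ?_
        rw [Finset.mem_Icc] at hl
        have g1 : cf b N a l = dv k l := by rw [cf_eq b N a l hl.2, ← hk]
        have g2 : ∑ n ∈ l.divisors, cf b N (a - 2 * b) n = dv k l := by
          have g3 : ∑ n ∈ l.divisors, cf b N (a - 2 * b) n = ∑ n ∈ l.divisors, dv (k - 1) n := by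
            refine Finset.sum_congr rfl fun n hn => ?_
            rw [cf_eq b N _ n ((Nat.divisor_le hn).trans hl.2), e1]
          rw [g3, div_sum]
          congr 1
          ring
        rw [g1, g2]
        exact le_of_eq (mul_comm _ _)
      · refine mul_nonneg (div_nonneg (cf_nonneg _ _ _ _) (Nat.cast_nonneg _)) ?_
        exact Finset.sum_nonneg fun n _ => cf_nonneg _ _ _ _
    have h2 : ∑ n ∈ Finset.Icc 1 (N ^ a), cf b N (a - 2 * b) n / (n : ℝ) *
          ∑ l ∈ n.divisors, cf b N a l ≤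
        ∑ n ∈ Finset.Icc 1 (N ^ a), dv (k - 1) n * dv (k + 1) n / (n : ℝ) := by
      refine Finset.sum_le_sum fun n _ => ?_
      have g1 := cf_nonneg b N (a - 2 * b) n
      have g2 := cf_le b N (a - 2 * b) n
      rw [e1] at g2
      have g3 : ∑ l ∈ n.divisors, cf b N a l ≤ dv (k + 1) n := by
        rw [← div_sum]
        refine Finset.sum_le_sum fun l _ => ?_
        have := cf_le b N a l
        rwa [← hk] at this
      have g4 : 0 ≤ ∑ l ∈ n.divisors, cf b N a l :=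
        Finset.sum_nonneg fun l _ => cf_nonneg _ _ _ _
      have g5 : dv (k - 1) n * dv (k + 1) n / (n : ℝ) =
          dv (k - 1) n / (n : ℝ) * dv (k + 1) n := by ring
      rw [g5]
      have g6 := dv_nonneg (show 0 ≤ k - 1 by linarith) n
      gcongr
    have h3 : (k + 1) * (k - 1) = k ^ 2 - 1 := by ring
    rw [h3, Real.rpow_sub hL0, Real.rpow_one] at hup
    have h4 : C2 * (L ^ (k ^ 2) / L) ≤ c / 2 * L ^ (k ^ 2) := by
      have h5 : 2 * C2 / c ≤ L := hN2 N hNN2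
      rw [div_le_iff₀ hc0] at h5
      have h6 : C2 ≤ c / 2 * L := by linarith
      calc C2 * (L ^ (k ^ 2) / L) ≤ (c / 2 * L) * (L ^ (k ^ 2) / L) :=
            mul_le_mul_of_nonneg_right h6 (div_nonneg hLk hL0.le)
        _ = _ := by field_simp
    linarith
  · have h1 := hC3 N hN3
    have h2 : ∑ l ∈ Finset.Icc 1 (N ^ a), cf b N (a - b) l / (l : ℝ) *
          ∑ n ∈ l.divisors, cf b N (a - b) n ≤
        ∑ n ∈ Finset.Icc 1 (N ^ a), dv (k - 1 / 2) n * dv (k + 1 / 2) n / (n : ℝ) := by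
      refine Finset.sum_le_sum fun n _ => ?_
      have g1 := cf_nonneg b N (a - b) n
      have g2 := cf_le b N (a - b) n
      rw [e2] at g2
      have g3 : ∑ l ∈ n.divisors, cf b N (a - b) l ≤ dv (k + 1 / 2) n := by
        have g7 : dv (k + 1 / 2) n = ∑ l ∈ n.divisors, dv (k - 1 / 2) l := by
          rw [div_sum]; congr 1; ring
        rw [g7]
        refine Finset.sum_le_sum fun l _ => ?_
        have := cf_le b N (a - b) l
        rwa [e2] at this
      have g4 : 0 ≤ ∑ l ∈ n.divisors, cf b N (a - b) l :=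
        Finset.sum_nonneg fun l _ => cf_nonneg _ _ _ _
      have g5 : dv (k - 1 / 2) n * dv (k + 1 / 2) n / (n : ℝ) =
          dv (k - 1 / 2) n / (n : ℝ) * dv (k + 1 / 2) n := by ring
      rw [g5]
      have g6 := dv_nonneg (show 0 ≤ k - 1 / 2 by linarith) n
      gcongr
    have h4 : 0 ≤ C1 * L ^ ((k + 1 / 2) * (k - 1 / 2)) := by positivity
    calc _ ≤ _ := h2
      _ ≤ C3 * L ^ ((k + 1 / 2) * (k - 1 / 2)) := h1
      _ ≤ _ := by
        have h5 : (C1 + C3) * L ^ ((k + 1 / 2) * (k - 1 / 2)) =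
            C1 * L ^ ((k + 1 / 2) * (k - 1 / 2)) + C3 * L ^ ((k + 1 / 2) * (k - 1 / 2)) :=
          add_mul _ _ _
        rw [h5]
        linarith

end Pool.Agent.TH370.ER
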