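import Pool.Agent.TH37.HG.Stmts

/-!
# HG-PER: uniform periodicity of sequences satisfying the universal relation
-/

set_option autoImplicit false

namespace Pool.Agent.TH370.HGPer

open Pool.Agent.TH37.HG
open Pool.Agent.H53R2 (UI)

/-! ### The ring theoretic part -/

section Ring

variable {A : Type} [CommRing A]

/-- `z ^ e - 1` is divisible by `(z - 1) ^ 2` if `e = 0` -/
lemma sq_dvd (e : ℕ) (he : (e : A) = 0) (z : A) : (z - 1) ^ 2 ∣ z ^ e - 1 := by
  have h1 : z ^ e - 1 = (z - 1) * ∑ i ∈ Finset.range e, z ^ i := by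
    rw [mul_comm, geom_sum_mul]
  have h2 : (z - 1) ∣ ∑ i ∈ Finset.range e, z ^ i := by
    have h3 : ∑ i ∈ Finset.range e, z ^ i = ∑ i ∈ Finset.range e, (z ^ i - 1) := by
      rw [Finset.sum_sub_distrib]
      simp [he]
    rw [h3]
    refine Finset.dvd_sum fun i _ => ?_
    have := sub_dvd_pow_sub_pow z 1 i
    rwa [one_pow] at this
  rw [h1, pow_two]
  exact mul_dvd_mul_left _ h2

lemma pow_dvd (e : ℕ) (he : (e : A) = 0) (z : A) (j : ℕ) :
    (z - 1) ^ (j + 1) ∣ z ^ (e ^ j) - 1 := by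
  induction j with
  | zero => simp
  | succ j ih =>
    have h1 := sq_dvd e he (z ^ e ^ j)
    have h2 : (z ^ e ^ j) ^ e = z ^ e ^ (j + 1) := by
      rw [← pow_mul, ← pow_succ]
    rw [h2] at h1
    refine dvd_trans ?_ h1
    refine dvd_trans (pow_dvd_pow (z - 1) (by omega : j + 1 + 1 ≤ (j + 1) * 2)) ?_
    rw [pow_mul]
    exact pow_dvd_pow_of_dvd ih 2

/-- unipotent elements have finite order -/
lemma unip (e n : ℕ) (he : (e : A) = 0) (z : A) (hz : (z - 1) ^ n = 0) : z ^ (e ^ n) = 1 := by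
  have h1 := pow_dvd e he z n
  have h2 : (z - 1) ^ (n + 1) = 0 := by rw [pow_succ, hz, zero_mul]
  rw [h2, zero_dvd_iff, sub_eq_zero] at h1
  exact h1

variable {n : ℕ} (i : Fin n → ℤ) (c : Fin n → A) (U : ℤ → A)

lemma U_nat (h0 : U 0 = 1) (hadd : ∀ a b, U (a + b) = U a * U b) (a : ℤ) (k : ℕ) :
    U (k * a) = U a ^ k := by
  induction k with
  | zero => simp [h0]
  | succ k ih =>
    rw [Nat.cast_succ, add_mul, one_mul, hadd, ih, pow_succ]

/-- the product of the `1 - U (i k)` is zero -/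
lemma prod_zero (h0 : U 0 = 1) (hadd : ∀ a b, U (a + b) = U a * U b)
    (h : ∀ m : ℤ, 1 = ∑ k, c k * U (m * i k)) : ∏ k, (1 - U (i k)) = 0 := by
  classical
  set q : Polynomial A := ∏ k, (Polynomial.X - Polynomial.C (U (i k))) with hq
  have e1 : q.eval 1 = ∏ k, (1 - U (i k)) := by
    rw [hq, Polynomial.eval_prod]
    simp
  have e2 : ∀ k, q.eval (U (i k)) = 0 := by
    intro k
    rw [hq, Polynomial.eval_prod]
    exact Finset.prod_eq_zero (Finset.mem_univ k) (by simp)
  rw [← e1, Polynomial.eval_eq_sum_range]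
  have e3 : ∀ m : ℕ, (1 : A) = ∑ k, c k * U (i k) ^ m := by
    intro m
    rw [h m]
    refine Finset.sum_congr rfl fun k _ => ?_
    rw [U_nat U h0 hadd]
  have e4 : ∀ m ∈ Finset.range (q.natDegree + 1), q.coeff m * (1 : A) ^ m =
      ∑ k, c k * (q.coeff m * U (i k) ^ m) := by
    intro m _
    rw [one_pow]
    conv_lhs => rw [e3 m]
    rw [Finset.mul_sum]
    refine Finset.sum_congr rfl fun k _ => by ring
  rw [Finset.sum_congr rfl e4, Finset.sum_comm]
  refine Finset.sum_eq_zero fun k _ => ?_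
  rw [← Finset.mul_sum, ← Polynomial.eval_eq_sum_range, e2, mul_zero]

lemma ring_per (hi : ∀ k, i k ≠ 0) (e : ℕ) (he : (e : A) = 0) (h0 : U 0 = 1)
    (hadd : ∀ a b, U (a + b) = U a * U b)
    (h : ∀ m : ℤ, 1 = ∑ k, c k * U (m * i k)) :
    U (((∏ k, (i k).natAbs) * e ^ n : ℕ) : ℤ) = 1 := by
  classical
  set L : ℕ := ∏ k, (i k).natAbs with hL
  have h1 : ∀ k, (1 - U (i k)) ∣ U L - 1 := by
    intro k
    have h2 : (i k).natAbs ∣ L := Finset.dvd_prod_of_mem _ (Finset.mem_univ k)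
    obtain ⟨M, hM⟩ := h2
    have h3 : U L = U ((i k).natAbs : ℤ) ^ M := by
      rw [← U_nat U h0 hadd, hM]
      congr 1
      push_cast
      ring
    have h4 : U ((i k).natAbs : ℤ) - 1 ∣ U L - 1 := by
      rw [h3]
      have := sub_dvd_pow_sub_pow (U ((i k).natAbs : ℤ)) 1 M
      rwa [one_pow] at this
    refine dvd_trans ?_ h4
    rcases Int.natAbs_eq (i k) with h5 | h5
    · rw [← h5]
      exact ⟨-1, by ring⟩
    · have h6 : ((i k).natAbs : ℤ) = - i k := by omega
      rw [h6]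
      refine ⟨U (- i k), ?_⟩
      have h7 : U (i k) * U (- i k) = 1 := by
        rw [← hadd, add_neg_cancel, h0]
      linear_combination h7
  have h2 : ∏ k, (1 - U (i k)) ∣ (U L - 1) ^ n := by
    have h3 : (U L - 1) ^ n = ∏ _k : Fin n, (U L - 1) := by
      rw [Finset.prod_const, Finset.card_univ, Fintype.card_fin]
    rw [h3]
    exact Finset.prod_dvd_prod_of_dvd _ _ fun k _ => h1 k
  rw [prod_zero i c U h0 hadd h, zero_dvd_iff] at h2
  have h3 := unip e n he (U L) h2
  rw [← h3, ← U_nat U h0 hadd]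
  congr 1
  push_cast
  ring

end Ring

/-! ### The shifts -/

section Shift

variable (E : Type) [AddCommGroup E]

/-- the shifts of the sequences -/
noncomputable def sh : Multiplicative ℤ →* AddMonoid.End (ℤ → E) where
  toFun a := { toFun := fun φ l => φ (l + a.toAdd), map_zero' := rfl, map_add' := fun _ _ => rfl }
  map_one' := by
    ext φ l
    show φ (l + 0) = φ l
    rw [add_zero]
  map_mul' a b := by
    ext φ l
    show φ (l + (a.toAdd + b.toAdd)) = φ (l + a.toAdd + b.toAdd)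
    rw [add_assoc]

/-- the action of the Laurent polynomials -/
noncomputable def act : AddMonoidAlgebra ℤ ℤ →ₐ[ℤ] AddMonoid.End (ℤ → E) :=
  AddMonoidAlgebra.lift ℤ (AddMonoid.End (ℤ → E)) ℤ (sh E)

variable {E}

lemma act_single (φ : ℤ → E) (a c : ℤ) (l : ℤ) :
    act E (AddMonoidAlgebra.single a c) φ l = c • φ (l + a) := by
  unfold act
  rw [AddMonoidAlgebra.lift_single]
  rfl

lemma end_sum {ι : Type} (s : Finset ι) (f : ι → AddMonoid.End (ℤ → E)) (φ : ℤ → E) :
    (∑ k ∈ s, f k) φ = ∑ k ∈ s, f k φ := by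
  classical
  induction s using Finset.induction_on with
  | empty => rfl
  | insert a s ha ih =>
    rw [Finset.sum_insert ha, Finset.sum_insert ha, ← ih]
    rfl

/-- the annihilator of a sequence -/
noncomputable def ann (φ : ℤ → E) : Ideal (AddMonoidAlgebra ℤ ℤ) where
  carrier := {p | act E p φ = 0}
  add_mem' {p q} hp hq := by
    simp only [Set.mem_ofPred_eq] at hp hq ⊢
    rw [map_add]
    show act E p φ + act E q φ = 0
    rw [hp, hq, add_zero]
  zero_mem' := by
    simp only [Set.mem_ofPred_eq, map_zero]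
    rfl
  smul_mem' c p hp := by
    simp only [Set.mem_ofPred_eq] at hp ⊢
    rw [smul_eq_mul, map_mul]
    show act E c (act E p φ) = 0
    rw [hp, map_zero]

lemma mem_ann (φ : ℤ → E) (p : AddMonoidAlgebra ℤ ℤ) : p ∈ ann φ ↔ act E p φ = 0 := Iff.rfl

end Shift

theorem per : PerStmt := by
  classical
  intro u e he
  refine ⟨(∏ k, (u.i k).natAbs) * e ^ u.n, Nat.mul_pos (Finset.prod_pos fun k _ =>
    Int.natAbs_pos.2 (u.hi k)) (pow_pos he _), ?_⟩
  intro E _ hE φ hφ l
  set I := ann φ with hI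
  set U : ℤ → (AddMonoidAlgebra ℤ ℤ ⧸ I) := fun a =>
    Ideal.Quotient.mk I (AddMonoidAlgebra.single a (1 : ℤ)) with hU
  have h0 : U 0 = 1 := by
    rw [hU]
    show Ideal.Quotient.mk I (AddMonoidAlgebra.single 0 (1 : ℤ)) = 1
    rw [← AddMonoidAlgebra.one_def, map_one]
  have hadd : ∀ a b, U (a + b) = U a * U b := by
    intro a b
    rw [hU]
    show Ideal.Quotient.mk I (AddMonoidAlgebra.single (a + b) (1 : ℤ)) =
      Ideal.Quotient.mk I (AddMonoidAlgebra.single a (1 : ℤ)) *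
        Ideal.Quotient.mk I (AddMonoidAlgebra.single b (1 : ℤ))
    rw [← map_mul, AddMonoidAlgebra.single_mul_single, one_mul]
  have hone : (1 : AddMonoidAlgebra ℤ ℤ) = AddMonoidAlgebra.single 0 (1 : ℤ) :=
    AddMonoidAlgebra.one_def
  have hec : ((e : ℕ) : AddMonoidAlgebra ℤ ℤ ⧸ I) = 0 := by
    have h1 : (e : AddMonoidAlgebra ℤ ℤ) ∈ I := by
      rw [hI, mem_ann]
      have h2 : (e : AddMonoidAlgebra ℤ ℤ) = e • (1 : AddMonoidAlgebra ℤ ℤ) := by
        rw [nsmul_eq_mul, mul_one]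
      rw [h2, map_nsmul, map_one]
      funext l
      show e • φ l = 0
      exact hE _
    have h2 := Ideal.Quotient.eq_zero_iff_mem.2 h1
    rwa [map_natCast] at h2
  have hrel : ∀ m : ℤ, 1 = ∑ k, ((u.e k : ℤ) : AddMonoidAlgebra ℤ ℤ ⧸ I) * U (m * u.i k) := by
    intro m
    have h1 : (1 : AddMonoidAlgebra ℤ ℤ) -
        ∑ k, AddMonoidAlgebra.single (m * u.i k) (u.e k) ∈ I := by
      rw [hI, mem_ann, map_sub, map_one, map_sum]
      funext l
      show φ l - (∑ k, act E (AddMonoidAlgebra.single (m * u.i k) (u.e k))) φ l = 0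
      have h2 : (∑ k, act E (AddMonoidAlgebra.single (m * u.i k) (u.e k))) φ l =
          ∑ k, u.e k • φ (l + m * u.i k) := by
        rw [end_sum, Finset.sum_apply]
        exact Finset.sum_congr rfl fun k _ => act_single _ _ _ _
      rw [h2, ← hφ l m, sub_self]
    have h2 := Ideal.Quotient.eq_zero_iff_mem.2 h1
    rw [map_sub, map_one, map_sum, sub_eq_zero] at h2
    rw [h2]
    refine Finset.sum_congr rfl fun k _ => ?_
    rw [hU]
    show _ = ((u.e k : ℤ) : AddMonoidAlgebra ℤ ℤ ⧸ I) *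
      Ideal.Quotient.mk I (AddMonoidAlgebra.single (m * u.i k) (1 : ℤ))
    rw [← map_intCast (Ideal.Quotient.mk I), ← map_mul]
    congr 1
    rw [← zsmul_eq_mul, AddMonoidAlgebra.smul_single]
    simp
  have key := ring_per u.i (fun k => ((u.e k : ℤ) : AddMonoidAlgebra ℤ ℤ ⧸ I)) U u.hi e hec h0
    hadd hrel
  set P : ℕ := (∏ k, (u.i k).natAbs) * e ^ u.n with hP
  have h3 : AddMonoidAlgebra.single (P : ℤ) (1 : ℤ) - 1 ∈ I := by
    rw [← Ideal.Quotient.eq_zero_iff_mem, map_sub, map_one, sub_eq_zero]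
    exact key
  rw [hI, mem_ann, map_sub, map_one] at h3
  have h4 := congrFun h3 l
  have h5 : act E (AddMonoidAlgebra.single (P : ℤ) (1 : ℤ)) φ l - φ l = 0 := h4
  rw [act_single, one_smul, sub_eq_zero] at h5
  exact h5

end Pool.Agent.TH370.HGPer
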