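import Pool.Agent.TH317.CC.Geo

/-!
# Combinatorics of polygon moves (project MP_86dbc7_gt)
-/

set_option autoImplicit false

universe u

namespace Pool.Agent.TH317.CC.H370A

open Pool.Agent.TH317.CC

variable {M : Type u} [MetricSpace M] {r ℓ : ℝ} {S : Set M}

/-- chains of steps -/
def Cn (r ℓ : ℝ) (S : Set M) (P P' : List M) : Prop := Relation.ReflTransGen (PStep r ℓ S) P P'

lemma pstep_symm {P P' : List M} (h : PStep r ℓ S P P') : PStep r ℓ S P' P :=
  ⟨h.2.1, h.1, h.2.2.symm⟩

lemma Cn.symm {P P' : List M} (h : Cn r ℓ S P P') : Cn r ℓ S P' P := by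
  unfold Cn at *
  induction h with
  | refl => exact Relation.ReflTransGen.refl
  | tail _ hbc ih => exact Relation.ReflTransGen.head (pstep_symm hbc) ih

lemma Cn.trans {P P' P'' : List M} (h : Cn r ℓ S P P') (h' : Cn r ℓ S P' P'') : Cn r ℓ S P P'' :=
  Relation.ReflTransGen.trans h h'

lemma Cn.refl {P : List M} : Cn r ℓ S P P := Relation.ReflTransGen.refl

lemma Cn.single {P P' : List M} (h : PStep r ℓ S P P') : Cn r ℓ S P P' :=
  Relation.ReflTransGen.single h

/-- closing a polygon -/
def cl : List M → List M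
  | [] => []
  | x :: l => x :: (l ++ [x])

lemma good_iff {P : List M} : Good r ℓ S P ↔
    P ≠ [] ∧ List.IsChain (fun a b => dist a b ≤ r) (cl P) ∧ chl (cl P) < ℓ ∧ ∀ y ∈ P, y ∈ S := by
  cases P with
  | nil => simp [Good]
  | cons x l => simp [Good, cl]

lemma chl_cons2 (x y : M) (l : List M) : chl (x :: y :: l) = dist x y + chl (y :: l) := rfl

lemma chl_snoc (l : List M) (a b : M) : chl (l ++ [a, b]) = chl (l ++ [a]) + dist a b := by
  induction l with
  | nil => simp [chl]
  | cons c l ih =>
    cases l with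
    | nil => simp [chl]
    | cons d l =>
      simp only [List.cons_append, chl_cons2] at ih ⊢
      rw [ih]; ring

lemma chl_dup (l1 : List M) (x : M) (l2 : List M) :
    chl (l1 ++ x :: x :: l2) = chl (l1 ++ x :: l2) := by
  induction l1 with
  | nil => simp [chl_cons2]
  | cons a l1 ih =>
    cases l1 with
    | nil => simp [chl_cons2]
    | cons b l1 =>
      simp only [List.cons_append, chl_cons2] at ih ⊢
      rw [ih]

lemma chain_dup {s : ℝ} (hs : 0 ≤ s) (l1 : List M) (x : M) (l2 : List M)
    (h : List.IsChain (fun a b => dist a b ≤ s) (l1 ++ x :: l2)) :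
    List.IsChain (fun a b => dist a b ≤ s) (l1 ++ x :: x :: l2) := by
  induction l1 with
  | nil =>
    simp only [List.nil_append] at h ⊢
    exact List.isChain_cons_cons.mpr ⟨by simpa using hs, h⟩
  | cons a l1 ih =>
    cases l1 with
    | nil =>
      simp only [List.cons_append, List.nil_append] at h ih ⊢
      have h' := List.isChain_cons_cons.mp h
      exact List.isChain_cons_cons.mpr ⟨h'.1, ih h'.2⟩
    | cons b l1 =>
      simp only [List.cons_append] at h ih ⊢
      have h' := List.isChain_cons_cons.mp h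
      exact List.isChain_cons_cons.mpr ⟨h'.1, ih h'.2⟩

/-! ### rotations -/

lemma good_rot1 {x : M} {l : List M} (h : Good r ℓ S (x :: l)) : Good r ℓ S (l ++ [x]) := by
  cases l with
  | nil => exact h
  | cons y l =>
    obtain ⟨h1, h2, h3⟩ := h
    simp only [List.cons_append] at h1 h2
    have h1' := List.isChain_cons_cons.mp h1
    refine ⟨?_, ?_, ?_⟩
    · have e : y :: (l ++ [x] ++ [y]) = (y :: (l ++ [x])) ++ [y] := by simp
      show List.IsChain (fun a b => dist a b ≤ r) (y :: (l ++ [x] ++ [y]))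
      rw [e, List.isChain_append]
      refine ⟨h1'.2, List.isChain_singleton _, ?_⟩
      intro a ha b hb
      simp at ha hb
      subst hb
      have : a = x := by
        rw [← List.cons_append, List.getLast?_append] at ha
        simpa using ha.symm
      rw [this]; exact h1'.1
    · have e : y :: (l ++ [x] ++ [y]) = (y :: l) ++ [x, y] := by simp
      show chl (y :: (l ++ [x] ++ [y])) < ℓ
      rw [e, chl_snoc]
      rw [chl_cons2] at h2
      simp only [List.cons_append] at h2 ⊢
      linarith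
    · intro a ha
      apply h3
      simp at ha ⊢
      tauto

lemma rot1 {x : M} {l : List M} (h : Good r ℓ S (x :: l)) : Cn r ℓ S (x :: l) (l ++ [x]) :=
  Cn.single ⟨h, good_rot1 h, Or.inl (PMove.rot x l)⟩

lemma rot_any (A : List M) : ∀ B : List M, Good r ℓ S (A ++ B) →
    Good r ℓ S (B ++ A) ∧ Cn r ℓ S (A ++ B) (B ++ A) := by
  induction A with
  | nil => intro B h; simp only [List.nil_append] at h; simpa using ⟨h, Cn.refl⟩
  | cons x A ih =>
    intro B h
    have h' : Good r ℓ S (x :: (A ++ B)) := h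
    have h1 := good_rot1 h'
    have h2 := rot1 h'
    rw [List.append_assoc] at h1 h2
    obtain ⟨h3, h4⟩ := ih (B ++ [x]) h1
    have e : B ++ [x] ++ A = B ++ x :: A := by simp
    rw [e] at h3 h4
    exact ⟨h3, h2.trans h4⟩

/-- insertion at an arbitrary place -/
lemma ins_any (P Q : List M) (y : M) (hne : P ++ Q ≠ []) (h1 : Good r ℓ S (P ++ Q))
    (h2 : Good r ℓ S (P ++ y :: Q)) : Cn r ℓ S (P ++ Q) (P ++ y :: Q) := by
  rcases List.eq_nil_or_concat' P with hP | ⟨P', x, hP⟩
  · subst hP
    simp only [List.nil_append] at *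
    obtain ⟨Q', x, hQ⟩ := (List.eq_nil_or_concat' Q).resolve_left hne
    subst hQ
    obtain ⟨g1, c1⟩ := rot_any Q' [x] h1
    obtain ⟨g2, c2⟩ := rot_any (y :: Q') [x] (by simpa using h2)
    have c2' : Cn r ℓ S (y :: (Q' ++ [x])) (x :: y :: Q') := by simpa using c2
    have c3 : Cn r ℓ S (x :: Q') (x :: y :: Q') :=
      Cn.single ⟨by simpa using g1, by simpa using g2, Or.inl (PMove.ins x y Q')⟩
    exact (c1.trans c3).trans c2'.symm
  · subst hP
    have e1 : P' ++ [x] ++ Q = P' ++ (x :: Q) := by simp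
    have e2 : P' ++ [x] ++ y :: Q = P' ++ (x :: y :: Q) := by simp
    rw [e1] at h1 ⊢
    rw [e2] at h2 ⊢
    obtain ⟨g1, c1⟩ := rot_any P' (x :: Q) h1
    obtain ⟨g2, c2⟩ := rot_any P' (x :: y :: Q) h2
    have c3 : Cn r ℓ S (x :: Q ++ P') (x :: y :: Q ++ P') :=
      Cn.single ⟨g1, g2, Or.inl (PMove.ins x y (Q ++ P'))⟩
    exact (c1.trans c3).trans c2.symm

/-! ### perturbations -/

/-- coordinatewise `η`-close lists -/
def Cls' (η : ℝ) (l l' : List M) : Prop := List.Forall₂ (fun a b => dist a b ≤ η) l l'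

lemma chl_pert {η : ℝ} {l l' : List M} (h : Cls' η l l') (hη : 0 ≤ η) :
    chl l' ≤ chl l + 2 * η * l.length := by
  unfold Cls' at h
  induction h with
  | nil => simp [chl]
  | @cons a b t t' hab ht ih =>
    cases ht with
    | nil => simp [chl]; linarith
    | @cons c d s s' hcd hs =>
      rw [chl_cons2, chl_cons2]
      have h1 : dist b d ≤ dist a c + 2 * η := by
        have := dist_triangle4 b a c d
        have h2 : dist b a ≤ η := by rw [dist_comm]; exact hab
        linarith
      simp only [List.length_cons, Nat.cast_add, Nat.cast_one] at ih ⊢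
      linarith

lemma chain_pert {η s : ℝ} {l l' : List M} (h : Cls' η l l')
    (hl : List.IsChain (fun a b => dist a b ≤ s) l) :
    List.IsChain (fun a b => dist a b ≤ s + 2 * η) l' := by
  unfold Cls' at h
  induction h with
  | nil => exact List.isChain_nil
  | @cons a b t t' hab ht ih =>
    cases ht with
    | nil => exact List.isChain_singleton _
    | @cons c d s' s'' hcd hs =>
      have hl' := List.isChain_cons_cons.mp hl
      refine List.isChain_cons_cons.mpr ⟨?_, ih hl'.2⟩
      have h1 := dist_triangle4 b a c d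
      have h2 : dist b a ≤ η := by rw [dist_comm]; exact hab
      linarith [hl'.1]

lemma cls_cl {η : ℝ} {P P' : List M} (h : Cls' η P P') : Cls' η (cl P) (cl P') := by
  unfold Cls' at *
  cases h with
  | nil => exact List.Forall₂.nil
  | @cons a b t t' hab ht =>
    exact List.Forall₂.cons hab (List.rel_append ht (List.Forall₂.cons hab List.Forall₂.nil))

lemma cl_length (P : List M) : (cl P).length ≤ P.length + 1 := by
  cases P with
  | nil => simp [cl]
  | cons x l => simp [cl]

lemma good_pert {η s ℓ0 : ℝ} {P P' : List M} (hη : 0 ≤ η) (hP : P ≠ [])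
    (h1 : List.IsChain (fun a b => dist a b ≤ s) (cl P)) (h2 : chl (cl P) ≤ ℓ0)
    (h : Cls' η P P') (hs : s + 2 * η ≤ r) (hℓ : ℓ0 + 2 * η * (P.length + 1) < ℓ)
    (hS : ∀ y ∈ P', y ∈ S) : Good r ℓ S P' := by
  rw [good_iff]
  refine ⟨?_, ?_, ?_, hS⟩
  · rintro rfl
    unfold Cls' at h
    cases h
    exact hP rfl
  · exact (chain_pert (cls_cl h) h1).imp (fun a b hab => le_trans hab hs)
  · have a1 := chl_pert (cls_cl h) hη
    have a2 : ((cl P).length : ℝ) ≤ P.length + 1 := by exact_mod_cast cl_length P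
    have a3 : 2 * η * (cl P).length ≤ 2 * η * (P.length + 1) :=
      mul_le_mul_of_nonneg_left a2 (by linarith)
    linarith

lemma cl_append_cons (A : List M) (x : M) (Q : List M) :
    ∃ l2, cl (A ++ x :: Q) = A ++ x :: l2 ∧ cl (A ++ x :: x :: Q) = A ++ x :: x :: l2 := by
  cases A with
  | nil => exact ⟨Q ++ [x], rfl, rfl⟩
  | cons a A => exact ⟨Q ++ [a], by simp [cl], by simp [cl]⟩

/-- replacing one vertex -/
lemma replace_one {η s ℓ0 : ℝ} {A Q A' Q' : List M} {x x' : M} (hη : 0 ≤ η) (hs0 : 0 ≤ s)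
    (h1 : List.IsChain (fun a b => dist a b ≤ s) (cl (A ++ x :: Q)))
    (h2 : chl (cl (A ++ x :: Q)) ≤ ℓ0) (hA : Cls' η A A') (hx : dist x x' ≤ η)
    (hQ : Cls' η Q Q') (hs : s + 2 * η ≤ r)
    (hℓ : ℓ0 + 2 * η * (((A ++ x :: Q).length : ℝ) + 2) < ℓ)
    (hSA : ∀ y ∈ A', y ∈ S) (hSQ : ∀ y ∈ Q', y ∈ S) (hSx : x ∈ S) (hSx' : x' ∈ S) :
    Cn r ℓ S (A' ++ x :: Q') (A' ++ x' :: Q') := by
  have hxx : dist x x ≤ η := by simpa using hη
  have g1 : Good r ℓ S (A' ++ x :: Q') := by
    refine good_pert hη (by simp) h1 h2 (List.rel_append hA (List.Forall₂.cons hxx hQ)) hs ?_ ?_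
    · nlinarith
    · intro y hy
      simp at hy
      rcases hy with h | h | h
      · exact hSA y h
      · rw [h]; exact hSx
      · exact hSQ y h
  have g2 : Good r ℓ S (A' ++ x' :: Q') := by
    refine good_pert hη (by simp) h1 h2 (List.rel_append hA (List.Forall₂.cons hx hQ)) hs ?_ ?_
    · nlinarith
    · intro y hy
      simp at hy
      rcases hy with h | h | h
      · exact hSA y h
      · rw [h]; exact hSx'
      · exact hSQ y h
  obtain ⟨l2, e1, e2⟩ := cl_append_cons A x Q
  have g3 : Good r ℓ S (A' ++ x :: x' :: Q') := by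
    refine good_pert (P := A ++ x :: x :: Q) (s := s) (ℓ0 := ℓ0) hη (by simp) ?_ ?_
      (List.rel_append hA (List.Forall₂.cons hxx (List.Forall₂.cons hx hQ))) hs ?_ ?_
    · rw [e2]; rw [e1] at h1
      exact chain_dup hs0 _ _ _ h1
    · rw [e2, chl_dup, ← e1]; exact h2
    · simp only [List.length_append, List.length_cons, Nat.cast_add, Nat.cast_one] at hℓ ⊢
      nlinarith
    · intro y hy
      simp at hy
      rcases hy with h | h | h | h
      · exact hSA y h
      · rw [h]; exact hSx
      · rw [h]; exact hSx'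
      · exact hSQ y h
  have c1 : Cn r ℓ S (A' ++ x :: Q') (A' ++ x :: x' :: Q') := by
    have := ins_any (A' ++ [x]) Q' x' (by simp) (by simpa using g1) (by simpa using g3)
    simpa using this
  have c2 : Cn r ℓ S (A' ++ x' :: Q') (A' ++ x :: x' :: Q') :=
    ins_any A' (x' :: Q') x (by simp) g2 g3
  exact c1.trans c2.symm

/-- replacing all the vertices -/
lemma replace_all {η s ℓ0 : ℝ} (hη : 0 ≤ η) (hs0 : 0 ≤ s) (hs : s + 2 * η ≤ r) :
    ∀ (Q Q' A A' : List M), List.IsChain (fun a b => dist a b ≤ s) (cl (A ++ Q)) →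
    chl (cl (A ++ Q)) ≤ ℓ0 → ℓ0 + 2 * η * (((A ++ Q).length : ℝ) + 2) < ℓ → Cls' η A A' →
    Cls' η Q Q' → (∀ y ∈ A', y ∈ S) → (∀ y ∈ Q, y ∈ S) → (∀ y ∈ Q', y ∈ S) →
    Cn r ℓ S (A' ++ Q) (A' ++ Q') := by
  intro Q
  induction Q with
  | nil =>
    intro Q' A A' _ _ _ _ hQ _ _ _
    unfold Cls' at hQ
    cases hQ
    exact Cn.refl
  | cons x Q ih =>
    intro Q' A A' h1 h2 hℓ hA hQ hSA hSQ hSQ'
    unfold Cls' at hQ
    cases hQ with
    | @cons _ x' _ Q'' hx hQ'' =>
      have c1 : Cn r ℓ S (A' ++ x :: Q) (A' ++ x' :: Q) := by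
        refine replace_one (Q' := Q) hη hs0 h1 h2 hA hx ?_ hs hℓ hSA
          (fun y hy => hSQ y (List.mem_cons_of_mem _ hy)) (hSQ x (by simp)) (hSQ' x' (by simp))
        exact List.forall₂_same.mpr (fun y _ => by simpa using hη)
      have c2 := ih Q'' (A ++ [x]) (A' ++ [x']) (by simpa using h1) (by simpa using h2)
        (by simpa using hℓ) (List.rel_append hA (List.Forall₂.cons hx List.Forall₂.nil)) hQ''
        (by
          intro y hy
          simp at hy
          rcases hy with h | h
          · exact hSA y h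
          · rw [h]; exact hSQ' x' (by simp))
        (fun y hy => hSQ y (List.mem_cons_of_mem _ hy))
        (fun y hy => hSQ' y (List.mem_cons_of_mem _ hy))
      have c2' : Cn r ℓ S (A' ++ x' :: Q) (A' ++ x' :: Q'') := by simpa using c2
      exact c1.trans c2'

/-- constant polygons -/
lemma const_contr {c : M} (hc : c ∈ S) (hr : 0 ≤ r) (hℓ : 0 < ℓ) (n : ℕ) :
    Cn r ℓ S (List.replicate (n + 1) c) [c] := by
  have hg : ∀ n, Good r ℓ S (List.replicate (n + 1) c) := by
    intro n
    have e : cl (List.replicate (n + 1) c) = List.replicate (n + 2) c := by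
      show c :: (List.replicate n c ++ [c]) = _
      rw [← List.replicate_succ']
      rfl
    rw [good_iff, e]
    refine ⟨by simp, ?_, ?_, ?_⟩
    · apply List.isChain_replicate_of_rel
      simpa using hr
    · have : ∀ m, chl (List.replicate (m + 1) c) = 0 := by
        intro m
        induction m with
        | zero => rfl
        | succ m ih =>
          show dist c c + chl (List.replicate (m + 1) c) = 0
          rw [ih]; simp
      rw [this (n + 1)]; exact hℓ
    · intro y hy
      rw [List.eq_of_mem_replicate hy]; exact hc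
  induction n with
  | zero => exact Cn.refl
  | succ n ih =>
    refine Cn.trans (Cn.single ?_) ih
    refine ⟨hg (n + 1), hg n, Or.inr ?_⟩
    exact PMove.ins c c (List.replicate n c)

end Pool.Agent.TH317.CC.H370A
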