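import Pool.Agent.TH37.HG.Stmts
import Pool.Agent.Helper111.EN.Basic
import Pool.Agent.H53R2.Small

/-!
# HG-DFIN: finiteness of `D` in a finitely generated soluble group with max-n
-/

set_option autoImplicit false

namespace Pool.Agent.TH370.HGDfin

open Pool.Agent.TH37.HG
open Pool.Agent.H53R2 (MaxN)
open scoped commutatorElement

section

variable {G : Type} [Group G]

/-- the centralizer of a finite normal subgroup has finite index -/
lemma cent_fin (B : Subgroup G) [B.Normal] [Finite B] :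
    (Subgroup.centralizer (B : Set G)).FiniteIndex := by
  have h1 : (MulAut.conjNormal : G →* MulAut B).ker.FiniteIndex := inferInstance
  refine Subgroup.finiteIndex_of_le (H := (MulAut.conjNormal : G →* MulAut B).ker) ?_
  intro g hg
  rw [MonoidHom.mem_ker] at hg
  rw [Subgroup.mem_centralizer_iff]
  intro b hb
  have h2 : MulAut.conjNormal g (⟨b, hb⟩ : B) = ⟨b, hb⟩ := by rw [hg]; rfl
  have h3 : g * b * g⁻¹ = b := by
    have := congrArg Subtype.val h2
    rwa [MulAut.conjNormal_apply] at this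
  calc b * g = (g * b * g⁻¹) * g := by rw [h3]
    _ = g * b := by group

variable {B C D : Subgroup G}

lemma comm_mul (hDC : D ≤ C) (hBC : ∀ b ∈ B, ∀ c ∈ C, b * c = c * b)
    (hDCB : ∀ d ∈ D, ∀ c ∈ C, ⁅d, c⁆ ∈ B) {d d' c : G} (hd : d ∈ D) (hd' : d' ∈ D)
    (hc : c ∈ C) : ⁅d * d', c⁆ = ⁅d', c⁆ * ⁅d, c⁆ := by
  have h1 : ⁅d * d', c⁆ = d * ⁅d', c⁆ * d⁻¹ * ⁅d, c⁆ := by
    simp only [commutatorElement_def]
    group
  rw [h1, ← hBC _ (hDCB d' hd' c hc) d (hDC hd)]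
  group

lemma comm_pow (hDC : D ≤ C) (hBC : ∀ b ∈ B, ∀ c ∈ C, b * c = c * b)
    (hDCB : ∀ d ∈ D, ∀ c ∈ C, ⁅d, c⁆ ∈ B) {d c : G} (hd : d ∈ D) (hc : c ∈ C) (k : ℕ) :
    ⁅d ^ k, c⁆ = ⁅d, c⁆ ^ k := by
  induction k with
  | zero => simp
  | succ k ih =>
    rw [pow_succ, comm_mul hDC hBC hDCB (D.pow_mem hd k) hd hc, ih, pow_succ']

lemma comm_div (hDC : D ≤ C) (hBC : ∀ b ∈ B, ∀ c ∈ C, b * c = c * b)
    (hDCB : ∀ d ∈ D, ∀ c ∈ C, ⁅d, c⁆ ∈ B) {d x c : G} (hd : d ∈ D) (hx : x ∈ D) (hc : c ∈ C)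
    (h : ⁅x, c⁆ = ⁅d, c⁆) : ⁅x * d⁻¹, c⁆ = 1 := by
  have h1 := comm_mul hDC hBC hDCB (D.mul_mem hx (D.inv_mem hd)) hd hc
  rw [inv_mul_cancel_right, h] at h1
  have h2 : ⁅d, c⁆ * 1 = ⁅d, c⁆ * ⁅x * d⁻¹, c⁆ := by rw [mul_one]; exact h1
  exact (mul_left_cancel h2).symm

end

theorem dfin : DfinStmt := by
  classical
  intro G _ _ _ hmax B C D Z _ _ _ _ _ _ hDC hBC0 hDCB0 hZ P hP hper
  have hBC : ∀ b ∈ B, ∀ c ∈ C, b * c = c * b := by
    intro b hb c hc
    have h1 := Subgroup.commutator_mem_commutator hb hc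
    rw [hBC0, Subgroup.mem_bot, commutatorElement_eq_one_iff_mul_comm] at h1
    exact h1
  have hDCB : ∀ d ∈ D, ∀ c ∈ C, ⁅d, c⁆ ∈ B := fun d hd c hc =>
    hDCB0 (Subgroup.commutator_mem_commutator hd hc)
  have hZD : Z ≤ D := fun x hx => ((hZ x).1 hx).1
  have hDn : D.Normal := inferInstance
  have hZn : Z.Normal := inferInstance
  -- the group that acts trivially on `D / Z`
  set π : G →* G ⧸ Z := QuotientGroup.mk' Z with hπ
  have hπs : Function.Surjective π := QuotientGroup.mk'_surjective Z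
  have hπeq : ∀ x y : G, π x = π y ↔ x⁻¹ * y ∈ Z := fun x y => QuotientGroup.eq
  set Db : Subgroup (G ⧸ Z) := D.map π with hDb
  have hDbn : Db.Normal := hDn.map π hπs
  set K : Subgroup G := (Subgroup.centralizer (Db : Set (G ⧸ Z))).comap π with hK
  have hKn : K.Normal := inferInstance
  have hKmem : ∀ g : G, (∀ d ∈ D, g * d * g⁻¹ * d⁻¹ ∈ Z) → g ∈ K := by
    intro g hg
    rw [hK, Subgroup.mem_comap, Subgroup.mem_centralizer_iff]
    rintro _ ⟨d, hd, rfl⟩
    rw [← map_mul, ← map_mul, hπeq]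
    have h1 : (d * g)⁻¹ * (g * d) = (d * g)⁻¹ * (g * d * g⁻¹ * d⁻¹) * ((d * g)⁻¹)⁻¹ := by group
    rw [h1]
    exact hZn.conj_mem _ (hg d hd) _
  have hKact : ∀ g ∈ K, ∀ d ∈ D, π (g * d * g⁻¹) = π d := by
    intro g hg d hd
    rw [hK, Subgroup.mem_comap, Subgroup.mem_centralizer_iff] at hg
    have h1 := hg (π d) ⟨d, hd, rfl⟩
    rw [map_mul, map_mul, ← h1, map_inv]
    group
  -- the powers of the elements of the centralizer of `B`
  set G1 : Subgroup G := Subgroup.centralizer (B : Set G) with hG1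
  have hG1f : G1.FiniteIndex := cent_fin B
  have hpow : ∀ t ∈ G1, t ^ P ∈ K := by
    intro t ht
    apply hKmem
    intro d hd
    have hcd : t ^ P * d * (t ^ P)⁻¹ ∈ D := hDn.conj_mem d hd _
    rw [hZ]
    refine ⟨D.mul_mem hcd (D.inv_mem hd), fun c hc => ?_⟩
    refine comm_div hDC hBC hDCB hd hcd hc ?_
    have h1 := hper d hd c hc t⁻¹ (G1.inv_mem ht)
    rw [inv_inv] at h1
    have h2 : ⁅t ^ P * d * (t ^ P)⁻¹, c⁆ =
        t ^ P * ⁅d, t⁻¹ ^ P * c * t ^ P⁆ * (t ^ P)⁻¹ := by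
      rw [inv_pow]
      simp only [commutatorElement_def]
      group
    rw [h2, h1]
    have h3 : ⁅d, c⁆ * t ^ P = t ^ P * ⁅d, c⁆ := by
      have h4 : t ^ P ∈ G1 := G1.pow_mem ht P
      rw [hG1, Subgroup.mem_centralizer_iff] at h4
      exact h4 _ (hDCB d hd c hc)
    rw [← h3]
    group
  -- `K` has finite index
  have hKf : K.FiniteIndex := by
    have hfg1 : Group.FG G1 := inferInstance
    have hfg2 : Group.FG (G1 ⧸ K.subgroupOf G1) := QuotientGroup.fg _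
    have hfin : Finite (G1 ⧸ K.subgroupOf G1) := by
      refine Pool.Agent.Helper111.EN.finite_of_fg_solvable_torsion _ fun x => ?_
      obtain ⟨t, rfl⟩ := QuotientGroup.mk_surjective x
      rw [isOfFinOrder_iff_pow_eq_one]
      refine ⟨P, hP, ?_⟩
      rw [← QuotientGroup.mk_pow, QuotientGroup.eq_one_iff, Subgroup.mem_subgroupOf]
      exact hpow t.1 t.2
    have h1 : (K.subgroupOf G1).FiniteIndex := Subgroup.finiteIndex_of_finite_quotient
    have h2 : (K ⊓ G1).index ≠ 0 := by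
      rw [← Subgroup.relIndex_mul_index (inf_le_right : K ⊓ G1 ≤ G1),
        Subgroup.inf_relIndex_right]
      exact mul_ne_zero h1.index_ne_zero hG1f.index_ne_zero
    have h3 : (K ⊓ G1).FiniteIndex := ⟨h2⟩
    exact Subgroup.finiteIndex_of_le (inf_le_left : K ⊓ G1 ≤ K)
  have hQf : Finite (G ⧸ K) := inferInstance
  -- the group `D / Z` is finitely generated
  obtain ⟨S, hS⟩ := Pool.Agent.H53R2.MaxN.normalClosure hmax D hDn
  have hSD : ∀ s ∈ S, s ∈ D := by
    intro s hs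
    rw [hS]
    exact Subgroup.subset_normalClosure hs
  have hfin : (π '' Group.conjugatesOfSet (S : Set G)).Finite := by
    have h1 : π '' Group.conjugatesOfSet (S : Set G) ⊆
        ⋃ s ∈ S, Set.range (fun q : G ⧸ K => π (q.out * s * q.out⁻¹)) := by
      rintro _ ⟨y, hy, rfl⟩
      rw [Group.mem_conjugatesOfSet_iff] at hy
      obtain ⟨s, hs, hc⟩ := hy
      obtain ⟨g, hg⟩ := isConj_iff.1 hc
      rw [Set.mem_iUnion₂]
      refine ⟨s, hs, (g : G ⧸ K), ?_⟩
      have h2 : ((g : G ⧸ K).out)⁻¹ * g ∈ K :=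
        QuotientGroup.eq.1 (QuotientGroup.out_eq' (g : G ⧸ K))
      obtain ⟨q, hq⟩ : ∃ q : G, q = (g : G ⧸ K).out := ⟨_, rfl⟩
      rw [← hq] at h2
      show π ((g : G ⧸ K).out * s * ((g : G ⧸ K).out)⁻¹) = π y
      rw [← hq, ← hg]
      have h3 := hKact _ h2 s (hSD s hs)
      have h4 : g * s * g⁻¹ = q * (q⁻¹ * g * s * (q⁻¹ * g)⁻¹) * q⁻¹ := by group
      rw [h4, map_mul π (q * (q⁻¹ * g * s * (q⁻¹ * g)⁻¹)), map_mul π q, h3, ← map_mul, ← map_mul]
    exact Set.Finite.subset (Set.Finite.biUnion S.finite_toSet fun s _ =>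
      Set.finite_range (fun q : G ⧸ K => π (q.out * s * q.out⁻¹))) h1
  have hDbcl : Db = Subgroup.closure (π '' Group.conjugatesOfSet (S : Set G)) := by
    rw [hDb, hS]
    unfold Subgroup.normalClosure
    rw [MonoidHom.map_closure]
  have hDfg : Group.FG Db := by
    rw [Group.fg_iff_subgroup_fg, Subgroup.fg_iff]
    exact ⟨_, hDbcl.symm, hfin⟩
  have hDbf : Finite Db := by
    refine Pool.Agent.Helper111.EN.finite_of_fg_solvable_torsion _ fun x => ?_
    rw [isOfFinOrder_iff_pow_eq_one]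
    refine ⟨Nat.card B, Nat.card_pos, ?_⟩
    obtain ⟨_, d, hd, rfl⟩ := x
    apply Subtype.ext
    show π d ^ Nat.card B = 1
    rw [← map_pow]
    have h1 : d ^ Nat.card B ∈ Z := by
      rw [hZ]
      refine ⟨D.pow_mem hd _, fun c hc => ?_⟩
      rw [comm_pow hDC hBC hDCB hd hc]
      have h2 : (⟨⁅d, c⁆, hDCB d hd c hc⟩ : B) ^ Nat.card B = 1 := pow_card_eq_one'
      exact congrArg Subtype.val h2
    exact (QuotientGroup.eq_one_iff _).2 h1
  -- the end
  obtain ⟨r, hr⟩ := hπs.hasRightInverse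
  have hDsub : (D : Set G) ⊆ Set.range (fun p : Db × Z => r p.1.1 * p.2.1) := by
    intro d hd
    have h1 : (r (π d))⁻¹ * d ∈ Z := by
      rw [← hπeq]
      exact hr (π d)
    refine ⟨(⟨π d, d, hd, rfl⟩, ⟨_, h1⟩), ?_⟩
    show r (π d) * ((r (π d))⁻¹ * d) = d
    group
  exact (Set.Finite.subset (Set.finite_range _) hDsub).to_subtype

end Pool.Agent.TH370.HGDfin
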