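import Pool.Agent.TH630.Tor.TorusDef

set_option autoImplicit false

open scoped Matrix

noncomputable section

namespace Pool.Agent.TH370.J1087

open Pool.Agent.TH630.Tor

variable {g : ℕ} {G : Type} [Group G]

theorem emb_of (g : ℕ) (y : Fin (2 * g)) :
    emb g (FreeGroup.of y) = FreeGroup.of (Fin.castAdd 1 y) := FreeGroup.map.of

theorem fox_emb_castAdd (φ : FreeGroup (Fin (2 * g + 1)) →* G) (k : Fin (2 * g))
    (w : FreeGroup (Fin (2 * g))) :
    fox φ (Fin.castAdd 1 k) (emb g w) = fox (φ.comp (emb g)) k w := by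
  rw [fox_chain φ (emb g) (Fin.castAdd 1 k) w, Finset.sum_eq_single k]
  · rw [emb_of, fox_of, if_pos rfl, mul_one]
  · intro b _ hb
    rw [emb_of, fox_of, if_neg, mul_zero]
    intro h
    exact hb ((Fin.castAdd_injective _ _) h)
  · intro h
    exact absurd (Finset.mem_univ k) h

theorem fox_emb_last (φ : FreeGroup (Fin (2 * g + 1)) →* G) (w : FreeGroup (Fin (2 * g))) :
    fox φ (Fin.last (2 * g)) (emb g w) = 0 := by
  rw [fox_chain φ (emb g) (Fin.last (2 * g)) w]
  refine Finset.sum_eq_zero fun y _ => ?_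
  rw [emb_of, fox_of, if_neg, mul_zero]
  intro h
  have h2 := congrArg Fin.val h
  have := y.2
  simp at h2
  omega

section
variable (f : FreeGroup (Fin (2 * g)) ≃* FreeGroup (Fin (2 * g)))
  (φ : FreeGroup (Fin (2 * g + 1)) →* G) (h : ∀ j, φ (torusRel f j) = 1)

theorem torusRel_castAdd (j : Fin (2 * g)) : torusRel f (Fin.castAdd 1 j) =
    sGen g * emb g (f (FreeGroup.of j)) * (sGen g)⁻¹ * (emb g (FreeGroup.of j))⁻¹ := by
  unfold torusRel
  exact Fin.addCases_left _

theorem torusRel_natAdd (j : Fin 1) : torusRel f (Fin.natAdd (2 * g) j) =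
    emb g (surfaceRel g) := by
  unfold torusRel
  exact Fin.addCases_right _

theorem b2_apply (j k : Fin (2 * g + 1)) :
    (torusPres f φ h).b2 j k = fox φ k (torusRel f j) := rfl

include h in
theorem conj_gen (j : Fin (2 * g)) : φ (sGen g) * φ (emb g (f (FreeGroup.of j))) *
    (φ (sGen g))⁻¹ = φ (emb g (FreeGroup.of j)) := by
  have h1 := h (Fin.castAdd 1 j)
  rw [torusRel_castAdd, map_mul, map_mul, map_mul, map_inv, map_inv] at h1
  exact mul_inv_eq_one.1 h1

include h in
theorem conj_all (w : FreeGroup (Fin (2 * g))) : φ (emb g w) =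
    φ (sGen g) * φ (emb g (f w)) * (φ (sGen g))⁻¹ := by
  have h1 : φ.comp (emb g) =
      ((MulAut.conj (φ (sGen g))).toMonoidHom.comp (φ.comp (emb g))).comp f.toMonoidHom := by
    ext j
    exact (conj_gen f φ h j).symm
  have h2 := DFunLike.congr_fun h1 w
  exact h2

theorem torus_b2_ul (j k : Fin (2 * g)) :
    (torusPres f φ h).b2 (Fin.castAdd 1 j) (Fin.castAdd 1 k)
      = MonoidAlgebra.single (φ (sGen g)) 1 * fox (φ.comp (emb g)) k (f (FreeGroup.of j))
        - (if j = k then 1 else 0) := by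
  rw [b2_apply, torusRel_castAdd]
  have hs : fox φ (Fin.castAdd 1 k) (sGen g) = 0 := by
    unfold sGen
    rw [fox_of, if_neg]
    intro h
    have h2 := congrArg Fin.val h
    have := k.2
    simp at h2
    omega
  have hx : fox φ (Fin.castAdd 1 k) (emb g (FreeGroup.of j)) = if j = k then 1 else 0 := by
    rw [fox_emb_castAdd, fox_of]
  have hkill : φ (sGen g * emb g (f (FreeGroup.of j)) * (sGen g)⁻¹) =
      φ (emb g (FreeGroup.of j)) := by
    rw [map_mul, map_mul, map_inv]
    exact conj_gen f φ h j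
  rw [fox_mul, fox_mul, fox_mul, fox_inv, fox_inv, hs, hx, hkill, fox_emb_castAdd, mul_zero,
    neg_zero, mul_zero, add_zero, zero_add, mul_neg, ← mul_assoc, single_mul_single1,
    mul_inv_cancel, single_one1, one_mul, ← sub_eq_add_neg]

theorem torus_b2_ur (j : Fin (2 * g)) (k : Fin 1) :
    (torusPres f φ h).b2 (Fin.castAdd 1 j) (Fin.natAdd (2 * g) k)
      = 1 - MonoidAlgebra.single (φ (emb g (FreeGroup.of j))) 1 := by
  have hk : Fin.natAdd (2 * g) k = Fin.last (2 * g) := by
    ext
    simp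
  rw [b2_apply, torusRel_castAdd, hk]
  have hs : fox φ (Fin.last (2 * g)) (sGen g) = 1 := by
    unfold sGen
    rw [fox_of, if_pos rfl]
  have e1 : φ (sGen g * emb g (f (FreeGroup.of j))) * (φ (sGen g))⁻¹ =
      φ (emb g (FreeGroup.of j)) := by
    rw [map_mul]
    exact conj_gen f φ h j
  rw [fox_mul, fox_mul, fox_mul, fox_inv, fox_inv, hs, fox_emb_last, fox_emb_last, mul_zero,
    mul_zero, neg_zero, mul_zero, add_zero, add_zero, mul_one, mul_neg, single_mul_single1, e1,
    ← sub_eq_add_neg]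

theorem torus_b2_dl (j : Fin 1) (k : Fin (2 * g)) :
    (torusPres f φ h).b2 (Fin.natAdd (2 * g) j) (Fin.castAdd 1 k)
      = fox (φ.comp (emb g)) k (surfaceRel g) := by
  rw [b2_apply, torusRel_natAdd, fox_emb_castAdd]

theorem torus_b2_dr (j k : Fin 1) :
    (torusPres f φ h).b2 (Fin.natAdd (2 * g) j) (Fin.natAdd (2 * g) k) = 0 := by
  have hk : Fin.natAdd (2 * g) k = Fin.last (2 * g) := by
    ext
    simp
  rw [b2_apply, torusRel_natAdd, hk, fox_emb_last]

/-- the matrix `b2` with plain index types -/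
def tb2 : Matrix (Fin (2 * g + 1)) (Fin (2 * g + 1)) (MonoidAlgebra ℤ G) := (torusPres f φ h).b2

theorem tb2_eq (i j : Fin (2 * g + 1)) : tb2 f φ h i j = (torusPres f φ h).b2 i j := rfl

theorem torus_b3_mul_tb2 (hf : f (surfaceRel g) = surfaceRel g) :
    torusB3 φ * tb2 f φ h = 0 := by
  have l1 : ∀ (i : Fin 1) (j : Fin (2 * g)), torusB3 φ i (Fin.castAdd 1 j) =
      -fox (φ.comp (emb g)) j (surfaceRel g) := by
    intro i j
    unfold torusB3
    rw [Matrix.of_apply]
    exact Fin.addCases_left _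
  have l2 : ∀ (i : Fin 1) (j : Fin 1), torusB3 φ i (Fin.natAdd (2 * g) j) =
      MonoidAlgebra.single (φ (sGen g)) 1 - 1 := by
    intro i j
    unfold torusB3
    rw [Matrix.of_apply]
    exact Fin.addCases_right _
  have key : ∀ (i : Fin 1) (c : Fin (2 * g + 1)),
      (torusB3 φ * tb2 f φ h) i c =
        (∑ j : Fin (2 * g), -fox (φ.comp (emb g)) j (surfaceRel g) *
          (torusPres f φ h).b2 (Fin.castAdd 1 j) c) +
        (MonoidAlgebra.single (φ (sGen g)) 1 - 1) *
          (torusPres f φ h).b2 (Fin.natAdd (2 * g) 0) c := by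
    intro i c
    have h1 : (torusB3 φ * tb2 f φ h) i c =
        ∑ j : Fin (2 * g + 1), torusB3 φ i j * (torusPres f φ h).b2 j c := Matrix.mul_apply
    rw [h1, Fin.sum_univ_add]
    congr 1
    · refine Finset.sum_congr rfl fun j _ => ?_
      rw [l1]
    · rw [Fin.sum_univ_one, l2]
  have hr : φ (emb g (surfaceRel g)) = 1 := by
    have h1 := h (Fin.natAdd (2 * g) 0)
    rwa [torusRel_natAdd] at h1
  ext1 i c
  rw [key, Matrix.zero_apply]
  induction c using Fin.addCases with
  | left k =>
    simp only [torus_b2_ul, torus_b2_dl]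
    have e1 : ∑ j : Fin (2 * g), -fox (φ.comp (emb g)) j (surfaceRel g) *
        (MonoidAlgebra.single (φ (sGen g)) 1 * fox (φ.comp (emb g)) k (f (FreeGroup.of j)) -
          if j = k then 1 else 0) =
        -(∑ j : Fin (2 * g), fox (φ.comp (emb g)) j (surfaceRel g) *
        MonoidAlgebra.single (φ (sGen g)) 1 * fox (φ.comp (emb g)) k (f (FreeGroup.of j))) +
          fox (φ.comp (emb g)) k (surfaceRel g) := by
      have e0 : ∀ j : Fin (2 * g), -fox (φ.comp (emb g)) j (surfaceRel g) *
          (MonoidAlgebra.single (φ (sGen g)) 1 * fox (φ.comp (emb g)) k (f (FreeGroup.of j)) -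
          if j = k then 1 else 0) = -(fox (φ.comp (emb g)) j (surfaceRel g) *
          MonoidAlgebra.single (φ (sGen g)) 1 * fox (φ.comp (emb g)) k (f (FreeGroup.of j))) +
          (if j = k then fox (φ.comp (emb g)) j (surfaceRel g) else 0) := by
        intro j
        rw [mul_sub, neg_mul, neg_mul, ← mul_assoc, sub_neg_eq_add]
        congr 1
        split_ifs
        · rw [mul_one]
        · rw [mul_zero]
      simp only [e0, Finset.sum_add_distrib, Finset.sum_neg_distrib]
      congr 1
      rw [Finset.sum_ite_eq']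
      simp
    rw [e1]
    have e2 : ∑ j : Fin (2 * g), fox (φ.comp (emb g)) j (surfaceRel g) *
        MonoidAlgebra.single (φ (sGen g)) 1 * fox (φ.comp (emb g)) k (f (FreeGroup.of j)) =
        MonoidAlgebra.single (φ (sGen g)) 1 * fox (φ.comp (emb g)) k (surfaceRel g) := by
      have e3 : ∀ j : Fin (2 * g), fox (φ.comp (emb g)) j (surfaceRel g) *
          MonoidAlgebra.single (φ (sGen g)) 1 = MonoidAlgebra.single (φ (sGen g)) 1 *
          fox ((φ.comp (emb g)).comp f.toMonoidHom) j (surfaceRel g) := by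
        intro j
        exact fox_conj ((φ.comp (emb g)).comp f.toMonoidHom) (φ.comp (emb g)) (φ (sGen g))
          (fun w => conj_all f φ h w) j (surfaceRel g)
      simp only [e3, mul_assoc]
      rw [← Finset.mul_sum]
      congr 1
      have e4 := fox_chain (φ.comp (emb g)) f.toMonoidHom k (surfaceRel g)
      have e5 : f.toMonoidHom (surfaceRel g) = surfaceRel g := hf
      rw [e5] at e4
      exact e4.symm
    rw [e2, sub_mul, one_mul]
    abel
  | right k =>
    have hk : (Fin.natAdd (2 * g) k : Fin (2 * g + 1)) = Fin.natAdd (2 * g) 0 := by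
      ext; simp
    simp only [torus_b2_ur, torus_b2_dr, mul_zero, add_zero]
    have e1 := fox_fundamental (φ.comp (emb g)) (surfaceRel g)
    have e2 : ∀ j : Fin (2 * g), -fox (φ.comp (emb g)) j (surfaceRel g) *
        (1 - MonoidAlgebra.single (φ (emb g (FreeGroup.of j))) 1) =
        fox (φ.comp (emb g)) j (surfaceRel g) *
          (MonoidAlgebra.single ((φ.comp (emb g)) (FreeGroup.of j)) 1 - 1) := by
      intro j
      rw [neg_mul, ← mul_neg, neg_sub]
      rfl
    simp only [e2]
    rw [e1]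
    have e3 : (φ.comp (emb g)) (surfaceRel g) = 1 := hr
    rw [e3, single_one1, sub_self]

/-- `b3 * b2 = 0` -/
theorem torus_b3_mul_b2 (hf : f (surfaceRel g) = surfaceRel g) :
    (HMul.hMul (α := Matrix (Fin 1) (Fin (torusPres f φ h).k) (MonoidAlgebra ℤ G))
      (β := Matrix (Fin (torusPres f φ h).k) (Fin (torusPres f φ h).m) (MonoidAlgebra ℤ G))
      (γ := Matrix (Fin 1) (Fin (torusPres f φ h).m) (MonoidAlgebra ℤ G))
      (torusB3 φ) (torusPres f φ h).b2) = 0 :=
  torus_b3_mul_tb2 f φ h hf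

/-- the three-dimensional complex of the mapping torus -/
def torusThree (hf : f (surfaceRel g) = surfaceRel g) : ThreeCx G where
  toPres := torusPres f φ h
  l := 1
  b3 := torusB3 φ
  b3_mul_b2 := torus_b3_mul_b2 f φ h hf

end

end Pool.Agent.TH370.J1087
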