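import Pool.Agent.TH630.Tor.TorusDef
import Pool.Agent.Helper993.HeisDet

set_option autoImplicit false

noncomputable section

namespace Pool.Agent.TH370.J1088

open Pool.Agent.TH630.Tor
open Pool.Agent.Helper993.HeisDet

theorem fN_aux1 : (FreeGroup.lift ![FreeGroup.of 0 * FreeGroup.of 1, FreeGroup.of 1] :
    FreeGroup (Fin (2 * 1)) →* FreeGroup (Fin (2 * 1))).comp
    (FreeGroup.lift ![FreeGroup.of 0 * (FreeGroup.of 1)⁻¹, FreeGroup.of 1]) =
      MonoidHom.id _ := by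
  refine FreeGroup.ext_hom _ _ fun i => ?_
  fin_cases i
  · simp
  · simp

theorem fN_aux2 : (FreeGroup.lift ![FreeGroup.of 0 * (FreeGroup.of 1)⁻¹, FreeGroup.of 1] :
    FreeGroup (Fin (2 * 1)) →* FreeGroup (Fin (2 * 1))).comp
    (FreeGroup.lift ![FreeGroup.of 0 * FreeGroup.of 1, FreeGroup.of 1]) =
      MonoidHom.id _ := by
  refine FreeGroup.ext_hom _ _ fun i => ?_
  fin_cases i
  · simp
  · simp

/-- the automorphism `x_0 ↦ x_0 x_1⁻¹`, `x_1 ↦ x_1` (shear of the torus) -/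
def fN : FreeGroup (Fin (2 * 1)) ≃* FreeGroup (Fin (2 * 1)) :=
  MonoidHom.toMulEquiv
    (FreeGroup.lift ![FreeGroup.of 0 * (FreeGroup.of 1)⁻¹, FreeGroup.of 1])
    (FreeGroup.lift ![FreeGroup.of 0 * FreeGroup.of 1, FreeGroup.of 1])
    fN_aux1 fN_aux2

theorem fN_of0 : fN (FreeGroup.of 0) = FreeGroup.of 0 * (FreeGroup.of 1)⁻¹ := by
  simp [fN]

theorem fN_of1 : fN (FreeGroup.of 1) = FreeGroup.of 1 := by
  simp [fN]

/-- the homomorphism to the discrete Heisenberg group: `x_0 ↦ u`, `x_1 ↦ (0,0,1)`, `s ↦ t` -/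
def φN : FreeGroup (Fin (2 * 1 + 1)) →* Heis ℤ := FreeGroup.lift ![uu, ⟨0, 0, 1⟩, tt]

theorem φN_0 : φN (FreeGroup.of 0) = uu := FreeGroup.lift_apply_of
theorem φN_1 : φN (FreeGroup.of 1) = ⟨0, 0, 1⟩ := FreeGroup.lift_apply_of
theorem φN_2 : φN (FreeGroup.of 2) = tt := FreeGroup.lift_apply_of

theorem surfaceRel_one : surfaceRel 1 = Pool.Agent.TH630.Tor.comm (FreeGroup.of 0) (FreeGroup.of 1) := by
  unfold surfaceRel
  simp

theorem fN_rel : fN (surfaceRel 1) = surfaceRel 1 := by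
  rw [surfaceRel_one]
  unfold Pool.Agent.TH630.Tor.comm
  rw [map_mul, map_mul, map_mul, map_inv, map_inv, fN_of0, fN_of1]
  group

theorem emb_0 : emb 1 (FreeGroup.of 0) = FreeGroup.of 0 := FreeGroup.map.of
theorem emb_1 : emb 1 (FreeGroup.of 1) = FreeGroup.of 1 := FreeGroup.map.of
theorem sGen_eq : sGen 1 = FreeGroup.of 2 := rfl

theorem rel0 : torusRel fN 0 = FreeGroup.of 2 * (FreeGroup.of 0 * (FreeGroup.of 1)⁻¹) *
    (FreeGroup.of 2)⁻¹ * (FreeGroup.of 0)⁻¹ := by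
  have h : torusRel fN 0 = sGen 1 * emb 1 (fN (FreeGroup.of 0)) * (sGen 1)⁻¹ *
      (emb 1 (FreeGroup.of 0))⁻¹ := rfl
  rw [h, fN_of0, map_mul, map_inv, emb_0, emb_1, sGen_eq]

theorem rel1 : torusRel fN 1 = FreeGroup.of 2 * FreeGroup.of 1 *
    (FreeGroup.of 2)⁻¹ * (FreeGroup.of 1)⁻¹ := by
  have h : torusRel fN 1 = sGen 1 * emb 1 (fN (FreeGroup.of 1)) * (sGen 1)⁻¹ *
      (emb 1 (FreeGroup.of 1))⁻¹ := rfl
  rw [h, fN_of1, emb_1, sGen_eq]

theorem rel2 : torusRel fN 2 = Pool.Agent.TH630.Tor.comm (FreeGroup.of 0) (FreeGroup.of 1) := by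
  have h : torusRel fN 2 = emb 1 (surfaceRel 1) := rfl
  rw [h, surfaceRel_one]
  unfold Pool.Agent.TH630.Tor.comm
  rw [map_mul, map_mul, map_mul, map_inv, map_inv, emb_0, emb_1]

theorem φN_rel (j : Fin (2 * 1 + 1)) : φN (torusRel fN j) = 1 := by
  have h0 : φN (torusRel fN 0) = 1 := by
    rw [rel0]
    simp only [map_mul, map_inv, φN_0, φN_1, φN_2]
    ext <;> simp [uu, tt]
  have h1 : φN (torusRel fN 1) = 1 := by
    rw [rel1]
    simp only [map_mul, map_inv, φN_1, φN_2]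
    ext <;> simp [tt]
  have h2 : φN (torusRel fN 2) = 1 := by
    rw [rel2]
    unfold Pool.Agent.TH630.Tor.comm
    simp only [map_mul, map_inv, φN_0, φN_1]
    ext <;> simp [uu]
  fin_cases j
  · exact h0
  · exact h1
  · exact h2

theorem hzpow (f : ℤ → Heis ℤ) (h0 : f 0 = 1) (h : ∀ a, f (a + 1) = f a * f 1) (a : ℤ) :
    f 1 ^ a = f a := by
  induction a using Int.induction_on with
  | zero => rw [zpow_zero, h0]
  | succ n ih => rw [zpow_add_one, ih, ← h]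
  | pred n ih =>
    rw [zpow_sub_one, ih]
    have := h (-(n : ℤ) - 1)
    rw [sub_add_cancel] at this
    rw [this, mul_inv_cancel_right]

theorem ttz (a : ℤ) : tt ^ a = (⟨a, 0, 0⟩ : Heis ℤ) :=
  hzpow (fun a => ⟨a, 0, 0⟩) rfl (fun a => by ext <;> simp) a

theorem uuz (a : ℤ) : uu ^ a = (⟨0, a, 0⟩ : Heis ℤ) :=
  hzpow (fun a => ⟨0, a, 0⟩) rfl (fun a => by ext <;> simp) a

theorem zzz (a : ℤ) : (⟨0, 0, 1⟩ : Heis ℤ) ^ a = (⟨0, 0, a⟩ : Heis ℤ) :=
  hzpow (fun a => ⟨0, 0, a⟩) rfl (fun a => by ext <;> simp) a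

theorem φN_surj : Function.Surjective φN := by
  intro g
  refine ⟨FreeGroup.of 0 ^ g.b * FreeGroup.of 2 ^ g.a * FreeGroup.of 1 ^ g.c, ?_⟩
  rw [map_mul, map_mul, map_zpow, map_zpow, map_zpow, φN_0, φN_1, φN_2, uuz, ttz, zzz]
  ext <;> simp

section
variable {P : Type} [Group P] {X Z S : P}

theorem comm_zpow (hXZ : X * Z = Z * X) (hSZ : S * Z = Z * S) (hSX : S * X = X * S * Z)
    (a b : ℤ) : S ^ a * X ^ b = X ^ b * S ^ a * Z ^ (a * b) := by
  have cXZ : Commute X Z := hXZ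
  have cSZ : Commute S Z := hSZ
  have h1 : S * X * S⁻¹ = X * Z := by
    rw [hSX, mul_assoc X S Z, hSZ]
    group
  have h2 : S * X ^ b * S⁻¹ = X ^ b * Z ^ b := by
    rw [← conj_zpow, h1, cXZ.mul_zpow]
  have h3 : (X ^ b)⁻¹ * S * X ^ b = Z ^ b * S := by
    have h4 : S * X ^ b = X ^ b * Z ^ b * S := by
      rw [← h2]; group
    rw [mul_assoc, h4]
    group
  have h5 : (X ^ b)⁻¹ * S ^ a * X ^ b = Z ^ (a * b) * S ^ a := by
    have h6 : ((X ^ b)⁻¹ * S * ((X ^ b)⁻¹)⁻¹) ^ a = (X ^ b)⁻¹ * S ^ a * ((X ^ b)⁻¹)⁻¹ := conj_zpow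
    rw [inv_inv, h3] at h6
    have cZS : Commute (Z ^ b) S := (cSZ.symm).zpow_left b
    rw [cZS.mul_zpow, ← zpow_mul, mul_comm b a] at h6
    exact h6.symm
  have h7 : S ^ a * X ^ b = X ^ b * (Z ^ (a * b) * S ^ a) := by
    rw [← h5]; group
  rw [h7, ((cSZ.symm.zpow_left (a * b)).zpow_right a).eq, mul_assoc]

/-- the homomorphism from the Heisenberg group -/
def ψ (hXZ : X * Z = Z * X) (hSZ : S * Z = Z * S) (hSX : S * X = X * S * Z) : Heis ℤ →* P where
  toFun g := X ^ g.b * S ^ g.a * Z ^ g.c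
  map_one' := by simp
  map_mul' := by
    intro g h
    have cXZ : Commute X Z := hXZ
    have cSZ : Commute S Z := hSZ
    simp only [Heis.mul_a, Heis.mul_b, Heis.mul_c]
    have e1 : Commute (Z ^ g.c) (X ^ h.b) := (cXZ.symm.zpow_left _).zpow_right _
    have e2 : Commute (Z ^ g.c) (S ^ h.a) := (cSZ.symm.zpow_left _).zpow_right _
    have e3 : Commute (Z ^ (g.a * h.b)) (S ^ h.a) := (cSZ.symm.zpow_left _).zpow_right _
    have e4 := comm_zpow hXZ hSZ hSX g.a h.b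
    symm
    calc X ^ g.b * S ^ g.a * Z ^ g.c * (X ^ h.b * S ^ h.a * Z ^ h.c)
        = X ^ g.b * S ^ g.a * (Z ^ g.c * X ^ h.b) * S ^ h.a * Z ^ h.c := by group
      _ = X ^ g.b * (S ^ g.a * X ^ h.b) * (Z ^ g.c * S ^ h.a) * Z ^ h.c := by rw [e1.eq]; group
      _ = X ^ g.b * (X ^ h.b * S ^ g.a * Z ^ (g.a * h.b)) * (S ^ h.a * Z ^ g.c) * Z ^ h.c := by
          rw [e4, e2.eq]
      _ = X ^ g.b * X ^ h.b * S ^ g.a * (Z ^ (g.a * h.b) * S ^ h.a) * (Z ^ g.c * Z ^ h.c) := by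
          group
      _ = X ^ g.b * X ^ h.b * S ^ g.a * (S ^ h.a * Z ^ (g.a * h.b)) * (Z ^ g.c * Z ^ h.c) := by
          rw [e3.eq]
      _ = (X ^ g.b * X ^ h.b) * (S ^ g.a * S ^ h.a) * (Z ^ g.c * Z ^ h.c * Z ^ (g.a * h.b)) := by
          have e5 : Commute (Z ^ (g.a * h.b)) (Z ^ g.c * Z ^ h.c) := by
            rw [← zpow_add]
            exact ((Commute.refl Z).zpow_left _).zpow_right _
          simp only [mul_assoc]
          rw [e5.eq, mul_assoc]
      _ = X ^ (g.b + h.b) * S ^ (g.a + h.a) * Z ^ (g.c + h.c + g.a * h.b) := by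
          rw [zpow_add, zpow_add, zpow_add, zpow_add]
      _ = _ := by ring_nf

end

theorem φN_ker : φN.ker = Subgroup.normalClosure (Set.range (torusRel fN)) := by
  apply le_antisymm
  · set N := Subgroup.normalClosure (Set.range (torusRel fN)) with hN
    set q : FreeGroup (Fin (2 * 1 + 1)) →* FreeGroup (Fin (2 * 1 + 1)) ⧸ N := QuotientGroup.mk' N
      with hq
    have hrel : ∀ j, q (torusRel fN j) = 1 := by
      intro j
      rw [hq, QuotientGroup.mk'_apply, QuotientGroup.eq_one_iff]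
      exact Subgroup.subset_normalClosure ⟨j, rfl⟩
    set X := q (FreeGroup.of 0) with hX
    set Z := q (FreeGroup.of 1) with hZ
    set S := q (FreeGroup.of 2) with hS
    have h0 : S * (X * Z⁻¹) * S⁻¹ * X⁻¹ = 1 := by
      have h := hrel 0
      rw [rel0] at h
      simpa only [map_mul, map_inv] using h
    have h1 : S * Z * S⁻¹ * Z⁻¹ = 1 := by
      have h := hrel 1
      rw [rel1] at h
      simpa only [map_mul, map_inv] using h
    have h2 : X * Z * X⁻¹ * Z⁻¹ = 1 := by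
      have h := hrel 2
      rw [rel2] at h
      unfold Pool.Agent.TH630.Tor.comm at h
      simpa only [map_mul, map_inv] using h
    have hXZ : X * Z = Z * X := by
      have h3 := mul_inv_eq_one.1 h2
      exact mul_inv_eq_iff_eq_mul.1 h3
    have hSZ : S * Z = Z * S := by
      have h3 := mul_inv_eq_one.1 h1
      exact mul_inv_eq_iff_eq_mul.1 h3
    have hSX : S * X = X * S * Z := by
      have h3 := mul_inv_eq_one.1 h0
      have h4 := mul_inv_eq_iff_eq_mul.1 h3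
      have h5 : S * X * Z⁻¹ = X * S := by rw [← h4]; group
      exact mul_inv_eq_iff_eq_mul.1 h5
    have hcomp : (ψ hXZ hSZ hSX).comp φN = q := by
      refine FreeGroup.ext_hom _ _ fun i => ?_
      fin_cases i
      · show (ψ hXZ hSZ hSX) (φN (FreeGroup.of 0)) = q (FreeGroup.of 0)
        rw [φN_0]
        show X ^ (uu : Heis ℤ).b * S ^ (uu : Heis ℤ).a * Z ^ (uu : Heis ℤ).c = X
        simp [uu]
      · show (ψ hXZ hSZ hSX) (φN (FreeGroup.of 1)) = q (FreeGroup.of 1)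
        rw [φN_1]
        show X ^ (0 : ℤ) * S ^ (0 : ℤ) * Z ^ (1 : ℤ) = Z
        simp
      · show (ψ hXZ hSZ hSX) (φN (FreeGroup.of 2)) = q (FreeGroup.of 2)
        rw [φN_2]
        show X ^ (tt : Heis ℤ).b * S ^ (tt : Heis ℤ).a * Z ^ (tt : Heis ℤ).c = S
        simp [tt]
    intro w hw
    have h3 : q w = 1 := by
      rw [← hcomp, MonoidHom.comp_apply, (MonoidHom.mem_ker).1 hw, map_one]
    rwa [hq, QuotientGroup.mk'_apply, QuotientGroup.eq_one_iff] at h3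
  · refine Subgroup.normalClosure_le_normal ?_
    rintro _ ⟨j, rfl⟩
    exact (MonoidHom.mem_ker).2 (φN_rel j)

end Pool.Agent.TH370.J1088
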