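import Pool.Agent.TH370.SDBase

/-!
# SD/EARLY: early phase, ratio at most 2
-/

set_option autoImplicit false

open Pool.Agent.TH981.SD Pool.Agent.TH370.SDB
open Finset Set Filter
open scoped BigOperators Topology Classical

namespace Pool.Agent.TH370.J2233

/-- the scalar inequality behind the comparison -/
lemma core {dl sg ps c K m M E : ℝ} (hdl0 : 0 ≤ dl) (hdl1 : dl ≤ 1) (hps0 : 0 ≤ ps)
    (hps1 : ps ≤ 1) (hsg : (1 + ps) * dl ≤ sg) (hK : 0 ≤ K) (hm : 0 ≤ m)
    (hc : c ≤ 1 + K * m) (hE : ps = M * K * E) (hm' : 4 * m ≤ (1 - sg) * (M * E)) :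
    0 ≤ ps + (1 + ps) * (dl + c * (-(dl * (1 + ps)))) := by
  have h1 : c * (1 + ps) - 1 ≤ ps + K * m * (1 + ps) := by nlinarith
  have h2 : (1 + ps) * dl * (c * (1 + ps) - 1) ≤ (1 + ps) * dl * (ps + K * m * (1 + ps)) :=
    mul_le_mul_of_nonneg_left h1 (mul_nonneg (by linarith) hdl0)
  have h3 : (1 + ps) * dl * ps ≤ sg * ps := mul_le_mul_of_nonneg_right hsg hps0
  have h4 : (1 + ps) * dl * (K * m * (1 + ps)) ≤ 4 * (K * m) := by
    have hKm : 0 ≤ K * m := mul_nonneg hK hm
    have a1 : (1 + ps) * (1 + ps) ≤ 4 := by nlinarith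
    have a2 : (1 + ps) * (1 + ps) * dl ≤ 4 := by nlinarith [mul_nonneg hdl0 hdl0]
    nlinarith
  have h5 : 4 * (K * m) ≤ (1 - sg) * ps := by
    rw [hE]
    nlinarith [mul_le_mul_of_nonneg_left hm' hK]
  nlinarith

theorem early (h1 : S_POS1) (h2 : S_YF) (h3 : S_TM) : S_EARLY := by
  intro α h0 h1'
  have hd0 : 0 < (2:ℝ) ^ α - 1 := by have := one_lt_two_rpow h0; linarith
  have hd1 : (2:ℝ) ^ α - 1 < 1 := by have := two_rpow_lt h1'; linarith
  set δ : ℝ := (2:ℝ) ^ α - 1 with hδ
  set sg : ℝ := (1 + δ) / 2 with hsg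
  have hsg1 : 0 < 1 - sg := by rw [hsg]; linarith
  have hb := bet_nonneg h0 h1'
  set M : ℝ := 4 * (1 + bet α) / (1 - sg) with hM
  have hM0 : 0 < M := by rw [hM]; positivity
  set ps1 : ℝ := (1 - δ) / 4 with hps1
  have hps10 : 0 < ps1 := by rw [hps1]; linarith
  have hps11 : ps1 ≤ 1 / 4 := by rw [hps1]; linarith
  refine ⟨max 0 (Real.log (M / ps1)), le_max_left _ _, ?_⟩
  intro K z Y V tM hK hz2 hz1 hY hV htM hYM t ht0 ht
  have hz0 : 0 < z := by linarith
  obtain ⟨-, -, y3, y4, -, -, -⟩ := h2 α z Y h0 h1' hz0 hz1 hY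
  obtain ⟨-, tm⟩ := h3 α z Y h0 h1' hz2 hz1 hY
  obtain ⟨-, -, tm3⟩ := tm tM htM hYM
  have hK0 : 0 < K := by linarith
  set T : ℝ := tM - Real.log K - max 0 (Real.log (M / ps1)) with hT
  have hlogK : 0 ≤ Real.log K := Real.log_nonneg (by linarith)
  have hTtM : T ≤ tM := by
    have := le_max_left 0 (Real.log (M / ps1))
    rw [hT]; linarith
  have hT0 : 0 ≤ T := ht0.trans ht
  -- the function psi
  set ps : ℝ → ℝ := fun s => M * K * Real.exp (s - tM) with hps
  have hpsd : ∀ s, HasDerivAt ps (ps s) s := by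
    intro s
    have e1 : HasDerivAt (fun s : ℝ => s - tM) 1 s := (hasDerivAt_id s).sub_const tM
    have e2 := (e1.exp).const_mul (M * K)
    simpa [hps] using e2
  have hps0 : ∀ s, 0 < ps s := fun s => by
    simp only [hps]; exact mul_pos (mul_pos hM0 hK0) (Real.exp_pos _)
  have hpsT : ∀ s, s ≤ T → ps s ≤ ps1 := by
    intro s hs
    have e1 : s - tM ≤ -Real.log K - Real.log (M / ps1) := by
      have := le_max_right 0 (Real.log (M / ps1))
      rw [hT] at hs
      linarith
    have e2 : Real.exp (s - tM) ≤ K⁻¹ * (M / ps1)⁻¹ := by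
      calc Real.exp (s - tM) ≤ Real.exp (-Real.log K - Real.log (M / ps1)) :=
            Real.exp_le_exp.mpr e1
        _ = K⁻¹ * (M / ps1)⁻¹ := by
            rw [sub_eq_add_neg, Real.exp_add, Real.exp_neg, Real.exp_neg, Real.exp_log hK0,
              Real.exp_log (div_pos hM0 hps10)]
    calc ps s = M * K * Real.exp (s - tM) := rfl
      _ ≤ M * K * (K⁻¹ * (M / ps1)⁻¹) :=
          mul_le_mul_of_nonneg_left e2 (mul_pos hM0 hK0).le
      _ = ps1 := by field_simp
  -- bounds on [0,T]
  have hmE : ∀ s, 0 ≤ s → s ≤ T → 4 * m1 Y s ≤ (1 - sg) * (M * Real.exp (s - tM)) := by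
    intro s hs0 hs
    have e1 : m1 Y s ≤ (1 + bet α) * Real.exp (s - tM) := by
      have a1 := y3 s hs0
      have a2 := (tm3 s hs0 (hs.trans hTtM)).2.1
      have a3 : Y 1 s ≤ 1 := (hY.le 1 s hs0).trans hz1.le
      have a4 : 0 ≤ 1 - Y 2 s := by have := hY.le 2 s hs0; linarith
      calc m1 Y s = Y 1 s * (1 - Y 2 s) := rfl
        _ ≤ 1 * (1 - Y 2 s) := mul_le_mul_of_nonneg_right a3 a4
        _ ≤ (1 + bet α) * (1 - Y 1 s) := by rw [one_mul]; exact a1
        _ ≤ (1 + bet α) * Real.exp (s - tM) := mul_le_mul_of_nonneg_left a2 (by linarith)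
    have e2 : (1 - sg) * (M * Real.exp (s - tM)) = 4 * ((1 + bet α) * Real.exp (s - tM)) := by
      rw [hM]; field_simp
    rw [e2]; linarith
  have hcle : ∀ s, 0 ≤ s → cc Y K s ≤ 1 + K * m1 Y s := by
    intro s hs
    have := hY.le 1 s hs
    unfold cc
    linarith
  -- ratio
  have ratio : ∀ d, 1 ≤ d → ∀ s ∈ Set.Icc 0 T, V (d + 1) s ≤ (1 + ps s) * V d s := by
    obtain ⟨B, C, hB, hC, hBC⟩ := hV.bdd T hT0
    have key := h1 α 0 T (4 * (1 + K)) (2 * B * C + B * C ^ 2) C h0 h1' hT0 (by positivity)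
      (by positivity) hC
      (fun d s => (1 + ps s) * V (d + 1) s - V (d + 2) s)
      (fun d s => ps s * V (d + 1) s + (1 + ps s) * (lam α (d + 1) *
        (cc Y K s * V (d + 2) s - V (d + 1) s)) - lam α (d + 2) *
        (cc Y K s * V (d + 3) s - V (d + 2) s))
      (fun d s => lam α (d + 2) * cc Y K s)
      (fun d s => lam α (d + 2) + cc Y K s * (lam α (d + 1) * (1 + ps s) -
        lam α (d + 2) * (1 + ps s)))
      ?_ ?_ ?_ ?_ ?_ ?_
    · intro d hd s hs
      obtain ⟨e, rfl⟩ : ∃ e, d = e + 1 := ⟨d - 1, by omega⟩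
      have := key e s hs
      linarith
    · intro d
      have c1 : ContinuousOn ps (Set.Icc 0 T) := fun s _ => (hpsd s).continuousAt.continuousWithinAt
      exact ((continuousOn_const.add c1).mul ((contV hV (d + 1)).mono Set.Icc_subset_Ici_self)).sub
        ((contV hV (d + 2)).mono Set.Icc_subset_Ici_self)
    · intro d s hs
      have e1 := derV hV (d + 1) hs.1
      have e2 := derV hV (d + 2) hs.1
      have e3 : HasDerivWithinAt (fun s => 1 + ps s) (ps s) (Set.Ici s) s :=
        ((hpsd s).const_add 1).hasDerivWithinAt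
      exact (e3.mul e1).sub e2
    · intro d s hs
      have hid := basic_id (lam α (d + 1)) (lam α (d + 2)) (cc Y K s) (1 + ps s) (1 + ps s) (ps s)
        (V (d + 1) s) (V (d + 2) s) (V (d + 3) s)
      have hv := (hV.pos (d + 1) s hs.1).le
      have hdl := dl_le h0 h1' (d := d + 1) (by omega)
      have hdl0 := dl_nonneg h0 (d + 1)
      have hp1 := hpsT s hs.2.le
      have hcore := core (dl := lam α (d + 1 + 1) - lam α (d + 1)) (sg := sg) (ps := ps s)
        (c := cc Y K s) (K := K) (m := m1 Y s) (M := M) (E := Real.exp (s - tM))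
        hdl0 (by linarith) (hps0 s).le (by linarith)
        (by
          have a1 : (1 + ps s) * (lam α (d + 1 + 1) - lam α (d + 1)) ≤ (1 + ps1) * δ :=
            mul_le_mul (by linarith) hdl hdl0 (by linarith)
          have a2 : (1 + ps1) * δ ≤ sg := by
            rw [hps1, hsg]; nlinarith
          linarith)
        hK0.le (m1_nonneg hz1 hY hs.1) (hcle s hs.1) rfl (hmE s hs.1 hs.2.le)
      have hcore' : 0 ≤ V (d + 1) s * (ps s + (1 + ps s) * ((lam α (d + 2) - lam α (d + 1)) +
          cc Y K s * (lam α (d + 1) * (1 + ps s) - lam α (d + 2) * (1 + ps s)))) := by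
        apply mul_nonneg hv
        have : (lam α (d + 1) * (1 + ps s) - lam α (d + 2) * (1 + ps s)) =
          -((lam α (d + 1 + 1) - lam α (d + 1)) * (1 + ps s)) := by ring
        rw [this]
        exact hcore
      have e4 : V (d + 1 + 1) s = V (d + 2) s := rfl
      have e5 : V (d + 1 + 2) s = V (d + 3) s := rfl
      rw [e4, e5]
      linarith
    · intro d s hs
      have hc0 := cc_nonneg hz1 hY hK0.le hs.1
      have hc1 := cc_le hz1 hY hK0.le hs.1
      have hl : lam α (d + 2) ≤ 2 * lam α (d + 1) := lam_double h0 h1' (by omega)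
      have hl0 := lam_nonneg α (d + 2)
      have hl1 := lam_nonneg α (d + 1)
      have hp1 := hpsT s hs.2.le
      have hdl := dl_le h0 h1' (d := d + 1) (by omega)
      have hdl0 := dl_nonneg h0 (d + 1)
      refine ⟨mul_nonneg hl0 hc0, ?_, ?_⟩
      · calc lam α (d + 2) * cc Y K s ≤ (2 * lam α (d + 1)) * (1 + K) :=
              mul_le_mul hl hc1 hc0 (by positivity)
          _ ≤ 4 * (1 + K) * lam α (d + 1) := by nlinarith
      · have a1 : cc Y K s * (lam α (d + 1) * (1 + ps s) - lam α (d + 2) * (1 + ps s)) =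
            -(cc Y K s * ((lam α (d + 1 + 1) - lam α (d + 1)) * (1 + ps s))) := by ring
        have a2 : cc Y K s * ((lam α (d + 1 + 1) - lam α (d + 1)) * (1 + ps s)) ≤
            (1 + K) * (1 * 2) := by
          apply mul_le_mul hc1 _ (mul_nonneg hdl0 (by have := hps0 s; linarith)) (by linarith)
          exact mul_le_mul (by linarith) (by linarith) (by have := hps0 s; linarith) (by norm_num)
        rw [a1]
        nlinarith
    · intro d
      simp only [hV.init]
      have := hps0 0
      linarith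
    · intro d s hs
      have b1 := hBC (d + 1) s hs.1 hs.2
      have b2 := hBC (d + 2) s hs.1 hs.2
      have p1 := (hV.pos (d + 1) s hs.1).le
      have p2 := (hV.pos (d + 2) s hs.1).le
      have q0 := hps0 s
      have q1 := hpsT s hs.2
      have e1 : (1 + ps s) * V (d + 1) s ≤ 2 * (B * C ^ (d + 1)) :=
        mul_le_mul (by linarith) b1 p1 (by norm_num)
      have e2 : 0 ≤ (1 + ps s) * V (d + 1) s := mul_nonneg (by linarith) p1
      have e3 : (2 * B * C + B * C ^ 2) * C ^ d = 2 * (B * C ^ (d + 1)) + B * C ^ (d + 2) := by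
        ring
      rw [e3, abs_le]
      constructor <;> linarith
  constructor
  · -- V 1 t ≤ 2
    have hanti : AntitoneOn (fun s => V 1 s * Real.exp (-(2 * ps s))) (Set.Icc 0 T) := by
      apply antitoneOn_of_deriv_nonpos (convex_Icc 0 T)
      · have c1 : ContinuousOn (fun s => Real.exp (-(2 * ps s))) (Set.Icc 0 T) := by
          apply Continuous.continuousOn
          have : Continuous ps := continuous_iff_continuousAt.mpr fun s => (hpsd s).continuousAt
          fun_prop
        exact ((contV hV 1).mono Set.Icc_subset_Ici_self).mul c1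
      · intro s hs
        rw [interior_Icc] at hs
        have e1 : HasDerivAt (V 1) (lam α 1 * (cc Y K s * V 2 s - V 1 s)) s :=
          (hV.deriv 1 s hs.1.le).hasDerivAt (Ici_mem_nhds hs.1)
        have e2 := (((hpsd s).const_mul 2).neg).exp
        exact (e1.mul e2).differentiableAt.differentiableWithinAt
      · intro s hs
        rw [interior_Icc] at hs
        have e1 : HasDerivAt (V 1) (lam α 1 * (cc Y K s * V 2 s - V 1 s)) s :=
          (hV.deriv 1 s hs.1.le).hasDerivAt (Ici_mem_nhds hs.1)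
        have e2 := (((hpsd s).const_mul 2).neg).exp
        have e3 : HasDerivAt (fun s => V 1 s * Real.exp (-(2 * ps s)))
            (lam α 1 * (cc Y K s * V 2 s - V 1 s) * Real.exp (-(2 * ps s)) +
              V 1 s * (Real.exp (-(2 * ps s)) * -(2 * ps s))) s := e1.mul e2
        rw [HasDerivAt.deriv e3]
        have hE := Real.exp_pos (-(2 * ps s))
        have r := ratio 1 le_rfl s ⟨hs.1.le, hs.2.le⟩
        have hc0 := cc_nonneg hz1 hY hK0.le hs.1.le
        have hcl := hcle s hs.1.le
        have hm0 := m1_nonneg hz1 hY hs.1.le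
        have hv := (hV.pos 1 s hs.1.le).le
        have q0 := hps0 s
        have q1 := hpsT s hs.2.le
        have hm4 := hmE s hs.1.le hs.2.le
        have hKm : 4 * (K * m1 Y s) ≤ (1 - sg) * ps s := by
          have := mul_le_mul_of_nonneg_left hm4 hK0.le
          simp only [hps]
          nlinarith
        have a1 : cc Y K s * V 2 s ≤ cc Y K s * ((1 + ps s) * V 1 s) :=
          mul_le_mul_of_nonneg_left r hc0
        have a2 : cc Y K s * (1 + ps s) - 1 ≤ 2 * ps s := by
          have b1 : cc Y K s * (1 + ps s) ≤ (1 + K * m1 Y s) * (1 + ps s) :=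
            mul_le_mul_of_nonneg_right hcl (by linarith)
          have b2 : K * m1 Y s * (1 + ps s) ≤ K * m1 Y s * 2 :=
            mul_le_mul_of_nonneg_left (by linarith) (mul_nonneg hK0.le hm0)
          have hsg0 : 0 < sg := by rw [hsg]; linarith
          have b3 : (1 - sg) * ps s ≤ ps s := by nlinarith
          nlinarith
        have a3 : lam α 1 * (cc Y K s * V 2 s - V 1 s) ≤ 2 * ps s * V 1 s := by
          rw [lam_one, one_mul]
          have : cc Y K s * ((1 + ps s) * V 1 s) - V 1 s = (cc Y K s * (1 + ps s) - 1) * V 1 s := by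
            ring
          have b4 := mul_le_mul_of_nonneg_right a2 hv
          linarith
        have a4 : lam α 1 * (cc Y K s * V 2 s - V 1 s) * Real.exp (-(2 * ps s)) ≤
            2 * ps s * V 1 s * Real.exp (-(2 * ps s)) := mul_le_mul_of_nonneg_right a3 hE.le
        nlinarith
    have e1 := hanti (⟨le_rfl, hT0⟩ : (0:ℝ) ∈ Set.Icc 0 T) (⟨ht0, ht⟩ : t ∈ Set.Icc 0 T) ht0
    simp only [hV.init, one_mul] at e1
    have e2 : Real.exp (-(2 * ps 0)) ≤ 1 := by
      rw [Real.exp_le_one_iff]
      have := hps0 0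
      linarith
    have e3 : V 1 t * Real.exp (-(2 * ps t)) ≤ 1 := e1.trans e2
    have e4 : V 1 t ≤ Real.exp (2 * ps t) := by
      have hE := Real.exp_pos (2 * ps t)
      have h5 : Real.exp (-(2 * ps t)) * Real.exp (2 * ps t) = 1 := by
        rw [← Real.exp_add]; simp
      calc V 1 t = V 1 t * (Real.exp (-(2 * ps t)) * Real.exp (2 * ps t)) := by rw [h5, mul_one]
        _ = V 1 t * Real.exp (-(2 * ps t)) * Real.exp (2 * ps t) := by ring
        _ ≤ 1 * Real.exp (2 * ps t) := mul_le_mul_of_nonneg_right e3 hE.le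
        _ = Real.exp (2 * ps t) := one_mul _
    have e5 : Real.exp (2 * ps t) ≤ 2 := by
      have q1 := hpsT t ht
      calc Real.exp (2 * ps t) ≤ Real.exp (Real.log 2) := by
            apply Real.exp_le_exp.mpr
            have := Real.log_two_gt_d9
            linarith
        _ = 2 := Real.exp_log (by norm_num)
    linarith
  · intro d hd
    have r := ratio d hd t ⟨ht0, ht⟩
    have q1 := hpsT t ht
    have hv := (hV.pos d t ht0).le
    have : (1 + ps t) * V d t ≤ 2 * V d t := mul_le_mul_of_nonneg_right (by linarith) hv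
    linarith

end Pool.Agent.TH370.J2233
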