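import Pool.Agent.TH370.SDBase

/-!
# SD/GROW: growth of `V_1` up to the median time
-/

set_option autoImplicit false

open Pool.Agent.TH981.SD Pool.Agent.TH370.SDB
open Finset Set Filter
open scoped BigOperators Topology Classical

namespace Pool.Agent.TH370.J2237

lemma exp_half_le : Real.exp (1 / 2) ≤ 1.65 := by
  have h1 : Real.exp (1 / 2) * Real.exp (1 / 2) = Real.exp 1 := by
    rw [← Real.exp_add]; norm_num
  have h2 := Real.exp_one_lt_d9
  have h3 := Real.exp_pos (1 / 2)
  nlinarith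

lemma exp_two_le : Real.exp 2 ≤ 14 := by
  have h1 : Real.exp 1 * Real.exp 1 = Real.exp 2 := by
    rw [← Real.exp_add]; norm_num
  have h2 := Real.exp_one_lt_d9
  have h3 := Real.exp_pos 1
  nlinarith

/-- `∏ (1+i)^α / n! ≥ (n^(α-1))^n` -/
lemma prod_ge {α : ℝ} (h1 : α < 1) (n : ℕ) :
    ((n : ℝ) ^ (α - 1)) ^ n ≤ (∏ i ∈ Finset.range n, lam α (1 + i)) / (n.factorial : ℝ) := by
  have e1 : (n.factorial : ℝ) = ∏ i ∈ Finset.range n, ((1 + i : ℕ) : ℝ) := by
    rw [← Finset.prod_range_add_one_eq_factorial]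
    push_cast
    exact Finset.prod_congr rfl fun i _ => by ring
  rw [e1, ← Finset.prod_div_distrib]
  calc ((n : ℝ) ^ (α - 1)) ^ n = ∏ _i ∈ Finset.range n, (n : ℝ) ^ (α - 1) := by
        rw [Finset.prod_const, Finset.card_range]
    _ ≤ ∏ i ∈ Finset.range n, lam α (1 + i) / ((1 + i : ℕ) : ℝ) := by
        apply Finset.prod_le_prod
        · intro i _; exact Real.rpow_nonneg (Nat.cast_nonneg n) _
        · intro i hi
          have hi' : 1 + i ≤ n := by have := Finset.mem_range.mp hi; omega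
          have hp : (0:ℝ) < ((1 + i : ℕ) : ℝ) := by positivity
          have e2 : lam α (1 + i) / ((1 + i : ℕ) : ℝ) = ((1 + i : ℕ) : ℝ) ^ (α - 1) := by
            unfold lam
            rw [Real.rpow_sub_one hp.ne']
          rw [e2]
          exact Real.rpow_le_rpow_of_nonpos hp (by exact_mod_cast hi') (by linarith)

theorem grow (h1 : S_EXP) (h2 : S_MONO) (h3 : S_TM) (h4 : S_YF) : S_GROW := by
  intro α h0 h1'
  have hα : 0 < 1 - α := by linarith
  set c' : ℝ := (1 / 200 : ℝ) ^ (1 / (1 - α)) with hc'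
  have hc'0 : 0 < c' := Real.rpow_pos_of_pos (by norm_num) _
  refine ⟨c' / 2, by positivity, max 2 (2 / c'), le_max_left _ _, ?_⟩
  intro K z Y V tM hK hz2 hz1 hY hV htM hYM
  have hK2 : 2 ≤ K := (le_max_left _ _).trans hK
  have hKc : 2 ≤ c' * K := by
    have := (le_max_right _ _).trans hK
    rw [div_le_iff₀ hc'0] at this
    linarith
  have hK0 : 0 < K := by linarith
  have hz0 : 0 < z := by linarith
  set D : ℝ := DK α K with hD
  have hD0 : 0 < D := Real.rpow_pos_of_pos hK0 _
  have hDK : K ≤ D := by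
    have e1 : (1:ℝ) ≤ 1 / (1 - α) := by rw [le_div_iff₀ hα]; linarith
    calc K = K ^ (1:ℝ) := (Real.rpow_one K).symm
      _ ≤ K ^ (1 / (1 - α)) := Real.rpow_le_rpow_of_exponent_le (by linarith) e1
  have hcD : 2 ≤ c' * D := hKc.trans (mul_le_mul_of_nonneg_left hDK hc'0.le)
  set n : ℕ := ⌊c' * D⌋₊ with hn
  have hn1 : (n:ℝ) ≤ c' * D := Nat.floor_le (by positivity)
  have hn2 : c' * D < n + 1 := Nat.lt_floor_add_one _
  have hn3 : (1:ℝ) < n := by linarith
  have hn4 : 1 ≤ n := by
    have : (0:ℝ) < n := by linarith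
    exact_mod_cast this
  -- the key power bound
  have hpow : 200 / K ≤ (n:ℝ) ^ (α - 1) := by
    have e1 : (c' * D) ^ (α - 1) ≤ (n:ℝ) ^ (α - 1) :=
      Real.rpow_le_rpow_of_nonpos (by linarith) hn1 (by linarith)
    have e2 : (c' * D) ^ (α - 1) = 200 / K := by
      rw [Real.mul_rpow hc'0.le hD0.le]
      have a1 : c' ^ (α - 1) = 200 := by
        rw [hc', ← Real.rpow_mul (by norm_num)]
        have : 1 / (1 - α) * (α - 1) = -1 := by field_simp; ring
        rw [this, Real.rpow_neg_one]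
        norm_num
      have a2 : D ^ (α - 1) = K⁻¹ := by
        rw [hD]
        unfold DK
        rw [← Real.rpow_mul hK0.le]
        have : 1 / (1 - α) * (α - 1) = -1 := by field_simp; ring
        rw [this, Real.rpow_neg_one]
      rw [a1, a2]; rfl
    rw [← e2]; exact e1
  -- the time a
  set a : ℝ := tM - 1 / 2 with ha
  have ha0 : 0 ≤ a := by rw [ha]; linarith
  have haM : a ≤ tM := by rw [ha]; linarith
  obtain ⟨-, tm⟩ := h3 α z Y h0 h1' hz2 hz1 hY
  obtain ⟨-, -, tm3⟩ := tm tM (by linarith) hYM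
  obtain ⟨-, -, -, y4, -, -, -⟩ := h4 α z Y h0 h1' hz0 hz1 hY
  have hVa : ∀ d, 1 ≤ d → 1 ≤ V d a := by
    intro d hd
    have e1 := (tm3 a ha0 haM).2.2.2
    have e2 : 1 ≤ K * Y 1 a := by nlinarith
    exact ((h2 α z K Y V h0 h1' hz0 hz1 (by linarith) hY hV a ha0 e2 a ha0 le_rfl).2 d hd).2
  have hcge : ∀ s ∈ Set.Icc a tM, 0.14 * K ≤ cc Y K s := by
    intro s hs
    have hs0 : 0 ≤ s := ha0.trans hs.1
    obtain ⟨-, -, b1, b2⟩ := tm3 s hs0 hs.2
    have b3 : Real.exp (tM - s) ≤ Real.exp (1 / 2) := by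
      apply Real.exp_le_exp.mpr
      have := hs.1
      rw [ha] at this
      linarith
    have b4 : Y 1 s ≤ 0.825 := by
      have := exp_half_le
      norm_num at this ⊢
      linarith
    have b5 := (y4 s hs0).1
    have b6 : 0.14 ≤ Y 1 s * (1 - Y 1 s) := by
      norm_num at b4 ⊢
      nlinarith
    have b7 := (hY.pos 1 s hs0).le
    unfold cc
    have b8 : K * 0.14 ≤ K * m1 Y s := mul_le_mul_of_nonneg_left (b6.trans b5) hK0.le
    linarith
  have hint : 0.07 * K ≤ ∫ s in a..tM, cc Y K s := by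
    have e1 : ∫ _s in a..tM, (0.14 * K : ℝ) = 0.07 * K := by
      rw [intervalIntegral.integral_const, ha, smul_eq_mul]
      ring
    rw [← e1]
    apply intervalIntegral.integral_mono_on haM
    · exact intervalIntegrable_const
    · apply ContinuousOn.intervalIntegrable
      rw [Set.uIcc_of_le haM]
      exact (contc hY K).mono (fun s hs => ha0.trans hs.1)
    · exact hcge
  obtain ⟨v, v0, vs, -, -, vlow, -, -⟩ := h1 α z K a Y V h0 h1' hz0 hz1 hK0.le ha0 hY hV
  have hv1 : v 1 n tM ≤ V 1 tM := le_hasSum (vs 1 tM haM) n (fun j _ => v0 1 j tM haM)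
  have hv2 := vlow 1 n tM haM
  refine le_trans ?_ (hv2.trans hv1)
  have hI0 : 0 ≤ ∫ s in a..tM, cc Y K s := le_trans (by positivity) hint
  -- main estimate
  have m1' : (14:ℝ) ^ n ≤ (∏ i ∈ Finset.range n, lam α (1 + i)) *
      (∫ s in a..tM, cc Y K s) ^ n / (n.factorial : ℝ) := by
    have e1 := prod_ge h1' n
    calc (14:ℝ) ^ n = (200 / K) ^ n * (0.07 * K) ^ n := by
          rw [← mul_pow]
          congr 1
          field_simp
          norm_num
      _ ≤ ((n:ℝ) ^ (α - 1)) ^ n * (∫ s in a..tM, cc Y K s) ^ n := by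
          apply mul_le_mul
          · exact pow_le_pow_left₀ (by positivity) hpow n
          · exact pow_le_pow_left₀ (by positivity) hint n
          · positivity
          · exact pow_nonneg (Real.rpow_nonneg (Nat.cast_nonneg n) _) n
      _ ≤ ((∏ i ∈ Finset.range n, lam α (1 + i)) / (n.factorial : ℝ)) *
          (∫ s in a..tM, cc Y K s) ^ n := mul_le_mul_of_nonneg_right e1 (pow_nonneg hI0 n)
      _ = _ := by ring
  have m2' : Real.exp (-((n + 1) / 2 : ℝ)) ≤
      Real.exp (-(lam α (1 + n) * (tM - a))) * V (1 + n) a := by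
    have e1 : lam α (1 + n) ≤ n + 1 := by
      have := lam_le_self h1' (d := 1 + n) (by omega)
      push_cast at this
      linarith
    have e2 : Real.exp (-((n + 1) / 2 : ℝ)) ≤ Real.exp (-(lam α (1 + n) * (tM - a))) := by
      apply Real.exp_le_exp.mpr
      rw [ha]
      have : tM - (tM - 1 / 2) = 1 / 2 := by ring
      rw [this]
      linarith
    calc Real.exp (-((n + 1) / 2 : ℝ)) ≤ Real.exp (-(lam α (1 + n) * (tM - a))) := e2
      _ = Real.exp (-(lam α (1 + n) * (tM - a))) * 1 := (mul_one _).symm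
      _ ≤ _ := mul_le_mul_of_nonneg_left (hVa (1 + n) (by omega)) (Real.exp_pos _).le
  have m3' : Real.exp (c' / 2 * D) ≤ (14:ℝ) ^ n * Real.exp (-((n + 1) / 2 : ℝ)) := by
    have e1 : Real.exp (2 * n) ≤ (14:ℝ) ^ n := by
      have : Real.exp (2 * n) = (Real.exp 2) ^ n := by
        rw [← Real.exp_nat_mul]; ring_nf
      rw [this]
      exact pow_le_pow_left₀ (Real.exp_pos _).le exp_two_le n
    calc Real.exp (c' / 2 * D) ≤ Real.exp (2 * n + -((n + 1) / 2 : ℝ)) := by
          apply Real.exp_le_exp.mpr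
          have : c' / 2 * D = c' * D / 2 := by ring
          rw [this]
          linarith
      _ = Real.exp (2 * n) * Real.exp (-((n + 1) / 2 : ℝ)) := Real.exp_add _ _
      _ ≤ _ := mul_le_mul_of_nonneg_right e1 (Real.exp_pos _).le
  calc Real.exp (c' / 2 * D) ≤ (14:ℝ) ^ n * Real.exp (-((n + 1) / 2 : ℝ)) := m3'
    _ ≤ _ := mul_le_mul m1' m2' (Real.exp_pos _).le (le_trans (by positivity) m1')

end Pool.Agent.TH370.J2237
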