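import Pool.Agent.TH370.SDRatio

/-!
# SD/RATIO: upper bound for the ratios `V_{d+1}/V_d`
-/

set_option autoImplicit false

open Pool.Agent.TH981.SD Pool.Agent.TH370.SDB
open Finset Set Filter
open scoped BigOperators Topology Classical

namespace Pool.Agent.TH370.J2239

lemma DK_pos {α K : ℝ} (hK : 0 < K) : 0 < DK α K := Real.rpow_pos_of_pos hK _

lemma DK_ge {α K : ℝ} (h0 : 0 < α) (h1 : α < 1) (hK : 1 ≤ K) : K ≤ DK α K := by
  have e1 : (1:ℝ) ≤ 1 / (1 - α) := by rw [le_div_iff₀ (by linarith)]; linarith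
  calc K = K ^ (1:ℝ) := (Real.rpow_one K).symm
    _ ≤ K ^ (1 / (1 - α)) := Real.rpow_le_rpow_of_exponent_le hK e1

lemma DK_rpow {α K : ℝ} (h1 : α < 1) (hK : 0 < K) (x : ℝ) :
    DK α K ^ (x * (1 - α)) = K ^ x := by
  unfold DK
  rw [← Real.rpow_mul hK.le]
  congr 1
  have : (1 - α) ≠ 0 := by linarith
  field_simp

lemma exp_LK {α K : ℝ} (hK : 0 < K) : Real.exp (LK α K) = DK α K := by
  unfold LK DK
  rw [Real.rpow_def_of_pos hK]
  congr 1
  ring

/-- phase 2 -/
lemma phase2 (h4 : S_MONO) (h6 : S_EXP) {α z K : ℝ} {Y V : ℕ → ℝ → ℝ} (h0 : 0 < α) (h1 : α < 1)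
    (hz0 : 0 < z) (hz1 : z < 1) (hY : IsY α z Y) (hV : IsV α Y K V) {e' Th : ℝ} (he' : 0 < e')
    (he1 : e' ≤ 1) (hK : 4 ≤ K) (hKe : 4 ≤ K ^ e') (hTh0 : 0 ≤ Th) (hTh : 700 * Th ≤ K ^ e')
    {a : ℝ} (ha : 0 ≤ a) (hYa : 1 / 2 ≤ Y 1 a) (hV1 : V 1 a ≤ 2)
    (hr : ∀ d, 1 ≤ d → V (d + 1) a ≤ 2 * V d a) {t : ℝ} (hat : a ≤ t) (htT : t - a ≤ Th)
    {d : ℕ} (hd : 1 ≤ d) :
    lam α d * V (d + 1) t ≤ (12 * lam α d + 2 * DK α K ^ (α * (1 + e'))) * V d t := by
  have hK0 : 0 < K := by linarith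
  have hD := DK_pos (α := α) hK0
  have hDK := DK_ge h0 h1 (by linarith : 1 ≤ K)
  have hD1 : 1 ≤ DK α K := by linarith
  obtain ⟨v, v0, vs, vz, vup, -, vr, -⟩ := h6 α z K a Y V h0 h1 hz0 hz1 hK0.le ha hY hV
  have vr' := vr hr
  have hVa : ∀ d, 1 ≤ d → 1 ≤ V d a := by
    intro d hd
    have e2 : 1 ≤ K * Y 1 a := by nlinarith
    exact ((h4 α z K Y V h0 h1 hz0 hz1 (by linarith) hY hV a ha e2 a ha le_rfl).2 d hd).2
  have hV2 : ∀ d, 1 ≤ d → V d a ≤ 2 ^ d := by
    intro d hd
    induction d, hd using Nat.le_induction with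
    | base => simpa using hV1
    | succ d hd ih => 
      calc V (d + 1) a ≤ 2 * V d a := hr d hd
        _ ≤ 2 * 2 ^ d := by linarith
        _ = 2 ^ (d + 1) := by ring
  -- the integral
  set I : ℝ := ∫ s in a..t, cc Y K s with hI
  have hint : IntervalIntegrable (cc Y K) MeasureTheory.volume a t := by
    apply ContinuousOn.intervalIntegrable
    rw [Set.uIcc_of_le hat]
    exact (contc hY K).mono (fun s hs => ha.trans hs.1)
  have hI0 : 0 ≤ I := intervalIntegral.integral_nonneg hat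
    (fun s hs => cc_nonneg hz1 hY hK0.le (ha.trans hs.1))
  have hI1 : I ≤ (1 + K) * Th := by
    have e1 : I ≤ ∫ _s in a..t, (1 + K : ℝ) :=
      intervalIntegral.integral_mono_on hat hint intervalIntegrable_const
        (fun s hs => cc_le hz1 hY hK0.le (ha.trans hs.1))
    rw [intervalIntegral.integral_const, smul_eq_mul] at e1
    nlinarith
  -- n*
  set P : ℝ := DK α K ^ (1 + e') with hP
  have hP1 : 1 ≤ P := Real.one_le_rpow hD1 (by linarith)
  set ns : ℝ := max (d:ℝ) P with hns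
  have hd0 : (0:ℝ) < d := by exact_mod_cast hd
  have hns0 : 0 < ns := lt_of_lt_of_le hd0 (le_max_left _ _)
  set E : ℝ := DK α K ^ (α * (1 + e')) with hE
  have hE0 : 0 ≤ E := Real.rpow_nonneg hD.le _
  have hPE : P ^ α = E := by
    rw [hP, ← Real.rpow_mul hD.le, hE]
    congr 1; ring
  have hnsE : ns ^ α ≤ lam α d + E := by
    rcases max_choice (d:ℝ) P with h | h
    · rw [hns, h]
      have : (d:ℝ) ^ α = lam α d := rfl
      linarith
    · rw [hns, h, hPE]
      have := lam_nonneg α d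
      linarith
  have hKe2 : P ^ (α - 1) = (K * K ^ e')⁻¹ := by
    have e1 : P ^ (1 - α) = K * K ^ e' := by
      rw [hP, ← Real.rpow_mul hD.le, DK_rpow h1 hK0, Real.rpow_add hK0, Real.rpow_one]
    have e2 : α - 1 = -(1 - α) := by ring
    rw [e2, Real.rpow_neg (by linarith), e1]
  have hKe0 : 0 < K ^ e' := Real.rpow_pos_of_pos hK0 _
  have hq : ns ^ (α - 1) * (8 * Real.exp 1 * I) ≤ Real.exp (-3) := by
    have e1 : ns ^ (α - 1) ≤ P ^ (α - 1) :=
      Real.rpow_le_rpow_of_nonpos (by linarith) (le_max_right _ _) (by linarith)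
    have e2 := Real.exp_one_lt_d9
    have e3 : 8 * Real.exp 1 * I ≤ 22 * ((1 + K) * Th) := by
      apply mul_le_mul (by linarith) hI1 hI0 (by norm_num)
    have e4 : 22 * ((1 + K) * Th) ≤ 28 * K * Th := by nlinarith
    have e5 : ns ^ (α - 1) * (8 * Real.exp 1 * I) ≤ (K * K ^ e')⁻¹ * (28 * K * Th) := by
      rw [← hKe2]
      apply mul_le_mul e1 (e3.trans e4) (by positivity)
      exact Real.rpow_nonneg (by linarith) _
    have e6 : (K * K ^ e')⁻¹ * (28 * K * Th) = 28 * Th / K ^ e' := by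
      field_simp
    have e7 : 28 * Th / K ^ e' ≤ 1 / 25 := by
      rw [div_le_div_iff₀ hKe0 (by norm_num)]
      linarith
    have e8 : (1:ℝ) / 25 ≤ Real.exp (-3) := by
      rw [Real.exp_neg, one_div, inv_le_inv₀ (by norm_num) (Real.exp_pos 3)]
      linarith [exp_three_le]
    linarith
  -- sum
  have hs1 : HasSum (fun n => lam α d * v (d + 1) n t) (lam α d * V (d + 1) t) :=
    (vs (d + 1) t hat).mul_left _
  have hs2 : HasSum (fun n => 2 * ((2 * lam α d + E) * v d n t + 2 * Real.exp (-ns) *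
      (1 / 2) ^ n)) (2 * ((2 * lam α d + E) * V d t + 2 * Real.exp (-ns) * 2)) :=
    (((vs d t hat).mul_left _).add (hasSum_geometric_two.mul_left _)).mul_left _
  have hmain := hasSum_le (fun n => by
    have a1 := vr' d n t hd hat
    have a2 := term_bound h0 h1 hd hI0 (by have := hVa (d + n) (by omega); linarith)
      (hV2 (d + n) (by omega)) (v0 d n t hat) (vup d n t hat) (le_max_left _ _) hnsE hq
    linarith) hs1 hs2
  -- e^{-ns} ≤ V d t
  have hVd : Real.exp (-ns) ≤ V d t := by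
    have e1 : v d 0 t ≤ V d t := le_hasSum (vs d t hat) 0 (fun j _ => v0 d j t hat)
    rw [vz d t hat] at e1
    have e2 : lam α d * (t - a) ≤ ns := by
      have f0 : Th ≤ K * K ^ e' := by nlinarith
      have f1 : lam α d * (t - a) ≤ lam α d * Th :=
        mul_le_mul_of_nonneg_left htT (lam_nonneg _ _)
      have f2 : lam α d ≤ ns ^ α := Real.rpow_le_rpow hd0.le (le_max_left _ _) h0.le
      have f3 : Th ≤ ns ^ (1 - α) := by
        calc Th ≤ K * K ^ e' := f0
          _ = P ^ (1 - α) := by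
            rw [hP, ← Real.rpow_mul hD.le, DK_rpow h1 hK0, Real.rpow_add hK0, Real.rpow_one]
          _ ≤ ns ^ (1 - α) := Real.rpow_le_rpow (by linarith) (le_max_right _ _) (by linarith)
      calc lam α d * (t - a) ≤ lam α d * Th := f1
        _ ≤ ns ^ α * ns ^ (1 - α) := mul_le_mul f2 f3 hTh0 (Real.rpow_nonneg hns0.le _)
        _ = ns := by
          rw [← Real.rpow_add hns0]
          simp
    have e3 : Real.exp (-ns) ≤ Real.exp (-(lam α d * (t - a))) :=
      Real.exp_le_exp.mpr (by linarith)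
    have e4 : Real.exp (-(lam α d * (t - a))) ≤ Real.exp (-(lam α d * (t - a))) * V d a := by
      have := hVa d hd
      have hp := Real.exp_pos (-(lam α d * (t - a)))
      nlinarith
    linarith
  have hl1 := one_le_lam h0 hd
  have hv := (hV.pos d t (ha.trans hat)).le
  have : Real.exp (-ns) ≤ lam α d * V d t := by nlinarith
  nlinarith

/-- phase 3 -/
lemma phase3 (h1 : S_POS1) {α z K : ℝ} {Y V : ℕ → ℝ → ℝ} (h0 : 0 < α) (h1' : α < 1)
    (hz1 : z < 1) (hY : IsY α z Y) (hV : IsV α Y K V) (hK : 0 ≤ K) {D De : ℝ} (hD : 0 ≤ D)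
    (hDe : 1 ≤ De) {t1 : ℝ} (ht1 : 0 ≤ t1) (hc : ∀ t, t1 ≤ t → cc Y K t * De ≤ 1)
    (hinit : ∀ d, 1 ≤ d → lam α d * V (d + 1) t1 ≤ De * (D + lam α d) * V d t1) :
    ∀ d t, 1 ≤ d → t1 ≤ t → lam α d * V (d + 1) t ≤ De * (D + lam α d) * V d t := by
  intro d t hd ht
  obtain ⟨B, C, hB, hC, hBC⟩ := hV.bdd t (ht1.trans ht)
  have hDe0 : 0 ≤ De := by linarith
  set R : ℕ → ℝ := fun d => De * (D + lam α (d + 1)) / lam α (d + 1) with hR
  have hRl : ∀ d, lam α (d + 1) * R d = De * (D + lam α (d + 1)) := by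
    intro d
    have := lam_pos α (d := d + 1) (by omega)
    simp only [hR]
    field_simp
  have hR0 : ∀ d, 0 ≤ R d := by
    intro d
    have := lam_nonneg α (d + 1)
    simp only [hR]
    positivity
  have hR1 : ∀ d, R d ≤ De * (D + 1) := by
    intro d
    have hl := one_le_lam h0 (d := d + 1) (by omega)
    have hl0 := lam_pos α (d := d + 1) (by omega)
    simp only [hR]
    rw [div_le_iff₀ hl0]
    have : D ≤ D * lam α (d + 1) := by nlinarith
    nlinarith
  have key := h1 α t1 t (2 * (1 + K)) (De * (D + 1) * (B * C) + B * C ^ 2) C h0 h1' ht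
    (by positivity) (by positivity) hC
    (fun d s => R d * V (d + 1) s - V (d + 2) s)
    (fun d s => R d * (lam α (d + 1) * (cc Y K s * V (d + 2) s - V (d + 1) s)) -
      lam α (d + 2) * (cc Y K s * V (d + 3) s - V (d + 2) s))
    (fun d s => lam α (d + 2) * cc Y K s)
    (fun d s => lam α (d + 2) + cc Y K s * (lam α (d + 1) * R d - lam α (d + 2) * R (d + 1)))
    ?_ ?_ ?_ ?_ ?_ ?_
  · obtain ⟨e, rfl⟩ : ∃ e, d = e + 1 := ⟨d - 1, by omega⟩
    have h2 := key e t ⟨ht, le_rfl⟩
    have h3 : V (e + 2) t ≤ R e * V (e + 1) t := by linarith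
    calc lam α (e + 1) * V (e + 1 + 1) t ≤ lam α (e + 1) * (R e * V (e + 1) t) :=
          mul_le_mul_of_nonneg_left h3 (lam_nonneg _ _)
      _ = lam α (e + 1) * R e * V (e + 1) t := by ring
      _ = _ := by rw [hRl]
  · intro d
    have hsub : Set.Icc t1 t ⊆ Set.Ici 0 := fun s hs => ht1.trans hs.1
    exact (continuousOn_const.mul ((contV hV (d + 1)).mono hsub)).sub
      ((contV hV (d + 2)).mono hsub)
  · intro d s hs
    have hs0 : 0 ≤ s := ht1.trans hs.1
    exact ((derV hV (d + 1) hs0).const_mul (R d)).sub (derV hV (d + 2) hs0)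
  · intro d s hs
    have hs0 : 0 ≤ s := ht1.trans hs.1
    have hid := basic_id (lam α (d + 1)) (lam α (d + 2)) (cc Y K s) (R d) (R (d + 1)) 0
      (V (d + 1) s) (V (d + 2) s) (V (d + 3) s)
    have hv := (hV.pos (d + 1) s hs0).le
    have hdl0 := dl_nonneg h0 (d + 1)
    have e1 : lam α (d + 1) * R d - lam α (d + 2) * R (d + 1) =
        -(De * (lam α (d + 1 + 1) - lam α (d + 1))) := by
      have a1 := hRl d
      have a2 := hRl (d + 1)
      rw [a1]
      have : lam α (d + 2) * R (d + 1) = De * (D + lam α (d + 1 + 1)) := a2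
      rw [this]; ring
    have e2 : 0 ≤ V (d + 1) s * (0 + R d * ((lam α (d + 2) - lam α (d + 1)) +
        cc Y K s * (lam α (d + 1) * R d - lam α (d + 2) * R (d + 1)))) := by
      apply mul_nonneg hv
      rw [e1, zero_add]
      apply mul_nonneg (hR0 d)
      have : (lam α (d + 2) - lam α (d + 1)) + cc Y K s * -(De * (lam α (d + 1 + 1) -
        lam α (d + 1))) = (lam α (d + 1 + 1) - lam α (d + 1)) * (1 - cc Y K s * De) := by ring
      rw [this]
      exact mul_nonneg hdl0 (by have := hc s hs.1; linarith)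
    have e4 : V (d + 1 + 1) s = V (d + 2) s := rfl
    have e5 : V (d + 1 + 2) s = V (d + 3) s := rfl
    rw [e4, e5]
    linarith
  · intro d s hs
    have hs0 : 0 ≤ s := ht1.trans hs.1
    have hc0 := cc_nonneg hz1 hY hK hs0
    have hc1 := cc_le hz1 hY hK hs0
    have hl : lam α (d + 2) ≤ 2 * lam α (d + 1) := lam_double h0 h1' (by omega)
    have hl0 := lam_nonneg α (d + 2)
    have hl1 := lam_nonneg α (d + 1)
    refine ⟨mul_nonneg hl0 hc0, ?_, ?_⟩
    · calc lam α (d + 2) * cc Y K s ≤ (2 * lam α (d + 1)) * (1 + K) :=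
            mul_le_mul hl hc1 hc0 (by positivity)
        _ = 2 * (1 + K) * lam α (d + 1) := by ring
    · have e1 : lam α (d + 1) * R d - lam α (d + 2) * R (d + 1) =
          -(De * (lam α (d + 1 + 1) - lam α (d + 1))) := by
        have a1 := hRl d
        have a2 := hRl (d + 1)
        rw [a1]
        have : lam α (d + 2) * R (d + 1) = De * (D + lam α (d + 1 + 1)) := a2
        rw [this]; ring
      have hdl0 := dl_nonneg h0 (d + 1)
      have e2 : cc Y K s * (De * (lam α (d + 1 + 1) - lam α (d + 1))) ≤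
          lam α (d + 1 + 1) - lam α (d + 1) := by
        have := mul_le_mul_of_nonneg_right (hc s hs.1) hdl0
        linarith
      rw [e1]
      have e3 : lam α (d + 1 + 1) = lam α (d + 2) := rfl
      rw [e3] at e2 ⊢
      linarith
  · intro d
    have h2 := hinit (d + 1) (by omega)
    have hl0 := lam_pos α (d := d + 1) (by omega)
    have e1 : lam α (d + 1) * V (d + 1 + 1) t1 ≤ lam α (d + 1) * (R d * V (d + 1) t1) := by
      rw [← mul_assoc, hRl]
      exact h2
    have e2 := le_of_mul_le_mul_left e1 hl0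
    have e4 : V (d + 1 + 1) t1 = V (d + 2) t1 := rfl
    rw [e4] at e2
    linarith
  · intro d s hs
    have hs0 : 0 ≤ s := ht1.trans hs.1
    have b1 := hBC (d + 1) s hs0 hs.2
    have b2 := hBC (d + 2) s hs0 hs.2
    have p1 := (hV.pos (d + 1) s hs0).le
    have p2 := (hV.pos (d + 2) s hs0).le
    have e1 : R d * V (d + 1) s ≤ De * (D + 1) * (B * C ^ (d + 1)) :=
      mul_le_mul (hR1 d) b1 p1 (by positivity)
    have e2 : 0 ≤ R d * V (d + 1) s := mul_nonneg (hR0 d) p1
    have e3 : (De * (D + 1) * (B * C) + B * C ^ 2) * C ^ d =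
        De * (D + 1) * (B * C ^ (d + 1)) + B * C ^ (d + 2) := by ring
    rw [e3, abs_le]
    constructor <;> linarith

theorem ratio (h1 : S_POS1) (h2 : S_YF) (h3 : S_TM) (h4 : S_MONO) (h5 : S_EARLY) (h6 : S_EXP) :
    S_RATIO := by
  intro α e h0 h1' he
  obtain ⟨C1, hC1, early⟩ := h5 α h0 h1'
  have hα : 0 < 1 - α := by linarith
  set e1 : ℝ := min e (1 / 2) with he1
  have he10 : 0 < e1 := lt_min he (by norm_num)
  have he11 : e1 ≤ 1 / 2 := min_le_right _ _
  set e' : ℝ := e1 / 2 with he'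
  have he'0 : 0 < e' := by rw [he']; linarith
  obtain ⟨K0, hK04, hK0⟩ := consts e' C1 (1 + 2 / (1 - α)) he'0
  refine ⟨K0, by linarith, fun K hK => ?_⟩
  obtain ⟨hKe, hKT⟩ := hK0 K hK
  have hK4 : 4 ≤ K := hK04.trans hK
  have hK00 : 0 < K := by linarith
  have hlogK : 0 ≤ Real.log K := Real.log_nonneg (by linarith)
  have hD := DK_pos (α := α) hK00
  have hDK := DK_ge h0 h1' (by linarith : 1 ≤ K)
  have hD1 : 1 ≤ DK α K := by linarith
  set Th : ℝ := (1 + 2 / (1 - α)) * Real.log K + C1 with hTh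
  have hTh0 : 0 ≤ Th := by rw [hTh]; positivity
  have hLK : LK α K = Real.log K / (1 - α) := rfl
  have hLK0 : 0 ≤ LK α K := by rw [hLK]; positivity
  -- z0
  have hb := bet_nonneg h0 h1'
  set Q : ℝ := Real.exp ((1 + bet α) * (Real.log K + C1)) with hQ
  have hQ1 : 1 < Q := by
    have e1 : K ≤ Q := by
      calc K = Real.exp (Real.log K) := (Real.exp_log hK00).symm
        _ ≤ Q := Real.exp_le_exp.mpr (by nlinarith)
    linarith
  refine ⟨Q / (1 + Q), ?_, ?_, ?_⟩
  · rw [div_lt_div_iff₀ (by norm_num) (by linarith)]; linarith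
  · rw [div_lt_one (by linarith)]; linarith
  intro z Y V hz hz1 hY hV d t hd ht
  have hz2 : 1 / 2 < z := by
    refine lt_trans ?_ hz
    rw [div_lt_div_iff₀ (by norm_num) (by linarith)]; linarith
  have hz0 : 0 < z := by linarith
  obtain ⟨⟨tM, htM0, htM⟩, tm⟩ := h3 α z Y h0 h1' hz2 hz1 hY
  obtain ⟨tm1, tm2, tm3⟩ := tm tM htM0.le htM
  obtain ⟨-, -, -, y4, -, -, -⟩ := h2 α z Y h0 h1' hz0 hz1 hY
  have hlog : (1 + bet α) * (Real.log K + C1) ≤ Real.log (z / (1 - z)) := by
    rw [Real.le_log_iff_exp_le (div_pos hz0 (by linarith)), ← hQ, le_div_iff₀ (by linarith)]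
    rw [div_lt_iff₀ (by linarith)] at hz
    nlinarith
  have ha0 : Real.log K + C1 ≤ tM := by
    have : (1 + bet α) * (Real.log K + C1) ≤ (1 + bet α) * tM := hlog.trans tm1
    exact le_of_mul_le_mul_left this (by linarith)
  set a : ℝ := tM - Real.log K - C1 with ha
  have ha0' : 0 ≤ a := by rw [ha]; linarith
  have hearly := early K z Y V tM (by linarith) hz2 hz1 hY hV htM0.le htM
  -- powers of D
  have hDe1 : DK α K ^ e1 ≤ DK α K ^ e := Real.rpow_le_rpow_of_exponent_le hD1 (min_le_left _ _)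
  have hDe' : 4 ≤ DK α K ^ e' := by
    calc (4:ℝ) ≤ K ^ e' := hKe
      _ ≤ DK α K ^ e' := Real.rpow_le_rpow hK00.le hDK he'0.le
  have hDe1' : DK α K ^ e1 = DK α K ^ e' * DK α K ^ e' := by
    rw [← Real.rpow_add hD]; congr 1; rw [he']; ring
  have hDe16 : 16 ≤ DK α K ^ e1 := by rw [hDe1']; nlinarith
  -- it suffices to prove the bound with e1
  have suff : lam α d * V (d + 1) t ≤ DK α K ^ e1 * (DK α K ^ α + lam α d) * V d t := by
    have hDα : 0 ≤ DK α K ^ α := Real.rpow_nonneg hD.le _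
    -- phases 1 and 2
    have p12 : ∀ d t, 1 ≤ d → 0 ≤ t → t ≤ tM + 2 * LK α K →
        lam α d * V (d + 1) t ≤ DK α K ^ e1 * (DK α K ^ α + lam α d) * V d t := by
      intro d t hd ht htu
      have hl := lam_pos α hd
      have hv := hV.pos d t ht
      have hl1 := one_le_lam h0 hd
      rcases le_or_gt t a with h | h
      · have e2 := (hearly t ht h).2 d hd
        calc lam α d * V (d + 1) t ≤ lam α d * (2 * V d t) :=
              mul_le_mul_of_nonneg_left e2 hl.le
          _ = (2 * lam α d) * V d t := by ring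
          _ ≤ DK α K ^ e1 * (DK α K ^ α + lam α d) * V d t := by
              apply mul_le_mul_of_nonneg_right _ hv.le
              nlinarith
      · obtain ⟨ea1, ea2⟩ := hearly a ha0' le_rfl
        have hYa : 1 / 2 ≤ Y 1 a := (tm3 a ha0' (by rw [ha]; linarith)).2.2.2
        have htT : t - a ≤ Th := by
          rw [ha, hTh, hLK] at *
          have : 2 / (1 - α) * Real.log K = 2 * (Real.log K / (1 - α)) := by ring
          nlinarith
        have e3 := phase2 h4 h6 h0 h1' hz0 hz1 hY hV he'0 (by rw [he']; linarith) hK4 hKe hTh0 hKT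
          ha0' hYa ea1 ea2 h.le htT hd
        refine e3.trans (mul_le_mul_of_nonneg_right ?_ hv.le)
        have e4 : DK α K ^ (α * (1 + e')) ≤ DK α K ^ α * DK α K ^ e' := by
          rw [← Real.rpow_add hD]
          apply Real.rpow_le_rpow_of_exponent_le hD1
          nlinarith
        have e5 : 2 * (DK α K ^ α * DK α K ^ e') ≤ DK α K ^ e1 * DK α K ^ α := by
          rw [hDe1']
          have : 2 * DK α K ^ e' ≤ DK α K ^ e' * DK α K ^ e' := by nlinarith
          nlinarith
        nlinarith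
    rcases le_or_gt t (tM + 2 * LK α K) with h | h
    · exact p12 d t hd ht h
    · have ht1 : 0 ≤ tM + 2 * LK α K := by linarith
      refine phase3 h1 h0 h1' hz1 hY hV hK00.le hDα (by linarith) ht1 ?_
        (fun d hd => p12 d _ hd ht1 le_rfl) d t hd h.le
      intro s hs
      have hs0 : 0 ≤ s := ht1.trans hs
      have f1 : cc Y K s ≤ (1 + K) * Y 1 s := by
        have := (y4 s hs0).2
        unfold cc
        nlinarith
      have f2 : Y 1 s ≤ Real.exp (-(2 * LK α K)) :=
        ((tm2 s (by linarith)).2).trans (Real.exp_le_exp.mpr (by linarith))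
      have f3 : Real.exp (-(2 * LK α K)) = (DK α K ^ 2)⁻¹ := by
        rw [Real.exp_neg, two_mul, Real.exp_add, exp_LK hK00]
        congr 1; ring
      have f4 : cc Y K s ≤ 2 * DK α K * (DK α K ^ 2)⁻¹ := by
        calc cc Y K s ≤ (1 + K) * Y 1 s := f1
          _ ≤ (2 * DK α K) * (DK α K ^ 2)⁻¹ := by
            apply mul_le_mul (by linarith) (f3 ▸ f2) (hY.pos 1 s hs0).le (by positivity)
      have f5 : DK α K ^ e1 ≤ DK α K ^ (1 / 2 : ℝ) :=
        Real.rpow_le_rpow_of_exponent_le hD1 he11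
      have f6 : 2 * DK α K ^ (1 / 2 : ℝ) ≤ DK α K := by
        rw [← Real.sqrt_eq_rpow]
        have s1 := Real.mul_self_sqrt hD.le
        have s2 : 2 ≤ Real.sqrt (DK α K) := by
          rw [show (2:ℝ) = Real.sqrt 4 by
            rw [show (4:ℝ) = 2 ^ 2 by norm_num, Real.sqrt_sq (by norm_num)]]
          exact Real.sqrt_le_sqrt (by linarith)
        nlinarith
      calc cc Y K s * DK α K ^ e1 ≤ (2 * DK α K * (DK α K ^ 2)⁻¹) * DK α K ^ e1 :=
            mul_le_mul_of_nonneg_right f4 (by linarith)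
        _ = (2 * DK α K ^ e1) / DK α K := by field_simp
        _ ≤ 1 := by rw [div_le_one hD]; linarith
  refine suff.trans ?_
  apply mul_le_mul_of_nonneg_right _ (hV.pos d t ht).le
  apply mul_le_mul_of_nonneg_right hDe1
  have := Real.rpow_nonneg hD.le α
  have := lam_nonneg α d
  linarith

end Pool.Agent.TH370.J2239
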