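import Pool.Agent.TH77.Ad

set_option autoImplicit false
set_option linter.unusedSectionVars false

namespace Pool.Agent.TH77
open Filter Topology Set Metric
namespace LG
variable {H : Type*} [Group H] [TopologicalSpace H] [IsTopologicalGroup H] [T2Space H]
  {E : Type*} [NormedAddCommGroup E] [NormedSpace ℝ E] [FiniteDimensional ℝ E] (L : LG H E)

private lemma mul_zero_right_J879 : ∀ᶠ m in 𝓝 (0 : E), L.mul (m, 0) = m := by
  obtain ⟨r, hr, hinj⟩ := L.inj
  have hc : ContinuousAt L.mul 0 := L.mul_deriv.continuousAt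
  have h1 : Tendsto (fun m : E => (m, (0 : E))) (𝓝 0) (𝓝 (0 : E × E)) := by
    have : Continuous fun m : E => (m, (0 : E)) := by fun_prop
    exact this.tendsto' 0 _ (by simp)
  have h2 : Tendsto (fun m : E => L.mul (m, 0)) (𝓝 0) (𝓝 0) := by
    have := hc.tendsto.comp h1
    rwa [L.mul_zero] at this
  filter_upwards [h1.eventually L.exp_mul, h2 (ball_mem_nhds 0 hr), ball_mem_nhds (0 : E) hr]
    with m hm hb hm0
  refine hinj hb hm0 ?_
  rw [← hm, L.exp_zero, mul_one]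

/-- all local estimates in one radius -/
private lemma local_J879 (η : ℝ) (hη : 0 < η) : ∃ ρ : ℝ, 0 < ρ ∧
    (∀ a b a' b' : E, ‖a‖ < ρ → ‖b‖ < ρ → ‖a'‖ < ρ → ‖b'‖ < ρ →
      ‖L.mul (a, b) - L.mul (a', b') - ((a - a') + (b - b'))‖ ≤ η * max ‖a - a'‖ ‖b - b'‖) ∧
    (∀ a b : E, ‖a‖ < ρ → ‖b‖ < ρ → L.exp a * L.exp b = L.exp (L.mul (a, b))) ∧
    (∀ a : E, ‖a‖ < ρ → L.mul (a, -a) = 0) ∧ (∀ a : E, ‖a‖ < ρ → L.mul (a, 0) = a) := by
  have hstrict := L.mul_deriv.isLittleO.def hη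
  have hs : ∀ᶠ p in 𝓝 ((0 : E × E), (0 : E × E)),
      ‖L.mul p.1 - L.mul p.2 - (ContinuousLinearMap.fst ℝ E E + ContinuousLinearMap.snd ℝ E E)
        (p.1 - p.2)‖ ≤ η * ‖p.1 - p.2‖ := hstrict
  obtain ⟨ρ1, hρ1, h1⟩ := Metric.eventually_nhds_iff.1 hs
  obtain ⟨ρ2, hρ2, h2⟩ := Metric.eventually_nhds_iff.1 L.exp_mul
  obtain ⟨ρ3, hρ3, h3⟩ := Metric.eventually_nhds_iff.1 L.eventually_mul_neg
  obtain ⟨ρ4, hρ4, h4⟩ := Metric.eventually_nhds_iff.1 L.mul_zero_right_J879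
  refine ⟨min (min ρ1 ρ2) (min ρ3 ρ4), lt_min (lt_min hρ1 hρ2) (lt_min hρ3 hρ4), ?_, ?_, ?_, ?_⟩
  · intro a b a' b' ha hb ha' hb'
    have hd : dist ((a, b), (a', b')) ((0 : E × E), (0 : E × E)) < ρ1 := by
      have e : ((0 : E × E), (0 : E × E)) = 0 := rfl
      rw [e, dist_zero_right, Prod.norm_def, Prod.norm_def, Prod.norm_def]
      refine max_lt (max_lt ?_ ?_) (max_lt ?_ ?_)
      · exact ha.trans_le ((min_le_left _ _).trans (min_le_left _ _))
      · exact hb.trans_le ((min_le_left _ _).trans (min_le_left _ _))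
      · exact ha'.trans_le ((min_le_left _ _).trans (min_le_left _ _))
      · exact hb'.trans_le ((min_le_left _ _).trans (min_le_left _ _))
    have h := h1 hd
    simpa [Prod.norm_def] using h
  · intro a b ha hb
    refine h2 (y := (a, b)) ?_
    rw [dist_zero_right, Prod.norm_def]
    exact max_lt (ha.trans_le ((min_le_left _ _).trans (min_le_right _ _)))
      (hb.trans_le ((min_le_left _ _).trans (min_le_right _ _)))
  · intro a ha
    refine h3 ?_
    rw [dist_zero_right]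
    exact ha.trans_le ((min_le_right _ _).trans (min_le_left _ _))
  · intro a ha
    refine h4 ?_
    rw [dist_zero_right]
    exact ha.trans_le ((min_le_right _ _).trans (min_le_right _ _))

private lemma bound_J879 (P : E) : ∃ C : ℝ, 1 ≤ C ∧ ∀ s ∈ Icc (0 : ℝ) 1,
    ‖(NormedSpace.exp (s • L.ad P) : E →L[ℝ] E)‖ ≤ C := by
  have : CompleteSpace E := FiniteDimensional.complete ℝ E
  have hc : Continuous fun s : ℝ => (NormedSpace.exp (s • L.ad P) : E →L[ℝ] E) :=
    expR_cont.comp (by fun_prop)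
  obtain ⟨C, hC⟩ := (isCompact_Icc (a := (0 : ℝ)) (b := 1)).exists_bound_of_continuousOn
    (f := fun s : ℝ => (NormedSpace.exp (s • L.ad P) : E →L[ℝ] E)) hc.continuousOn
  exact ⟨max C 1, le_max_right _ _, fun s hs => (hC s hs).trans (le_max_left _ _)⟩

/-- JOB D. The differential of the exponential map, in a form without integrals. -/
theorem exp_diff (P : E) (ε : ℝ) (hε : 0 < ε) :
    ∀ᶠ δ in 𝓝 (0 : E), ∃ w : E, L.exp (P + δ) * L.exp (-P) = L.exp w ∧
      ∃ n : ℕ, 0 < n ∧ ‖w - (1 / (n : ℝ)) •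
        ∑ k ∈ Finset.range n, NormedSpace.exp (((k : ℝ) / n) • L.ad P) δ‖ ≤ ε * ‖δ‖ := by
  have : CompleteSpace E := FiniteDimensional.complete ℝ E
  obtain ⟨C, hC1, hC⟩ := L.bound_J879 P
  have hC0 : 0 < C := lt_of_lt_of_le one_pos hC1
  set η : ℝ := min 1 (ε / (3 * C)) with hη
  have hη0 : 0 < η := lt_min one_pos (by positivity)
  have hη1 : η ≤ 1 := min_le_left _ _
  have hη2 : 3 * C * η ≤ ε := by
    have h : η ≤ ε / (3 * C) := min_le_right _ _
    calc 3 * C * η ≤ 3 * C * (ε / (3 * C)) := by gcongr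
      _ = ε := by field_simp
  obtain ⟨ρ, hρ, hstr, hmul, hneg, hzero⟩ := L.local_J879 η hη0
  obtain ⟨n, hn⟩ := exists_nat_gt (‖P‖ / (ρ / 2))
  have hn0 : 0 < n := by
    rcases Nat.eq_zero_or_pos n with h | h
    · rw [h, Nat.cast_zero] at hn
      have h0 : 0 ≤ ‖P‖ / (ρ / 2) := by positivity
      exact absurd hn (not_lt.2 h0)
    · exact h
  have hnR : (0 : ℝ) < n := by exact_mod_cast hn0
  have hn1 : (1 : ℝ) ≤ n := by exact_mod_cast hn0
  have hPn : ‖P‖ / n < ρ / 2 := by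
    rw [div_lt_iff₀ (by positivity)] at hn
    rw [div_lt_iff₀ hnR]
    linarith
  have hsmall : ∀ᶠ δ in 𝓝 (0 : E), ‖δ‖ < ρ / (4 * C) := by
    have h : 0 < ρ / (4 * C) := by positivity
    have := ball_mem_nhds (0 : E) h
    filter_upwards [this] with δ hδ
    simpa using hδ
  filter_upwards [hsmall] with δ hδ
  have hδ4 : 4 * C * ‖δ‖ < ρ := by
    rw [lt_div_iff₀ (by positivity)] at hδ
    linarith
  have hδ2 : ‖δ‖ < ρ / 2 := by
    have : ‖δ‖ ≤ C * ‖δ‖ := by
      nlinarith [norm_nonneg δ]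
    linarith
  -- the small element
  set u : ℝ := 1 / n with hu
  have hu0 : 0 < u := by positivity
  have hu1 : u ≤ 1 := by
    rw [hu, div_le_one hnR]; exact hn1
  have hnu : (n : ℝ) * u = 1 := by rw [hu]; field_simp
  have hPu : ‖u • P‖ < ρ / 2 := by
    rw [norm_smul, Real.norm_of_nonneg hu0.le]
    calc u * ‖P‖ = ‖P‖ / n := by rw [hu]; ring
      _ < _ := hPn
  have hδu : ‖u • δ‖ ≤ ‖δ‖ := by
    rw [norm_smul, Real.norm_of_nonneg hu0.le]
    calc u * ‖δ‖ ≤ 1 * ‖δ‖ := by gcongr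
      _ = _ := one_mul _
  have hδun : ‖u • δ‖ = u * ‖δ‖ := by
    rw [norm_smul, Real.norm_of_nonneg hu0.le]
  have hPδ : ‖u • (P + δ)‖ < ρ := by
    rw [smul_add]
    calc ‖u • P + u • δ‖ ≤ ‖u • P‖ + ‖u • δ‖ := norm_add_le _ _
      _ < ρ := by linarith
  set e : E := L.mul (u • (P + δ), -(u • P)) with he
  have hnegP : ‖-(u • P)‖ < ρ := by rw [norm_neg]; linarith
  have he1 : ‖e - u • δ‖ ≤ η * (u * ‖δ‖) := by
    have h := hstr (u • (P + δ)) (-(u • P)) (u • P) (-(u • P)) hPδ hnegP (by linarith) hnegP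
    rw [hneg _ (by linarith)] at h
    have e1 : u • (P + δ) - u • P = u • δ := by rw [smul_add]; abel
    rw [e1, sub_self, norm_zero, add_zero, sub_zero, max_eq_left (norm_nonneg _), hδun] at h
    exact h
  have he2 : ‖e‖ ≤ 2 * (u * ‖δ‖) := by
    calc ‖e‖ = ‖(e - u • δ) + u • δ‖ := by rw [sub_add_cancel]
      _ ≤ ‖e - u • δ‖ + ‖u • δ‖ := norm_add_le _ _
      _ ≤ η * (u * ‖δ‖) + u * ‖δ‖ := by rw [hδun]; gcongr
      _ ≤ 1 * (u * ‖δ‖) + u * ‖δ‖ := by gcongr
      _ = _ := by ring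
  have he3 : L.exp (u • (P + δ)) = L.exp e * L.exp (u • P) := by
    have h := hmul (u • (P + δ)) (-(u • P)) hPδ hnegP
    rw [he, ← h, L.exp_neg, inv_mul_cancel_right]
  -- conjugates
  set A : ℕ → E →L[ℝ] E := fun k => NormedSpace.exp (((k : ℝ) / n) • L.ad P) with hA
  set s : ℕ → E := fun k => A k e with hs
  have hAC : ∀ k < n, ‖A k‖ ≤ C := by
    intro k hk
    refine hC _ ⟨by positivity, ?_⟩
    rw [div_le_one hnR]
    exact_mod_cast hk.le
  have hsn : ∀ k < n, ‖s k‖ ≤ 2 * C * (u * ‖δ‖) := by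
    intro k hk
    calc ‖s k‖ ≤ ‖A k‖ * ‖e‖ := (A k).le_opNorm e
      _ ≤ C * (2 * (u * ‖δ‖)) := by
        gcongr
        exact hAC k hk
      _ = _ := by ring
  set g : H := L.exp (u • P) with hg
  have hgk : ∀ k : ℕ, g ^ k = L.exp (((k : ℝ) / n) • P) := by
    intro k
    rw [hg, ← L.exp_nsmul, ← Nat.cast_smul_eq_nsmul ℝ, smul_smul]
    congr 2
    rw [hu]; ring
  have hconj : ∀ k : ℕ, g ^ k * L.exp e = L.exp (s k) * g ^ k := by
    intro k
    have h : g ^ k * L.exp e * (g ^ k)⁻¹ = L.exp (s k) := by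
      rw [← L.exp_Ad, hgk, L.Ad_exp, map_smul]
    rw [← h, inv_mul_cancel_right]
  -- the products
  set q : ℕ → E := fun j => Nat.rec (motive := fun _ => E) 0 (fun j qj => L.mul (qj, s j)) j with hq
  have hq0 : q 0 = 0 := rfl
  have hqs : ∀ j, q (j + 1) = L.mul (q j, s j) := fun j => rfl
  have main : ∀ j ≤ n, ‖q j - ∑ k ∈ Finset.range j, s k‖ ≤ η * (j * (2 * C * (u * ‖δ‖))) ∧
      L.exp (q j) * g ^ j = (L.exp e * g) ^ j := by
    intro j
    induction j with
    | zero =>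
      intro _
      simp [hq0, L.exp_zero]
    | succ j ih =>
      intro hj
      obtain ⟨ih1, ih2⟩ := ih (by omega)
      have hjn : j < n := by omega
      have hjR : (j : ℝ) ≤ n := by exact_mod_cast hjn.le
      have hsum : ‖∑ k ∈ Finset.range j, s k‖ ≤ j * (2 * C * (u * ‖δ‖)) := by
        calc ‖∑ k ∈ Finset.range j, s k‖ ≤ ∑ k ∈ Finset.range j, ‖s k‖ := norm_sum_le _ _
          _ ≤ ∑ k ∈ Finset.range j, 2 * C * (u * ‖δ‖) := by
            refine Finset.sum_le_sum fun k hk => hsn k ?_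
            have := Finset.mem_range.1 hk
            omega
          _ = _ := by rw [Finset.sum_const, Finset.card_range, nsmul_eq_mul]
      have hjb : (j : ℝ) * (2 * C * (u * ‖δ‖)) ≤ 2 * C * ‖δ‖ := by
        calc (j : ℝ) * (2 * C * (u * ‖δ‖)) ≤ n * (2 * C * (u * ‖δ‖)) := by gcongr
          _ = (n * u) * (2 * C * ‖δ‖) := by ring
          _ = _ := by rw [hnu, one_mul]
      have hqj : ‖q j‖ < ρ := by
        calc ‖q j‖ = ‖(q j - ∑ k ∈ Finset.range j, s k) + ∑ k ∈ Finset.range j, s k‖ := by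
              rw [sub_add_cancel]
          _ ≤ ‖q j - ∑ k ∈ Finset.range j, s k‖ + ‖∑ k ∈ Finset.range j, s k‖ := norm_add_le _ _
          _ ≤ η * (j * (2 * C * (u * ‖δ‖))) + j * (2 * C * (u * ‖δ‖)) := by gcongr
          _ ≤ 1 * (j * (2 * C * (u * ‖δ‖))) + j * (2 * C * (u * ‖δ‖)) := by gcongr
          _ ≤ 1 * (2 * C * ‖δ‖) + 2 * C * ‖δ‖ := by gcongr
          _ = 4 * C * ‖δ‖ := by ring
          _ < ρ := hδ4
      have hsj : ‖s j‖ < ρ := by
        calc ‖s j‖ ≤ 2 * C * (u * ‖δ‖) := hsn j hjn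
          _ ≤ 2 * C * (1 * ‖δ‖) := by gcongr
          _ < ρ := by nlinarith [norm_nonneg δ]
      have h0ρ : ‖(0 : E)‖ < ρ := by rw [norm_zero]; exact hρ
      refine ⟨?_, ?_⟩
      · have h := hstr (q j) (s j) (q j) 0 hqj hsj hqj h0ρ
        rw [hzero _ hqj, sub_self, norm_zero, zero_add, sub_zero,
          max_eq_right (norm_nonneg _)] at h
        rw [hqs, Finset.sum_range_succ]
        calc ‖L.mul (q j, s j) - (∑ k ∈ Finset.range j, s k + s j)‖
            = ‖(L.mul (q j, s j) - q j - s j) + (q j - ∑ k ∈ Finset.range j, s k)‖ := by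
              congr 1; abel
          _ ≤ ‖L.mul (q j, s j) - q j - s j‖ + ‖q j - ∑ k ∈ Finset.range j, s k‖ :=
              norm_add_le _ _
          _ ≤ η * ‖s j‖ + η * (j * (2 * C * (u * ‖δ‖))) := add_le_add h ih1
          _ ≤ η * (2 * C * (u * ‖δ‖)) + η * (j * (2 * C * (u * ‖δ‖))) := by
              gcongr
              exact hsn j hjn
          _ = η * ((j + 1 : ℕ) * (2 * C * (u * ‖δ‖))) := by push_cast; ring
      · rw [hqs, ← hmul _ _ hqj hsj, pow_succ (L.exp e * g) j, ← ih2, pow_succ g j]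
        have h := hconj j
        calc L.exp (q j) * L.exp (s j) * (g ^ j * g)
            = L.exp (q j) * (L.exp (s j) * g ^ j) * g := by group
          _ = L.exp (q j) * (g ^ j * L.exp e) * g := by rw [← h]
          _ = L.exp (q j) * g ^ j * (L.exp e * g) := by group
  obtain ⟨m1, m2⟩ := main n le_rfl
  refine ⟨q n, ?_, n, hn0, ?_⟩
  · have hgn : g ^ n = L.exp P := by
      rw [hgk, div_self hnR.ne', one_smul]
    have h1 : L.exp (P + δ) = (L.exp e * g) ^ n := by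
      rw [← he3, ← L.exp_nsmul, ← Nat.cast_smul_eq_nsmul ℝ, smul_smul, hnu, one_smul]
    rw [h1, ← m2, hgn, L.exp_neg, mul_inv_cancel_right]
  · have hdiff : ‖∑ k ∈ Finset.range n, s k - (1 / (n : ℝ)) •
        ∑ k ∈ Finset.range n, A k δ‖ ≤ C * (η * ‖δ‖) := by
      have e1 : ∑ k ∈ Finset.range n, s k - (1 / (n : ℝ)) • ∑ k ∈ Finset.range n, A k δ =
          ∑ k ∈ Finset.range n, A k (e - u • δ) := by
        rw [Finset.smul_sum, ← Finset.sum_sub_distrib]
        refine Finset.sum_congr rfl fun k _ => ?_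
        rw [map_sub, map_smul]
      rw [e1]
      calc ‖∑ k ∈ Finset.range n, A k (e - u • δ)‖
          ≤ ∑ k ∈ Finset.range n, ‖A k (e - u • δ)‖ := norm_sum_le _ _
        _ ≤ ∑ k ∈ Finset.range n, C * (η * (u * ‖δ‖)) := by
          refine Finset.sum_le_sum fun k hk => ?_
          calc ‖A k (e - u • δ)‖ ≤ ‖A k‖ * ‖e - u • δ‖ := (A k).le_opNorm _
            _ ≤ C * (η * (u * ‖δ‖)) := by
              gcongr
              exact hAC k (Finset.mem_range.1 hk)
        _ = (n * u) * (C * (η * ‖δ‖)) := by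
          rw [Finset.sum_const, Finset.card_range, nsmul_eq_mul]; ring
        _ = _ := by rw [hnu, one_mul]
    calc ‖q n - (1 / (n : ℝ)) • ∑ k ∈ Finset.range n, A k δ‖
        = ‖(q n - ∑ k ∈ Finset.range n, s k) + (∑ k ∈ Finset.range n, s k - (1 / (n : ℝ)) •
            ∑ k ∈ Finset.range n, A k δ)‖ := by congr 1; abel
      _ ≤ ‖q n - ∑ k ∈ Finset.range n, s k‖ + ‖∑ k ∈ Finset.range n, s k - (1 / (n : ℝ)) •
            ∑ k ∈ Finset.range n, A k δ‖ := norm_add_le _ _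
      _ ≤ η * (n * (2 * C * (u * ‖δ‖))) + C * (η * ‖δ‖) := add_le_add m1 hdiff
      _ = (n * u) * (2 * C * η * ‖δ‖) + C * η * ‖δ‖ := by ring
      _ = 3 * C * η * ‖δ‖ := by rw [hnu]; ring
      _ ≤ ε * ‖δ‖ := by gcongr

end LG
end Pool.Agent.TH77
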