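import Pool.Agent.TH806.LS.Defs
import Pool.Agent.TH328.LK_PRD

set_option autoImplicit false

/-!
LS project (helper806), job PRD: products of the local estimates with squares over the blocks.
Port of the first half of `Pool.Agent.TH328.LK_PRD` (helper328).
-/

namespace Pool.Agent.TH370.LS_PRD

open Finset Filter Topology MeasureTheory Complex
open Pool.Agent.W184.NZ
open Pool.Agent.TH806.LK Pool.Agent.TH806.LS
open Pool.Agent.TH328.LK_PRD (Mn_nonneg norm_ab norm_ex ex_re sum_erase_le)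

theorem t_PRDs : Pool.Agent.TH806.LS.P_LOCs → Pool.Agent.TH806.LS.P_PRDs := by
  intro hL
  intro n c C hn hc
  obtain ⟨C', hC', H⟩ := hL n c C hn hc
  set M := Pool.Agent.TH328.LK_PRD.Mn n with hM
  have hM0 : 0 ≤ M := Mn_nonneg n
  set D := C' * Real.exp (M * c) with hD
  have hD0 : 0 < D := by positivity
  have hsum : ∀ (J Rs : ℕ) (I : ℕ → Finset ℕ) (b : ℕ → ℝ), Rg c J I b →
      ∑ i ∈ range J, (uI (I i) + Real.exp (-(RR Rs i : ℝ))) ≤
        (∑ i ∈ range J, uI (I i)) + 2 * Real.exp (-(Rs:ℝ)) := by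
    intro J Rs I b h
    rw [sum_add_distrib]
    have := sum_exp_le J Rs (RR_ge Rs)
    linarith
  refine ⟨(1 + C') * Real.exp (M * c + D * (c + 2)), by positivity, ?_⟩
  intro J Rs I b ν hRg hRs
  have hv : ∀ i < J, vI (I i) ≤ c := fun i hi => hRg.v i hi
  have hu : ∀ i < J, uI (I i) ≤ c := fun i hi => hRg.u hi
  have hRR : ∀ i, 1 ≤ RR Rs i := fun i => by unfold RR; omega
  have hϑ : ∀ θ₁ θ₂ : ℝ, |θ₁| ≤ 1 → |θ₂| ≤ 1 → |θ₁ + θ₂| ≤ 2 := fun θ₁ θ₂ h1 h2 => by
    have := abs_add_le θ₁ θ₂; linarith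
  intro w κ hκ0 hκ1 hLW a θ₁ θ₂ ha h1 h2
  set s : ℝ := 2 * κ * a + a ^ 2 - (θ₁ + θ₂) ^ 2 / 4 with hs
  have hsM : |s| ≤ M := by
    rw [hs, ← ex_re]
    exact (Complex.abs_re_le_norm _).trans (norm_ex hκ0 hκ1 hκ0 hκ1 ha ha (hϑ _ _ h1 h2))
  set L : ℕ → ℝ := fun i => ‖∫ q, q.2 * BFs (KK n Rs i) a a θ₁ θ₂ q.1 ∂(ν i)‖ with hLdef
  have hL1 : ∀ i < J, L i ≤ Real.exp (s * vI (I i) + D * (uI (I i) + Real.exp (-(RR Rs i : ℝ)))) := by
    intro i hi
    have h3 := (H w κ κ (I i) (ν i) hκ0 hκ1 hκ0 hκ1 (hLW i hi) (hv i hi) (hu i hi) (RR Rs i) (hRR i) a a θ₁ θ₂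
      ha ha h1 h2).1
    have v0 := vI_nonneg (I i)
    have u0 := uI_nonneg (I i)
    have h4 : L i ≤ Real.exp (s * vI (I i)) + C' * (uI (I i) + Real.exp (-(RR Rs i : ℝ))) := by
      have h5 : ‖Complex.exp (ex κ κ a a (θ₁ + θ₂) * vI (I i))‖ = Real.exp (s * vI (I i)) := by
        rw [Complex.norm_exp]
        congr 1
        rw [Complex.re_mul_ofReal, ex_re]
      calc L i = ‖((∫ q, q.2 * BFs (KK n Rs i) a a θ₁ θ₂ q.1 ∂(ν i)) -
            Complex.exp (ex κ κ a a (θ₁ + θ₂) * vI (I i))) + Complex.exp (ex κ κ a a (θ₁ + θ₂) * vI (I i))‖ := by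
              rw [sub_add_cancel]
        _ ≤ C' * (uI (I i) + Real.exp (-(RR Rs i : ℝ))) + Real.exp (s * vI (I i)) := by
            refine (norm_add_le _ _).trans (add_le_add h3 h5.le)
        _ = _ := by ring
    have h6 : 1 ≤ Real.exp (M * c) * Real.exp (s * vI (I i)) := by
      rw [← Real.exp_add]
      refine Real.one_le_exp ?_
      have h7 : |s * vI (I i)| ≤ M * c := by
        rw [abs_mul, abs_of_nonneg v0]
        exact mul_le_mul hsM (hv i hi) v0 hM0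
      have := neg_abs_le (s * vI (I i))
      linarith
    set t := uI (I i) + Real.exp (-(RR Rs i : ℝ)) with ht
    have ht0 : 0 ≤ t := by positivity
    calc L i ≤ Real.exp (s * vI (I i)) + C' * t := h4
      _ ≤ Real.exp (s * vI (I i)) + C' * t * (Real.exp (M * c) * Real.exp (s * vI (I i))) := by
          have : C' * t * 1 ≤ C' * t * (Real.exp (M * c) * Real.exp (s * vI (I i))) :=
            mul_le_mul_of_nonneg_left h6 (by positivity)
          linarith
      _ = Real.exp (s * vI (I i)) * (D * t + 1) := by rw [hD]; ring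
      _ ≤ Real.exp (s * vI (I i)) * Real.exp (D * t) :=
          mul_le_mul_of_nonneg_left (Real.add_one_le_exp _) (Real.exp_pos _).le
      _ = _ := by rw [← Real.exp_add]
  have hu2 : D * ∑ i ∈ range J, (uI (I i) + Real.exp (-(RR Rs i : ℝ))) ≤ D * (c + 2) := by
    refine mul_le_mul_of_nonneg_left ((hsum J Rs I b hRg).trans ?_) hD0.le
    have h8 : Real.exp (-(Rs:ℝ)) ≤ 1 := Real.exp_le_one_iff.mpr (by simp)
    have := hRg.U
    linarith
  have hA1 : ∏ i ∈ range J, L i ≤ Real.exp (D * (c + 2)) * Real.exp (s * VV I J) := by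
    refine (prod_le_prod (fun i _ => norm_nonneg _) (fun i hi => hL1 i (mem_range.mp hi))).trans ?_
    rw [← Real.exp_sum, sum_add_distrib, ← mul_sum, ← mul_sum, ← Real.exp_add]
    refine Real.exp_le_exp.mpr ?_
    unfold VV
    linarith
  have hA2 : ∀ i₀ < J, ∏ i ∈ (range J).erase i₀, L i ≤
      Real.exp (M * c + D * (c + 2)) * Real.exp (s * VV I J) := by
    intro i₀ hi₀
    refine (prod_le_prod (fun i _ => norm_nonneg _)
      (fun i hi => hL1 i (mem_range.mp (mem_of_mem_erase hi)))).trans ?_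
    rw [← Real.exp_sum, sum_add_distrib, ← mul_sum, ← mul_sum, ← Real.exp_add]
    refine Real.exp_le_exp.mpr ?_
    have e1 : ∑ i ∈ (range J).erase i₀, vI (I i) + vI (I i₀) = VV I J :=
      sum_erase_add (range J) (fun i => vI (I i)) (mem_range.mpr hi₀)
    have e2 : ∑ i ∈ (range J).erase i₀, (uI (I i) + Real.exp (-(RR Rs i : ℝ))) ≤
        ∑ i ∈ range J, (uI (I i) + Real.exp (-(RR Rs i : ℝ))) :=
      sum_erase_le _ (fun i => by have := uI_nonneg (I i); positivity)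
    have e3 := mul_le_mul_of_nonneg_left e2 hD0.le
    have e4 : |s * vI (I i₀)| ≤ M * c := by
      rw [abs_mul, abs_of_nonneg (vI_nonneg _)]
      exact mul_le_mul hsM (hv i₀ hi₀) (vI_nonneg _) hM0
    have e5 := neg_abs_le (s * vI (I i₀))
    have e6 : s * ∑ i ∈ (range J).erase i₀, vI (I i) = s * VV I J - s * vI (I i₀) := by
      rw [← e1]; ring
    rw [e6]
    linarith
  have hX0 : 0 < Real.exp (s * VV I J) := Real.exp_pos _
  have hE0 : 0 < Real.exp (M * c + D * (c + 2)) := Real.exp_pos _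
  refine ⟨hA1.trans ?_, fun i₀ hi₀ => ⟨(hA2 i₀ hi₀).trans ?_, ?_, ?_⟩⟩
  · refine mul_le_mul_of_nonneg_right ?_ hX0.le
    have : Real.exp (D * (c + 2)) ≤ Real.exp (M * c + D * (c + 2)) :=
      Real.exp_le_exp.mpr (by have := mul_nonneg hM0 hc; linarith)
    nlinarith
  · refine mul_le_mul_of_nonneg_right ?_ hX0.le
    nlinarith
  · have hB := (H w κ κ (I i₀) (ν i₀) hκ0 hκ1 hκ0 hκ1 (hLW i₀ hi₀) (hv i₀ hi₀) (hu i₀ hi₀) (RR Rs i₀) (hRR i₀)
      a a θ₁ θ₂ ha ha h1 h2).2.1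
    refine (mul_le_mul hB (hA2 i₀ hi₀) (prod_nonneg fun i _ => norm_nonneg _) (by positivity)).trans ?_
    have hR0 := Real.exp_pos (-(RR Rs i₀ : ℝ))
    have : C' * Real.exp (M * c + D * (c + 2)) ≤ (1 + C') * Real.exp (M * c + D * (c + 2)) := by nlinarith
    calc C' * Real.exp (-(RR Rs i₀ : ℝ)) * (Real.exp (M * c + D * (c + 2)) * Real.exp (s * VV I J))
        = Real.exp (-(RR Rs i₀ : ℝ)) * (C' * Real.exp (M * c + D * (c + 2)) * Real.exp (s * VV I J)) := by ring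
      _ ≤ _ := by gcongr
  · have hB := (H w κ κ (I i₀) (ν i₀) hκ0 hκ1 hκ0 hκ1 (hLW i₀ hi₀) (hv i₀ hi₀) (hu i₀ hi₀) (RR Rs i₀) (hRR i₀)
      a a θ₁ θ₂ ha ha h1 h2).2.2
    refine (mul_le_mul hB (hA2 i₀ hi₀) (prod_nonneg fun i _ => norm_nonneg _) (by positivity)).trans ?_
    have hR0 := Real.exp_pos (-(RR Rs i₀ : ℝ))
    have : C' * Real.exp (M * c + D * (c + 2)) ≤ (1 + C') * Real.exp (M * c + D * (c + 2)) := by nlinarith
    calc C' * Real.exp (-(RR Rs i₀ : ℝ)) * (Real.exp (M * c + D * (c + 2)) * Real.exp (s * VV I J))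
        = Real.exp (-(RR Rs i₀ : ℝ)) * (C' * Real.exp (M * c + D * (c + 2)) * Real.exp (s * VV I J)) := by ring
      _ ≤ _ := by gcongr

end Pool.Agent.TH370.LS_PRD
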