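import Pool.Agent.TH981.SD.Stm

/-!
# Basic lemmas for the SD jobs
-/

set_option autoImplicit false

open Pool.Agent.TH981.SD
open Finset Set Filter
open scoped BigOperators Topology Classical

namespace Pool.Agent.TH370.SDB

/-! ### the weights `lam` -/

lemma lam_one (α : ℝ) : lam α 1 = 1 := by simp [lam]

lemma lam_nonneg (α : ℝ) (d : ℕ) : 0 ≤ lam α d := Real.rpow_nonneg (Nat.cast_nonneg d) α

lemma lam_pos (α : ℝ) {d : ℕ} (hd : 1 ≤ d) : 0 < lam α d :=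
  Real.rpow_pos_of_pos (by exact_mod_cast hd) α

lemma lam_mono {α : ℝ} (h0 : 0 < α) {d e : ℕ} (h : d ≤ e) : lam α d ≤ lam α e :=
  Real.rpow_le_rpow (Nat.cast_nonneg d) (by exact_mod_cast h) h0.le

lemma one_le_lam {α : ℝ} (h0 : 0 < α) {d : ℕ} (hd : 1 ≤ d) : 1 ≤ lam α d := by
  have := lam_mono h0 hd
  rwa [lam_one] at this

lemma lam_le_self {α : ℝ} (h1 : α < 1) {d : ℕ} (hd : 1 ≤ d) : lam α d ≤ d := by
  have h : (1:ℝ) ≤ d := by exact_mod_cast hd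
  calc lam α d ≤ (d:ℝ) ^ (1:ℝ) := Real.rpow_le_rpow_of_exponent_le h h1.le
    _ = d := Real.rpow_one _

lemma two_rpow_lt {α : ℝ} (h1 : α < 1) : (2:ℝ) ^ α < 2 := by
  calc (2:ℝ) ^ α < (2:ℝ) ^ (1:ℝ) := Real.rpow_lt_rpow_of_exponent_lt (by norm_num) h1
    _ = 2 := Real.rpow_one _

lemma one_lt_two_rpow {α : ℝ} (h0 : 0 < α) : 1 < (2:ℝ) ^ α :=
  Real.one_lt_rpow (by norm_num) h0

lemma lam_two (α : ℝ) : lam α 2 = (2:ℝ) ^ α := by simp [lam]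

/-- doubling -/
lemma lam_double {α : ℝ} (h0 : 0 < α) (h1 : α < 1) {d e : ℕ} (h : e ≤ 2 * d) :
    lam α e ≤ 2 * lam α d := by
  calc lam α e ≤ lam α (2 * d) := lam_mono h0 h
    _ = (2:ℝ) ^ α * lam α d := by
      unfold lam
      push_cast
      rw [Real.mul_rpow (by norm_num) (Nat.cast_nonneg d)]
    _ ≤ 2 * lam α d := mul_le_mul_of_nonneg_right (two_rpow_lt h1).le (lam_nonneg _ _)

/-- increments are at most the first one -/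
lemma dl_le {α : ℝ} (h0 : 0 < α) (h1 : α < 1) {d : ℕ} (hd : 1 ≤ d) :
    lam α (d + 1) - lam α d ≤ (2:ℝ) ^ α - 1 := by
  have hx : (1:ℝ) ≤ d := by exact_mod_cast hd
  have hx0 : (0:ℝ) < d := by linarith
  have hc := Real.concaveOn_rpow h0.le h1.le
  have m1' : (1:ℝ) ∈ Set.Ici (0:ℝ) := Set.mem_Ici.mpr (by norm_num)
  have m2' : (d:ℝ) + 1 ∈ Set.Ici (0:ℝ) := Set.mem_Ici.mpr (by linarith)
  have e1 := hc.2 m1' m2' (div_nonneg (by linarith : (0:ℝ) ≤ (d:ℝ) - 1) hx0.le)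
    (div_nonneg (by norm_num : (0:ℝ) ≤ 1) hx0.le) (by field_simp; ring)
  have e2 := hc.2 m1' m2' (div_nonneg (by norm_num : (0:ℝ) ≤ 1) hx0.le)
    (div_nonneg (by linarith : (0:ℝ) ≤ (d:ℝ) - 1) hx0.le) (by field_simp; ring)
  simp only [smul_eq_mul, Real.one_rpow, mul_one] at e1 e2
  have f1 : ((d:ℝ) - 1) / d + 1 / d * ((d:ℝ) + 1) = 2 := by field_simp; ring
  have f2 : 1 / (d:ℝ) + ((d:ℝ) - 1) / d * ((d:ℝ) + 1) = d := by field_simp; ring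
  rw [f1] at e1
  rw [f2] at e2
  have f3 : ((d:ℝ) - 1) / d + 1 / d = 1 := by field_simp; ring
  have f4 : 1 / (d:ℝ) * ((d:ℝ) + 1) ^ α + ((d:ℝ) - 1) / d * ((d:ℝ) + 1) ^ α
      = ((d:ℝ) + 1) ^ α := by
    rw [← add_mul]
    have : 1 / (d:ℝ) + ((d:ℝ) - 1) / d = 1 := by field_simp; ring
    rw [this, one_mul]
  unfold lam
  push_cast
  linarith

lemma dl_nonneg {α : ℝ} (h0 : 0 < α) (d : ℕ) : 0 ≤ lam α (d + 1) - lam α d :=
  sub_nonneg.mpr (lam_mono h0 (Nat.le_succ d))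

/-! ### continuity and elementary bounds -/

lemma contY {α z : ℝ} {Y : ℕ → ℝ → ℝ} (hY : IsY α z Y) (d : ℕ) : ContinuousOn (Y d) (Set.Ici 0) :=
  fun t ht => (hY.deriv d t ht).continuousWithinAt

lemma contV {α K : ℝ} {Y V : ℕ → ℝ → ℝ} (hV : IsV α Y K V) (d : ℕ) :
    ContinuousOn (V d) (Set.Ici 0) :=
  fun t ht => (hV.deriv d t ht).continuousWithinAt

lemma contm {α z : ℝ} {Y : ℕ → ℝ → ℝ} (hY : IsY α z Y) : ContinuousOn (m1 Y) (Set.Ici 0) :=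
  (contY hY 1).mul (continuousOn_const.sub (contY hY 2))

lemma contc {α z : ℝ} {Y : ℕ → ℝ → ℝ} (hY : IsY α z Y) (K : ℝ) :
    ContinuousOn (cc Y K) (Set.Ici 0) :=
  (contY hY 1).add (continuousOn_const.mul (contm hY))

lemma m1_nonneg {α z : ℝ} {Y : ℕ → ℝ → ℝ} (hz : z < 1) (hY : IsY α z Y) {t : ℝ} (ht : 0 ≤ t) :
    0 ≤ m1 Y t :=
  mul_nonneg (hY.pos 1 t ht).le (by have := hY.le 2 t ht; linarith)

lemma m1_le_one {α z : ℝ} {Y : ℕ → ℝ → ℝ} (hz : z < 1) (hY : IsY α z Y) {t : ℝ} (ht : 0 ≤ t) :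
    m1 Y t ≤ 1 := by
  have h1 := hY.pos 1 t ht
  have h2 := hY.le 1 t ht
  have h3 := hY.pos 2 t ht
  unfold m1
  nlinarith [hY.le 2 t ht]

lemma cc_nonneg {α z : ℝ} {Y : ℕ → ℝ → ℝ} (hz : z < 1) (hY : IsY α z Y) {K : ℝ} (hK : 0 ≤ K)
    {t : ℝ} (ht : 0 ≤ t) : 0 ≤ cc Y K t :=
  add_nonneg (hY.pos 1 t ht).le (mul_nonneg hK (m1_nonneg hz hY ht))

lemma cc_le {α z : ℝ} {Y : ℕ → ℝ → ℝ} (hz : z < 1) (hY : IsY α z Y) {K : ℝ} (hK : 0 ≤ K)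
    {t : ℝ} (ht : 0 ≤ t) : cc Y K t ≤ 1 + K := by
  have h1 := hY.le 1 t ht
  have h2 := mul_le_mul_of_nonneg_left (m1_le_one hz hY ht) hK
  unfold cc
  linarith

lemma bet_nonneg {α : ℝ} (h0 : 0 < α) (h1 : α < 1) : 0 ≤ bet α :=
  div_nonneg (by have := one_lt_two_rpow h0; linarith) (by have := two_rpow_lt h1; linarith)

/-- pulled back derivative -/
lemma derV {α K : ℝ} {Y V : ℕ → ℝ → ℝ} (hV : IsV α Y K V) (d : ℕ) {t : ℝ} (ht : 0 ≤ t) :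
    HasDerivWithinAt (V d) (lam α d * (cc Y K t * V (d + 1) t - V d t)) (Set.Ici t) t :=
  (hV.deriv d t ht).mono (Set.Ici_subset_Ici.mpr ht)

/-- the basic differential identity for `W = R V_d - V_{d+1}` -/
lemma basic_id (l0 l1 c R0 R1 R0' v0 v1 v2 : ℝ) :
    R0' * v0 + R0 * (l0 * (c * v1 - v0)) - l1 * (c * v2 - v1) =
      l1 * c * (R1 * v1 - v2) - (l1 + c * (l0 * R0 - l1 * R1)) * (R0 * v0 - v1) +
        v0 * (R0' + R0 * ((l1 - l0) + c * (l0 * R0 - l1 * R1))) := by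
  ring

end Pool.Agent.TH370.SDB
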