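import Pool.Agent.TH370.SDBase

/-!
# SD/RATIO: auxiliary estimates
-/

set_option autoImplicit false

open Pool.Agent.TH981.SD Pool.Agent.TH370.SDB
open Finset Set Filter
open scoped BigOperators Topology Classical

namespace Pool.Agent.TH370.J2239

/-- the size of a term of the series with large index -/
lemma tail_bound {α : ℝ} (h0 : 0 < α) (h1 : α < 1) {d n : ℕ} (hn : 1 ≤ n) (hd : d ≤ n) {I : ℝ}
    (hI : 0 ≤ I) {Vn : ℝ} (hV0 : 0 ≤ Vn) (hV : Vn ≤ 2 ^ (d + n)) :
    (∏ i ∈ Finset.range n, lam α (d + i)) * I ^ n / (n.factorial : ℝ) * Vn ≤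
      (8 * Real.exp 1 * I * (n : ℝ) ^ (α - 1)) ^ n := by
  have hn0 : (0:ℝ) < n := by exact_mod_cast hn
  have e1 : ∏ i ∈ Finset.range n, lam α (d + i) ≤ (2 * (n:ℝ) ^ α) ^ n := by
    calc ∏ i ∈ Finset.range n, lam α (d + i) ≤ ∏ _i ∈ Finset.range n, (2 * (n:ℝ) ^ α) := by
          apply Finset.prod_le_prod
          · intro i _; exact lam_nonneg _ _
          · intro i hi
            exact lam_double h0 h1 (by have := Finset.mem_range.mp hi; omega)
      _ = (2 * (n:ℝ) ^ α) ^ n := by rw [Finset.prod_const, Finset.card_range]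
  have e2 : (n:ℝ) ^ n / (n.factorial : ℝ) ≤ Real.exp 1 ^ n := by
    have := Real.pow_div_factorial_le_exp (n:ℝ) hn0.le n
    rwa [← Real.exp_one_pow] at this
  have e3 : (2:ℝ) ^ (d + n) ≤ 4 ^ n := by
    calc (2:ℝ) ^ (d + n) ≤ 2 ^ (n + n) := pow_le_pow_right₀ (by norm_num) (by omega)
      _ = 4 ^ n := by rw [pow_add, ← mul_pow]; norm_num
  have hf : (0:ℝ) < (n.factorial : ℝ) := by exact_mod_cast n.factorial_pos
  have e4 : 1 / (n.factorial : ℝ) ≤ (Real.exp 1 / n) ^ n := by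
    rw [div_pow, le_div_iff₀ (by positivity)]
    calc 1 / (n.factorial : ℝ) * (n:ℝ) ^ n = (n:ℝ) ^ n / (n.factorial : ℝ) := by ring
      _ ≤ _ := e2
  have hp0 : 0 ≤ ∏ i ∈ Finset.range n, lam α (d + i) :=
    Finset.prod_nonneg fun i _ => lam_nonneg _ _
  have hnα : (0:ℝ) ≤ (n:ℝ) ^ α := Real.rpow_nonneg hn0.le _
  calc (∏ i ∈ Finset.range n, lam α (d + i)) * I ^ n / (n.factorial : ℝ) * Vn
      = (∏ i ∈ Finset.range n, lam α (d + i)) * I ^ n * (1 / (n.factorial : ℝ)) * Vn := by ring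
    _ ≤ (2 * (n:ℝ) ^ α) ^ n * I ^ n * (Real.exp 1 / n) ^ n * 4 ^ n := by
        apply mul_le_mul _ (hV.trans e3) hV0 (by positivity)
        apply mul_le_mul _ e4 (by positivity) (by positivity)
        exact mul_le_mul_of_nonneg_right e1 (pow_nonneg hI n)
    _ = (8 * Real.exp 1 * I * ((n : ℝ) ^ α / n)) ^ n := by
        rw [← mul_pow, ← mul_pow, ← mul_pow]
        congr 1
        ring
    _ = _ := by rw [Real.rpow_sub_one hn0.ne']

lemma exp_three_le : Real.exp 3 ≤ 21 := by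
  have h1 : Real.exp 3 = Real.exp 1 ^ 3 := by
    rw [← Real.exp_nat_mul]; norm_num
  rw [h1]
  have h2 := Real.exp_one_lt_d9
  have h3 := Real.exp_pos 1
  calc Real.exp 1 ^ 3 ≤ (2.72:ℝ) ^ 3 := pow_le_pow_left₀ h3.le (by linarith) 3
    _ ≤ 21 := by norm_num

lemma exp_neg_one_le : Real.exp (-1) ≤ 1 / 2 := by
  rw [Real.exp_neg, inv_le_comm₀ (Real.exp_pos 1) (by norm_num)]
  have := Real.exp_one_gt_d9
  norm_num at this ⊢
  linarith

/-- every term of the series -/
lemma term_bound {α : ℝ} (h0 : 0 < α) (h1 : α < 1) {d n : ℕ} (hd : 1 ≤ d) {I v Vn E ns : ℝ}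
    (hI : 0 ≤ I) (hV0 : 0 ≤ Vn) (hV : Vn ≤ 2 ^ (d + n)) (hv0 : 0 ≤ v)
    (hv : v ≤ (∏ i ∈ Finset.range n, lam α (d + i)) * I ^ n / (n.factorial : ℝ) * Vn)
    (hns : (d:ℝ) ≤ ns) (hE : ns ^ α ≤ lam α d + E)
    (hq : ns ^ (α - 1) * (8 * Real.exp 1 * I) ≤ Real.exp (-3)) :
    lam α (d + n) * v ≤ (2 * lam α d + E) * v + 2 * Real.exp (-ns) * (1 / 2) ^ n := by
  have hd1 : (1:ℝ) ≤ d := by exact_mod_cast hd
  rcases le_or_gt (n:ℝ) ns with h | h
  · have e1 : lam α (d + n) ≤ lam α d + (n:ℝ) ^ α := by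
      unfold lam
      push_cast
      exact Real.rpow_add_le_add_rpow (Nat.cast_nonneg d) (Nat.cast_nonneg n) h0.le h1.le
    have e2 : (n:ℝ) ^ α ≤ ns ^ α := Real.rpow_le_rpow (Nat.cast_nonneg n) h h0.le
    have e3 : lam α (d + n) * v ≤ (2 * lam α d + E) * v :=
      mul_le_mul_of_nonneg_right (by linarith) hv0
    have e4 : 0 ≤ 2 * Real.exp (-ns) * (1 / 2) ^ n := by positivity
    linarith
  · have hdn : (d:ℝ) < n := lt_of_le_of_lt hns h
    have hdn' : d ≤ n := by
      have : d < n := by exact_mod_cast hdn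
      omega
    have hn1 : 1 ≤ n := hd.trans hdn'
    have hn0 : (0:ℝ) < n := by exact_mod_cast hn1
    have hns0 : 0 < ns := by linarith
    have e1 := tail_bound h0 h1 hn1 hdn' hI hV0 hV
    have e2 : (n:ℝ) ^ (α - 1) ≤ ns ^ (α - 1) :=
      Real.rpow_le_rpow_of_nonpos hns0 h.le (by linarith)
    have e3 : 8 * Real.exp 1 * I * (n:ℝ) ^ (α - 1) ≤ Real.exp (-3) := by
      have : 8 * Real.exp 1 * I * (n:ℝ) ^ (α - 1) ≤ 8 * Real.exp 1 * I * ns ^ (α - 1) :=
        mul_le_mul_of_nonneg_left e2 (by positivity)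
      linarith
    have e4 : v ≤ Real.exp (-3) ^ n := by
      refine (hv.trans e1).trans (pow_le_pow_left₀ ?_ e3 n)
      have : 0 ≤ (n:ℝ) ^ (α - 1) := Real.rpow_nonneg hn0.le _
      positivity
    have e5 : lam α (d + n) ≤ 2 * n := by
      have a1 := lam_le_self h1 (d := d + n) (by omega)
      push_cast at a1
      linarith
    have e6 : (n:ℝ) ≤ Real.exp n := by
      have := Real.add_one_le_exp (n:ℝ)
      linarith
    have hE0 : 0 ≤ 2 * lam α d + E := by
      have : 0 ≤ ns ^ α := Real.rpow_nonneg hns0.le _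
      have := lam_nonneg α d
      linarith
    have e7 : lam α (d + n) * v ≤ 2 * Real.exp (-ns) * (1 / 2) ^ n := by
      calc lam α (d + n) * v ≤ (2 * Real.exp n) * Real.exp (-3) ^ n :=
            mul_le_mul (e5.trans (by linarith)) e4 hv0 (by positivity)
        _ = 2 * Real.exp (-n) * Real.exp (-n) := by
            rw [← Real.exp_nat_mul, mul_assoc, ← Real.exp_add, mul_assoc, ← Real.exp_add]
            congr 1
            ring_nf
        _ ≤ 2 * Real.exp (-ns) * (1 / 2) ^ n := by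
            apply mul_le_mul
            · have : Real.exp (-n) ≤ Real.exp (-ns) := Real.exp_le_exp.mpr (by linarith)
              linarith
            · have : Real.exp (-(n:ℝ)) = Real.exp (-1) ^ n := by
                rw [← Real.exp_nat_mul]; ring_nf
              rw [this]
              exact pow_le_pow_left₀ (Real.exp_pos _).le exp_neg_one_le n
            · positivity
            · positivity
    have e8 : 0 ≤ (2 * lam α d + E) * v := mul_nonneg hE0 hv0
    linarith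

/-- the constants: `K` large -/
lemma consts (e C : ℝ) (A : ℝ) (he : 0 < e) :
    ∃ K0 : ℝ, 4 ≤ K0 ∧ ∀ K, K0 ≤ K → 4 ≤ K ^ e ∧ 700 * (A * Real.log K + C) ≤ K ^ e := by
  have t1 : ∀ᶠ K : ℝ in atTop, 4 ≤ K ^ e := (tendsto_rpow_atTop he).eventually_ge_atTop 4
  have t2 : ∀ᶠ K : ℝ in atTop, 1400 * |C| ≤ K ^ e := (tendsto_rpow_atTop he).eventually_ge_atTop _
  have hδ : 0 < 1 / (1400 * (|A| + 1)) := by positivity
  have t3 := (isLittleO_log_rpow_atTop he).def hδ
  have t4 := t1.and (t2.and (t3.and (eventually_ge_atTop (4:ℝ))))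
  obtain ⟨K1, hK1⟩ := eventually_atTop.mp t4
  refine ⟨max 4 K1, le_max_left _ _, fun K hK => ?_⟩
  obtain ⟨a1, a2, a3, a4⟩ := hK1 K ((le_max_right _ _).trans hK)
  refine ⟨a1, ?_⟩
  have hl : 0 ≤ Real.log K := Real.log_nonneg (by linarith)
  rw [Real.norm_of_nonneg hl, Real.norm_of_nonneg (by linarith)] at a3
  have b1 : A * Real.log K ≤ (|A| + 1) * Real.log K :=
    mul_le_mul_of_nonneg_right (by have := le_abs_self A; linarith) hl
  have b2 : (|A| + 1) * Real.log K ≤ K ^ e / 1400 := by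
    calc (|A| + 1) * Real.log K ≤ (|A| + 1) * (1 / (1400 * (|A| + 1)) * K ^ e) :=
          mul_le_mul_of_nonneg_left a3 (by positivity)
      _ = K ^ e / 1400 := by field_simp
  have b3 := le_abs_self C
  linarith

end Pool.Agent.TH370.J2239
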